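import Pool.Agent.SSH.Stmts

/-! # MP_018a5e_co : module ACR (the run of the automaton in a square-free word) -/

set_option autoImplicit false
set_option maxRecDepth 100000
set_option exponentiation.threshold 1000000

namespace Pool.Agent.SSH

namespace ACR_

theorem allN_sound (P : ℕ → Bool) (n : ℕ) (h : allN P n = true) : ∀ m, m < n → P m = true := by
  induction n with
  | zero => intro m hm; omega
  | succ n ih =>
    intro m hm
    have h' : (P n && allN P n) = true := h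
    rw [Bool.and_eq_true] at h'
    rcases Nat.lt_succ_iff_lt_or_eq.mp hm with h1 | h1
    · exact ih h'.2 m h1
    · rw [h1]; exact h'.1

theorem base : (rk 0 < 511 ∧ wl 0 = 0) ∧ wc 0 = 0 := by
  decide +kernel

theorem acc (hK : Stmt_KAC) (s c : ℕ) (hs : s < 850) (hr : rk s < 511) (hc : c < 3) : acC s c = true := by
  have h := allN_sound _ _ hK s hs
  simp only [Bool.or_eq_true, Bool.and_eq_true] at h
  rcases h with h | ⟨h0, h1, h2⟩
  · have := Nat.eq_of_beq_eq_true h
    omega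
  · have hc' : c = 0 ∨ c = 1 ∨ c = 2 := by omega
    rcases hc' with hc' | hc' | hc' <;> subst hc' <;> assumption

theorem acC_cases (s c : ℕ) (h : acC s c = true) :
    (go s c = 1023 ∧ 0 < sqt s c ∧ 2 * sqt s c ≤ wl s + 1 ∧
      (4 * wc s + c) % 4 ^ sqt s c = (4 * wc s + c) / 4 ^ sqt s c % 4 ^ sqt s c) ∨
    (go s c < 850 ∧ rk (go s c) < 511 ∧ wl (go s c) ≤ wl s + 1 ∧
      wc (go s c) = (4 * wc s + c) % 4 ^ wl (go s c) ∧ phi s + e12 c ≤ phi (go s c) + 12) := by
  unfold acC at h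
  cases hb : Nat.beq (go s c) 1023 with
  | true =>
    rw [hb] at h
    left
    simp only [cond_true, Bool.and_eq_true] at h
    obtain ⟨h1, h2, h3⟩ := h
    refine ⟨Nat.eq_of_beq_eq_true hb, ?_, Nat.le_of_ble_eq_true h2, Nat.eq_of_beq_eq_true h3⟩
    exact Nat.le_of_ble_eq_true h1
  | false =>
    rw [hb] at h
    right
    simp only [cond_false, Bool.and_eq_true] at h
    obtain ⟨h1, h2, h3, h4, h5⟩ := h
    exact ⟨Nat.le_of_ble_eq_true h1, Nat.le_of_ble_eq_true h2, Nat.le_of_ble_eq_true h3,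
      Nat.eq_of_beq_eq_true h4, Nat.le_of_ble_eq_true h5⟩

/-- the invariant -/
def Inv (w : ℕ → ℕ) (n : ℕ) : Prop := run w n < 850 ∧ rk (run w n) < 511 ∧ wl (run w n) ≤ n ∧
  cd w (n - wl (run w n)) (wl (run w n)) = wc (run w n)

theorem step (hC : Stmt_CDL) (hK : Stmt_KAC) (w : ℕ → ℕ) (hs : SqF w) (hT : Ter w) (n : ℕ) (h : Inv w n) :
    Inv w (n + 1) ∧ go (run w n) (w n) < 850 ∧
    phi (run w n) + e12 (w n) ≤ phi (run w (n + 1)) + 12 := by
  obtain ⟨h1, h2, h3, h4⟩ := h
  obtain ⟨c1, c2, c3, c4⟩ := hC w hT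
  have ha := acc hK (run w n) (w n) h1 h2 (hT n)
  have hcode : cd w (n - wl (run w n)) (wl (run w n) + 1) = 4 * wc (run w n) + w n := by
    have : cd w (n - wl (run w n)) (wl (run w n) + 1) = 4 * cd w (n - wl (run w n)) (wl (run w n)) +
      w ((n - wl (run w n)) + wl (run w n)) := rfl
    rw [this, h4]
    congr 2
    omega
  have hrun : run w (n + 1) = go (run w n) (w n) := rfl
  rcases acC_cases _ _ ha with ⟨_, b2, b3, b4⟩ | ⟨b1, b2, b3, b4, b5⟩
  · exfalso
    exact c4 hs (n - wl (run w n)) (wl (run w n) + 1) (sqt (run w n) (w n)) b2 b3 (by rw [hcode]; exact b4)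
  · refine ⟨⟨?_, ?_, ?_, ?_⟩, b1, ?_⟩
    · rw [hrun]; exact b1
    · rw [hrun]; exact b2
    · rw [hrun]; omega
    · rw [hrun, b4, ← hcode]
      generalize wl (go (run w n) (w n)) = l' at *
      generalize wl (run w n) = l at *
      have e := c1 (n - l) (l + 1 - l') l'
      rw [show l + 1 - l' + l' = l + 1 by omega] at e
      have e2 : (cd w (n - l) (l + 1 - l') * 4 ^ l' + cd w (n - l + (l + 1 - l')) l') % 4 ^ l' =
          cd w (n - l + (l + 1 - l')) l' := by
        rw [Nat.add_comm, Nat.add_mul_mod_self_right, Nat.mod_eq_of_lt (c2 _ _)]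
      rw [e, e2]
      congr 1
      omega
    · rw [hrun]; exact b5

theorem inv (hC : Stmt_CDL) (hK : Stmt_KAC) (w : ℕ → ℕ) (hs : SqF w) (hT : Ter w) (n : ℕ) : Inv w n := by
  induction n with
  | zero =>
    obtain ⟨⟨h1, h2⟩, h3⟩ := base
    have hr : run w 0 = 0 := rfl
    refine ⟨by rw [hr]; omega, by rw [hr]; exact h1, by rw [hr, h2], ?_⟩
    rw [hr, h2, h3]
    rfl
  | succ n ih => exact (step hC hK w hs hT n ih).1

end ACR_

theorem acr_proof (hC : Stmt_CDL) (hK : Stmt_KAC) : Stmt_ACR := by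
  intro w hs hT n
  have h := ACR_.inv hC hK w hs hT n
  have h' := ACR_.step hC hK w hs hT n h
  exact ⟨h.1, h.2.1, h'.2.1, h'.2.2, h.2.2.1, h.2.2.2⟩

end Pool.Agent.SSH
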