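import Pool.Agent.SSH.Stmts

/-!
# Self-shuffles (MP_018a5e_co): module BAD
-/

set_option autoImplicit false
set_option maxRecDepth 100000
set_option exponentiation.threshold 1000000

namespace Pool.Agent.SSH

namespace BAD_

theorem allN_imp (P : ℕ → Bool) : ∀ n, allN P n = true → ∀ m, m < n → P m = true
  | 0, _, m, hm => absurd hm (Nat.not_lt_zero m)
  | n + 1, h, m, hm => by
    rw [allN, Bool.and_eq_true] at h
    rcases Nat.lt_succ_iff_lt_or_eq.mp hm with h1 | h1
    · exact allN_imp P n h.2 m h1
    · rw [h1]; exact h.1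

theorem patL_bit (c x : ℕ) : ∀ n acc, (patL 1 c n acc).testBit x = true ↔
    (acc.testBit x = true ∨ (x < n ∧ lab x = c))
  | 0, acc => by simp [patL]
  | n + 1, acc => by
    rw [patL, force_eq, patL_bit c x n]
    by_cases hc : lab n = c
    · have : Nat.beq (lab n) c = true := by rw [Nat.beq_eq]; exact hc
      rw [this, cond_true, Nat.testBit_or, Bool.or_eq_true]
      have h2 : (1 <<< (1 * n)).testBit x = true ↔ x = n := by
        rw [one_mul, Nat.one_shiftLeft, Nat.testBit_two_pow]
        simp [eq_comm]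
      rw [h2]
      constructor
      · rintro ((h | h) | h)
        · exact Or.inl h
        · exact Or.inr ⟨by omega, by rw [h]; exact hc⟩
        · exact Or.inr ⟨by omega, h.2⟩
      · rintro (h | ⟨h, h'⟩)
        · exact Or.inl (Or.inl h)
        · rcases Nat.lt_succ_iff_lt_or_eq.mp h with h3 | h3
          · exact Or.inr ⟨h3, h'⟩
          · exact Or.inl (Or.inr h3)
    · have : Nat.beq (lab n) c = false := by
        rw [Bool.eq_false_iff, ne_eq, Nat.beq_eq]; exact hc
      rw [this, cond_false, Nat.or_zero]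
      constructor
      · rintro (h | h)
        · exact Or.inl h
        · exact Or.inr ⟨by omega, h.2⟩
      · rintro (h | ⟨h, h'⟩)
        · exact Or.inl h
        · rcases Nat.lt_succ_iff_lt_or_eq.mp h with h3 | h3
          · exact Or.inr ⟨h3, h'⟩
          · exact absurd (h3 ▸ h') hc

theorem ner_all : allN (fun x => isEnd x || Nat.testBit NER x) 828 = true := by decide +kernel

theorem ner_bit (x : ℕ) (hx : x < 828) (he : isEnd x = false) : NER.testBit x = true := by
  have h := allN_imp _ _ ner_all x hx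
  rw [he, Bool.false_or] at h
  exact h

theorem row_bit (x : ℕ) (hx : x < 828) : ROWM.testBit x = true := by
  rw [ROWM, Nat.testBit_two_pow_sub_one]
  simpa using hx

theorem tw_bit (F x x' : ℕ) (hx : x < 828) (hF : F.testBit x = true) (hn : nxt x x' = true) :
    (Tw NER 1 F).testBit x' = true := by
  unfold Tw
  simp only [Nat.testBit_or, Bool.or_eq_true]
  unfold nxt at hn
  by_cases h1 : x = 169
  · subst h1
    rw [show Nat.beq 169 169 = true from rfl, cond_true, Bool.or_eq_true, Nat.beq_eq, Nat.beq_eq] at hn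
    rcases hn with h | h
    · subst h
      right; left
      rw [Nat.testBit_shiftLeft, Nat.testBit_and, Nat.testBit_or, Nat.testBit_shiftRight]
      simp [hF]
    · subst h
      right; right; left
      rw [Nat.testBit_shiftLeft, Nat.testBit_and, Nat.testBit_shiftRight]
      simp [hF]
  have e1 : Nat.beq x 169 = false := by rw [Bool.eq_false_iff, ne_eq, Nat.beq_eq]; exact h1
  rw [e1, cond_false] at hn
  by_cases h2 : x = 295
  · subst h2
    rw [show Nat.beq 295 295 = true from rfl, cond_true, Nat.beq_eq] at hn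
    subst hn
    right; left
    rw [Nat.testBit_shiftLeft, Nat.testBit_and, Nat.testBit_or, Nat.testBit_shiftRight, Nat.testBit_shiftRight]
    simp [hF]
  have e2 : Nat.beq x 295 = false := by rw [Bool.eq_false_iff, ne_eq, Nat.beq_eq]; exact h2
  rw [e2, cond_false] at hn
  by_cases h3 : x = 421
  · subst h3
    rw [show Nat.beq 421 421 = true from rfl, cond_true, Nat.beq_eq] at hn
    subst hn
    right; right; right; left
    rw [Nat.testBit_and, Nat.testBit_or, Nat.testBit_shiftRight, Nat.testBit_shiftRight]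
    simp [hF]
  have e3 : Nat.beq x 421 = false := by rw [Bool.eq_false_iff, ne_eq, Nat.beq_eq]; exact h3
  rw [e3, cond_false] at hn
  by_cases h4 : x = 827
  · subst h4
    rw [show Nat.beq 827 827 = true from rfl, cond_true, Bool.or_eq_true, Nat.beq_eq, Nat.beq_eq] at hn
    rcases hn with h | h
    · subst h
      right; right; right; left
      rw [Nat.testBit_and, Nat.testBit_or, Nat.testBit_shiftRight, Nat.testBit_shiftRight]
      simp [hF]
    · subst h
      right; right; right; right
      rw [Nat.testBit_shiftLeft, Nat.testBit_and, Nat.testBit_shiftRight]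
      simp [hF]
  have e4 : Nat.beq x 827 = false := by rw [Bool.eq_false_iff, ne_eq, Nat.beq_eq]; exact h4
  rw [e4, cond_false, Nat.beq_eq] at hn
  subst hn
  left
  rw [Nat.testBit_shiftLeft, Nat.testBit_and, show x + 1 - 1 = x from rfl, hF,
    ner_bit x hx (by unfold isEnd; rw [e1, e2, e3, e4]; rfl)]
  simp

theorem succ_ex (v : ℕ) (hv : v < 828) : ∃ t, nxt v t = true := by
  unfold nxt
  by_cases h1 : v = 169
  · subst h1; exact ⟨422, rfl⟩
  by_cases h2 : v = 295
  · subst h2; exact ⟨422, rfl⟩
  by_cases h3 : v = 421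
  · subst h3; exact ⟨0, rfl⟩
  by_cases h4 : v = 827
  · subst h4; exact ⟨0, rfl⟩
  refine ⟨v + 1, ?_⟩
  have e1 : Nat.beq v 169 = false := by rw [Bool.eq_false_iff, ne_eq, Nat.beq_eq]; exact h1
  have e2 : Nat.beq v 295 = false := by rw [Bool.eq_false_iff, ne_eq, Nat.beq_eq]; exact h2
  have e3 : Nat.beq v 421 = false := by rw [Bool.eq_false_iff, ne_eq, Nat.beq_eq]; exact h3
  have e4 : Nat.beq v 827 = false := by rw [Bool.eq_false_iff, ne_eq, Nat.beq_eq]; exact h4
  rw [e1, e2, e3, e4, cond_false, cond_false, cond_false, cond_false, Nat.beq_eq]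

/-- soundness of `rdRun` -/
theorem rd_sound (hl : ∀ s, s < 828 → lab s < 3) (p q : ℕ) : ∀ (K code R0 R1 : ℕ) (g : ℕ → ℕ) (fl : ℕ → Bool),
    rdRun (patL 1 0 828 0) (patL 1 1 828 0) (patL 1 2 828 0) p q K code R0 R1 = true →
    (∀ k, k < K → g k < 828 ∧ lab (g k) = code / 4 ^ k % 4) →
    (∀ k, k < K → ((fl (k + 1) = fl k ∧ nxt (g k) (g (k + 1)) = true) ∨
      (fl k = false ∧ fl (k + 1) = true ∧ g k = p ∧ g (k + 1) = q))) →
    (fl 0 = false → R0.testBit (g 0) = true) → (fl 0 = true → R1.testBit (g 0) = true) → False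
  | 0, code, R0, R1, g, fl, h, _, _, h0, h1 => by
    rw [rdRun, Bool.and_eq_true, Nat.beq_eq, Nat.beq_eq] at h
    rcases hfl : fl 0 with _ | _
    · have := h0 hfl; rw [h.1, Nat.zero_testBit] at this; exact absurd this (by decide)
    · have := h1 hfl; rw [h.2, Nat.zero_testBit] at this; exact absurd this (by decide)
  | K + 1, code, R0, R1, g, fl, h, hg, hs, h0, h1 => by
    rw [rdRun, force_eq, force_eq, force_eq] at h
    obtain ⟨hg0, hlab0⟩ := hg 0 (Nat.succ_pos K)
    rw [pow_zero, Nat.div_one] at hlab0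
    set m : ℕ := (bif Nat.beq (code % 4) 0 then patL 1 0 828 0 else bif Nat.beq (code % 4) 1 then patL 1 1 828 0
      else patL 1 2 828 0) with hm
    have hm' : m.testBit (g 0) = true := by
      have hl3 := hl (g 0) hg0
      rw [hm, ← hlab0]
      have hcase : lab (g 0) = 0 ∨ lab (g 0) = 1 ∨ lab (g 0) = 2 := by omega
      rcases hcase with hc | hc | hc <;> rw [hc]
      · exact (patL_bit 0 (g 0) 828 0).2 (Or.inr ⟨hg0, hc⟩)
      · exact (patL_bit 1 (g 0) 828 0).2 (Or.inr ⟨hg0, hc⟩)
      · exact (patL_bit 2 (g 0) 828 0).2 (Or.inr ⟨hg0, hc⟩)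
    refine rd_sound hl p q K (code / 4) _ _ (fun k => g (k + 1)) (fun k => fl (k + 1)) h ?_ ?_ ?_ ?_
    · intro k hk
      obtain ⟨ha, hb⟩ := hg (k + 1) (by omega)
      refine ⟨ha, ?_⟩
      show lab (g (k + 1)) = _
      rw [hb, Nat.div_div_eq_div_mul, pow_succ, mul_comm]
    · intro k hk
      exact hs (k + 1) (by omega)
    · intro hfl
      rcases hs 0 (Nat.succ_pos K) with ⟨ha, hb⟩ | ⟨ha, hb, _, _⟩
      · have hf0 : fl 0 = false := by rw [← ha]; exact hfl
        refine tw_bit _ (g 0) _ hg0 ?_ hb
        rw [Nat.testBit_and, h0 hf0, hm']; rfl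
      · have : fl (0 + 1) = false := hfl
        rw [hb] at this
        exact absurd this (by decide)
    · intro hfl
      rw [Nat.testBit_or, Bool.or_eq_true]
      rcases hs 0 (Nat.succ_pos K) with ⟨ha, hb⟩ | ⟨ha, hb, hc, hd⟩
      · left
        have hf0 : fl 0 = true := by rw [← ha]; exact hfl
        refine tw_bit _ (g 0) _ hg0 ?_ hb
        rw [Nat.testBit_and, h1 hf0, hm']; rfl
      · right
        have e1 : Nat.beq (lab p) (code % 4) = true := by rw [Nat.beq_eq, ← hc]; exact hlab0
        have e2 : Nat.testBit R0 p = true := by rw [← hc]; exact h0 ha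
        rw [e1, e2]
        show (1 <<< q).testBit (g (0 + 1)) = true
        rw [hd, Nat.one_shiftLeft, Nat.testBit_two_pow_self]

end BAD_

open BAD_ in
theorem bad_proof (hWIN : Stmt_WIN) (hPOT : Stmt_POT) (hKBD : Stmt_KBD) (hGRO : Stmt_GRO) : Stmt_BAD := by
  intro i e g he hg hor
  have hl : ∀ s, s < 828 → lab s < 3 := fun s hs => (hPOT.2.1 s hs).1
  have hss : 500 ≤ ss i := by
    obtain ⟨_, _, _, _, _, _, _, _, h1, h2⟩ := hGRO i
    omega
  unfold Stmt_KBD withR at hKBD
  rw [force_eq, force_eq, force_eq, Bool.and_eq_true, Bool.and_eq_true, Bool.and_eq_true] at hKBD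
  obtain ⟨k1, k2, k3, k4⟩ := hKBD
  obtain ⟨hw, _⟩ := hWIN i
  -- the shift
  obtain ⟨o, ho, hoe⟩ : ∃ o, (o = 499 ∨ o = 449) ∧ ss i - e = ss i - 500 + o := by
    rcases he with rfl | rfl
    · exact ⟨499, Or.inl rfl, by omega⟩
    · exact ⟨449, Or.inr rfl, by omega⟩
  set W : ℕ := if i % 2 = 0 then WINE else WINO with hW
  have hdig : ∀ k, k < 55 → g k < 828 ∧ lab (g k) = (W >>> (2 * o)) / 4 ^ k % 4 := by
    intro k hk
    obtain ⟨ha, hb⟩ := hg k hk
    refine ⟨ha, ?_⟩
    rw [hb, hoe, add_assoc, hw (o + k) (by omega), Nat.shiftRight_eq_div_pow, pow_mul, Nat.div_div_eq_div_mul,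
      show (2 : ℕ) ^ 2 = 4 by norm_num, ← pow_add]
  set P : ℕ := 421 + cL (i + 1) with hP
  set Q : ℕ := 422 + cR (i + 1) with hQ
  have hrun : rdRun (patL 1 0 828 0) (patL 1 1 828 0) (patL 1 2 828 0) P Q 55 (W >>> (2 * o)) ROWM 0 = true := by
    rcases Nat.mod_two_eq_zero_or_one i with h2 | h2
    · have eW : W = WINE := by rw [hW, if_pos h2]
      have eP : P = 790 := by rw [hP, cL, if_neg (by omega)]
      have eQ : Q = 803 := by rw [hQ, cR, cL, if_neg (by omega)]
      rw [eW, eP, eQ]
      rcases ho with rfl | rfl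
      · exact k1
      · exact k2
    · have eW : W = WINO := by rw [hW, if_neg (by omega)]
      have eP : P = 460 := by rw [hP, cL, if_pos (by omega)]
      have eQ : Q = 473 := by rw [hQ, cR, cL, if_pos (by omega)]
      rw [eW, eP, eQ]
      rcases ho with rfl | rfl
      · exact k3
      · exact k4
  obtain ⟨t, ht⟩ := succ_ex (g 54) (hg 54 (by omega)).1
  set g' : ℕ → ℕ := fun k => if k = 55 then t else g k with hg'
  have eg : ∀ k, k < 55 → g' k = g k := fun k hk => by rw [hg']; exact if_neg (by omega)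
  have eg55 : g' 55 = t := by rw [hg']; exact if_pos rfl
  have hdig' : ∀ k, k < 55 → g' k < 828 ∧ lab (g' k) = (W >>> (2 * o)) / 4 ^ k % 4 := by
    intro k hk
    rw [eg k hk]
    exact hdig k hk
  rcases hor with hn | ⟨m, hm, hm1, hm2, hn⟩
  · refine rd_sound hl P Q 55 _ _ _ g' (fun _ => false) hrun hdig' ?_ ?_ ?_
    · intro k hk
      left
      refine ⟨rfl, ?_⟩
      rw [eg k hk]
      rcases Nat.lt_or_ge k 54 with h | h
      · rw [eg (k + 1) (by omega)]
        exact hn k h
      · have : k = 54 := by omega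
        subst this
        rw [eg55]
        exact ht
    · intro _
      rw [eg 0 (by omega)]
      exact row_bit _ (hg 0 (by omega)).1
    · intro h
      exact absurd h (by decide)
  · refine rd_sound hl P Q 55 _ _ _ g' (fun k => decide (m < k)) hrun hdig' ?_ ?_ ?_
    · intro k hk
      by_cases hkm : k = m
      · right
        subst hkm
        refine ⟨by simp, by simp, ?_, ?_⟩
        · rw [eg k hk]; exact hm1
        · rw [eg (k + 1) (by omega)]; exact hm2
      · left
        refine ⟨?_, ?_⟩
        · show decide (m < k + 1) = decide (m < k)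
          rw [decide_eq_decide]
          omega
        · rw [eg k hk]
          rcases Nat.lt_or_ge k 54 with h | h
          · rw [eg (k + 1) (by omega)]
            exact hn k h hkm
          · have : k = 54 := by omega
            subst this
            rw [eg55]
            exact ht
    · intro _
      rw [eg 0 (by omega)]
      exact row_bit _ (hg 0 (by omega)).1
    · intro h
      simp at h

end Pool.Agent.SSH
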