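import Pool.Agent.SSH.Stmts

/-!
# Self-shuffles (MP_018a5e_co): module BRD (no borders)
-/

set_option autoImplicit false

namespace Pool.Agent.SSH

namespace BRD_

/-- cancellation of parities -/
theorem cancel_r {a b c : ℕ} (ha : a < 2) (hb : b < 2) (h : (a + c) % 2 = (b + c) % 2) : a = b := by
  omega

theorem cancel_l {a b c : ℕ} (ha : a < 2) (hb : b < 2) (h : (c + a) % 2 = (c + b) % 2) : a = b := by
  omega

theorem ll_bound (i : ℕ) : 76 ≤ ll i ∧ ll i + 8 ≤ 2 * NN i ∧ (ll i + i) % 2 = 0 := by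
  have h3 : 1 ≤ 3 ^ i := Nat.one_le_pow _ _ (by norm_num)
  have hN : 101 ≤ NN i := by unfold NN; omega
  unfold ll
  omega

/-- finite check, `n < 38`, even junctions -/
theorem chkA : ∀ n, n < 38 → 1 ≤ n → ∃ k, k < n + 2 ∧ (1 + tm (170 - n + k)) % 2 ≠ (0 + tm (168 + k)) % 2 := by
  decide +kernel

theorem chkB : ∀ n, n < 38 → 1 ≤ n → ∃ k, k < n + 2 ∧ (1 + tm (86 - n + k)) % 2 ≠ (0 + tm (84 + k)) % 2 := by
  decide +kernel

theorem chkC : ∀ l, l < 8 → ∀ j, j < 5 → 3 ≤ j →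
    ∃ k, k < j + 1 ∧ tm ((if l % 2 = 0 then 170 else 85) - j + k) ≠ tm ((if l % 2 = 0 then 170 else 85) + k + 2 ^ l) := by
  decide +kernel

theorem chkD : ∀ l, l < 2 → ∀ j, j < 5 → 3 ≤ j →
    ∃ k, k < j + 1 ∧ tm ((if l % 2 = 0 then 170 else 85) - j + k) = tm ((if l % 2 = 0 then 170 else 85) + k) := by
  decide +kernel

/-- small `n` -/
theorem small (hTMB : Stmt_TMB) (hEAQ : Stmt_EAQ) (i n : ℕ) (h1 : 1 ≤ n) (h38 : n < 38)
    (H : ∀ k, k ≤ n + 1 → tm (EE i - n + k) = tm (QQ i + k)) : False := by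
  obtain ⟨h, h', hh, hh', he, ho⟩ := hEAQ i
  have hT := hTMB.2.2.2
  rcases Nat.mod_two_eq_zero_or_one i with hi | hi
  · obtain ⟨hE, hQ⟩ := he hi
    obtain ⟨k, hk, hne⟩ := chkA n h38 h1
    apply hne
    have e1 := hT 8 h (170 - n + k) (by norm_num; omega)
    have e2 := hT 8 h' (168 + k) (by norm_num; omega)
    have e3 := H k (by omega)
    rw [hh] at e1
    rw [hh'] at e2
    rw [← e1, ← e2]
    have a1 : 2 ^ 8 * h + (170 - n + k) = EE i - n + k := by rw [hE]; norm_num; omega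
    have a2 : 2 ^ 8 * h' + (168 + k) = QQ i + k := by rw [hQ]; norm_num; omega
    rw [a1, a2]
    exact e3
  · obtain ⟨hE, hQ⟩ := ho hi
    obtain ⟨k, hk, hne⟩ := chkB n h38 h1
    apply hne
    have e1 := hT 8 h (86 - n + k) (by norm_num; omega)
    have e2 := hT 8 h' (84 + k) (by norm_num; omega)
    have e3 := H k (by omega)
    rw [hh] at e1
    rw [hh'] at e2
    rw [← e1, ← e2]
    have a1 : 2 ^ 8 * h + (86 - n + k) = EE i - n + k := by rw [hE]; norm_num; omega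
    have a2 : 2 ^ 8 * h' + (84 + k) = QQ i + k := by rw [hQ]; norm_num; omega
    rw [a1, a2]
    exact e3

/-- the scale of `n` -/
theorem scale (n : ℕ) (h : 38 ≤ n) : ∃ m, 3 ≤ m ∧ 5 * 2 ^ m ≤ n + 2 ∧ n + 2 < 5 * 2 ^ (m + 1) := by
  refine ⟨Nat.log 2 ((n + 2) / 5), ?_, ?_, ?_⟩
  · apply Nat.le_log_of_pow_le (by norm_num)
    norm_num
    omega
  · have := Nat.pow_log_le_self 2 (x := (n + 2) / 5) (by omega)
    omega
  · have := Nat.lt_pow_succ_log_self (b := 2) (by norm_num) ((n + 2) / 5)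
    rw [Nat.succ_eq_add_one] at this
    omega

/-- case `m ≤ l` -/
theorem caseLow (hTMB : Stmt_TMB) (E l m lam j x : ℕ) (hlm : m + lam = l)
    (hj3 : 3 ≤ j) (hj5 : j < 5) (hx : x = (if lam % 2 = 0 then 170 else 85)) (hex : E / 2 ^ m % 256 = x)
    (hel : E / 2 ^ l % 2 = 0) (hjE : j ≤ E / 2 ^ m)
    (H : ∀ k, k ≤ j → tm (E - 2 ^ m * (j - k)) = tm (E + 2 ^ l + 2 ^ m * k)) : False := by
  obtain ⟨hev, hodd, hlt, hT⟩ := hTMB
  have hm0 : 0 < 2 ^ m := by positivity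
  have hrho : E % 2 ^ m < 2 ^ m := Nat.mod_lt _ hm0
  have hE : 2 ^ m * (E / 2 ^ m) + E % 2 ^ m = E := Nat.div_add_mod _ _
  generalize hedef : E / 2 ^ m = e at hex hjE hE
  have hll : 2 ^ l = 2 ^ m * 2 ^ lam := by rw [← hlm, pow_add]
  -- reduced equality
  have R : ∀ k, k ≤ j → tm (e - j + k) = tm (e + k + 2 ^ lam) := by
    intro k hk
    have h1 := H k hk
    have a1 : E - 2 ^ m * (j - k) = 2 ^ m * (e - j + k) + E % 2 ^ m := by
      have : e = (e - j + k) + (j - k) := by omega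
      have h2 : 2 ^ m * e = 2 ^ m * (e - j + k) + 2 ^ m * (j - k) := by
        rw [← Nat.mul_add, ← this]
      omega
    have a2 : E + 2 ^ l + 2 ^ m * k = 2 ^ m * (e + k + 2 ^ lam) + E % 2 ^ m := by
      rw [hll, Nat.mul_add, Nat.mul_add]; omega
    rw [a1, a2, hT m _ _ hrho, hT m _ _ hrho] at h1
    exact cancel_r (hlt _) (hlt _) h1
  have he : e = 256 * (e / 256) + x := by rw [← hex]; omega
  have hx' : x = 170 ∨ x = 85 := by rw [hx]; split_ifs <;> simp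
  generalize hh : e / 256 = h at he
  by_cases hlam : lam < 8
  · obtain ⟨k, hk, hne⟩ := chkC lam hlam j hj5 hj3
    rw [← hx] at hne
    apply hne
    have h1 := R k (by omega)
    have hlam2 : x + k + 2 ^ lam < 2 ^ 8 := by
      rw [hx]
      interval_cases lam <;> norm_num <;> omega
    have a1 : e - j + k = 2 ^ 8 * h + (x - j + k) := by
      norm_num; omega
    have a2 : e + k + 2 ^ lam = 2 ^ 8 * h + (x + k + 2 ^ lam) := by
      norm_num; omega
    rw [a1, a2, hT 8 _ _ hlam2, hT 8 _ _ (by norm_num; omega)] at h1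
    exact cancel_l (hlt _) (hlt _) h1
  · obtain ⟨k, hk, hne⟩ := chkD (lam % 2) (by omega) j hj5 hj3
    rw [Nat.mod_mod, ← hx] at hne
    have h1 := R k (by omega)
    -- e = 2^lam * Q + r
    have hQ : e / 2 ^ lam = E / 2 ^ l := by
      rw [← hedef, Nat.div_div_eq_div_mul, ← hll]
    obtain ⟨c, rfl⟩ : ∃ c, lam = 8 + c := ⟨lam - 8, by omega⟩
    have hp : 2 ^ (8 + c) = 256 * 2 ^ c := by rw [pow_add]; norm_num
    have hr : e % 2 ^ (8 + c) + k < 2 ^ (8 + c) := by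
      have h3 : e % 2 ^ (8 + c) < 2 ^ (8 + c) := Nat.mod_lt _ (by positivity)
      have h4 : e % 2 ^ (8 + c) % 256 = x := by
        rw [Nat.mod_mod_of_dvd _ (by rw [hp]; exact Dvd.intro _ rfl), hex]
      rw [hp] at h3 h4 ⊢
      omega
    have hdm : 2 ^ (8 + c) * (e / 2 ^ (8 + c)) + e % 2 ^ (8 + c) = e := Nat.div_add_mod _ _
    have b1 : e + k + 2 ^ (8 + c) = 2 ^ (8 + c) * (e / 2 ^ (8 + c) + 1) + (e % 2 ^ (8 + c) + k) := by
      rw [Nat.mul_add, Nat.mul_one]; omega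
    have b2 : e + k = 2 ^ (8 + c) * (e / 2 ^ (8 + c)) + (e % 2 ^ (8 + c) + k) := by
      omega
    have b3 := hT (8 + c) (e / 2 ^ (8 + c) + 1) _ hr
    have b4 := hT (8 + c) (e / 2 ^ (8 + c)) _ hr
    rw [← b1] at b3
    rw [← b2] at b4
    have b5 : tm (e / 2 ^ (8 + c) + 1) = 1 - tm (e / 2 ^ (8 + c)) := by
      have h5 : e / 2 ^ (8 + c) = 2 * (e / 2 ^ (8 + c) / 2) := by
        rw [hQ]; omega
      have h6 := hodd (e / 2 ^ (8 + c) / 2)
      rw [← h5] at h6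
      rw [h6]
      congr 1
      have h7 := hev (e / 2 ^ (8 + c) / 2)
      rw [← h5] at h7
      exact h7.symm
    have b6 : tm (e + k + 2 ^ (8 + c)) = 1 - tm (e + k) := by
      rw [b3, b4, b5]
      have := hlt (e / 2 ^ (8 + c))
      omega
    have c1 : e - j + k = 2 ^ 8 * h + (x - j + k) := by
      norm_num; omega
    have c2 : e + k = 2 ^ 8 * h + (x + k) := by
      norm_num; omega
    have c3 := hT 8 h (x - j + k) (by norm_num; omega)
    have c4 := hT 8 h (x + k) (by norm_num; omega)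
    rw [← c1] at c3
    rw [← c2] at c4
    rw [b6, c3, c4, hne] at h1
    omega

/-- case `l < m` -/
theorem caseHigh (hTMB : Stmt_TMB) (hTMO : Stmt_TMO) (E l m n j : ℕ) (hlm : l < m) (hl : 2 ≤ l)
    (hel : E / 2 ^ l % 2 = 0) (hrl : 2 ≤ E % 2 ^ l) (hnE : n ≤ E) (hj : n + 2 ^ l - 2 = 2 ^ m * j) (hn : 2 ≤ n)
    (H : ∀ k, k ≤ n + 1 → tm (E - n + k) = tm (E + 2 ^ l - 2 + k)) : False := by
  obtain ⟨-, -, hlt, hT⟩ := hTMB
  have hl0 : 4 ≤ 2 ^ l := by
    calc 4 = 2 ^ 2 := by norm_num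
      _ ≤ 2 ^ l := Nat.pow_le_pow_right (by norm_num) hl
  have hm0 : 0 < 2 ^ m := by positivity
  have hml : 2 ^ (l + 1) ≤ 2 ^ m := Nat.pow_le_pow_right (by norm_num) hlm
  have hml' : 2 * 2 ^ l ≤ 2 ^ m := by rw [pow_succ] at hml; omega
  have hj1 : 1 ≤ j := by
    rcases Nat.eq_zero_or_pos j with h | h
    · rw [h, Nat.mul_zero] at hj; omega
    · exact h
  -- P / 2^m = E / 2^m
  have hP : (E + 2 ^ l - 2) / 2 ^ m = E / 2 ^ m := by
    obtain ⟨c, rfl⟩ : ∃ c, m = (l + 1) + c := ⟨m - (l + 1), by omega⟩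
    have e1 : (E + 2 ^ l - 2) / 2 ^ (l + 1) = E / 2 ^ (l + 1) := by
      have h1 : E % 2 ^ l < 2 ^ l := Nat.mod_lt _ (by positivity)
      have h2 : 2 ^ l * (E / 2 ^ l) + E % 2 ^ l = E := Nat.div_add_mod _ _
      have h3 : E / 2 ^ l = 2 * (E / 2 ^ l / 2) := by omega
      have h4 : E / 2 ^ (l + 1) = E / 2 ^ l / 2 := by
        rw [pow_succ, Nat.div_div_eq_div_mul]
      rw [h4]
      have h5 : E + 2 ^ l - 2 = 2 ^ (l + 1) * (E / 2 ^ l / 2) + (E % 2 ^ l + 2 ^ l - 2) := by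
        have : 2 ^ (l + 1) * (E / 2 ^ l / 2) = 2 ^ l * (E / 2 ^ l) := by
          conv_rhs => rw [h3]
          rw [pow_succ, Nat.mul_assoc]
        rw [this]; omega
      have h6 : (E % 2 ^ l + 2 ^ l - 2) / 2 ^ (l + 1) = 0 :=
        Nat.div_eq_of_lt (by rw [pow_succ]; omega)
      rw [h5, Nat.mul_add_div (by positivity), h6, Nat.add_zero]
    rw [pow_add 2 (l + 1) c, ← Nat.div_div_eq_div_mul, ← Nat.div_div_eq_div_mul, e1]
  have hE : 2 ^ m * (E / 2 ^ m) + E % 2 ^ m = E := Nat.div_add_mod _ _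
  have hPP : 2 ^ m * (E / 2 ^ m) + (E + 2 ^ l - 2) % 2 ^ m = E + 2 ^ l - 2 := by
    rw [← hP]; exact Nat.div_add_mod _ _
  have hrho : E % 2 ^ m < 2 ^ m := Nat.mod_lt _ hm0
  have hrho' : (E + 2 ^ l - 2) % 2 ^ m < 2 ^ m := Nat.mod_lt _ hm0
  generalize E / 2 ^ m = e at hE hPP
  have hej : j ≤ e := by
    have h1 : 2 ^ m * j < 2 ^ m * (e + 1) := by rw [Nat.mul_add, Nat.mul_one]; omega
    have h2 := Nat.lt_of_mul_lt_mul_left h1
    omega
  obtain ⟨k, hk, hne⟩ := hTMO.1 (e - j) j hj1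
  apply hne
  rcases Nat.eq_zero_or_pos k with hk0 | hk0
  · subst hk0
    have h1 := H 0 (by omega)
    have a1 : E - n + 0 = 2 ^ m * (e - j) + (E + 2 ^ l - 2) % 2 ^ m := by
      have : 2 ^ m * e = 2 ^ m * (e - j) + 2 ^ m * j := by
        rw [← Nat.mul_add]; congr 1; omega
      omega
    have a2 : E + 2 ^ l - 2 + 0 = 2 ^ m * e + (E + 2 ^ l - 2) % 2 ^ m := by omega
    rw [a1, a2, hT m _ _ hrho', hT m _ _ hrho'] at h1
    have := cancel_r (hlt _) (hlt _) h1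
    rw [Nat.add_zero, Nat.add_zero, this]
    congr 1; omega
  · have hkj : 2 ^ m * (j - k) + 2 ^ m * k = 2 ^ m * j := by
      rw [← Nat.mul_add]; congr 1; omega
    have hk1 : 2 ^ m * 1 ≤ 2 ^ m * k := Nat.mul_le_mul_left _ hk0
    have h1 := H (n - 2 ^ m * (j - k)) (by omega)
    have a1 : E - n + (n - 2 ^ m * (j - k)) = 2 ^ m * (e - j + k) + E % 2 ^ m := by
      have : 2 ^ m * e = 2 ^ m * (e - j + k) + 2 ^ m * (j - k) := by
        rw [← Nat.mul_add]; congr 1; omega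
      omega
    have a2 : E + 2 ^ l - 2 + (n - 2 ^ m * (j - k)) = 2 ^ m * (e + k) + E % 2 ^ m := by
      rw [Nat.mul_add]; omega
    rw [a1, a2, hT m _ _ hrho, hT m _ _ hrho] at h1
    have := cancel_r (hlt _) (hlt _) h1
    rw [this]
    congr 1; omega

end BRD_

open BRD_ in
theorem brd_proof (hTMB : Stmt_TMB) (hTMO : Stmt_TMO) (hTMR : Stmt_TMR) (hEAQ : Stmt_EAQ) (hEBT : Stmt_EBT) :
    Stmt_BRD := by
  intro i n h1 hnE
  by_contra hcon
  push Not at hcon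
  have H : ∀ k, k ≤ n + 1 → tm (EE i - n + k) = tm (QQ i + k) := by
    intro k hk
    have h := hcon k hk
    have a := hTMB.2.2.1 (EE i - n + k)
    have b := hTMB.2.2.1 (QQ i + k)
    unfold tt at h
    omega
  by_cases h38 : n < 38
  · exact small hTMB hEAQ i n h1 h38 H
  have h38' : 38 ≤ n := by omega
  obtain ⟨hl76, hlN, hlp⟩ := ll_bound i
  obtain ⟨m', hm3, hm1, hm2⟩ := scale n h38'
  have hQ : QQ i = EE i + 2 ^ ll i - 2 := rfl
  have hl0 : 4 ≤ 2 ^ ll i := by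
    calc 4 = 2 ^ 2 := by norm_num
      _ ≤ 2 ^ ll i := Nat.pow_le_pow_right (by norm_num) (by omega)
  have hdvd := hTMR m' (EE i - n) (QQ i) (by omega) (fun k hk => H k (by omega))
  have hd2 : QQ i - (EE i - n) = n + 2 ^ ll i - 2 := by omega
  rw [hd2] at hdvd
  obtain ⟨Ll1, Ll2, Ll3⟩ := hEBT i (ll i) (by omega) hlN
  rw [if_pos hlp] at Ll1
  have hel : EE i / 2 ^ ll i % 2 = 0 := by omega
  rcases Nat.lt_or_ge (ll i) (m' + 1) with hlm | hlm
  · obtain ⟨j, hj⟩ := hdvd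
    refine caseHigh hTMB hTMO (EE i) (ll i) (m' + 1) n j hlm (by omega) hel Ll2 hnE hj (by omega) ?_
    intro k hk
    exact H k hk
  · -- low case
    have hd3 : 2 ^ (m' + 1) ∣ 2 ^ ll i := pow_dvd_pow 2 hlm
    have hd4 : 2 ^ (m' + 1) ∣ n - 2 := by
      have : n - 2 = n + 2 ^ ll i - 2 - 2 ^ ll i := by omega
      rw [this]
      exact Nat.dvd_sub hdvd hd3
    obtain ⟨j, hj⟩ := hd4
    have hnj : n = 2 + 2 ^ (m' + 1) * j := by omega
    have hp : 2 ^ (m' + 1) = 2 * 2 ^ m' := by rw [pow_succ]; ring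
    have h8 : 8 ≤ 2 ^ m' := by
      calc 8 = 2 ^ 3 := by norm_num
        _ ≤ 2 ^ m' := Nat.pow_le_pow_right (by norm_num) hm3
    have hj3 : 3 ≤ j := by
      by_contra hc
      have : j ≤ 2 := by omega
      have : 2 ^ (m' + 1) * j ≤ 2 ^ (m' + 1) * 2 := Nat.mul_le_mul_left _ this
      omega
    have hj5 : j < 5 := by
      by_contra hc
      have : 5 ≤ j := by omega
      have : 2 ^ (m' + 1) * 5 ≤ 2 ^ (m' + 1) * j := Nat.mul_le_mul_left _ this
      omega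
    obtain ⟨Lm1, Lm2, Lm3⟩ := hEBT i (m' + 1) (by omega) (by omega)
    have hpar : ((m' + 1 + i) % 2 = 0) ↔ ((ll i - (m' + 1)) % 2 = 0) := by omega
    refine caseLow hTMB (EE i) (ll i) (m' + 1) (ll i - (m' + 1)) j
      (if (ll i - (m' + 1)) % 2 = 0 then 170 else 85) (by omega) hj3 hj5 rfl ?_ hel ?_ ?_
    · rw [Lm1]
      by_cases hc : (m' + 1 + i) % 2 = 0
      · rw [if_pos hc, if_pos (hpar.mp hc)]
      · rw [if_neg hc, if_neg (fun h => hc (hpar.mpr h))]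
    · rw [Nat.le_div_iff_mul_le (by positivity), Nat.mul_comm]
      omega
    · intro k hk
      have hkj : 2 ^ (m' + 1) * (j - k) + 2 ^ (m' + 1) * k = 2 ^ (m' + 1) * j := by
        rw [← Nat.mul_add]; congr 1; omega
      have h := H (2 + 2 ^ (m' + 1) * k) (by omega)
      have a1 : EE i - n + (2 + 2 ^ (m' + 1) * k) = EE i - 2 ^ (m' + 1) * (j - k) := by omega
      have a2 : QQ i + (2 + 2 ^ (m' + 1) * k) = EE i + 2 ^ ll i + 2 ^ (m' + 1) * k := by omega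
      rw [a1, a2] at h
      exact h

end Pool.Agent.SSH
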