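import Pool.Agent.SSH.Stmts

/-! # MP_018a5e_co : module BWD (two agreeing paths which meet were equal before) -/

set_option autoImplicit false

namespace Pool.Agent.SSH

namespace BWD_

theorem kbw (h : Stmt_KBW) :
    (prS (LV 0 &&& LW 0) (LV 1 &&& LW 1) (LV 2 &&& LW 2) NEV NEW COL
      ((prRun (LV 0 &&& LW 0) (LV 1 &&& LW 1) (LV 2 &&& LW 2) NEV NEW COL 58 FUL) &&& (FUL ^^^ DG)) &&& DG) = 0 := by
  unfold Stmt_KBW withP at h
  generalize FUL = F0 at h ⊢
  generalize DG = D0 at h ⊢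
  generalize NEV = nev at h ⊢
  generalize NEW = new at h ⊢
  generalize COL = col at h ⊢
  generalize LV 0 &&& LW 0 = m0 at h ⊢
  generalize LV 1 &&& LW 1 = m1 at h ⊢
  generalize LV 2 &&& LW 2 = m2 at h ⊢
  rw [force_eq, force_eq, force_eq, force_eq, force_eq, force_eq] at h
  beta_reduce at h
  rw [force_eq] at h
  exact Nat.eq_of_beq_eq_true h

theorem mem_and (F G v x : ℕ) : mem (F &&& G) v x ↔ mem F v x ∧ mem G v x := by
  unfold mem
  rw [Nat.testBit_and, Bool.and_eq_true]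

theorem mem_xor (F G v x : ℕ) (h1 : mem F v x) (h2 : ¬ mem G v x) : mem (F ^^^ G) v x := by
  unfold mem at *
  rw [Nat.testBit_xor, h1]
  simpa using h2

theorem prRun_one (m0 m1 m2 nev new col F : ℕ) : prRun m0 m1 m2 nev new col 1 F = prS m0 m1 m2 nev new col F := by
  have : prRun m0 m1 m2 nev new col 1 F = force (prS m0 m1 m2 nev new col F) (prRun m0 m1 m2 nev new col 0) := rfl
  rw [this, force_eq]
  rfl

end BWD_

theorem bwd_proof (hM : Stmt_MSK) (hP : Stmt_PRS) (hK : Stmt_KBW) : Stmt_BWD := by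
  intro f g N hA k hk hkN he
  by_contra hne
  obtain ⟨hf, hg, hl⟩ := hA
  have hf1 : ∀ a m, a + m ≤ N → PP (fun n => f (a + n)) 0 m := by
    intro a m ham
    refine ⟨fun n _ h2 => hf.1 (a + n) (Nat.zero_le _) (by omega), fun n _ h2 => ?_⟩
    exact hf.2 (a + n) (Nat.zero_le _) (by omega)
  have hg1 : ∀ a m, a + m ≤ N → PP (fun n => g (a + n)) 0 m := by
    intro a m ham
    refine ⟨fun n _ h2 => hg.1 (a + n) (Nat.zero_le _) (by omega), fun n _ h2 => ?_⟩
    exact hg.2 (a + n) (Nat.zero_le _) (by omega)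
  have b1 := hf.1 (k - 58) (Nat.zero_le _) (by omega)
  have b2 := hg.1 (k - 58) (Nat.zero_le _) (by omega)
  have m1 := (hM (f (k - 58)) (g (k - 58)) b1 b2).2.2.2.2.1
  have r1 := hP 58 FUL (fun n => f (k - 58 + n)) (fun n => g (k - 58 + n)) (hf1 _ _ (by omega)) (hg1 _ _ (by omega))
    (fun n hn => hl _ (by omega)) m1
  beta_reduce at r1
  rw [show k - 58 + 58 = k by omega] at r1
  have c1 := hf.1 k (Nat.zero_le _) (by omega)
  have c2 := hg.1 k (Nat.zero_le _) (by omega)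
  have mk := hM (f k) (g k) c1 c2
  have d1 : ¬ mem DG (f k) (g k) := fun h => hne (mk.2.2.2.2.2.1.mp h)
  have r2 := (BWD_.mem_and _ (FUL ^^^ DG) (f k) (g k)).mpr ⟨r1, BWD_.mem_xor _ _ _ _ mk.2.2.2.2.1 d1⟩
  have r3 := hP 1 _ (fun n => f (k + n)) (fun n => g (k + n)) (hf1 _ _ (by omega)) (hg1 _ _ (by omega))
    (fun n hn => hl _ (by omega)) r2
  rw [BWD_.prRun_one] at r3
  have e1 := hf.1 (k + 1) (Nat.zero_le _) hkN
  have e2 := hg.1 (k + 1) (Nat.zero_le _) hkN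
  have mk1 := hM (f (k + 1)) (g (k + 1)) e1 e2
  have r4 := (BWD_.mem_and _ DG (f (k + 1)) (g (k + 1))).mpr ⟨r3, mk1.2.2.2.2.2.1.mpr he⟩
  rw [BWD_.kbw hK] at r4
  unfold mem at r4
  rw [Nat.zero_testBit] at r4
  exact absurd r4 (by simp)

end Pool.Agent.SSH
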