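import Pool.Agent.SSH.Stmts

/-! # MP_018a5e_co : module CDL (codes of factors) -/

set_option autoImplicit false

namespace Pool.Agent.SSH

namespace CDL_

theorem add (w : ℕ → ℕ) (a m n : ℕ) : cd w a (m + n) = cd w a m * 4 ^ n + cd w (a + m) n := by
  induction n with
  | zero => simp [cd]
  | succ n ih =>
    have h1 : cd w a (m + (n + 1)) = 4 * cd w a (m + n) + w (a + (m + n)) := rfl
    have h2 : cd w (a + m) (n + 1) = 4 * cd w (a + m) n + w (a + m + n) := rfl
    rw [h1, h2, ih, pow_succ, Nat.add_assoc a m n]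
    ring

theorem lt (w : ℕ → ℕ) (hw : Ter w) (a n : ℕ) : cd w a n < 4 ^ n := by
  induction n with
  | zero => simp [cd]
  | succ n ih =>
    have h2 : cd w a (n + 1) = 4 * cd w a n + w (a + n) := rfl
    have h3 := hw (a + n)
    rw [h2, pow_succ]
    omega

theorem dig (w : ℕ → ℕ) (hw : Ter w) (a n k : ℕ) (hk : k < n) :
    cd w a n / 4 ^ (n - 1 - k) % 4 = w (a + k) := by
  obtain ⟨j, rfl⟩ : ∃ j, n = (k + 1) + j := ⟨n - 1 - k, by omega⟩
  have hj : k + 1 + j - 1 - k = j := by omega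
  rw [hj, add w a (k + 1) j]
  have h1 := lt w hw (a + (k + 1)) j
  have hp : 0 < 4 ^ j := by positivity
  have h2 : (cd w a (k + 1) * 4 ^ j + cd w (a + (k + 1)) j) / 4 ^ j = cd w a (k + 1) := by
    rw [Nat.add_comm, Nat.add_mul_div_right _ _ hp, Nat.div_eq_of_lt h1, Nat.zero_add]
  rw [h2]
  have h3 : cd w a (k + 1) = 4 * cd w a k + w (a + k) := rfl
  have h4 := hw (a + k)
  rw [h3]
  omega

end CDL_

theorem cdl_proof : Stmt_CDL := by
  intro w hw
  refine ⟨CDL_.add w, CDL_.lt w hw, CDL_.dig w hw, ?_⟩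
  intro hs a n p hp h2 he
  obtain ⟨m, rfl⟩ : ∃ m, n = m + (p + p) := ⟨n - 2 * p, by omega⟩
  have hpos : 0 < 4 ^ p := by positivity
  have e1 : cd w a (m + (p + p)) = cd w a (m + p) * 4 ^ p + cd w (a + (m + p)) p := by
    rw [← Nat.add_assoc]; exact CDL_.add w a (m + p) p
  have e2 : cd w a (m + p) = cd w a m * 4 ^ p + cd w (a + m) p := CDL_.add w a m p
  have l1 := CDL_.lt w hw (a + (m + p)) p
  have l2 := CDL_.lt w hw (a + m) p
  have f1 : cd w a (m + (p + p)) % 4 ^ p = cd w (a + (m + p)) p := by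
    rw [e1, Nat.add_comm, Nat.add_mul_mod_self_right, Nat.mod_eq_of_lt l1]
  have f2 : cd w a (m + (p + p)) / 4 ^ p % 4 ^ p = cd w (a + m) p := by
    rw [e1, Nat.add_comm, Nat.add_mul_div_right _ _ hpos, Nat.div_eq_of_lt l1, Nat.zero_add, e2,
      Nat.add_comm, Nat.add_mul_mod_self_right, Nat.mod_eq_of_lt l2]
  rw [f1, f2] at he
  obtain ⟨k, hk, hne⟩ := hs (a + m) p hp
  apply hne
  have d1 := CDL_.dig w hw (a + (m + p)) p k hk
  have d2 := CDL_.dig w hw (a + m) p k hk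
  rw [he] at d1
  rw [← d2, d1]
  congr 1
  omega

end Pool.Agent.SSH
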