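import Pool.Agent.SSH.Stmts

/-!
# SSH: soundness of the certificate tree checker
-/

set_option autoImplicit false

namespace Pool.Agent.SSH

namespace CHK_

/-- the three branches of a step -/
def br (l0 : ℕ) (goal : ℕ → ℕ → Bool) (f s code len : ℕ) (x y z : CT) : Bool :=
  ((bif zst s 0 then chk l0 goal f (go s 0) (4 * code) (len + 1) x else true) &&
        ((bif zst s 1 then chk l0 goal f (go s 1) (4 * code + 1) (len + 1) y else true) &&
        (bif zst s 2 then chk l0 goal f (go s 2) (4 * code + 2) (len + 1) z else true)))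

theorem br_sound {l0 : ℕ} {goal : ℕ → ℕ → Bool} {f s code len : ℕ} {x y z : CT}
    (h : br l0 goal f s code len x y z = true) {c : ℕ} (hc : c < 3) (hz : zst s c = true) :
    ∃ T', chk l0 goal f (go s c) (4 * code + c) (len + 1) T' = true := by
  unfold br at h
  rw [Bool.and_eq_true, Bool.and_eq_true] at h
  obtain ⟨h0, h1, h2⟩ := h
  interval_cases c
  · rw [hz] at h0
    exact ⟨x, h0⟩
  · rw [hz] at h1
    exact ⟨y, h1⟩
  · rw [hz] at h2
    exact ⟨z, h2⟩

theorem chk_zero (l0 : ℕ) (goal : ℕ → ℕ → Bool) (s code len : ℕ) (T : CT) :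
    chk l0 goal 0 s code len T = false := by
  cases T <;> rfl

/-- one step of the checker -/
theorem chk_succ {l0 : ℕ} {goal : ℕ → ℕ → Bool} {f s code len : ℕ} {T : CT}
    (h : chk l0 goal (f + 1) s code len T = true) :
    (s = 168 ∧ l0 < len ∧ goal code len = true) ∨
    (∃ p, 0 < p ∧ 2 * p ≤ len ∧ code % 4 ^ p = code / 4 ^ p % 4 ^ p) ∨
    (∃ x y z, br l0 goal f s code len x y z = true) := by
  by_cases hg : (Nat.beq s 168 && Nat.blt l0 len) = true
  · left
    have hg' := hg
    rw [Bool.and_eq_true] at hg'
    refine ⟨Nat.eq_of_beq_eq_true hg'.1, ?_, ?_⟩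
    · have := hg'.2
      simpa [Nat.blt_eq] using this
    · cases T <;> (rw [chk, hg, cond_true] at h) <;> first | exact h | (intros; contradiction)
  · have hg2 : (Nat.beq s 168 && Nat.blt l0 len) = false := Bool.eq_false_iff.mpr hg
    right
    cases T with
    | q L p =>
      rw [chk, hg2, cond_false] at h
      cases hL : Nat.beq len L with
      | true =>
        rw [hL, cond_true, Bool.and_eq_true, Bool.and_eq_true] at h
        left
        refine ⟨p, ?_, ?_, Nat.eq_of_beq_eq_true h.2.2⟩
        · simpa [Nat.blt_eq] using h.1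
        · simpa [Nat.ble_eq] using h.2.1
      | false =>
        rw [hL, cond_false] at h
        right
        exact ⟨_, _, _, h⟩
    | b x y z =>
      rw [chk, hg2, cond_false] at h
      right
      cases hb : ((zst s 0 && (zst s 1 || zst s 2)) || (zst s 1 && zst s 2)) with
      | true =>
        rw [hb, cond_true] at h
        exact ⟨_, _, _, h⟩
      | false =>
        rw [hb, cond_false] at h
        exact ⟨_, _, _, h⟩
    | s =>
      rw [chk, hg2, cond_false] at h
      · exact Or.inr ⟨_, _, _, h⟩
      all_goals (intros; contradiction)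
    | l =>
      rw [chk, hg2, cond_false] at h
      · exact Or.inr ⟨_, _, _, h⟩
      all_goals (intros; contradiction)

end CHK_

open CHK_ in
theorem chk_proof (hACR : Stmt_ACR) (hCDL : Stmt_CDL) : Stmt_CHK := by
  intro w hw ht l0 goal fuel
  induction fuel with
  | zero =>
    intro s code len T n h
    rw [chk_zero] at h
    exact absurd h (by decide)
  | succ f ih =>
    intro s code len T n h hrun hlen hl0 hcd hZ
    rcases chk_succ h with ⟨h1, h2, h3⟩ | ⟨p, hp, hp2, hsq⟩ | ⟨x, y, z, hb⟩
    · refine ⟨0, Nat.zero_le _, ?_, h2, ?_⟩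
      · rw [Nat.add_zero, hrun, h1]
      · rw [Nat.add_zero, hcd]
        exact h3
    · exfalso
      rw [← hcd] at hsq
      exact (hCDL w ht).2.2.2 hw (n - len) len p hp hp2 hsq
    · have hstep := hZ n (le_refl _) (by omega)
      have hr1 : run w (n + 1) = go (run w n) (w n) := rfl
      have hgo := (hACR w hw ht n).2.2.1
      have hz : zst s (w n) = true := by
        unfold zst
        rw [Bool.and_eq_true]
        constructor
        · rw [← hrun]
          simpa [Nat.blt_eq] using hgo
        · rw [← hrun, ← hr1]
          exact Nat.beq_eq.mpr hstep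
      obtain ⟨T', hT'⟩ := br_sound hb (ht n) hz
      have hcd' : cd w (n + 1 - (len + 1)) (len + 1) = 4 * code + w n := by
        have e1 : n + 1 - (len + 1) = n - len := by omega
        have e2 : n - len + len = n := by omega
        rw [e1]
        show 4 * cd w (n - len) len + w (n - len + len) = _
        rw [hcd, e2]
      obtain ⟨d, hd, hd1, hd2, hd3⟩ := ih (go s (w n)) (4 * code + w n) (len + 1) T' (n + 1) hT'
        (by rw [hr1, hrun]) (by omega) (by omega) hcd'
        (fun m hm1 hm2 => hZ m (by omega) (by omega))
      refine ⟨d + 1, by omega, ?_, by omega, ?_⟩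
      · rw [show n + (d + 1) = n + 1 + d by omega]
        exact hd1
      · have e1 : n + 1 - (len + 1) = n - len := by omega
        rw [e1, show len + 1 + d = len + (d + 1) by omega] at hd3
        exact hd3

end Pool.Agent.SSH
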