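import Pool.Agent.SSH.Stmts

/-!
# Self-shuffles (MP_018a5e_co): module D12
-/

set_option autoImplicit false

namespace Pool.Agent.SSH

namespace D12_

theorem mem_or {A B v x : ℕ} : mem (A ||| B) v x ↔ mem A v x ∨ mem B v x := by
  unfold mem
  simp [Nat.testBit_or]

theorem mem_and {A B v x : ℕ} : mem (A &&& B) v x ↔ mem A v x ∧ mem B v x := by
  unfold mem
  simp [Nat.testBit_and]

theorem mem_xor {A B v x : ℕ} (h1 : mem A v x) (h2 : ¬ mem B v x) : mem (A ^^^ B) v x := by
  unfold mem at *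
  rw [Nat.testBit_xor, h1]
  simp only [Bool.not_eq_true] at h2
  rw [h2]
  rfl

theorem not_mem_zero {v x : ℕ} : ¬ mem 0 v x := by
  unfold mem
  simp

theorem pp_shift {f : ℕ → ℕ} {N k n : ℕ} (h : PP f 0 N) (hk : k + n ≤ N) : PP (fun m => f (k + m)) 0 n := by
  refine ⟨?_, ?_⟩
  · intro m _ hm
    exact h.1 (k + m) (Nat.zero_le _) (by omega)
  · intro m _ hm
    exact h.2 (k + m) (Nat.zero_le _) (by omega)

end D12_

open D12_

theorem d12_proof (hM : Stmt_MSK) (hR : Stmt_PRS) (h1 : Stmt_KD1) (h2 : Stmt_KD2) : Stmt_D12 := by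
  intro f g N hA
  obtain ⟨hf, hg, hl⟩ := hA
  refine ⟨?_, ?_⟩
  · intro k hk hN
    by_contra hcon
    rw [not_or] at hcon
    obtain ⟨hne, hC⟩ := hcon
    unfold Stmt_KD1 at h1
    simp only [withP, force_eq] at h1
    have h1' := Nat.eq_of_beq_eq_true h1
    clear h1
    have hfb : ∀ m, m ≤ N → f m < 828 := fun m hm => hf.1 m (Nat.zero_le _) hm
    have hgb : ∀ m, m ≤ N → g m < 828 := fun m hm => hg.1 m (Nat.zero_le _) hm
    have hd : mem DG (f k) (g k) := ((hM (f k) (g k) (hfb k (by omega)) (hgb k (by omega))).2.2.2.2.2.1).2 hk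
    have hrun := hR 76 DG (fun m => f (k + m)) (fun m => g (k + m)) (pp_shift hf hN) (pp_shift hg hN)
      (fun n hn => hl (k + n) (by omega)) hd
    have hrun' : mem (prRun (LV 0 &&& LW 0) (LV 1 &&& LW 1) (LV 2 &&& LW 2) NEV NEW COL 76 DG) (f (k + 76))
      (g (k + 76)) := hrun
    have hMM := hM (f (k + 76)) (g (k + 76)) (hfb _ hN) (hgb _ hN)
    obtain ⟨_, _, _, _, hful, hdg, hrc⟩ := hMM
    have hx : mem (FUL ^^^ DG) (f (k + 76)) (g (k + 76)) := mem_xor hful (fun h => hne (hdg.1 h))
    have hy : mem (FUL ^^^ (rowsM 0 76 ||| (rowsM 296 372 ||| (rowsM 422 443 ||| rowsM 170 191))))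
        (f (k + 76)) (g (k + 76)) := by
      apply mem_xor hful
      intro h
      apply hC
      rw [mem_or, mem_or, mem_or] at h
      unfold InC1
      rcases h with h | h | h | h
      · have := (hrc 0 76 (by omega) (by omega)).1.1 h
        omega
      · have := (hrc 296 372 (by omega) (by omega)).1.1 h
        omega
      · have := (hrc 422 443 (by omega) (by omega)).1.1 h
        omega
      · have := (hrc 170 191 (by omega) (by omega)).1.1 h
        omega
    have hz := mem_and.2 ⟨mem_and.2 ⟨hrun', hx⟩, hy⟩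
    rw [h1'] at hz
    exact not_mem_zero hz
  · intro hN hC
    by_contra hne
    unfold Stmt_KD2 at h2
    simp only [withP, force_eq] at h2
    have h2' := Nat.eq_of_beq_eq_true h2
    clear h2
    have hfb : ∀ m, m ≤ N → f m < 828 := fun m hm => hf.1 m (Nat.zero_le _) hm
    have hgb : ∀ m, m ≤ N → g m < 828 := fun m hm => hg.1 m (Nat.zero_le _) hm
    have hMM := hM (f 0) (g 0) (hfb _ (by omega)) (hgb _ (by omega))
    obtain ⟨_, _, _, _, hful, hdg, hrc⟩ := hMM
    have hx : mem (FUL ^^^ DG) (f 0) (g 0) := mem_xor hful (fun h => hne (hdg.1 h))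
    have hy : mem (colsM 0 76 ||| (colsM 296 372 ||| (colsM 422 443 ||| (colsM 170 191 |||
        (colsM 473 477 ||| colsM 803 807))))) (f 0) (g 0) := by
      rw [mem_or, mem_or, mem_or, mem_or, mem_or]
      unfold InC1 at hC
      rcases hC with (hC | hC | hC | hC) | hC | hC
      · exact Or.inl ((hrc 0 76 (by omega) (by omega)).2.2 (by omega))
      · exact Or.inr (Or.inr (Or.inr (Or.inl ((hrc 170 191 (by omega) (by omega)).2.2 (by omega)))))
      · exact Or.inr (Or.inl ((hrc 296 372 (by omega) (by omega)).2.2 (by omega)))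
      · exact Or.inr (Or.inr (Or.inl ((hrc 422 443 (by omega) (by omega)).2.2 (by omega))))
      · exact Or.inr (Or.inr (Or.inr (Or.inr (Or.inl ((hrc 473 477 (by omega) (by omega)).2.2 (by omega))))))
      · exact Or.inr (Or.inr (Or.inr (Or.inr (Or.inr ((hrc 803 807 (by omega) (by omega)).2.2 (by omega))))))
    have hz0 := mem_and.2 ⟨hy, hx⟩
    have hf' : PP f 0 236 := ⟨fun n h h' => hf.1 n h (by omega), fun n h h' => hf.2 n h (by omega)⟩
    have hg' : PP g 0 236 := ⟨fun n h h' => hg.1 n h (by omega), fun n h h' => hg.2 n h (by omega)⟩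
    have hrun := hR 236 _ f g hf' hg' (fun n hn => hl n (by omega)) hz0
    rw [h2'] at hrun
    exact not_mem_zero hrun

end Pool.Agent.SSH
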