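import Pool.Agent.SSH.Stmts

/-!
# Self-shuffles (MP_018a5e_co): module DEL (the two sides of a junction)
-/

set_option autoImplicit false

namespace Pool.Agent.SSH

namespace DEL_

theorem tt_of_tm {n a : ℕ} (h : tm n = a) : tt n = 1 - a := by unfold tt; rw [h]

theorem vals (hTMB : Stmt_TMB) (hEAQ : Stmt_EAQ) (i : ℕ) :
    tt (EE i) = 0 ∧ tt (EE i + 1) = 1 ∧ tt (QQ i) = 0 ∧ tt (QQ i + 1) = 1 := by
  obtain ⟨h, h', hh, hh', he, ho⟩ := hEAQ i
  have hT := hTMB.2.2.2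
  have c170 : tm 170 = 0 := by decide +kernel
  have c171 : tm 171 = 1 := by decide +kernel
  have c168 : tm 168 = 1 := by decide +kernel
  have c169 : tm 169 = 0 := by decide +kernel
  have c86 : tm 86 = 0 := by decide +kernel
  have c87 : tm 87 = 1 := by decide +kernel
  have c84 : tm 84 = 1 := by decide +kernel
  have c85 : tm 85 = 0 := by decide +kernel
  rcases Nat.mod_two_eq_zero_or_one i with hi | hi
  · obtain ⟨hE, hQ⟩ := he hi
    have a1 := hT 8 h 170 (by norm_num)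
    have a2 := hT 8 h 171 (by norm_num)
    have a3 := hT 8 h' 168 (by norm_num)
    have a4 := hT 8 h' 169 (by norm_num)
    norm_num [hh, hh', c170, c171, c168, c169] at a1 a2 a3 a4
    refine ⟨?_, ?_, ?_, ?_⟩
    · rw [hE, tt_of_tm a1]
    · rw [hE, Nat.add_assoc, tt_of_tm a2]
    · rw [hQ, tt_of_tm a3]
    · rw [hQ, Nat.add_assoc, tt_of_tm a4]
  · obtain ⟨hE, hQ⟩ := ho hi
    have a1 := hT 8 h 86 (by norm_num)
    have a2 := hT 8 h 87 (by norm_num)
    have a3 := hT 8 h' 84 (by norm_num)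
    have a4 := hT 8 h' 85 (by norm_num)
    norm_num [hh, hh', c86, c87, c84, c85] at a1 a2 a3 a4
    refine ⟨?_, ?_, ?_, ?_⟩
    · rw [hE, tt_of_tm a1]
    · rw [hE, Nat.add_assoc, tt_of_tm a2]
    · rw [hQ, tt_of_tm a3]
    · rw [hQ, Nat.add_assoc, tt_of_tm a4]

theorem walk (hWKA : Stmt_WKA) (A o : ℕ) (h0 : tt A = 0) (h1 : tt (A + 1) = 1) (ho : o < 406) :
    Ph tt (HH tt A + o) = 422 + o ∧ ad tt (HH tt A + o) = A := by
  have hw := hWKA tt A o (by rw [h0, h1]; simpa [ln] using ho)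
  have ha : ad tt (HH tt A + o) = A := by unfold ad; rw [hw]
  have hb : of' tt (HH tt A + o) = o := by unfold of'; rw [hw]
  refine ⟨?_, ha⟩
  unfold Ph
  rw [ha, hb, h0, h1]
  simp [ph]

theorem cL_cases (i : ℕ) : (cL i = 39 ∧ cR i = 51) ∨ (cL i = 369 ∧ cR i = 381) := by
  unfold cR cL
  split_ifs <;> simp

end DEL_

open DEL_ in
theorem del_proof (hTMB : Stmt_TMB) (hEAQ : Stmt_EAQ) (hWKA : Stmt_WKA) (hPOT : Stmt_POT) : Stmt_DEL := by
  intro i δ hδ
  obtain ⟨v1, v2, v3, v4⟩ := vals hTMB hEAQ i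
  have hc := cL_cases i
  have p1 := walk hWKA (EE i) (cL i + δ) v1 v2 (by omega)
  have p2 := walk hWKA (QQ i) (cR i + δ) v3 v4 (by omega)
  have p3 := walk hWKA (EE i) (cL i - 1) v1 v2 (by omega)
  have e1 : dd i + δ = HH tt (EE i) + (cL i + δ) := by unfold dd; omega
  have e2 : ee i + δ = HH tt (QQ i) + (cR i + δ) := by unfold ee; omega
  have e3 : dd i - 1 = HH tt (EE i) + (cL i - 1) := by unfold dd; omega
  have e4 : 0 < dd i := by unfold dd; omega
  rw [← e1] at p1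
  rw [← e2] at p2
  rw [← e3] at p3
  refine ⟨?_, ?_, p1.2, p2.2, ?_, ?_, e4⟩
  · rw [p1.1]; omega
  · rw [p2.1]; omega
  · intro h3
    unfold hw
    rw [p1.1, p2.1]
    have hP := hPOT.2.2.2 δ h3
    rcases hc with ⟨c1, c2⟩ | ⟨c1, c2⟩
    · rw [c1, c2]
      have a1 : 422 + (39 + δ) = 461 + δ := by omega
      have a2 : 422 + (51 + δ) = 473 + δ := by omega
      rw [a1, a2]; exact hP.1
    · rw [c1, c2]
      have a1 : 422 + (369 + δ) = 791 + δ := by omega
      have a2 : 422 + (381 + δ) = 803 + δ := by omega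
      rw [a1, a2]; exact hP.2
  · rw [p3.1]; omega

end Pool.Agent.SSH
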