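import Pool.Agent.SSH.Stmts

/-!
# SSH, module DIV: pairs of paths which leave the diagonal
-/

set_option autoImplicit false

namespace Pool.Agent.SSH

namespace DIV_

theorem mem_and {A B v x : ℕ} (ha : mem A v x) (hb : mem B v x) : mem (A &&& B) v x := by
  unfold mem at *
  rw [Nat.testBit_and, ha, hb]
  rfl

theorem mem_xor {A B v x : ℕ} (ha : mem A v x) (hb : ¬ mem B v x) : mem (A ^^^ B) v x := by
  unfold mem at *
  rw [Nat.testBit_xor, ha]
  simpa using hb

theorem not_mem_zero {v x : ℕ} : ¬ mem 0 v x := by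
  unfold mem
  rw [Nat.zero_testBit]
  exact Bool.false_ne_true

theorem agr_shift {f g : ℕ → ℕ} {N a M : ℕ} (h : Agr f g N) (ha : a + M ≤ N) :
    Agr (fun n => f (a + n)) (fun n => g (a + n)) M :=
  ⟨⟨fun n _ hn => h.1.1 (a + n) (by omega) (by omega), fun n _ hn => h.1.2 (a + n) (by omega) (by omega)⟩,
    ⟨fun n _ hn => h.2.1.1 (a + n) (by omega) (by omega), fun n _ hn => h.2.1.2 (a + n) (by omega) (by omega)⟩,
    fun n hn => h.2.2 (a + n) (by omega)⟩

theorem step (hPRS : Stmt_PRS) (F : ℕ) (f g : ℕ → ℕ) (N : ℕ) (h : Agr f g (N + 1)) (hm : mem F (f 0) (g 0)) :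
    mem (prS (LV 0 &&& LW 0) (LV 1 &&& LW 1) (LV 2 &&& LW 2) NEV NEW COL F) (f 1) (g 1) := by
  have h1 := hPRS 1 F f g
    ⟨fun n hn hn' => h.1.1 n hn (by omega), fun n hn hn' => h.1.2 n hn (by omega)⟩
    ⟨fun n hn hn' => h.2.1.1 n hn (by omega), fun n hn hn' => h.2.1.2 n hn (by omega)⟩
    (fun n hn => h.2.2 n (by omega)) hm
  rw [prRun, force_eq, prRun] at h1
  exact h1

theorem main (hMSK : Stmt_MSK) (hPRS : Stmt_PRS) : ∀ (k F : ℕ) (f g : ℕ → ℕ) (N : ℕ), Agr f g N →
    divC (LV 0 &&& LW 0) (LV 1 &&& LW 1) (LV 2 &&& LW 2) NEV NEW COL DG k F = true →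
    mem F (f 0) (g 0) → N < k ∧ ∀ m, m ≤ N → f m ≠ g m := by
  intro k
  induction k with
  | zero =>
    intro F f g N _ hd hm
    rw [divC] at hd
    have : F = 0 := Nat.eq_of_beq_eq_true hd
    subst this
    exact absurd hm not_mem_zero
  | succ k ih =>
    intro F f g N h hd hm
    rw [divC, Bool.and_eq_true, force_eq] at hd
    obtain ⟨hd1, hd2⟩ := hd
    have hz : F &&& DG = 0 := Nat.eq_of_beq_eq_true hd1
    have hne : f 0 ≠ g 0 := by
      intro he
      have h1 : mem DG (f 0) (g 0) := (hMSK (f 0) (g 0) (h.1.1 0 (le_refl _) (by omega))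
        (h.2.1.1 0 (le_refl _) (by omega))).2.2.2.2.2.1.2 he
      have h2 := mem_and hm h1
      rw [hz] at h2
      exact not_mem_zero h2
    cases N with
    | zero =>
      refine ⟨by omega, ?_⟩
      intro m hm'
      obtain rfl : m = 0 := by omega
      exact hne
    | succ N =>
      have hs := step hPRS F f g N h hm
      have h1 := ih _ (fun n => f (1 + n)) (fun n => g (1 + n)) N (agr_shift h (by omega)) hd2 hs
      refine ⟨by omega, ?_⟩
      intro m hm'
      rcases Nat.eq_zero_or_pos m with h0 | h0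
      · rw [h0]; exact hne
      · have h2 := h1.2 (m - 1) (by omega)
        have h3 : 1 + (m - 1) = m := by omega
        simp only [h3] at h2
        exact h2

theorem leave (hMSK : Stmt_MSK) (hPRS : Stmt_PRS) (hKDV : Stmt_KDV) (f g : ℕ → ℕ) (N a : ℕ) (h : Agr f g N)
    (ha : a + 1 ≤ N) (he : f a = g a) (hne : f (a + 1) ≠ g (a + 1)) :
    N - (a + 1) < 76 ∧ ∀ m, a + 1 ≤ m → m ≤ N → f m ≠ g m := by
  unfold Stmt_KDV withP at hKDV
  simp only [force_eq] at hKDV
  have hv := h.1.1 a (by omega) (by omega)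
  have hx := h.2.1.1 a (by omega) (by omega)
  have hv1 := h.1.1 (a + 1) (by omega) (by omega)
  have hx1 := h.2.1.1 (a + 1) (by omega) (by omega)
  have h1 : mem DG (f a) (g a) := (hMSK (f a) (g a) hv hx).2.2.2.2.2.1.2 he
  have h2 := step hPRS DG (fun n => f (a + n)) (fun n => g (a + n)) (N - (a + 1))
    (agr_shift h (by omega)) h1
  have h3 : mem FUL (f (a + 1)) (g (a + 1)) := (hMSK _ _ hv1 hx1).2.2.2.2.1
  have h4 : ¬ mem DG (f (a + 1)) (g (a + 1)) := fun hc => hne ((hMSK _ _ hv1 hx1).2.2.2.2.2.1.1 hc)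
  have h5 := mem_and h2 (mem_xor h3 h4)
  have h6 := main hMSK hPRS 76 _ (fun n => f (a + 1 + n)) (fun n => g (a + 1 + n)) (N - (a + 1))
    (agr_shift h (by omega)) hKDV h5
  refine ⟨h6.1, ?_⟩
  intro m hm hm'
  have h7 := h6.2 (m - (a + 1)) (by omega)
  have h8 : a + 1 + (m - (a + 1)) = m := by omega
  simp only [h8] at h7
  exact h7

end DIV_

theorem div_proof (hMSK : Stmt_MSK) (hPRS : Stmt_PRS) (hKDV : Stmt_KDV) : Stmt_DIV := by
  intro f g N h
  refine ⟨?_, ?_⟩
  · intro k l m hkm hml hlN hk hl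
    have key : ∀ j, k + j ≤ l → f (k + j) = g (k + j) := by
      intro j
      induction j with
      | zero => intro _; exact hk
      | succ j ih =>
        intro hj
        by_contra hne
        exact (DIV_.leave hMSK hPRS hKDV f g N (k + j) h (by omega) (ih (by omega)) hne).2 l (by omega) hlN hl
    have := key (m - k) (by omega)
    rwa [show k + (m - k) = m by omega] at this
  · intro k hk hkN
    by_contra hne
    have := (DIV_.leave hMSK hPRS hKDV f g N k h (by omega) hk hne).1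
    omega

end Pool.Agent.SSH
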