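import Pool.Agent.SSH.Stmts

set_option autoImplicit false

namespace Pool.Agent.SSH

namespace EAQ_

def J (k : ℕ) : ℕ := (4 ^ k - 1) / 3

theorem J_spec (k : ℕ) : 3 * J k + 1 = 4 ^ k ∧ J (k + 1) = 4 * J k + 1 := by
  induction k with
  | zero => constructor <;> decide
  | succ n ih =>
    obtain ⟨h1, h2⟩ := ih
    have h3 : 3 * J (n + 1) + 1 = 4 ^ (n + 1) := by
      rw [h2, pow_succ]; omega
    refine ⟨h3, ?_⟩
    have h4 : 4 ^ (n + 1 + 1) - 1 = 3 * (4 * J (n + 1) + 1) := by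
      rw [pow_succ 4 (n + 1)]; omega
    show (4 ^ (n + 1 + 1) - 1) / 3 = _
    rw [h4]
    exact Nat.mul_div_cancel_left _ (by norm_num)

theorem J_add (a b : ℕ) : J (a + b) = 4 ^ a * J b + J a := by
  have h1 := (J_spec a).1
  have h2 := (J_spec b).1
  have h3 := (J_spec (a + b)).1
  have h4 : 4 ^ a * (3 * J b + 1) = 4 ^ a * 4 ^ b := by rw [h2]
  have h5 : 4 ^ a * (3 * J b + 1) = 3 * (4 ^ a * J b) + 4 ^ a := by ring
  rw [pow_add] at h3
  omega

theorem tmJ (hT : Stmt_TMB) (k : ℕ) : tm (J k) = k % 2 := by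
  induction k with
  | zero => decide
  | succ n ih =>
    rw [(J_spec n).2]
    have h1 : 4 * J n + 1 = 2 * (2 * J n) + 1 := by ring
    rw [h1, hT.2.1, hT.1, ih]
    omega

theorem key (hT : Stmt_TMB) (l u v : ℕ) (hv : v < 2 ^ l) :
    tm (2 ^ (l + 1) * u + v + 2 ^ l) = (1 - tm u + tm v) % 2 := by
  have h1 : 2 ^ (l + 1) * u + v + 2 ^ l = 2 ^ l * (2 * u + 1) + v := by rw [pow_succ]; ring
  rw [h1, hT.2.2.2 l (2 * u + 1) v hv, hT.2.1]

theorem NNodd (i : ℕ) : NN i % 2 = 1 ∧ 101 ≤ NN i := by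
  unfold NN
  have h : 3 ^ i % 2 = 1 := by
    induction i with
    | zero => rfl
    | succ n ih => rw [pow_succ]; omega
  have h2 : 1 ≤ 3 ^ i := Nat.one_le_pow _ _ (by norm_num)
  constructor <;> omega

end EAQ_

open EAQ_ in
theorem eaq_proof (hT : Stmt_TMB) : Stmt_EAQ := by
  intro i
  obtain ⟨hodd, hge⟩ := NNodd i
  obtain ⟨N, hN⟩ : ∃ N, N = NN i := ⟨_, rfl⟩
  rw [← hN] at hodd hge
  obtain ⟨a, ha⟩ : ∃ a, a = N / 3 + 1 := ⟨_, rfl⟩
  have hJN : J N = 256 * J (N - 4) + 85 := by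
    have h := J_add 4 (N - 4)
    have h2 : 4 + (N - 4) = N := by omega
    rw [h2] at h
    have h3 : J 4 = 85 := by decide
    rw [h, h3]
    norm_num
  have htm : tm (J (N - 4)) = 1 := by rw [tmJ hT]; omega
  rcases Nat.mod_two_eq_zero_or_one i with hi | hi
  · -- even
    refine ⟨2 * J (N - 4), 2 * J (N - 4) + 2 ^ (ll i - 8), ?_, ?_, ?_, ?_⟩
    · rw [hT.1]; exact htm
    · have hl : ll i - 8 = 2 * a := by
        have : ll i = 2 * (N / 3) + 10 := by unfold ll; rw [← hN, hi]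
        rw [this, ha]; omega
      have h1 : J (N - 4) = 4 ^ a * J (N - 4 - a) + J a := by
        rw [← J_add]; congr 1; omega
      have h2 := (J_spec a).1
      have h3 : (2 : ℕ) ^ (2 * a) = 4 ^ a := by rw [pow_mul]; norm_num
      have h4 : 2 * J (N - 4) = 2 ^ (2 * a + 1) * J (N - 4 - a) + 2 * J a := by
        rw [h1, pow_succ (2 : ℕ) (2 * a), h3]; ring
      rw [hl, h4, key hT _ _ _ (by rw [h3]; omega), hT.1, tmJ hT, tmJ hT]
      omega
    · intro _
      have hE : EE i = 2 * J N := by unfold EE; rw [if_pos hi, ← hN]; rfl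
      have hl : ll i = (ll i - 8) + 8 := by unfold ll; omega
      refine ⟨by rw [hE, hJN]; ring, ?_⟩
      unfold QQ
      rw [hE, hJN]
      conv_lhs => rw [hl]
      rw [pow_add]
      have : 1 ≤ 2 ^ (ll i - 8) := Nat.one_le_pow _ _ (by norm_num)
      omega
    · intro h; omega
  · -- odd
    refine ⟨J (N - 4), J (N - 4) + 2 ^ (ll i - 8), htm, ?_, ?_, ?_⟩
    · have hl : ll i - 8 = 2 * a + 1 := by
        have : ll i = 2 * (N / 3) + 10 + 1 := by unfold ll; rw [← hN, hi]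
        rw [this, ha]; omega
      have h1 : J (N - 4) = 4 ^ (a + 1) * J (N - 5 - a) + J (a + 1) := by
        rw [← J_add]; congr 1; omega
      have h2 := (J_spec a).1
      have h2' := (J_spec a).2
      have h3 : (2 : ℕ) ^ (2 * a) = 4 ^ a := by rw [pow_mul]; norm_num
      have h4 : J (N - 4) = 2 ^ (2 * a + 1 + 1) * J (N - 5 - a) + J (a + 1) := by
        rw [h1, pow_succ (4 : ℕ) a, pow_succ (2 : ℕ) (2 * a + 1), pow_succ (2 : ℕ) (2 * a), h3]; ring
      rw [hl]
      conv_lhs => rw [h4]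
      rw [key hT _ _ _ (by rw [pow_succ (2 : ℕ) (2 * a), h3]; omega), tmJ hT, tmJ hT]
      omega
    · intro h; omega
    · intro _
      have hE : EE i = J N + 1 := by unfold EE; rw [if_neg (by omega), ← hN]; rfl
      have hl : ll i = (ll i - 8) + 8 := by unfold ll; omega
      refine ⟨by rw [hE, hJN], ?_⟩
      unfold QQ
      rw [hE, hJN]
      conv_lhs => rw [hl]
      rw [pow_add]
      have : 1 ≤ 2 ^ (ll i - 8) := Nat.one_le_pow _ _ (by norm_num)
      omega

end Pool.Agent.SSH
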