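import Pool.Agent.SSH.Stmts

/-!
# Self-shuffles (MP_018a5e_co): module EBT, the digits of `EE i`
-/

set_option autoImplicit false

namespace Pool.Agent.SSH

namespace EBT_

/-- `0101...01` -/
def A (N : ℕ) : ℕ := (4 ^ N - 1) / 3

lemma hA (N : ℕ) : 3 * A N + 1 = 4 ^ N := by
  have h : 4 ^ N % 3 = 1 := by
    rw [Nat.pow_mod]
    norm_num
  have h1 : 0 < 4 ^ N := by positivity
  unfold A
  omega

lemma hsplit (u v : ℕ) : A (u + v) = 4 ^ u * A v + A u := by
  have h1 := hA (u + v)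
  have h2 := hA u
  have h3 := hA v
  have h4 : (4 : ℕ) ^ (u + v) = 3 * (4 ^ u * A v) + 4 ^ u := by
    rw [pow_add, ← h3]
    ring
  omega

lemma h85 (v : ℕ) (hv : 4 ≤ v) : A v % 256 = 85 ∧ (2 * A v) % 256 = 170 := by
  obtain ⟨w, rfl⟩ := Nat.exists_eq_add_of_le hv
  have h := hsplit 4 w
  have h4 : A 4 = 85 := by
    have := hA 4
    norm_num at this
    omega
  rw [h4] at h
  norm_num at h
  omega

lemma dm (X q r M : ℕ) (h : X = M * q + r) (hr : r < M) : X / M = q ∧ X % M = r := by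
  subst h
  constructor
  · rw [Nat.mul_add_div (by omega), Nat.div_eq_of_lt hr, add_zero]
  · rw [Nat.mul_add_mod, Nat.mod_eq_of_lt hr]

lemma core (X q r m c : ℕ) (h : X = 2 ^ m * q + r) (h1 : 2 ≤ r) (h2 : r + 2 ≤ 2 ^ m)
    (hq : q % 256 = c) : X / 2 ^ m % 256 = c ∧ 2 ≤ X % 2 ^ m ∧ X % 2 ^ m + 2 ≤ 2 ^ m := by
  obtain ⟨h3, h4⟩ := dm X q r (2 ^ m) h (by omega)
  rw [h3, h4]
  exact ⟨hq, h1, h2⟩

end EBT_

open EBT_

theorem ebt_proof : Stmt_EBT := by
  intro i m hm hmN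
  have hEE : EE i = if i % 2 = 0 then 2 * A (NN i) else A (NN i) + 1 := rfl
  rw [hEE]
  generalize NN i = N at *
  rcases Nat.even_or_odd' m with ⟨u, rfl | rfl⟩
  · obtain ⟨v, rfl⟩ := Nat.exists_eq_add_of_le (show u ≤ N by omega)
    have hs := hsplit u v
    obtain ⟨k1, k2⟩ := h85 v (by omega)
    have hu := hA u
    have hu1 : 2 ^ (2 * u) = 4 ^ u := by rw [pow_mul]; norm_num
    have hu2 : 16 ≤ 4 ^ u := by
      calc 16 = 4 ^ 2 := by norm_num
        _ ≤ 4 ^ u := Nat.pow_le_pow_right (by norm_num) (by omega)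
    rcases Nat.mod_two_eq_zero_or_one i with hi | hi
    · rw [if_pos hi, if_pos (by omega)]
      refine core _ (2 * A v) (2 * A u) (2 * u) 170 ?_ (by omega) (by omega) k2
      rw [hs, hu1]
      ring
    · rw [if_neg (by omega), if_neg (by omega)]
      refine core _ (A v) (A u + 1) (2 * u) 85 ?_ (by omega) (by omega) k1
      rw [hs, hu1]
      ring
  · have hu1 : 2 ^ (2 * u + 1) = 2 * 4 ^ u := by rw [pow_succ, pow_mul]; norm_num; ring
    have hu2 : 4 ≤ 4 ^ u := by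
      calc 4 = 4 ^ 1 := by norm_num
        _ ≤ 4 ^ u := Nat.pow_le_pow_right (by norm_num) (by omega)
    have hu3 : 4 ^ (u + 1) = 4 * 4 ^ u := by rw [pow_succ]; ring
    have hu := hA u
    have huu := hA (u + 1)
    rcases Nat.mod_two_eq_zero_or_one i with hi | hi
    · rw [if_pos hi, if_neg (by omega)]
      obtain ⟨v, rfl⟩ := Nat.exists_eq_add_of_le (show u ≤ N by omega)
      have hs := hsplit u v
      obtain ⟨k1, k2⟩ := h85 v (by omega)
      refine core _ (A v) (2 * A u) (2 * u + 1) 85 ?_ (by omega) (by omega) k1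
      rw [hs, hu1]
      ring
    · rw [if_neg (by omega), if_pos (by omega)]
      obtain ⟨v, rfl⟩ := Nat.exists_eq_add_of_le (show u + 1 ≤ N by omega)
      have hs := hsplit (u + 1) v
      obtain ⟨k1, k2⟩ := h85 v (by omega)
      refine core _ (2 * A v) (A (u + 1) + 1) (2 * u + 1) 170 ?_ (by omega) (by omega) k2
      rw [hs, hu1, hu3]
      ring

end Pool.Agent.SSH
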