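import Pool.Agent.SSH.Stmts

/-!
# ENG: the energy of the second word
-/

set_option autoImplicit false

namespace Pool.Agent.SSH

namespace ENG_

theorem phi_lt (s : ℕ) : phi s < 64 := by
  unfold phi
  exact Nat.mod_lt _ (by norm_num)

end ENG_

theorem eng_proof (h1 : Stmt_SHB) (h2 : Stmt_SSU) (h3 : Stmt_POT) (h4 : Stmt_UPH) : Stmt_ENG := by
  intro w β hw n
  obtain ⟨-, -, -, -, -, -, h7⟩ := h1 β
  have e1 := h7 w hw wE n
  have e2 := (h2 n).2
  have e3 := (h2 (cF β n)).2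
  have f1 := (h4.1 n).1
  have f2 := (h4.1 (cF β n)).1
  have b1 := (h3.2.1 (ff n) f1).2
  have b2 := (h3.2.1 (ff (cF β n)) f2).2
  have l1 := b1.1
  have u1 := b1.2.1
  have l2 := b2.1
  have u2 := b2.2.1
  have hp := ENG_.phi_lt (run w (cT β n))
  have hp' : ((phi (run w (cT β n)) : ℕ) : ℤ) < 64 := by exact_mod_cast hp
  have hp0 : (0 : ℤ) ≤ ((phi (run w (cT β n)) : ℕ) : ℤ) := Int.natCast_nonneg _
  rw [abs_le]
  constructor <;> linarith

end Pool.Agent.SSH
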