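import Pool.Agent.SSH.Stmts

/-!
# Self-shuffles (MP_018a5e_co), module FIN
-/

set_option autoImplicit false

namespace Pool.Agent.SSH

namespace FIN_

theorem allN_of (P : ℕ → Bool) (n : ℕ) (h : allN P n = true) (m : ℕ) (hm : m < n) :
    P m = true := by
  induction n with
  | zero => omega
  | succ n ih =>
    rw [allN, Bool.and_eq_true] at h
    rcases Nat.lt_succ_iff_lt_or_eq.mp hm with h1 | h1
    · exact ih h.2 h1
    · rw [h1]; exact h.1

theorem ne_zero (a x : ℕ) (h : a.testBit x = true) : Nat.beq a 0 = false := by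
  cases hb : Nat.beq a 0 with
  | false => rfl
  | true =>
    rw [Nat.eq_of_beq_eq_true hb, Nat.zero_testBit] at h
    exact absurd h (by decide)

end FIN_

theorem FIN_proof (h1 : Stmt_POT) : Stmt_FIN := by
  intro am c F v x hv hx hf hm
  have hv0 := (h1.2.1 v hv).2.2.2.2.1
  have hx0 := (h1.2.1 x hx).2.2.2.2
  have hrow : (rowget F v).testBit x = true := by
    unfold rowget
    rw [Nat.testBit_mod_two_pow, Nat.testBit_shiftRight]
    have hm' : F.testBit (828 * v + x) = true := hm
    rw [hm']
    simp [hx]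
  have ha := FIN_.allN_of _ 828 hf v hv
  simp only [force_eq] at ha
  rw [FIN_.ne_zero _ x hrow, Bool.false_or] at ha
  have hb := FIN_.allN_of _ 48 ha (piN x) hx0.1
  have hc : (rowget F v &&& PM (piN x)).testBit x = true := by
    rw [Nat.testBit_and, hrow, hx0.2.2]
    rfl
  rw [FIN_.ne_zero _ x hc, Bool.or_false] at hb
  have e : ((c + 48 - piN v) % 48 + 48 - piN x) % 48 = (c + 96 - piN v - piN x) % 48 := by
    have := hx0.1
    omega
  rw [e] at hb
  exact hb

end Pool.Agent.SSH
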