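import Pool.Agent.SSH.Stmts

/-! # MP_018a5e_co : module FRS (forbidden sequences of returns) -/

set_option autoImplicit false

namespace Pool.Agent.SSH

namespace FRS_

theorem read (hC : Stmt_CDL) (w : ℕ → ℕ) (hT : Ter w) (v : List ℕ) : ∀ (code len t : ℕ), rdR w t v → len ≤ t →
    cd w (t - len) len = code → cd w (t - len) (frc v code len).2 = (frc v code len).1 := by
  induction v with
  | nil => intro code len t _ _ h; exact h
  | cons r v ih =>
    intro code len t hr hl h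
    obtain ⟨h1, h2⟩ := hr
    have e := (hC w hT).1 (t - len) len (rl r)
    rw [show t - len + len = t by omega, h1, h] at e
    have := ih (code * 4 ^ rl r + rc r) (len + rl r) (t + rl r) h2 (by omega)
      (by rw [show t + rl r - (len + rl r) = t - len by omega]; exact e)
    rw [show t + rl r - (len + rl r) = t - len by omega] at this
    exact this

theorem sub (hC : Stmt_CDL) (w : ℕ → ℕ) (hT : Ter w) (a L o p : ℕ) (h : o + p ≤ L) :
    cd w a L / 4 ^ (L - o - p) % 4 ^ p = cd w (a + o) p := by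
  obtain ⟨c1, c2, _, _⟩ := hC w hT
  obtain ⟨j, rfl⟩ : ∃ j, L = o + p + j := ⟨L - (o + p), by omega⟩
  rw [show o + p + j - o - p = j by omega, c1 a (o + p) j, c1 a o p]
  have hp : 0 < 4 ^ j := by positivity
  have e1 : ((cd w a o * 4 ^ p + cd w (a + o) p) * 4 ^ j + cd w (a + (o + p)) j) / 4 ^ j =
      cd w a o * 4 ^ p + cd w (a + o) p := by
    rw [Nat.add_comm, Nat.add_mul_div_right _ _ hp, Nat.div_eq_of_lt (c2 _ _), Nat.zero_add]
  have e2 : (cd w a o * 4 ^ p + cd w (a + o) p) % 4 ^ p = cd w (a + o) p := by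
    rw [Nat.add_comm, Nat.add_mul_mod_self_right, Nat.mod_eq_of_lt (c2 _ _)]
  rw [e1, e2]

end FRS_

theorem frs_proof (hA : Stmt_ACR) (hC : Stmt_CDL) (hK : Stmt_KFR) : Stmt_FRS := by
  intro w t hs hT hr x hx hrd
  obtain ⟨_, _, _, _, h5, h6⟩ := hA w hs hT t
  obtain ⟨k1, k2, k3⟩ := hK
  rw [hr, k2] at h5
  rw [hr, k2, k3] at h6
  have hrd' := FRS_.read hC w hT x.1 hubc 94 t hrd h5 h6
  have hf : frC x.1 x.2.1 x.2.2 = true := by
    rw [List.all_eq_true] at k1
    exact k1 x hx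
  unfold frC at hf
  simp only [Bool.and_eq_true] at hf
  obtain ⟨f1, f2, f3⟩ := hf
  have g1 : 0 < x.2.2 := Nat.le_of_ble_eq_true f1
  have g2 := Nat.le_of_ble_eq_true f2
  have g3 := Nat.eq_of_beq_eq_true f3
  generalize (frc x.1 hubc 94).2 = L at *
  rw [← hrd'] at g3
  have s1 := FRS_.sub hC w hT (t - 94) L x.2.1 x.2.2 (by omega)
  have s2 := FRS_.sub hC w hT (t - 94) L (x.2.1 + x.2.2) x.2.2 (by omega)
  rw [show L - (x.2.1 + x.2.2) - x.2.2 = L - x.2.1 - 2 * x.2.2 by omega] at s2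
  rw [s1, s2] at g3
  obtain ⟨k, hk, hne⟩ := hs (t - 94 + x.2.1) x.2.2 g1
  apply hne
  have d1 := (hC w hT).2.2.1 (t - 94 + x.2.1) x.2.2 k hk
  have d2 := (hC w hT).2.2.1 (t - 94 + (x.2.1 + x.2.2)) x.2.2 k hk
  rw [← d1, g3, d2]
  congr 1
  omega

end Pool.Agent.SSH
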