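import Pool.Agent.SSH.Stmts

/-!
# Squad SSH, module GAM: the invariant modulo 48
-/

set_option autoImplicit false

namespace Pool.Agent.SSH

theorem gam_proof (hP : Stmt_POT) : Stmt_GAM := by
  intro w g a b hg hl m
  induction m with
  | zero =>
    intro h1 _
    have : a = 0 := by omega
    subst this
    simp
  | succ m ih =>
    intro h1 h2
    by_cases hm : m + 1 = a
    · rw [hm]
      simp
    · have ha : a ≤ m := by omega
      have hb : m < b := by omega
      have h := ih ha hb.le
      have hp := (hP.1 (g m) (g (m + 1)) (hg.1 m ha hb.le) (hg.1 (m + 1) h1 h2)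
        (hg.2 m ha hb)).2.1
      rw [hl m ha hb] at hp
      have e : gam w g (m + 1) - gam w g a =
          (gam w g m - gam w g a) - (piP (g (m + 1)) - piP (g m) - wO (w m)) := by
        unfold gam SS
        rw [Finset.sum_range_succ]
        ring
      rw [e]
      exact dvd_sub h hp

end Pool.Agent.SSH
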