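import Pool.Agent.SSH.Stmts

set_option autoImplicit false

namespace Pool.Agent.SSH

namespace GGF_

lemma mono (h : Stmt_GRO) : StrictMono ss := by
  apply strictMono_nat_of_lt_succ
  intro i
  have h5 := (h i).2.2.2.2.1
  generalize ss i = a at h5 ⊢
  generalize ss (i + 1) = b at h5 ⊢
  generalize RR i = c at h5
  generalize RR (i + 1) = d at h5
  omega

lemma jle (h : Stmt_GRO) (n k : ℕ) : jj n ≤ k ↔ n < ss k := by
  have hm := mono h
  constructor
  · intro hj
    by_contra hn
    push Not at hn
    have hsub : Finset.range (k + 1) ⊆ (Finset.range (n + 1)).filter (fun i => ss i ≤ n) := by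
      intro i hi
      rw [Finset.mem_range] at hi
      rw [Finset.mem_filter, Finset.mem_range]
      have h1 : ss i ≤ ss k := hm.monotone (by omega)
      have h2 : i ≤ ss i := hm.id_le i
      exact ⟨by omega, by omega⟩
    have hc := Finset.card_le_card hsub
    rw [Finset.card_range] at hc
    unfold jj at hj
    omega
  · intro hn
    have hsub : (Finset.range (n + 1)).filter (fun i => ss i ≤ n) ⊆ Finset.range k := by
      intro i hi
      rw [Finset.mem_filter, Finset.mem_range] at hi
      rw [Finset.mem_range]
      by_contra hik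
      push Not at hik
      have h1 : ss k ≤ ss i := hm.monotone hik
      have h2 := hi.2
      omega
    have hc := Finset.card_le_card hsub
    rw [Finset.card_range] at hc
    exact hc

end GGF_

open GGF_ in
theorem ggf_proof (h : Stmt_GRO) : Stmt_GGF := by
  have hm := mono h
  have hj := jle h
  have h0 : ss 0 = dd 0 := by
    have h2 := (h 0).2.1
    rw [Finset.range_zero, Finset.sum_empty] at h2
    generalize ss 0 = a at h2 ⊢
    generalize dd 0 = b at h2 ⊢
    omega
  refine ⟨?_, ?_, ?_, h0, ?_, hj⟩
  · intro i n h1 h2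
    have a : jj n ≤ i + 1 := (hj n (i + 1)).2 h2
    have b : ¬ jj n ≤ i := fun hh => by
      have := (hj n i).1 hh
      omega
    have c : jj n = i + 1 := by omega
    refine ⟨c, ?_⟩
    have h3 := (h i).1
    have h4 := (h i).2.1
    unfold GG
    rw [c, Finset.sum_range_succ]
    have h5 : gp i = ee i - dd i := rfl
    rw [h5]
    generalize (∑ j ∈ Finset.range i, gp j) = x at h4 ⊢
    generalize ss i = s at h4 h1 ⊢
    generalize ee i = e at h3 ⊢
    generalize dd i = d at h3 h4 ⊢
    omega
  · intro n h1
    have a : jj n ≤ 0 := (hj n 0).2 h1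
    have c : jj n = 0 := by omega
    refine ⟨c, ?_⟩
    unfold GG
    rw [c, Finset.range_zero, Finset.sum_empty, add_zero]
  · intro i
    have h3 := (h i).1
    have h4 := (h i).2.1
    have h6 := (h (i + 1)).2.1
    have h7 := hm (Nat.lt_succ_self i)
    rw [Finset.sum_range_succ] at h6
    have h5 : gp i = ee i - dd i := rfl
    rw [h5] at h6
    rw [Nat.succ_eq_add_one] at h7
    generalize (∑ j ∈ Finset.range i, gp j) = x at h4 h6
    generalize ss (i + 1) = t at h6 h7 ⊢
    generalize dd (i + 1) = f at h6 ⊢
    generalize ss i = s at h4 h7 ⊢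
    generalize ee i = e at h3 h6 ⊢
    generalize dd i = d at h3 h4 h6
    omega
  · intro n m hnm
    rw [hj]
    have : ¬ jj m ≤ jj m - 1 ∨ jj m = 0 := by omega
    have h1 : m < ss (jj m) := (hj m _).1 le_rfl
    omega

end Pool.Agent.SSH
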