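import Pool.Agent.SSH.Stmts

/-!
# Self-shuffles (MP_018a5e_co): module GRO, the growth of the positions of the junctions
-/

set_option autoImplicit false
set_option maxRecDepth 100000

namespace Pool.Agent.SSH

namespace GRO_

/-- `4 ^ NN i` -/
def q (i : ℕ) : ℕ := 4 ^ NN i

theorem NN_succ (i : ℕ) : NN (i + 1) = 3 * NN i := by
  unfold NN; rw [pow_succ]; ring

theorem NN_ge (i : ℕ) : 101 ≤ NN i := by
  unfold NN
  have : 1 ≤ 3 ^ i := Nat.one_le_pow _ _ (by norm_num)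
  omega

theorem q_eq (i : ℕ) : q i = 2 ^ (2 * NN i) := by
  unfold q; rw [pow_mul]; norm_num

theorem q_succ (i : ℕ) : q (i + 1) = q i * (q i * q i) := by
  unfold q; rw [NN_succ, show 3 * NN i = NN i + (NN i + NN i) by ring, pow_add, pow_add]

theorem q_ge (i : ℕ) : 2 ^ 60 ≤ q i := by
  rw [q_eq]
  exact Nat.pow_le_pow_right (by norm_num) (by have := NN_ge i; omega)

theorem q_mod (i : ℕ) : q i % 3 = 1 := by
  unfold q; rw [Nat.pow_mod]; norm_num

theorem EE_bd (i : ℕ) : q i ≤ 3 * EE i + 1 ∧ 3 * EE i ≤ 2 * q i := by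
  have h1 := q_mod i
  have h2 := q_ge i
  unfold EE
  change _ ≤ 3 * (if i % 2 = 0 then 2 * ((q i - 1) / 3) else (q i - 1) / 3 + 1) + 1 ∧
    3 * (if i % 2 = 0 then 2 * ((q i - 1) / 3) else (q i - 1) / 3 + 1) ≤ 2 * q i
  generalize q i = Q at *
  split_ifs <;> omega

theorem cL_bd (i : ℕ) : 39 ≤ cL i ∧ cL i ≤ 369 := by
  unfold cL; split_ifs <;> omega

theorem ll_bd (i : ℕ) : 76 ≤ ll i ∧ ll i + 16 ≤ 2 * NN i := by
  unfold ll
  have := NN_ge i
  constructor <;> omega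

theorem ll_succ (i : ℕ) : 2 * NN i + 10 ≤ ll (i + 1) ∧ ll (i + 1) ≤ 2 * NN i + 11 := by
  unfold ll
  rw [NN_succ, Nat.mul_div_cancel_left _ (by norm_num)]
  constructor <;> omega

theorem pll (i : ℕ) : 65536 * 2 ^ ll i ≤ q i ∧ 4 ≤ 2 ^ ll i := by
  constructor
  · rw [q_eq, show (65536 : ℕ) = 2 ^ 16 by norm_num, ← pow_add]
    exact Nat.pow_le_pow_right (by norm_num) (by have := (ll_bd i).2; omega)
  · calc 4 = 2 ^ 2 := by norm_num
      _ ≤ 2 ^ ll i := Nat.pow_le_pow_right (by norm_num) (by have := (ll_bd i).1; omega)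

theorem QQ_eq (i : ℕ) : QQ i + 2 = EE i + 2 ^ ll i := by
  unfold QQ
  have := (pll i).2
  omega

theorem key0 (S s d Q : ℕ) (h1 : S + s = d) (h2 : S = 0) (h3 : 42 * Q ≤ d + 3) (h4 : 2 ^ 60 ≤ Q) :
    16 * Q ≤ s := by omega

theorem key1 (s Q R : ℕ) (h1 : 16 * Q ≤ s) (h2 : 2 ^ 60 ≤ Q) (h3 : R = 5000) :
    R + 1000 ≤ s := by omega

theorem RR_zero (i : ℕ) (hi : i = 0) : RR i = 5000 := by
  unfold RR
  exact if_pos hi

theorem gp_le (i : ℕ) : gp i ≤ ee i := Nat.sub_le _ _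

section

variable (h : Stmt_WKH)

include h

theorem HH_bd (A : ℕ) : 126 * A ≤ HH tt A ∧ HH tt A ≤ 406 * A := by
  have h1 := h tt 0 A (Nat.zero_le _)
  have h2 : HH tt 0 = 0 := by simp [HH]
  rw [h2] at h1
  constructor <;> omega

theorem dd_bd (i : ℕ) : 42 * q i ≤ dd i + 3 ∧ 3 * dd i ≤ 812 * q i + 1107 := by
  have h1 := HH_bd h (EE i)
  have h2 := EE_bd i
  have h3 := cL_bd i
  unfold dd
  constructor <;> omega

theorem ee_bd (i : ℕ) : 3 * ee i ≤ 813 * q i + 1143 ∧ dd i < ee i := by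
  have h1 := HH_bd h (QQ i)
  have h2 := EE_bd i
  have h3 := cL_bd i
  have h4 := pll i
  have h5 := QQ_eq i
  have h6 := h tt (EE i) (QQ i) (by omega)
  unfold ee dd cR
  constructor <;> omega

theorem ee_dd (i : ℕ) : ee i ≤ dd (i + 1) := by
  have h1 := (ee_bd h i).1
  have h2 := (dd_bd h (i + 1)).1
  rw [q_succ] at h2
  have h3 := q_ge i
  have h4 : 1000 * q i ≤ q i * q i := Nat.mul_le_mul_right _ (by omega)
  have h5 : 1 * (q i * q i) ≤ q i * (q i * q i) := Nat.mul_le_mul_right _ (by omega)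
  generalize q i * (q i * q i) = a at *
  generalize q i * q i = b at *
  omega

theorem sum_bd (i : ℕ) : (∑ j ∈ Finset.range (i + 1), gp j) ≤ ee i := by
  induction i with
  | zero =>
    rw [Finset.sum_range_one]
    exact gp_le 0
  | succ i ih =>
    rw [Finset.sum_range_succ]
    have h1 := ee_dd h i
    have h2 := (ee_bd h (i + 1)).2
    have h3 : gp (i + 1) = ee (i + 1) - dd (i + 1) := rfl
    omega

theorem sum_dd (i : ℕ) : (∑ j ∈ Finset.range i, gp j) ≤ dd i := by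
  cases i with
  | zero => simp
  | succ i => exact (sum_bd h i).trans (ee_dd h i)

theorem ss_eq (i : ℕ) : (∑ j ∈ Finset.range i, gp j) + ss i = dd i := by
  have := sum_dd h i
  unfold ss
  omega

theorem ss_lo (i : ℕ) : 16 * q i ≤ ss i := by
  cases i with
  | zero =>
    exact key0 _ _ _ _ (ss_eq h 0) (Finset.sum_range_zero _) (dd_bd h 0).1 (q_ge 0)
  | succ i =>
    have h1 := ss_eq h (i + 1)
    have h2 := (dd_bd h (i + 1)).1
    have h3 := q_ge i
    have h4 := sum_bd h i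
    have h5 := (ee_bd h i).1
    rw [q_succ] at h2 ⊢
    have h6 : 1000 * q i ≤ q i * q i := Nat.mul_le_mul_right _ (by omega)
    have h7 : 1 * (q i * q i) ≤ q i * (q i * q i) := Nat.mul_le_mul_right _ (by omega)
    generalize q i * (q i * q i) = a at *
    generalize q i * q i = b at *
    omega

theorem ss_hi (i : ℕ) : ss i < 512 * q i := by
  have h1 := ss_eq h i
  have h2 := (dd_bd h i).2
  have h3 := q_ge i
  omega

theorem RR_succ_bd (i : ℕ) : RR (i + 1) ≤ 512 * q i * (2 ^ 25 * q i + 1) + 5000 := by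
  have h1 : RR (i + 1) = ss i * (2 ^ (ll (i + 1) + 14) + 1) + 5000 := by
    unfold RR
    rw [if_neg (Nat.succ_ne_zero i), Nat.add_sub_cancel]
  rw [h1]
  have h2 : 2 ^ (ll (i + 1) + 14) ≤ 2 ^ 25 * q i := by
    rw [q_eq, ← pow_add]
    exact Nat.pow_le_pow_right (by norm_num) (by have := (ll_succ i).2; omega)
  exact Nat.add_le_add_right (Nat.mul_le_mul (ss_hi h i).le (Nat.add_le_add_right h2 1)) _

omit h in
theorem bigk (x b a : ℕ) (h3 : 2 ^ 60 ≤ x) (h6 : 2 ^ 60 * x ≤ b) (h7 : 2 ^ 60 * b ≤ a) :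
    2 ^ 34 * b + 512 * x + 5000 + 10000 * (1024 * x + 10000) + 1000 ≤ 16 * a := by
  have e : 10000 * (1024 * x + 10000) = 10240000 * x + 100000000 := by ring
  rw [e]
  norm_num at h3 h6 h7 ⊢
  linarith

omit h in
theorem bigr (x : ℕ) : 512 * x * (2 ^ 25 * x + 1) = 2 ^ 34 * (x * x) + 512 * x := by ring

omit h in
theorem big (i : ℕ) : 512 * q i * (2 ^ 25 * q i + 1) + 5000 + 10000 * (1024 * q i + 10000) + 1000
    ≤ 16 * q (i + 1) := by
  rw [q_succ, bigr]
  have h3 := q_ge i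
  exact bigk _ _ _ h3 (Nat.mul_le_mul_right _ h3) (Nat.mul_le_mul_right _ h3)

omit h in
theorem key2 (R s t B C : ℕ) (h1 : R ≤ B + 5000) (h2 : B + 5000 + C + 1000 ≤ t) (h3 : t ≤ s) :
    R + 1000 ≤ s := by omega

omit h in
theorem key3 (s R R' t x B s' : ℕ) (h0 : s < 512 * x) (h4 : R + 1000 ≤ s) (h1 : R' ≤ B + 5000)
    (h2 : B + 5000 + 10000 * (1024 * x + 10000) + 1000 ≤ t) (h3 : t ≤ s') :
    10000 * (s + R + 10000) + R' ≤ s' := by
  have e : 10000 * (1024 * x + 10000) = 10240000 * x + 100000000 := by ring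
  have e' : 10000 * (s + R + 10000) = 10000 * (s + R) + 100000000 := by ring
  rw [e] at h2
  rw [e']
  linarith

theorem RR_ss (i : ℕ) : RR i + 1000 ≤ ss i := by
  cases i with
  | zero =>
    exact key1 _ _ _ (ss_lo h 0) (q_ge 0) (RR_zero 0 rfl)
  | succ i =>
    exact key2 _ _ _ _ _ (RR_succ_bd h i) (big i) (ss_lo h (i + 1))

end

end GRO_

open GRO_

theorem gro_proof (h : Stmt_WKH) : Stmt_GRO := by
  intro i
  have hlo := ss_lo h i
  have hhi := ss_hi h i
  have hr := RR_ss h i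
  refine ⟨(ee_bd h i).2, ss_eq h i, ?_, ?_, ?_, ?_, (ll_bd i).1, (ll_bd i).2, hr, ?_⟩
  · rw [pow_add, ← q_eq]
    omega
  · rw [pow_add, ← q_eq]
    omega
  · exact key3 _ _ _ _ _ _ _ hhi hr (RR_succ_bd h i) (big i) (ss_lo h (i + 1))
  · have h1 : 2 ^ (2 * NN i + 10) ≤ 2 ^ ll (i + 1) :=
      Nat.pow_le_pow_right (by norm_num) (ll_succ i).1
    rw [pow_add, ← q_eq] at h1
    have h2 := q_ge i
    omega
  · unfold RR
    split_ifs
    · exact le_rfl
    · exact Nat.le_add_left _ _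

end Pool.Agent.SSH
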