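import Pool.Agent.SSH.Stmts

/-!
# Self-shuffles (MP_018a5e_co): module HSQ, the sequence of the returns
-/

set_option autoImplicit false

namespace Pool.Agent.SSH

namespace HSQ_

lemma rl_bd (r : ℕ) (h : r < 6) : 170 ≤ rl r ∧ rl r ≤ 362 := by
  interval_cases r <;> (unfold rl; constructor <;> norm_num)

lemma mono (w : ℕ → ℕ) (a b c d : ℕ) (h : Zl w a b) (h1 : a ≤ c) (h2 : d ≤ b) : Zl w c d :=
  fun n hn1 hn2 => h n (by omega) (by omega)

lemma chain (w : ℕ → ℕ) (a b : ℕ) (hZ : Zl w a b)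
    (hH : ∀ n, run w n = 168 → Zl w n (n + 400) → ∃ r, r < 6 ∧ cd w n (rl r) = rc r ∧
      run w (n + rl r) = 168) : ∀ (f t0 : ℕ), a ≤ t0 → t0 ≤ b → b - t0 < f → run w t0 = 168 →
    ∃ (J : ℕ) (t r : ℕ → ℕ), t 0 = t0 ∧ (∀ j, j ≤ J → run w (t j) = 168 ∧ t j ≤ b) ∧
      (∀ j, j < J → r j < 6 ∧ cd w (t j) (rl (r j)) = rc (r j) ∧ t (j + 1) = t j + rl (r j)) ∧
      b < t J + 400 := by
  intro f
  induction f with
  | zero =>
    intro t0 _ _ h
    omega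
  | succ f ih =>
    intro t0 h1 h2 h3 h4
    by_cases hb : b < t0 + 400
    · exact ⟨0, fun _ => t0, fun _ => 0, rfl, fun j _ => ⟨h4, h2⟩, fun j hj => by omega, hb⟩
    · obtain ⟨r0, hr0, hc, hr⟩ := hH t0 h4 (mono w a b _ _ hZ h1 (by omega))
      obtain ⟨hl1, hl2⟩ := rl_bd r0 hr0
      obtain ⟨J, t, r, k1, k2, k3, k4⟩ := ih (t0 + rl r0) (by omega) (by omega) (by omega) hr
      refine ⟨J + 1, fun j => Nat.casesOn j t0 t, fun j => Nat.casesOn j r0 r, rfl, ?_, ?_, k4⟩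
      · intro j hj
        cases j with
        | zero => exact ⟨h4, h2⟩
        | succ j => exact k2 j (by omega)
      · intro j hj
        cases j with
        | zero =>
          refine ⟨hr0, hc, ?_⟩
          exact k1
        | succ j => exact k3 j (by omega)

end HSQ_

open HSQ_

theorem hsq_proof (hRNK : Stmt_RNK) (hHUB : Stmt_HUB) (_hRPH : Stmt_RPH) : Stmt_HSQ := by
  intro w a b hS hT hZ hab
  obtain ⟨hH1, hH2⟩ := hHUB w hS hT
  obtain ⟨n, hn1, hn2, hn3⟩ := hRNK w a b hS hT hZ (by omega)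
  have h0 : ∃ t0, a ≤ t0 ∧ t0 ≤ a + 920 ∧ run w t0 = 168 := by
    rcases hn3 with h | h
    · exact ⟨n, hn1, by omega, h⟩
    · obtain ⟨d, hd1, hd2, hd3⟩ := hH1 n h (mono w a b _ _ hZ hn1 (by omega))
      exact ⟨n + d, by omega, by omega, hd3⟩
  obtain ⟨t0, h1, h2, h3⟩ := h0
  obtain ⟨J, t, r, k1, k2, k3, k4⟩ := chain w a b hZ hH2 (b - t0 + 1) t0 h1 (by omega) (by omega) h3
  exact ⟨J, t, r, by omega, by omega, k2, k3, k4⟩

end Pool.Agent.SSH
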