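import Pool.Agent.SSH.Stmts

set_option autoImplicit false

/-!
# Squad SSH, module HUB: from the certificate trees to the hub
-/

namespace Pool.Agent.SSH

namespace HUB_

theorem orT {a b : Bool} (h : (a || b) = true) : a = true ∨ b = true := by
  cases a
  · exact Or.inr h
  · exact Or.inl rfl

theorem andT {a b : Bool} (h : (a && b) = true) : a = true ∧ b = true := by
  cases a
  · exact absurd h Bool.false_ne_true
  · exact ⟨rfl, h⟩

theorem goal_case {code len n : ℕ} (r : ℕ) (hl : n = 94 + rl r)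
    (h : (Nat.beq len n && Nat.beq (code % 4 ^ rl r) (rc r)) = true) :
    len = 94 + rl r ∧ code % 4 ^ rl r = rc r := by
  obtain ⟨h1, h2⟩ := andT h
  exact ⟨(Nat.eq_of_beq_eq_true h1).trans hl, Nat.eq_of_beq_eq_true h2⟩

theorem goal_cases (code len : ℕ) (h : goalH code len = true) :
    ∃ r, r < 6 ∧ len = 94 + rl r ∧ code % 4 ^ rl r = rc r := by
  unfold goalH at h
  rcases orT h with h | h
  · exact ⟨0, by norm_num, goal_case 0 rfl h⟩
  rcases orT h with h | h
  · exact ⟨1, by norm_num, goal_case 1 rfl h⟩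
  rcases orT h with h | h
  · exact ⟨2, by norm_num, goal_case 2 rfl h⟩
  rcases orT h with h | h
  · exact ⟨3, by norm_num, goal_case 3 rfl h⟩
  rcases orT h with h | h
  · exact ⟨4, by norm_num, goal_case 4 rfl h⟩
  · exact ⟨5, by norm_num, goal_case 5 rfl h⟩

end HUB_

open HUB_ in
theorem hub_proof (hACR : Stmt_ACR) (hCDL : Stmt_CDL) (hCHK : Stmt_CHK) (hKHB : Stmt_KHB)
    (hKS5 : Stmt_KS5) (hKFR : Stmt_KFR) : Stmt_HUB := by
  intro w hw ht
  refine ⟨fun n hn hz => ?_, fun n hn hz => ?_⟩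
  · obtain ⟨-, -, -, -, h5, h6⟩ := hACR w hw ht n
    rw [hn, hKS5.2] at h5 h6
    obtain ⟨d, h1, h2, h3, -⟩ := hCHK w hw ht 9 (fun _ _ => true) 400 592 (wc 592) 9 TF n hKS5.1
      hn h5 le_rfl h6 hz
    exact ⟨d, by omega, h1, h2⟩
  · obtain ⟨-, -, -, -, h5, h6⟩ := hACR w hw ht n
    rw [hn, hKFR.2.1] at h5 h6
    rw [hKFR.2.2] at h6
    obtain ⟨d, h1, h2, h3, h4⟩ := hCHK w hw ht 94 goalH 400 168 hubc 94 TH n hKHB
      hn h5 le_rfl h6 hz
    obtain ⟨r, hr, hl, hc⟩ := goal_cases _ _ h4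
    have hd : d = rl r := by omega
    subst hd
    refine ⟨r, hr, ?_, h2⟩
    obtain ⟨c1, c2, -, -⟩ := hCDL w ht
    rw [c1 (n - 94) 94 (rl r), Nat.sub_add_cancel h5, Nat.mul_add_mod_self_right,
      Nat.mod_eq_of_lt (c2 n (rl r))] at hc
    exact hc

end Pool.Agent.SSH
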