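import Pool.Agent.SSH.Stmts

/-!
# Module JCT: the junctions in a long square of `UU`
-/

set_option autoImplicit false

namespace Pool.Agent.SSH

namespace JCT_

theorem gap (hGRO : Stmt_GRO) (i : ℕ) : 10000 * ss i + 100000000 ≤ ss (i + 1) := by
  have h := (hGRO i).2.2.2.2.1
  omega

theorem mono (hGRO : Stmt_GRO) (i : ℕ) : ∀ d, 10000 * ss i + 100000000 ≤ ss (i + 1 + d) := by
  intro d
  induction d with
  | zero => exact gap hGRO i
  | succ d ih =>
    have h := gap hGRO (i + 1 + d)
    have e : i + 1 + (d + 1) = i + 1 + d + 1 := by omega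
    rw [e]
    omega

theorem lt_gap (hGRO : Stmt_GRO) (i j : ℕ) (h : i < j) : 10000 * ss i + 100000000 ≤ ss j := by
  have h1 := mono hGRO i (j - i - 1)
  have e : i + 1 + (j - i - 1) = j := by omega
  rw [e] at h1
  exact h1

theorem uniq (hGRO : Stmt_GRO) (n i j : ℕ) (h1 : n < ss i) (h2 : ss i ≤ n + 54) (h3 : n < ss j)
    (h4 : ss j ≤ n + 54) : i = j := by
  rcases lt_trichotomy i j with h | h | h
  · have := lt_gap hGRO i j h
    omega
  · exact h
  · have := lt_gap hGRO j i h
    omega

theorem cLpar (i j : ℕ) (h : i % 2 = j % 2) : cL i = cL j := by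
  unfold cL
  rw [h]

theorem badn (hGRO : Stmt_GRO) (hUPH : Stmt_UPH) (hBAD : Stmt_BAD) (i e n : ℕ) (he : e = 1 ∨ e = 51)
    (heq : ∀ k, k < 55 → UU (n + k) = UU (ss i - e + k))
    (hp : ∀ i', n < ss i' → ss i' ≤ n + 54 → i' % 2 = (i + 1) % 2) : False := by
  obtain ⟨h1, h2, h3⟩ := hUPH
  refine hBAD i e (fun k => ff (n + k)) he ?_ ?_
  · intro k hk
    refine ⟨(h1 _).1, ?_⟩
    rw [← (h1 _).2.1]
    exact heq k hk
  · by_cases hj : ∃ i', n < ss i' ∧ ss i' ≤ n + 54
    · obtain ⟨i', ha, hb⟩ := hj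
      right
      have hpar := hp i' ha hb
      have hcL : cL i' = cL (i + 1) := cLpar _ _ hpar
      have hcR : cR i' = cR (i + 1) := by
        unfold cR
        rw [hcL]
      refine ⟨ss i' - n - 1, by omega, ?_, ?_, ?_⟩
      · show ff (n + (ss i' - n - 1)) = _
        have e1 : n + (ss i' - n - 1) = ss i' - 1 := by omega
        rw [e1, (h3 i').2.1, hcL]
      · show ff (n + (ss i' - n - 1 + 1)) = _
        have e1 : n + (ss i' - n - 1 + 1) = ss i' := by omega
        rw [e1, (h3 i').2.2, hcR]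
      · intro k hk hne
        show nxt (ff (n + k)) (ff (n + (k + 1))) = true
        have e1 : n + (k + 1) = n + k + 1 := by omega
        rw [e1]
        apply h2
        intro j hj
        have hij := uniq hGRO n i' j ha hb (by omega) (by omega)
        subst hij
        omega
    · left
      intro k hk
      show nxt (ff (n + k)) (ff (n + (k + 1))) = true
      have e1 : n + (k + 1) = n + k + 1 := by omega
      rw [e1]
      apply h2
      intro j hj'
      apply hj
      exact ⟨j, by omega, by omega⟩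

/-- no window in the first half -/
theorem J1 (hGRO : Stmt_GRO) (hUPH : Stmt_UPH) (hBAD : Stmt_BAD) (a p : ℕ) (hp : 240 ≤ p)
    (hsq : ∀ k, k < p → UU (a + k) = UU (a + p + k)) (i e : ℕ) (he : e = 1 ∨ e = 51)
    (h1 : a + e ≤ ss i) (h2 : ss i + 55 ≤ a + p + e) : False := by
  have heq : ∀ k, k < 55 → UU (ss i - e + p + k) = UU (ss i - e + k) := by
    intro k hk
    have h := hsq (ss i - e + k - a) (by omega)
    have e1 : a + (ss i - e + k - a) = ss i - e + k := by omega
    have e2 : a + p + (ss i - e + k - a) = ss i - e + p + k := by omega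
    rw [e1, e2] at h
    exact h.symm
  by_cases hj : ∃ i', ss i - e + p < ss i' ∧ ss i' ≤ ss i - e + p + 54 ∧ i' % 2 = i % 2
  · obtain ⟨i', ha, hb, hc⟩ := hj
    have hii : i < i' := by
      rcases lt_trichotomy i i' with h | h | h
      · exact h
      · subst h
        omega
      · have := lt_gap hGRO i' i h
        omega
    have hii2 : i + 2 ≤ i' := by omega
    obtain ⟨j, hj⟩ : ∃ j, i' = j + 1 := ⟨i' - 1, by omega⟩
    subst hj
    have g1 := lt_gap hGRO i j (by omega)
    have g2 := gap hGRO j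
    refine badn hGRO hUPH hBAD j 1 (ss j - 1 + p) (Or.inl rfl) ?_ ?_
    · intro k hk
      have h := hsq (ss j - 1 + k - a) (by omega)
      have e1 : a + (ss j - 1 + k - a) = ss j - 1 + k := by omega
      have e2 : a + p + (ss j - 1 + k - a) = ss j - 1 + p + k := by omega
      rw [e1, e2] at h
      exact h.symm
    · intro i'' h3 h4
      exfalso
      have hlt : j + 1 < i'' := by
        rcases lt_trichotomy (j + 1) i'' with h | h | h
        · exact h
        · subst h
          omega
        · have := lt_gap hGRO i'' (j + 1) h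
          omega
      have := lt_gap hGRO (j + 1) i'' hlt
      omega
  · refine badn hGRO hUPH hBAD i e (ss i - e + p) he heq ?_
    intro i' h3 h4
    have h5 : ¬ (i' % 2 = i % 2) := fun h => hj ⟨i', h3, h4, h⟩
    omega

/-- no window in the second half -/
theorem J2 (hGRO : Stmt_GRO) (hUPH : Stmt_UPH) (hBAD : Stmt_BAD) (a p : ℕ) (hp : 240 ≤ p)
    (hsq : ∀ k, k < p → UU (a + k) = UU (a + p + k)) (i e : ℕ) (he : e = 1 ∨ e = 51)
    (h1 : a + p + e ≤ ss i) (h2 : ss i + 55 ≤ a + 2 * p + e) : False := by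
  have heq : ∀ k, k < 55 → UU (ss i - e - p + k) = UU (ss i - e + k) := by
    intro k hk
    have h := hsq (ss i - e - p + k - a) (by omega)
    have e1 : a + (ss i - e - p + k - a) = ss i - e - p + k := by omega
    have e2 : a + p + (ss i - e - p + k - a) = ss i - e + k := by omega
    rw [e1, e2] at h
    exact h
  by_cases hj : ∃ i', ss i - e - p < ss i' ∧ ss i' ≤ ss i - e - p + 54 ∧ i' % 2 = i % 2
  · obtain ⟨i', ha, hb, hc⟩ := hj
    have hii : i' < i := by
      rcases lt_trichotomy i' i with h | h | h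
      · exact h
      · subst h
        omega
      · have := lt_gap hGRO i i' h
        omega
    have hii2 : i' + 2 ≤ i := by omega
    obtain ⟨j, hj⟩ : ∃ j, i = j + 1 := ⟨i - 1, by omega⟩
    subst hj
    have g1 := lt_gap hGRO i' j (by omega)
    have g2 := gap hGRO j
    exact J1 hGRO hUPH hBAD a p hp hsq j 1 (Or.inl rfl) (by omega) (by omega)
  · refine badn hGRO hUPH hBAD i e (ss i - e - p) he heq ?_
    intro i' h3 h4
    have h5 : ¬ (i' % 2 = i % 2) := fun h => hj ⟨i', h3, h4, h⟩
    omega

end JCT_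

theorem jct_proof (hGRO : Stmt_GRO) (hUPH : Stmt_UPH) (hBAD : Stmt_BAD) : Stmt_JCT := by
  intro a p hp hsq i h1 h2
  by_cases hc : ss i ≤ a + p
  · left
    refine ⟨?_, hc⟩
    by_contra hn
    by_cases hd : ss i + 54 ≤ a + p
    · exact JCT_.J1 hGRO hUPH hBAD a p hp hsq i 1 (Or.inl rfl) (by omega) (by omega)
    · exact JCT_.J1 hGRO hUPH hBAD a p hp hsq i 51 (Or.inr rfl) (by omega) (by omega)
  · right
    by_contra hn
    by_cases hd : ss i + 54 ≤ a + 2 * p
    · exact JCT_.J2 hGRO hUPH hBAD a p hp hsq i 1 (Or.inl rfl) (by omega) (by omega)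
    · exact JCT_.J2 hGRO hUPH hBAD a p hp hsq i 51 (Or.inr rfl) (by omega) (by omega)

end Pool.Agent.SSH
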