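import Pool.Agent.SSH.Stmts

set_option autoImplicit false
set_option maxRecDepth 100000
set_option exponentiation.threshold 1000000

namespace Pool.Agent.SSH

theorem kw2_proof : Stmt_KW2 := by
  unfold Stmt_KW2
  decide +kernel

end Pool.Agent.SSH
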