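import Pool.Agent.SSH.Stmts

set_option autoImplicit false
set_option maxRecDepth 100000
set_option exponentiation.threshold 1000000

namespace Pool.Agent.SSH

theorem kbd_proof : Stmt_KBD := by
  unfold Stmt_KBD
  decide +kernel

theorem ksw_proof : Stmt_KSW := by
  unfold Stmt_KSW
  decide +kernel

theorem ksx_proof : Stmt_KSX := by
  unfold Stmt_KSX
  decide +kernel

end Pool.Agent.SSH
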