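import Pool.Agent.SSH.Stmts

/-!
# (LA2) synchronization on an interval read from the second word
-/

set_option autoImplicit false

namespace Pool.Agent.SSH

theorem la2_proof (hSHB : Stmt_SHB) (hUPH : Stmt_UPH) (hSYN : Stmt_SYN) : Stmt_LA2 := by
  intro w β g n Q hS hβ hj hg hlab
  obtain ⟨_, _, _, htrue, _, _, _⟩ := hSHB β
  obtain ⟨h1, h2, _⟩ := hUPH
  have hc : ∀ k, k ≤ Q → cT β (n + k) = cT β n + k ∧ cF β (n + k) = cF β n := by
    intro k
    induction k with
    | zero => intro _; exact ⟨rfl, rfl⟩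
    | succ k ih =>
      intro hk
      obtain ⟨e1, e2⟩ := ih (by omega)
      obtain ⟨e3, e4⟩ := htrue (n + k) (hβ (n + k) (by omega) (by omega))
      rw [← add_assoc]
      exact ⟨by rw [e4, e1]; ring, by rw [e3, e2]⟩
  refine ⟨hc, ?_⟩
  have hA : Agr (fun k => ff (n + k)) (fun k => g (cT β n + k)) Q := by
    refine ⟨⟨fun k _ _ => (h1 (n + k)).1, fun k _ hk => ?_⟩, ⟨fun k _ hk => ?_, fun k _ hk => ?_⟩,
      fun k hk => ?_⟩
    · have := h2 (n + k) (fun i hi => hj i ⟨by omega, by omega⟩)
      simpa [add_assoc] using this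
    · exact hg.1 (cT β n + k) (by omega) (by omega)
    · have := hg.2 (cT β n + k) (by omega) (by omega)
      simpa [add_assoc] using this
    · show lab (ff (n + k)) = lab (g (cT β n + k))
      rw [← (h1 (n + k)).2.1, hS (n + k), hlab (cT β n + k) (by omega) (by omega),
        hβ (n + k) (by omega) (by omega), (hc k hk.le).1]
      simp
  intro k hk1 hk2
  exact hSYN _ _ Q hA k hk1 hk2

end Pool.Agent.SSH
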