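import Pool.Agent.SSH.Stmts

/-!
# Self-shuffles (MP_018a5e_co): module LA3
-/

set_option autoImplicit false

namespace Pool.Agent.SSH

namespace LA3_

theorem ss_split (ρ : ℕ → ℤ) (w : ℕ → ℕ) (a n : ℕ) :
    SS ρ w (a + n) - SS ρ w a = ∑ k ∈ Finset.range n, ρ (w (a + k)) := by
  unfold SS
  rw [Finset.sum_range_add]
  ring

end LA3_

open LA3_ in
theorem la3_proof (hTMO : Stmt_TMO) (hTMA : Stmt_TMA) (_hWKB : Stmt_WKB) (hWKM : Stmt_WKM)
    (_hWKP : Stmt_WKP) (hWKG : Stmt_WKG) (hWKS : Stmt_WKS) (hWKO : Stmt_WKO) (hWKT : Stmt_WKT) :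
    Stmt_LA3 := by
  intro w g c d x1 y1 x2 y2 L l hw hPP hlab hx1 hx12 hx2 hL hg1 hg2
  obtain ⟨_, _, hbtt, _⟩ := hTMO
  have hcd : c ≤ d := by omega
  -- the binary sequence
  obtain ⟨s, z, hbs, hs⟩ := hWKG (fun n => g (c + n)) (d - c) (by
    constructor
    · intro n _ hn
      exact hPP.1 (c + n) (by omega) (by omega)
    · intro n _ hn
      exact hPP.2 (c + n) (by omega) (by omega))
  have hs' : ∀ n, c ≤ n → n ≤ d → Ph s (z + (n - c)) = g n := by
    intro n h1 h2
    have := hs (n - c) (by omega)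
    rw [this]
    show g (c + (n - c)) = g n
    congr 1
    omega
  obtain ⟨X1, hX1⟩ : ∃ X, X = z + (x1 - c) := ⟨_, rfl⟩
  obtain ⟨X2, hX2⟩ : ∃ X, X = z + (x2 - c) := ⟨_, rfl⟩
  have hP1 : ∀ k, x1 + k ≤ d → Ph s (X1 + k) = g (x1 + k) := by
    intro k hk
    have := hs' (x1 + k) (by omega) hk
    rw [← this]
    congr 1
    omega
  have hP2 : ∀ k, x2 + k ≤ d → Ph s (X2 + k) = g (x2 + k) := by
    intro k hk
    have := hs' (x2 + k) (by omega) hk
    rw [← this]
    congr 1
    omega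
  refine ⟨(ad s X2 : ℤ) - ad s X1, ?_, ?_⟩
  · have h1 := hWKT s X1 (x2 - x1) hbs
    have h2 : X1 + (x2 - x1) = X2 := by omega
    have h3 := ss_split wT w x1 (x2 - x1)
    have h4 : x1 + (x2 - x1) = x2 := by omega
    rw [h4] at h3
    rw [h3]
    have h5 : ∑ k ∈ Finset.range (x2 - x1), wT (w (x1 + k)) =
        ∑ k ∈ Finset.range (x2 - x1), wT (Pool.Agent.SSH.hw s (X1 + k)) := by
      refine Finset.sum_congr rfl fun k hk => ?_
      rw [Finset.mem_range] at hk
      have h6 := hlab (x1 + k) (by omega) (by omega)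
      have h7 := hP1 k (by omega)
      show wT (w (x1 + k)) = wT (lab (Ph s (X1 + k)))
      rw [h7, h6]
    rw [h5, h1, h2]
    have h8 := hP1 0 (by omega)
    have h9 := hP2 0 (by omega)
    rw [Nat.add_zero, Nat.add_zero] at h8 h9
    rw [h8, h9]
  · -- overlap-freeness
    have hO := hWKO s w c z (d - c) hbs hw (by
      intro r hr
      have h1 := hlab (c + r) (by omega) (by omega)
      have h2 := hs r (by omega)
      show w (c + r) = lab (Ph s (z + r))
      rw [h2, h1])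
    have hm1 := hWKM tt y1 (y1 + L) (by omega)
    have hm2 := hWKM tt y2 (y2 + L) (by omega)
    have hk1 := hWKS s tt X1 y1 L hbs hbtt (by
      intro k hk
      rw [hP1 k (by omega), hg1 k hk])
    have hk2 := hWKS s tt X2 y2 L hbs hbtt (by
      intro k hk
      rw [hP2 k (by omega), hg2 k hk])
    have he1 := hk1.1 L le_rfl
    have he2 := hk2.1 L le_rfl
    have hmz := hWKM s z X1 (by omega)
    have hm12 := hWKM s X1 X2 (by omega)
    have hme := hWKM s (X2 + L) (z + (d - c)) (by omega)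
    obtain ⟨E, hE⟩ : ∃ E, E = 16 * 2 ^ (l + 1) := ⟨_, rfl⟩
    rw [← hE] at hL
    have hM1 : E ≤ ad tt (y1 + L) - ad tt y1 := by omega
    have hM2 : E ≤ ad tt (y2 + L) - ad tt y2 := by omega
    have key := hTMA (l + 1) s (ad s z + 1) (ad s (z + (d - c)) + 1) (ad s X1) (ad s X2)
      (ad tt y1) (ad tt y2) E hbs hO (by omega) (by omega) (by omega) (by omega)
      (fun k hk => hk1.2 k (by omega)) (fun k hk => hk2.2 k (by omega))
    exact key

end Pool.Agent.SSH
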