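import Pool.Agent.SSH.Stmts

/-!
# Module LA4: the sum of `wT` across a junction
-/

set_option autoImplicit false

namespace Pool.Agent.SSH

namespace LA4_

theorem SS_add (ρ : ℕ → ℤ) (w : ℕ → ℕ) (m d : ℕ) :
    SS ρ w (m + d) = SS ρ w m + ∑ k ∈ Finset.range d, ρ (w (m + k)) := by
  unfold SS
  induction d with
  | zero => simp
  | succ d ih =>
    rw [← Nat.add_assoc, Finset.sum_range_succ, ih, Finset.sum_range_succ]
    ring

theorem cLcases (i : ℕ) : (cL i = 39 ∧ cR i = 51) ∨ (cL i = 369 ∧ cR i = 381) := by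
  unfold cR cL
  by_cases h : i % 2 = 0
  · left
    rw [if_pos h]
    exact ⟨rfl, rfl⟩
  · right
    rw [if_neg h]
    exact ⟨rfl, rfl⟩

theorem psi12 (hPOT : Stmt_POT) (i : ℕ) : psiP (422 + cL i) = psiP (422 + cR i) + 12 := by
  obtain ⟨-, -, h3, -⟩ := hPOT
  rcases cLcases i with h | h
  · rw [h.1, h.2]
    exact h3.2.2.2.2.1
  · rw [h.1, h.2]
    exact h3.2.2.2.2.2

/-- positions before junction `i` -/
theorem before (hGGF : Stmt_GGF) (i m : ℕ) (h1 : m < ss i) (h2 : 0 < i → ss (i - 1) ≤ m) :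
    (∀ k, m + k < ss i → GG (m + k) = GG m + k) ∧ GG m + (ss i - m) = dd i := by
  obtain ⟨g1, g2, g3, g4, -, -⟩ := hGGF
  by_cases hi : i = 0
  · subst hi
    refine ⟨?_, ?_⟩
    · intro k hk
      rw [(g2 _ hk).2, (g2 m h1).2]
    · rw [(g2 m h1).2, ← g4]
      omega
  · obtain ⟨j, rfl⟩ : ∃ j, i = j + 1 := ⟨i - 1, by omega⟩
    have h3 := h2 (by omega)
    have e : j + 1 - 1 = j := by omega
    rw [e] at h3
    refine ⟨?_, ?_⟩
    · intro k hk
      rw [(g1 j (m + k) (by omega) hk).2, (g1 j m h3 h1).2]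
      omega
    · rw [(g1 j m h3 h1).2]
      have := g3 j
      omega

end LA4_

open LA4_ in
theorem la4_proof (hTMO : Stmt_TMO) (_hWKP : Stmt_WKP) (_hGRO : Stmt_GRO) (hGGF : Stmt_GGF) (hDEL : Stmt_DEL)
    (_hUPH : Stmt_UPH) (hPOT : Stmt_POT) (hWKT : Stmt_WKT) : Stmt_LA4 := by
  intro i m n h1 h2 h3 h4
  have hB : Bin tt := hTMO.2.2.1
  obtain ⟨b1, b2⟩ := before hGGF i m h3 h4
  have g1 := hGGF.1
  obtain ⟨d1, d2, d3, d4, -, -, -⟩ := hDEL i 0 (by norm_num)
  have e1 : n = ss i + (n - ss i) := by omega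
  have e2 : ss i = m + (ss i - m) := by omega
  have s1 : SS wT UU n = SS wT UU (ss i) + ∑ k ∈ Finset.range (n - ss i), wT (UU (ss i + k)) := by
    have := SS_add wT UU (ss i) (n - ss i)
    rw [← e1] at this
    exact this
  have s2 : SS wT UU (ss i) = SS wT UU m + ∑ k ∈ Finset.range (ss i - m), wT (UU (m + k)) := by
    have := SS_add wT UU m (ss i - m)
    rw [← e2] at this
    exact this
  have t1 : ∑ k ∈ Finset.range (n - ss i), wT (UU (ss i + k)) =
      ∑ k ∈ Finset.range (n - ss i), wT (hw tt (ee i + k)) := by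
    apply Finset.sum_congr rfl
    intro k hk
    rw [Finset.mem_range] at hk
    show wT (hw tt (GG (ss i + k))) = _
    rw [(g1 i (ss i + k) (by omega) (by omega)).2]
    have e : ss i + k - ss i = k := by omega
    rw [e]
  have t2 : ∑ k ∈ Finset.range (ss i - m), wT (UU (m + k)) =
      ∑ k ∈ Finset.range (ss i - m), wT (hw tt (GG m + k)) := by
    apply Finset.sum_congr rfl
    intro k hk
    rw [Finset.mem_range] at hk
    show wT (hw tt (GG (m + k))) = _
    rw [b1 k (by omega)]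
  have w1 := hWKT tt (ee i) (n - ss i) hB
  have w2 := hWKT tt (GG m) (ss i - m) hB
  rw [b2] at w2
  have gn : GG n = ee i + (n - ss i) := (g1 i n h1 h2).2
  rw [← gn] at w1
  have f1 : Ph tt (dd i) = 422 + cL i := by simpa using d1
  have f2 : Ph tt (ee i) = 422 + cR i := by simpa using d2
  have f3 : ad tt (dd i) = EE i := by simpa using d3
  have f4 : ad tt (ee i) = QQ i := by simpa using d4
  rw [f1, f3] at w2
  rw [f2, f4] at w1
  have fn : psiP (ff n) = psiP (Ph tt (GG n)) := rfl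
  have fm : psiP (ff m) = psiP (Ph tt (GG m)) := rfl
  have p12 := psi12 hPOT i
  rw [s1, s2, t1, t2, w1, w2, fn, fm]
  linarith

end Pool.Agent.SSH
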