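import Pool.Agent.SSH.Stmts

/-!
Lemma A: if the first word is before junction `i-1` at the time `ss i + RR i` then the second word has a loss around
the time `ss i`.
-/

set_option autoImplicit false

namespace Pool.Agent.SSH

namespace LMA_

theorem wT_abs (c : ℕ) : |wT c| ≤ 13 := by
  unfold wT
  split_ifs <;> norm_num

theorem SS_bd (v : ℕ → ℕ) (a k : ℕ) : |SS wT v (a + k) - SS wT v a| ≤ 13 * (k : ℤ) := by
  induction k with
  | zero => simp
  | succ k ih =>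
    have h1 : SS wT v (a + (k + 1)) = SS wT v (a + k) + wT (v (a + k)) := by
      unfold SS
      rw [← Nat.add_assoc, Finset.sum_range_succ]
    have h2 := wT_abs (v (a + k))
    rw [h1]
    rw [abs_le] at ih h2 ⊢
    push_cast
    constructor <;> linarith [ih.1, ih.2, h2.1, h2.2]

theorem SS_bd' (v : ℕ → ℕ) (a b : ℕ) (h : a ≤ b) : |SS wT v b - SS wT v a| ≤ 13 * ((b : ℤ) - a) := by
  obtain ⟨k, rfl⟩ := Nat.exists_eq_add_of_le h
  have := SS_bd v a k
  push_cast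
  have e : (a : ℤ) + k - a = k := by ring
  rw [e]
  exact this

theorem arith (t D S EE' QQ' A B br : ℤ) (P : ℤ) (hP : 4 ≤ P) (hS : S + 4 ≤ P) (hS0 : 0 ≤ S)
    (hbr : |br| ≤ 13 * S) (hQ : QQ' = EE' + P - 2)
    (h1 : D - (B - A) = 2 * P * t)
    (h2 : 18 * D = 18 * ((EE' - A) + (B - QQ')) + 12 - br) : False := by
  have h3 : 18 * (2 * P * t + P - 2) = 12 - br := by
    rw [hQ] at h2
    linear_combination h2 - 18 * h1
  rw [abs_le] at hbr
  rcases le_or_gt 0 t with ht | ht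
  · have : 0 ≤ P * t := mul_nonneg (by linarith) ht
    nlinarith [hbr.1, hbr.2]
  · have ht' : t ≤ -1 := by omega
    have : P * t ≤ P * (-1) := mul_le_mul_of_nonneg_left ht' (by linarith)
    nlinarith [hbr.1, hbr.2]

theorem ss_mono (hGRO : Stmt_GRO) (hGGF : Stmt_GGF) (k k' : ℕ) (h : k ≤ k') : ss k ≤ ss k' := by
  have h0 : 0 < ss k := lt_of_lt_of_le (by positivity) (hGRO k).2.2.1
  have h1 : jj (ss k - 1) ≤ k := (hGGF.2.2.2.2.2 (ss k - 1) k).2 (by omega)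
  have h2 : ss k - 1 < ss k' := (hGGF.2.2.2.2.2 (ss k - 1) k').1 (le_trans h1 h)
  omega

end LMA_

open LMA_ in
theorem lma_proof (hPTH : Stmt_PTH) (hSHB : Stmt_SHB) (hPGN : Stmt_PGN) (hLA2 : Stmt_LA2) (hLA3 : Stmt_LA3)
    (hLA4 : Stmt_LA4) (hGRO : Stmt_GRO) (hGGF : Stmt_GGF) (_hUPH : Stmt_UPH) (_hPOT : Stmt_POT) : Stmt_LMA := by
  intro w β i hw hT hSh hi hF hZ
  obtain ⟨_, _, _, _, hsum, hmono, hSS⟩ := hSHB β
  -- constants
  obtain ⟨P, hPdef⟩ : ∃ P : ℕ, P = 2 ^ ll i := ⟨_, rfl⟩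
  obtain ⟨Q, hQdef⟩ : ∃ Q : ℕ, Q = 2 ^ (ll i + 14) := ⟨_, rfl⟩
  obtain ⟨S, hSdef⟩ : ∃ S : ℕ, S = ss (i - 1) := ⟨_, rfl⟩
  have hQP : Q = 16384 * P := by
    rw [hQdef, hPdef, pow_add]; ring
  have hRR : RR i = S * (Q + 1) + 5000 := by
    unfold RR
    rw [if_neg (by omega), hSdef, hQdef]
  have hRR' : RR i = S * Q + S + 5000 := by rw [hRR]; ring
  obtain ⟨X, hX⟩ : ∃ X : ℕ, X = S * Q := ⟨_, rfl⟩
  have hRRX : RR i = X + S + 5000 := by rw [hRR', hX]
  have g1 := hGRO (i - 1)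
  have g2 := hGRO i
  have e1 : i - 1 + 1 = i := by omega
  rw [e1] at g1
  obtain ⟨-, -, -, -, g1a, g1b, -, -, -, -⟩ := g1
  obtain ⟨-, -, -, -, g2a, -, g2b, -, g2c, g2d⟩ := g2
  rw [← hSdef] at g1a g1b
  rw [← hPdef] at g1b
  have hPpos : 2 ^ 76 ≤ P := by
    rw [hPdef]; exact Nat.pow_le_pow_right (by norm_num) g2b
  have hP4 : 1000 ≤ P := le_trans (by norm_num) hPpos
  have hS0 : 0 < S := by
    rw [hSdef]; exact lt_of_lt_of_le (by positivity) (hGRO (i - 1)).2.2.1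
  rw [← hSdef] at hF
  -- the path
  have hab : cT β (ss i - RR i) + 6000 ≤ cT β (ss i + RR i) := by
    have s1 := hsum (ss i - RR i)
    have s2 := hsum (ss i + RR i)
    omega
  obtain ⟨g, hg, hgl⟩ := hPTH w _ _ hw hT hZ hab
  obtain ⟨c, hc⟩ : ∃ c, c = cT β (ss i - RR i) + 3000 := ⟨_, rfl⟩
  obtain ⟨d, hd⟩ : ∃ d, d = cT β (ss i + RR i) - 3000 := ⟨_, rfl⟩
  rw [← hc, ← hd] at hg hgl
  have hsa := hsum (ss i - RR i)
  have hsb := hsum (ss i + RR i)
  -- the first segment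
  obtain ⟨n0, hn0⟩ : ∃ n0, n0 = ss i - X - 1 := ⟨_, rfl⟩
  have hp1 : cF β (n0 + S * Q) < cF β n0 + S := by
    rw [← hX]
    have := (hmono (n0 + X) (ss i + RR i) (by omega)).1
    omega
  obtain ⟨k1, hk1, hβ1⟩ := hPGN β S Q n0 hp1
  obtain ⟨n1, hn1⟩ : ∃ n1, n1 = n0 + k1 * Q := ⟨_, rfl⟩
  have hk1' : k1 * Q + Q ≤ X := by
    have : (k1 + 1) * Q ≤ S * Q := Nat.mul_le_mul_right _ hk1
    rw [hX]; linarith
  have hβ1' : ∀ m, n1 ≤ m → m < n1 + Q → β m = true := by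
    intro m h1 h2
    apply hβ1 m
    · omega
    · have : (k1 + 1) * Q = k1 * Q + Q := by ring
      omega
  -- the second segment
  have hp2 : cF β (ss i + S * Q) < cF β (ss i) + S := by
    rw [← hX]
    have := (hmono (ss i + X) (ss i + RR i) (by omega)).1
    omega
  obtain ⟨k2, hk2, hβ2⟩ := hPGN β S Q (ss i) hp2
  obtain ⟨n2, hn2⟩ : ∃ n2, n2 = ss i + k2 * Q := ⟨_, rfl⟩
  have hk2' : k2 * Q + Q ≤ X := by
    have : (k2 + 1) * Q ≤ S * Q := Nat.mul_le_mul_right _ hk2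
    rw [hX]; linarith
  have hβ2' : ∀ m, n2 ≤ m → m < n2 + Q → β m = true := by
    intro m h1 h2
    apply hβ2 m
    · omega
    · have : (k2 + 1) * Q = k2 * Q + Q := by ring
      omega
  -- positions
  have hn1a : S ≤ n1 := by omega
  have hn1b : n1 + Q < ss i := by omega
  have hn2a : ss i ≤ n2 := by omega
  have hn2b : n2 + Q < ss (i + 1) := by omega
  have hj1 : ∀ j, ¬ (n1 < ss j ∧ ss j ≤ n1 + Q) := by
    rintro j ⟨h1, h2⟩
    rcases Nat.lt_or_ge j i with h | h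
    · have := ss_mono hGRO hGGF j (i - 1) (by omega)
      omega
    · have := ss_mono hGRO hGGF i j h
      omega
  have hj2 : ∀ j, ¬ (n2 < ss j ∧ ss j ≤ n2 + Q) := by
    rintro j ⟨h1, h2⟩
    rcases Nat.lt_or_ge i j with h | h
    · have := ss_mono hGRO hGGF (i + 1) j (by omega)
      omega
    · have := ss_mono hGRO hGGF j i h
      omega
  have hsn1 := hsum n1
  have hsn2 := hsum n2
  have hsn0 := hsum n0
  have hm01 := hmono n0 n1 (by omega)
  have hm12 := hmono n1 n2 (by omega)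
  have hma0 := hmono (ss i - RR i) n0 (by omega)
  have hm2b := hmono n2 (ss i + RR i) (by omega)
  have hc1 : c + 406 ≤ cT β n1 := by omega
  have hd2 : cT β n2 + Q ≤ d := by omega
  have hd1 : cT β n1 + Q ≤ d := by omega
  have sub : ∀ a b, c ≤ a → b ≤ d → PP g a b := by
    intro a b h1 h2
    exact ⟨fun n h3 h4 => hg.1 n (by omega) (by omega), fun n h3 h4 => hg.2 n (by omega) (by omega)⟩
  obtain ⟨q1, q1'⟩ := hLA2 w β g n1 Q hSh hβ1' hj1 (sub _ _ (by omega) hd1)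
    (fun m h1 h2 => hgl m (by omega) (by omega))
  obtain ⟨q2, q2'⟩ := hLA2 w β g n2 Q hSh hβ2' hj2 (sub _ _ (by omega) hd2)
    (fun m h1 h2 => hgl m (by omega) (by omega))
  have hG1 : ∀ k, k + 236 ≤ Q → GG (n1 + 160 + k) = GG (n1 + 160) + k := by
    intro k hk
    have a1 := (hGGF.1 (i - 1) (n1 + 160 + k) (by omega) (by rw [e1]; omega)).2
    have a2 := (hGGF.1 (i - 1) (n1 + 160) (by omega) (by rw [e1]; omega)).2
    rw [← hSdef] at a1 a2
    omega
  have hG2 : ∀ k, k + 236 ≤ Q → GG (n2 + 160 + k) = GG (n2 + 160) + k := by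
    intro k hk
    have a1 := (hGGF.1 i (n2 + 160 + k) (by omega) (by omega)).2
    have a2 := (hGGF.1 i (n2 + 160) (by omega) (by omega)).2
    omega
  have r1 : ∀ k, k ≤ Q - 236 → g (cT β n1 + 160 + k) = Ph tt (GG (n1 + 160) + k) := by
    intro k hk
    have h1 := q1' (160 + k) (by omega) (by omega)
    rw [← hG1 k (by omega)]
    have e2 : cT β n1 + 160 + k = cT β n1 + (160 + k) := by ring
    have e3 : n1 + 160 + k = n1 + (160 + k) := by ring
    rw [e2, e3, ← h1]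
    rfl
  have r2 : ∀ k, k ≤ Q - 236 → g (cT β n2 + 160 + k) = Ph tt (GG (n2 + 160) + k) := by
    intro k hk
    have h1 := q2' (160 + k) (by omega) (by omega)
    rw [← hG2 k (by omega)]
    have e2 : cT β n2 + 160 + k = cT β n2 + (160 + k) := by ring
    have e3 : n2 + 160 + k = n2 + (160 + k) := by ring
    rw [e2, e3, ← h1]
    rfl
  have hpow : (2 : ℕ) ^ (ll i + 1) = 2 * P := by rw [hPdef, pow_succ]; ring
  obtain ⟨D, hD1, hD2⟩ := hLA3 w g c d (cT β n1 + 160) (GG (n1 + 160)) (cT β n2 + 160) (GG (n2 + 160)) (Q - 236)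
    (ll i) hw (sub c d le_rfl le_rfl) (fun n h1 h2 => hgl n h1 h2) (by omega) (by omega) (by omega)
    (by rw [hpow]; omega) r1 r2
  have h4 := hLA4 i (n1 + 160) (n2 + 160) (by omega) (by omega) (by omega) (fun _ => by rw [← hSdef]; omega)
  have f1 := q1' 160 (by omega) (by omega)
  have f2 := q2' 160 (by omega) (by omega)
  have t1 := hSS w hSh wT (n1 + 160)
  have t2 := hSS w hSh wT (n2 + 160)
  have c1 := q1 160 (by omega)
  have c2 := q2 160 (by omega)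
  rw [c1.1, c1.2] at t1
  rw [c2.1, c2.2] at t2
  have hbr := SS_bd' UU (cF β n1) (cF β n2) hm12.1
  obtain ⟨t, ht⟩ := hD2
  rw [hpow] at ht
  have hQQ : QQ i = EE i + P - 2 := by unfold QQ; rw [hPdef]
  have hQQ' : (QQ i : ℤ) = (EE i : ℤ) + P - 2 := by
    rw [hQQ]; push_cast [show 2 ≤ EE i + P by omega]; ring
  refine arith t D S (EE i) (QQ i) (ad tt (GG (n1 + 160))) (ad tt (GG (n2 + 160)))
    (SS wT UU (cF β n2) - SS wT UU (cF β n1)) P (by omega) (by omega) (by omega) ?_ hQQ' ?_ ?_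
  · refine le_trans hbr ?_
    have : (cF β n2 : ℤ) - cF β n1 ≤ S := by
      have h5 : cF β n2 < S := lt_of_le_of_lt hm2b.1 hF
      omega
    linarith
  · rw [ht]; push_cast; ring
  · rw [← f1, ← f2] at hD1
    linarith
end Pool.Agent.SSH
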