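import Pool.Agent.SSH.Stmts

/-!
# Self-shuffles (MP_018a5e_co): module LMB
-/

set_option autoImplicit false

namespace Pool.Agent.SSH

namespace LMB_

theorem disj : ∀ r, r < 48 → ¬ (Nat.testBit AM2 r = true ∧ Nat.testBit AM3 r = true) := by
  decide +kernel

theorem disj' (i r : ℕ) (hr : r < 48) (h1 : Nat.testBit (AMi i) r = true)
    (h2 : Nat.testBit (AMi (i + 1)) r = true) : False := by
  unfold AMi at h1 h2
  by_cases h : i % 2 = 0
  · have h' : ¬ (i + 1) % 2 = 0 := by omega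
    rw [if_pos h] at h1
    rw [if_neg h'] at h2
    exact disj r hr ⟨h1, h2⟩
  · have h' : (i + 1) % 2 = 0 := by omega
    rw [if_neg h] at h1
    rw [if_pos h'] at h2
    exact disj r hr ⟨h2, h1⟩

end LMB_

open LMB_ in
theorem lmb_proof (hPTH : Stmt_PTH) (hSHB : Stmt_SHB) (hVRC : Stmt_VRC) (hWDW : Stmt_WDW)
    (hGAM : Stmt_GAM) (hLMA : Stmt_LMA) (hGRO : Stmt_GRO) : Stmt_LMB := by
  intro w β i hw ht hS hi hT hZ
  obtain ⟨j, rfl⟩ : ∃ j, i = j + 3 := ⟨i - 3, by omega⟩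
  simp only [show j + 3 - 1 = j + 2 from rfl] at hT hZ
  obtain ⟨_, _, _, _, hsum, hmon, _⟩ := hSHB β
  obtain ⟨_, _, _, _, gA, _, _, _, gAr, gA5⟩ := hGRO (j + 2)
  obtain ⟨_, _, _, _, gB, _, _, _, gBr, gB5⟩ := hGRO (j + 3)
  obtain ⟨_, _, _, _, gC, _, _, _, gCr, gC5⟩ := hGRO (j + 4)
  obtain ⟨_, _, _, _, _, _, _, _, gDr, gD5⟩ := hGRO (j + 5)
  simp only [show j + 2 + 1 = j + 3 from rfl, show j + 3 + 1 = j + 4 from rfl,
    show j + 4 + 1 = j + 5 from rfl] at *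
  -- names
  obtain ⟨sA, hsA⟩ : ∃ x, x = ss (j + 2) := ⟨_, rfl⟩
  obtain ⟨sB, hsB⟩ : ∃ x, x = ss (j + 3) := ⟨_, rfl⟩
  obtain ⟨sC, hsC⟩ : ∃ x, x = ss (j + 4) := ⟨_, rfl⟩
  obtain ⟨sD, hsD⟩ : ∃ x, x = ss (j + 5) := ⟨_, rfl⟩
  obtain ⟨rA, hrA⟩ : ∃ x, x = RR (j + 2) := ⟨_, rfl⟩
  obtain ⟨rB, hrB⟩ : ∃ x, x = RR (j + 3) := ⟨_, rfl⟩
  obtain ⟨rC, hrC⟩ : ∃ x, x = RR (j + 4) := ⟨_, rfl⟩
  obtain ⟨rD, hrD⟩ : ∃ x, x = RR (j + 5) := ⟨_, rfl⟩
  rw [← hsA, ← hrA] at gA gAr hT hZ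
  rw [← hrA] at gA5
  rw [← hsB, ← hrB] at gA gB gBr
  rw [← hrB] at gB5
  rw [← hsC, ← hrC] at gB gC gCr
  rw [← hrC] at gC5
  rw [← hsD, ← hrD] at gC gDr hZ
  rw [← hrD] at gD5
  obtain ⟨a, ha⟩ : ∃ x, x = cT β (sA - rA) := ⟨_, rfl⟩
  obtain ⟨b, hb⟩ : ∃ x, x = cT β (sD - rD) := ⟨_, rfl⟩
  rw [← ha] at hT hZ
  rw [← hb] at hZ
  have hZ' : ∀ a' b', a ≤ a' → b' ≤ b → Zl w a' b' := fun a' b' h1 h2 n h3 h4 =>
    hZ n (le_trans h1 h3) (lt_of_lt_of_le h4 h2)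
  -- the positions of the first word
  have hV1 : ss (j + 1) ≤ cF β (sA + rA) := by
    by_contra hc
    refine hLMA w β (j + 2) hw ht hS (by omega) (by
      rw [← hsA, ← hrA]
      exact not_le.1 hc) ?_
    rw [← hsA, ← hrA]
    exact hZ' _ _ (le_of_eq ha) (hb ▸ (hmon (sA + rA) (sD - rD) (by omega)).2)
  have hV2 : sA ≤ cF β (sB + rB) := by
    by_contra hc
    refine hLMA w β (j + 3) hw ht hS (by omega) (by
      rw [← hsB, ← hrB]
      show cF β (sB + rB) < ss (j + 2)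
      rw [← hsA]
      exact not_le.1 hc) ?_
    rw [← hsB, ← hrB]
    exact hZ' _ _ (ha ▸ (hmon (sA - rA) (sB - rB) (by omega)).2)
      (hb ▸ (hmon (sB + rB) (sD - rD) (by omega)).2)
  -- growth of the number of letters of the second word
  have hn1 := hsum (sA - rA)
  have q1 : (2999 + 1) * (cT β (sA - rA) + 2999 + 1) = 3000 * cT β (sA - rA) + 9000000 := by ring
  have hG1 := hVRC w β hS (sA - rA) (sB - 500 - (sA - rA)) 2999 (by omega) (by
    rw [q1]; omega)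
  have hn2 := hsum (sC + 500)
  have hm2 := (hmon (sA - rA) (sC + 500) (by omega)).2
  have q2 : (3000 + 1) * (cT β (sC + 500) + 3000 + 1) = 3001 * cT β (sC + 500) + 9006001 := by ring
  have hG2 := hVRC w β hS (sC + 500) (sD - rD - (sC + 500)) 3000 (by omega) (by
    rw [q2]; omega)
  rw [show sA - rA + (sB - 500 - (sA - rA)) = sB - 500 by omega, ← ha] at hG1
  rw [show sC + 500 + (sD - rD - (sC + 500)) = sD - rD by omega, ← hb] at hG2
  have hm3 := (hmon (sB - 500) (sB + 500) (by omega)).2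
  have hm4 := (hmon (sB + 500) (sC - 500) (by omega)).2
  have hm5 := (hmon (sC - 500) (sC + 500) (by omega)).2
  -- the path of phases
  obtain ⟨g, hg, hlab⟩ := hPTH w a b hw ht (hZ' a b le_rfl le_rfl) (by omega)
  have hwin : ∀ a' b', a + 3000 ≤ a' → b' ≤ b - 3000 → PP g a' b' ∧
      ∀ n, a' ≤ n → n < b' → lab (g n) = w n := fun a' b' h1 h2 =>
    ⟨⟨fun n h3 h4 => hg.1 n (by omega) (by omega), fun n h3 h4 => hg.2 n (by omega) (by omega)⟩,
      fun n h3 h4 => hlab n (by omega) (by omega)⟩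
  have hn3 := hsum (sB + 500)
  have W1 := hWDW w β g (j + 3) hS (by omega) (by
    rw [← hsB]
    exact le_trans hV1 (hmon (sA + rA) (sB - 500) (by omega)).1) (by
    rw [← hsB]; omega)
    (by rw [← hsB]; exact (hwin _ _ (by omega) (by omega)).1)
    (by rw [← hsB]; exact (hwin _ _ (by omega) (by omega)).2)
  have W2 := hWDW w β g (j + 4) hS (by omega) (by
    rw [← hsC]
    show ss (j + 2) ≤ _
    rw [← hsA]
    exact le_trans hV2 (hmon (sB + rB) (sC - 500) (by omega)).1) (by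
    rw [← hsC]; omega)
    (by rw [← hsC]; exact (hwin _ _ (by omega) (by omega)).1)
    (by rw [← hsC]; exact (hwin _ _ (by omega) (by omega)).2)
  rw [← hsB] at W1
  rw [← hsC] at W2
  have G1 := hGAM w g (a + 3000) (b - 3000) hg hlab (cT β (sB + 500)) (by omega) (by omega)
  have G2 := hGAM w g (a + 3000) (b - 3000) hg hlab (cT β (sC + 500)) (by omega) (by omega)
  have hmod : gam w g (cT β (sB + 500)) % 48 = gam w g (cT β (sC + 500)) % 48 := by omega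
  rw [← hmod] at W2
  exact disj' (j + 3) _ (by omega) W1 W2

end Pool.Agent.SSH
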