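import Pool.Agent.SSH.Stmts

set_option autoImplicit false
set_option maxRecDepth 100000

namespace Pool.Agent.SSH

namespace LTC_

theorem allN_spec {P : ℕ → Bool} {n : ℕ} (h : allN P n = true) : ∀ m, m < n → P m = true := by
  induction n with
  | zero => intro m hm; omega
  | succ n ih =>
    unfold allN at h
    rw [Bool.and_eq_true] at h
    intro m hm
    rcases Nat.lt_succ_iff_lt_or_eq.mp hm with h1 | h1
    · exact ih h.2 m h1
    · rw [h1]; exact h.1

def bad (l : List ℕ) : Bool := FR.any (fun x => x.1.reverse.isPrefixOf l)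

def chkT : ℕ → List ℕ → Bool
  | 0, l => cons (l.getD 5 0) (l.getD 4 0)
  | n + 1, l => allN (fun c => bad (c :: l) || chkT n (c :: l)) 6

theorem k0 : chkT 10 [] = true := by decide +kernel

def revl (r : ℕ → ℕ) : ℕ → List ℕ
  | 0 => []
  | m + 1 => r m :: revl r m

theorem revl_length (r : ℕ → ℕ) (m : ℕ) : (revl r m).length = m := by
  induction m with
  | zero => rfl
  | succ m ih => simp [revl, ih]

theorem revl_get (r : ℕ → ℕ) (m i : ℕ) (h : i < m) : (revl r m)[i]? = some (r (m - 1 - i)) := by
  induction m generalizing i with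
  | zero => omega
  | succ m ih =>
    cases i with
    | zero => simp [revl]
    | succ i =>
      simp only [revl, List.getElem?_cons_succ]
      rw [ih i (by omega)]
      congr 2
      omega

theorem not_bad (r : ℕ → ℕ) (hFR : ∀ x ∈ FR, ∀ j, j + x.1.length ≤ 10 → ¬ (∀ k, k < x.1.length → r (j + k) = x.1.getD k 0))
    (M : ℕ) (hM : M ≤ 10) : bad (revl r M) = false := by
  by_contra hb
  rw [Bool.not_eq_false] at hb
  unfold bad at hb
  rw [List.any_eq_true] at hb
  obtain ⟨x, hx, hp⟩ := hb
  rw [List.isPrefixOf_iff_prefix] at hp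
  have hlen : x.1.length ≤ M := by
    have := hp.length_le
    rw [List.length_reverse, revl_length] at this
    exact this
  refine hFR x hx (M - x.1.length) (by omega) ?_
  intro k hk
  obtain ⟨t, ht⟩ := hp
  have h1 : (revl r M)[x.1.length - 1 - k]? = some (r (M - 1 - (x.1.length - 1 - k))) :=
    revl_get r M _ (by omega)
  rw [← ht, List.getElem?_append_left (by rw [List.length_reverse]; omega),
    List.getElem?_reverse (by omega)] at h1
  have h2 : x.1.length - 1 - (x.1.length - 1 - k) = k := by omega
  have h3 : M - 1 - (x.1.length - 1 - k) = M - x.1.length + k := by omega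
  rw [h2, h3] at h1
  rw [List.getD_eq_getElem?_getD, h1]
  rfl

theorem main (r : ℕ → ℕ) (h6 : ∀ j, j < 10 → r j < 6)
    (hFR : ∀ x ∈ FR, ∀ j, j + x.1.length ≤ 10 → ¬ (∀ k, k < x.1.length → r (j + k) = x.1.getD k 0))
    (n m : ℕ) (hnm : n + m = 10) (hc : chkT n (revl r m) = true) : cons (r 4) (r 5) = true := by
  induction n generalizing m with
  | zero =>
    have hm : m = 10 := by omega
    subst hm
    unfold chkT at hc
    simpa [revl] using hc
  | succ n ih =>
    unfold chkT at hc
    have h := allN_spec hc (r m) (h6 m (by omega))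
    have hb : bad (r m :: revl r m) = false := not_bad r hFR (m + 1) (by omega)
    rw [hb, Bool.false_or] at h
    exact ih (m + 1) (by omega) h

end LTC_

open LTC_ in
theorem ltc_proof : Stmt_LTC := by
  intro r h6 hFR
  exact main r h6 hFR 10 0 rfl k0

end Pool.Agent.SSH
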