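import Pool.Agent.SSH.Stmts

/-!
# Self-shuffles (MP_018a5e_co): from `Stmt_END` to the frozen statement
-/

set_option autoImplicit false

namespace Pool.Agent.SSH

theorem last_proof (hEND : Stmt_END) (hUSQ : Stmt_USQ) (hUPH : Stmt_UPH) :
    ¬ (∀ u : ℕ → Fin 3, (∀ i n : ℕ, 0 < n → ∃ k < n, u (i + k) ≠ u (i + n + k)) →
      ∃ w : ℕ → Fin 3, (∀ i n : ℕ, 0 < n → ∃ k < n, w (i + k) ≠ w (i + n + k)) ∧
        ∃ β : ℕ → Bool, Set.Infinite {i : ℕ | β i = false} ∧ Set.Infinite {i : ℕ | β i = true} ∧
          ∀ n : ℕ, u n =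
            if β n = false then
              u (Finset.filter (fun i => β i = false) (Finset.range n)).card
            else
              w (Finset.filter (fun i => β i = true) (Finset.range n)).card) := by
  intro h
  obtain ⟨w, hw, β, h0, h1, hs⟩ := h (fun n => ⟨UU n, (hUPH.1 n).2.2⟩) (by
    intro i n hn
    obtain ⟨k, hk, hne⟩ := hUSQ i n hn
    exact ⟨k, hk, fun he => hne (by simpa using congrArg Fin.val he)⟩)
  refine hEND (fun n => (w n).val) β ?_ (fun n => (w n).isLt) ?_ h0 h1
  · intro i p hp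
    obtain ⟨k, hk, hne⟩ := hw i p hp
    exact ⟨k, hk, fun he => hne (Fin.ext he)⟩
  · intro n
    have := congrArg Fin.val (hs n)
    simp only at this
    rw [this]
    unfold cF cT
    by_cases hb : β n = false
    · simp [hb]
    · simp [hb]

end Pool.Agent.SSH
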