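import Pool.Agent.SSH.Stmts

set_option autoImplicit false
set_option linter.unusedVariables false

namespace Pool.Agent.SSH

namespace MSK_

/-- concatenation of rows of width `w` -/
def Rw (w : ℕ) (f : ℕ → ℕ) : ℕ → ℕ
  | 0 => 0
  | n + 1 => 2 ^ (w * n) * f n + Rw w f n

theorem Rw_lt (w : ℕ) (f : ℕ → ℕ) (hf : ∀ v, f v < 2 ^ w) (n : ℕ) : Rw w f n < 2 ^ (w * n) := by
  induction n with
  | zero => simp [Rw]
  | succ n ih =>
    have h1 : 2 ^ (w * (n + 1)) = 2 ^ (w * n) * 2 ^ w := by rw [mul_add, mul_one, pow_add]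
    rw [Rw, h1]
    have h2 : f n + 1 ≤ 2 ^ w := hf n
    calc 2 ^ (w * n) * f n + Rw w f n < 2 ^ (w * n) * f n + 2 ^ (w * n) := by omega
      _ = 2 ^ (w * n) * (f n + 1) := by ring
      _ ≤ _ := Nat.mul_le_mul_left _ h2

theorem Rw_bit (w : ℕ) (f : ℕ → ℕ) (hf : ∀ v, f v < 2 ^ w) (n v x : ℕ) (hv : v < n) (hx : x < w) :
    (Rw w f n).testBit (w * v + x) = (f v).testBit x := by
  induction n with
  | zero => omega
  | succ n ih =>
    rw [Rw, Nat.testBit_two_pow_mul_add _ (Rw_lt w f hf n)]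
    by_cases h : v = n
    · subst h
      rw [if_neg (by omega)]
      congr 1
      omega
    · have hvn : v < n := by omega
      rw [if_pos, ih hvn]
      calc w * v + x < w * v + w := by omega
        _ = w * (v + 1) := by ring
        _ ≤ w * n := Nat.mul_le_mul_left _ hvn

theorem Rw_mul (w : ℕ) (f : ℕ → ℕ) (A n : ℕ) : Rw w f n * A = Rw w (fun v => f v * A) n := by
  induction n with
  | zero => simp [Rw]
  | succ n ih => rw [Rw, Rw, add_mul, ih, mul_assoc]

theorem Rw_add (w : ℕ) (f g : ℕ → ℕ) (n : ℕ) :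
    Rw w (fun v => f v + g v) n = Rw w f n + Rw w g n := by
  induction n with
  | zero => simp [Rw]
  | succ n ih => rw [Rw, Rw, Rw, ih]; ring

theorem Rw_delta (w m n : ℕ) :
    Rw w (fun v => if v = m then 1 else 0) n = if m < n then 2 ^ (w * m) else 0 := by
  induction n with
  | zero => simp [Rw]
  | succ n ih =>
    rw [Rw, ih]
    by_cases h : n = m
    · subst h
      simp
    · rw [if_neg h, mul_zero, zero_add]
      by_cases h2 : m < n
      · rw [if_pos h2, if_pos (by omega)]
      · rw [if_neg h2, if_neg (by omega)]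

theorem geom_aux (w n : ℕ) : Rw w (fun _ => 1) n * (2 ^ w - 1) = 2 ^ (w * n) - 1 := by
  induction n with
  | zero => simp [Rw]
  | succ n ih =>
    rw [Rw, add_mul, ih, mul_one]
    have h1 : 2 ^ (w * (n + 1)) = 2 ^ (w * n) * 2 ^ w := by rw [mul_add, mul_one, pow_add]
    rw [h1, Nat.mul_sub, mul_one]
    have h2 : 0 < 2 ^ (w * n) := Nat.two_pow_pos _
    have h3 : 2 ^ (w * n) ≤ 2 ^ (w * n) * 2 ^ w :=
      Nat.le_mul_of_pos_right _ (Nat.two_pow_pos _)
    omega

theorem geom (w n : ℕ) (hw : 0 < w) :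
    (2 ^ (w * n) - 1) / (2 ^ w - 1) = Rw w (fun _ => 1) n := by
  rw [← geom_aux]
  refine Nat.mul_div_cancel _ ?_
  have : 2 ≤ 2 ^ w := by
    calc 2 = 2 ^ 1 := rfl
      _ ≤ 2 ^ w := Nat.pow_le_pow_right (by norm_num) hw
  omega

theorem COL_eq : COL = Rw 828 (fun _ => 1) 828 := geom 828 828 (by norm_num)

theorem DG_eq : DG = Rw 829 (fun _ => 1) 828 := geom 829 828 (by norm_num)

theorem one_lt (w : ℕ) (hw : 0 < w) : 1 < 2 ^ w := by
  calc 1 < 2 ^ 1 := by norm_num
    _ ≤ 2 ^ w := Nat.pow_le_pow_right (by norm_num) hw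

theorem mulCOL (A v x : ℕ) (hA : A < 2 ^ 828) (hv : v < 828) (hx : x < 828) :
    (A * COL).testBit (828 * v + x) = A.testBit x := by
  rw [mul_comm, COL_eq, Rw_mul, Rw_bit 828 (fun _ => 1 * A) (fun _ => by rw [one_mul]; exact hA) 828
    v x hv hx, one_mul]

theorem COLmul (A v x : ℕ) (hA : A < 2 ^ 828) (hv : v < 828) (hx : x < 828) :
    mem (A * COL) v x ↔ A.testBit x = true := by
  unfold mem
  rw [mulCOL A v x hA hv hx]

theorem ones_bit (n x : ℕ) : (2 ^ n - 1).testBit x = decide (x < n) :=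
  Nat.testBit_two_pow_sub_one n x

theorem shl (a : ℕ) : 1 <<< a = 2 ^ a := Nat.one_shiftLeft a

theorem ROWM_bit (x : ℕ) : ROWM.testBit x = decide (x < 828) := by
  unfold ROWM
  exact ones_bit 828 x

theorem ROWM_lt : ROWM < 2 ^ 828 := Nat.sub_lt (Nat.two_pow_pos 828) Nat.one_pos

/-- rows which are full or empty -/
theorem rowsFull (g : ℕ → Prop) [DecidablePred g] (v x : ℕ) (hv : v < 828) (hx : x < 828) :
    mem (Rw 828 (fun v => if g v then 1 else 0) 828 * ROWM) v x ↔ g v := by
  unfold mem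
  rw [Rw_mul, Rw_bit 828 _ _ 828 v x hv hx]
  · by_cases h : g v
    · simp only [h, if_true, one_mul, ROWM_bit, hx, decide_true]
    · simp only [h, if_false, zero_mul, Nat.zero_testBit, Bool.false_eq_true]
  · intro u
    by_cases h : g u
    · simp only [h, if_true, one_mul]; exact ROWM_lt
    · simp only [h, if_false, zero_mul]; exact Nat.two_pow_pos 828

/-- the bits of `patL` -/
theorem patL_bit (st c t : ℕ) (n acc : ℕ) : (patL st c n acc).testBit t = true ↔
    acc.testBit t = true ∨ ∃ m, m < n ∧ lab m = c ∧ t = st * m := by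
  induction n generalizing acc with
  | zero => simp [patL]
  | succ n ih =>
    rw [patL, force_eq, ih, Nat.testBit_or, Bool.or_eq_true]
    have h1 : (bif Nat.beq (lab n) c then 1 <<< (st * n) else 0).testBit t = true ↔
        lab n = c ∧ t = st * n := by
      by_cases h : lab n = c
      · have h2 : Nat.beq (lab n) c = true := by rw [h]; exact Nat.beq_refl c
        rw [h2, cond_true, Nat.one_shiftLeft, Nat.testBit_two_pow, decide_eq_true_eq]
        exact ⟨fun e => ⟨h, e.symm⟩, fun e => e.2.symm⟩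
      · have h2 : Nat.beq (lab n) c = false := by
          rw [← Bool.not_eq_true]
          intro h3
          exact h (Nat.eq_of_beq_eq_true h3)
        rw [h2, cond_false, Nat.zero_testBit]
        simp [h]
    rw [h1]
    constructor
    · rintro ((h | h) | ⟨m, hm, h⟩)
      · exact Or.inl h
      · exact Or.inr ⟨n, by omega, h⟩
      · exact Or.inr ⟨m, by omega, h⟩
    · rintro (h | ⟨m, hm, h⟩)
      · exact Or.inl (Or.inl h)
      · by_cases hmn : m = n
        · subst hmn; exact Or.inl (Or.inr h)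
        · exact Or.inr ⟨m, by omega, h⟩

theorem Rw_ind_bit (w : ℕ) (hw : 0 < w) (g : ℕ → Prop) [DecidablePred g] (n t : ℕ) :
    (Rw w (fun v => if g v then 1 else 0) n).testBit t = true ↔ ∃ m, m < n ∧ g m ∧ t = w * m := by
  have hf : ∀ v, (if g v then 1 else 0) < 2 ^ w := by
    intro v
    split_ifs
    · exact one_lt w hw
    · exact Nat.two_pow_pos w
  by_cases hn : t / w < n
  · have ht : t = w * (t / w) + t % w := (Nat.div_add_mod t w).symm
    have hm : t % w < w := Nat.mod_lt _ hw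
    conv_lhs => rw [ht]
    rw [Rw_bit w _ hf n (t / w) (t % w) hn hm]
    constructor
    · intro h
      by_cases hg : g (t / w)
      · rw [if_pos hg] at h
        have h0 : t % w = 0 := by
          by_contra h1
          rw [Nat.testBit_lt_two_pow (one_lt (t % w) (Nat.pos_of_ne_zero h1))] at h
          exact Bool.false_ne_true h
        exact ⟨t / w, hn, hg, by omega⟩
      · rw [if_neg hg, Nat.zero_testBit] at h
        exact absurd h Bool.false_ne_true
    · rintro ⟨m, hmn, hg, hmt⟩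
      have h1 : t / w = m := by rw [hmt, Nat.mul_div_cancel_left _ hw]
      have h2 : t % w = 0 := by rw [hmt, Nat.mul_mod_right]
      rw [h1, h2, if_pos hg]
      rfl
  · constructor
    · intro h
      rw [Nat.testBit_lt_two_pow] at h
      · exact absurd h Bool.false_ne_true
      · refine lt_of_lt_of_le (Rw_lt w _ hf n) (Nat.pow_le_pow_right (by norm_num) ?_)
        calc w * n ≤ w * (t / w) := Nat.mul_le_mul_left _ (by omega)
          _ ≤ t := Nat.mul_div_le t w
    · rintro ⟨m, hmn, _, hmt⟩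
      exfalso
      apply hn
      rw [hmt, Nat.mul_div_cancel_left _ hw]
      exact hmn

theorem patL_eq (c : ℕ) :
    patL 828 c 828 0 = Rw 828 (fun v => if lab v = c then 1 else 0) 828 := by
  apply Nat.eq_of_testBit_eq
  intro t
  rw [Bool.eq_iff_iff, patL_bit, Rw_ind_bit 828 (by norm_num) (fun v => lab v = c) 828 t]
  simp

theorem LV_mem (c v x : ℕ) (hv : v < 828) (hx : x < 828) : mem (LV c) v x ↔ lab v = c := by
  unfold LV
  rw [patL_eq]
  exact rowsFull (fun v => lab v = c) v x hv hx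

theorem patL1_lt (c : ℕ) : patL 1 c 828 0 < 2 ^ 828 := by
  apply Nat.lt_pow_two_of_testBit
  intro i hi
  rw [← Bool.not_eq_true, patL_bit]
  rintro (h | ⟨m, hm, _, h⟩)
  · simp at h
  · omega

theorem LW_mem (c v x : ℕ) (hv : v < 828) (hx : x < 828) : mem (LW c) v x ↔ lab x = c := by
  unfold LW
  rw [COLmul _ v x (patL1_lt c) hv hx, patL_bit]
  constructor
  · rintro (h | ⟨m, hm, h1, h⟩)
    · simp at h
    · rw [h, one_mul]; exact h1
  · intro h
    exact Or.inr ⟨x, hx, h, (one_mul x).symm⟩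

theorem isEnd_iff (v : ℕ) : isEnd v = true ↔ v = 169 ∨ v = 295 ∨ v = 421 ∨ v = 827 := by
  unfold isEnd
  rw [Bool.or_eq_true, Bool.or_eq_true, Bool.or_eq_true, Nat.beq_eq, Nat.beq_eq, Nat.beq_eq,
    Nat.beq_eq]

theorem sub4 (a b c d e r : ℕ) (h : a = r + b + c + d + e) : a - b - c - d - e = r := by omega

theorem nev_gen (C a b c d R r : ℕ) (h : C = r + a + b + c + d) :
    (C - a - b - c - d) * R = r * R := by rw [sub4 C a b c d r h]

theorem NEV_eq : NEV = Rw 828 (fun v => if isEnd v = false then 1 else 0) 828 * ROWM := by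
  unfold NEV
  refine nev_gen _ _ _ _ _ _ _ ?_
  rw [shl, shl, shl, shl, COL_eq]
  have h1 : (fun _ : ℕ => 1) = fun v => ((((if isEnd v = false then 1 else 0) +
      (if v = 169 then 1 else 0)) + (if v = 295 then 1 else 0)) + (if v = 421 then 1 else 0)) +
      (if v = 827 then 1 else 0) := by
    funext v
    have h2 := isEnd_iff v
    by_cases e1 : v = 169
    · subst e1; rfl
    by_cases e2 : v = 295
    · subst e2; rfl
    by_cases e3 : v = 421
    · subst e3; rfl
    by_cases e4 : v = 827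
    · subst e4; rfl
    have h3 : isEnd v = false := by
      rw [← Bool.not_eq_true, h2]
      tauto
    rw [if_pos h3, if_neg e1, if_neg e2, if_neg e3, if_neg e4]
  rw [h1, Rw_add, Rw_add, Rw_add, Rw_add, Rw_delta, Rw_delta, Rw_delta, Rw_delta,
    if_pos (by norm_num), if_pos (by norm_num), if_pos (by norm_num), if_pos (by norm_num)]

theorem NEV_mem (v x : ℕ) (hv : v < 828) (hx : x < 828) : mem NEV v x ↔ isEnd v = false := by
  rw [NEV_eq]
  exact rowsFull (fun v => isEnd v = false) v x hv hx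

theorem NEWrow_lt : ROWM - (1 <<< 169) - (1 <<< 295) - (1 <<< 421) - (1 <<< 827) < 2 ^ 828 :=
  lt_of_le_of_lt (le_trans (Nat.sub_le _ _) (le_trans (Nat.sub_le _ _) (le_trans (Nat.sub_le _ _)
    (Nat.sub_le _ _)))) ROWM_lt

end MSK_

set_option maxRecDepth 100000 in
set_option exponentiation.threshold 1000000 in
theorem MSK_.NEW_check : allN (fun x => Nat.beq (bif Nat.testBit (ROWM - (1 <<< 169) - (1 <<< 295) -
    (1 <<< 421) - (1 <<< 827)) x then 1 else 0) (bif isEnd x then 0 else 1)) 828 = true := by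
  decide +kernel

namespace MSK_

theorem allN_spec (P : ℕ → Bool) (n : ℕ) (h : allN P n = true) : ∀ m, m < n → P m = true := by
  induction n with
  | zero => intro m hm; omega
  | succ n ih =>
    rw [allN, Bool.and_eq_true] at h
    intro m hm
    by_cases hmn : m = n
    · rw [hmn]; exact h.1
    · exact ih h.2 m (by omega)

theorem NEW_mem (v x : ℕ) (hv : v < 828) (hx : x < 828) : mem NEW v x ↔ isEnd x = false := by
  unfold NEW
  rw [COLmul _ v x NEWrow_lt hv hx]
  have h := allN_spec _ _ NEW_check x hx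
  have h2 := Nat.eq_of_beq_eq_true h
  cases h3 : Nat.testBit (ROWM - (1 <<< 169) - (1 <<< 295) - (1 <<< 421) - (1 <<< 827)) x <;>
    cases h4 : isEnd x <;> rw [h3, h4] at h2 <;> simp at h2 ⊢

theorem COL_mem (v x : ℕ) (hv : v < 828) (hx : x < 828) : mem COL v x ↔ x = 0 := by
  unfold mem
  rw [COL_eq, Rw_bit 828 (fun _ => 1) (fun _ => one_lt 828 (by norm_num)) 828 v x hv hx]
  constructor
  · intro h1
    by_contra h0
    rw [Nat.testBit_lt_two_pow (one_lt x (Nat.pos_of_ne_zero h0))] at h1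
    exact Bool.false_ne_true h1
  · rintro rfl
    rfl

theorem full_lt (N i : ℕ) (h : i < N) : (2 ^ N - 1).testBit i = true := by
  rw [ones_bit, decide_eq_true_eq]
  exact h

theorem FUL_mem (v x : ℕ) (hv : v < 828) (hx : x < 828) : mem FUL v x := by
  unfold mem
  rw [FUL]
  refine full_lt (828 * 828) (828 * v + x) ?_
  omega

theorem DG_mem (v x : ℕ) (hv : v < 828) (hx : x < 828) : mem DG v x ↔ v = x := by
  unfold mem
  have h1 : (fun _ : ℕ => 1) = fun v => if (fun _ : ℕ => True) v then 1 else 0 := by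
    funext v; simp
  rw [DG_eq, h1, Rw_ind_bit 829 (by norm_num) (fun _ => True) 828]
  constructor
  · rintro ⟨m, hm, _, h⟩
    omega
  · intro h
    exact ⟨v, hv, trivial, by omega⟩

theorem rows_mem (v x a b : ℕ) (hv : v < 828) (hx : x < 828) (hab : a ≤ b) (hb : b ≤ 828) :
    mem (rowsM a b) v x ↔ a ≤ v ∧ v < b := by
  unfold mem rowsM
  rw [Nat.testBit_shiftLeft, ones_bit, Bool.and_eq_true, decide_eq_true_eq,
    decide_eq_true_eq]
  constructor
  · rintro ⟨h1, h2⟩
    omega
  · rintro ⟨h1, h2⟩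
    omega

theorem cols_mem (v x a b : ℕ) (hv : v < 828) (hx : x < 828) (hab : a ≤ b) (hb : b ≤ 828) :
    mem (colsM a b) v x ↔ a ≤ x ∧ x < b := by
  unfold colsM
  have hlt : (2 ^ (b - a) - 1) <<< a < 2 ^ 828 := by
    apply Nat.lt_pow_two_of_testBit
    intro i hi
    rw [Nat.testBit_shiftLeft, ones_bit]
    have : ¬ (i - a < b - a) := by omega
    simp [this]
  rw [COLmul _ v x hlt hv hx, Nat.testBit_shiftLeft, ones_bit,
    Bool.and_eq_true, decide_eq_true_eq, decide_eq_true_eq]
  constructor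
  · rintro ⟨h1, h2⟩
    omega
  · rintro ⟨h1, h2⟩
    omega

end MSK_

theorem msk_proof : Stmt_MSK := by
  intro v x hv hx
  exact ⟨fun c => ⟨MSK_.LV_mem c v x hv hx, MSK_.LW_mem c v x hv hx⟩, MSK_.NEV_mem v x hv hx,
    MSK_.NEW_mem v x hv hx, MSK_.COL_mem v x hv hx, MSK_.FUL_mem v x hv hx, MSK_.DG_mem v x hv hx,
    fun a b hab hb => ⟨MSK_.rows_mem v x a b hv hx hab hb, MSK_.cols_mem v x a b hv hx hab hb⟩⟩

end Pool.Agent.SSH
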