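import Pool.Agent.SSH.Stmts

/-!
# SSH/PGN: pigeonhole for the letters of the second word
-/

set_option autoImplicit false

namespace Pool.Agent.SSH

theorem pgn_proof (hB : Stmt_SHB) : Stmt_PGN := by
  intro β S Q n
  obtain ⟨-, -, hf, -, -, hmono, -⟩ := hB β
  induction S with
  | zero =>
    intro h
    simp at h
  | succ S ih =>
    intro h
    by_cases hall : ∀ m, n + S * Q ≤ m → m < n + (S + 1) * Q → β m = true
    · exact ⟨S, Nat.lt_succ_self S, hall⟩
    · push Not at hall
      obtain ⟨m, hm1, hm2, hm3⟩ := hall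
      have hm4 : β m = false := by simpa using hm3
      have h1 := (hf m hm4).1
      have h2 := (hmono (n + S * Q) m hm1).1
      have h3 := (hmono (m + 1) (n + (S + 1) * Q) hm2).1
      obtain ⟨k, hk, hk2⟩ := ih (by omega)
      exact ⟨k, by omega, hk2⟩

end Pool.Agent.SSH
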