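import Pool.Agent.SSH.Stmts

/-!
# SSH, module PRS: runs of pairs of phases reading the same letters
-/

set_option autoImplicit false

namespace Pool.Agent.SSH

namespace PRS_

theorem nxt_of_not_end {v v' : ℕ} (h : isEnd v = false) (hn : nxt v v' = true) : v' = v + 1 := by
  unfold isEnd at h
  unfold nxt at hn
  simp only [Bool.or_eq_false_iff] at h
  obtain ⟨h1, h2, h3, h4⟩ := h
  simp only [h1, h2, h3, h4, cond_false] at hn
  exact Nat.eq_of_beq_eq_true hn

theorem mem_and {A B v x : ℕ} (ha : mem A v x) (hb : mem B v x) : mem (A &&& B) v x := by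
  unfold mem at *
  rw [Nat.testBit_and, ha, hb]
  rfl

theorem mem_or_left {A v x : ℕ} (B : ℕ) (ha : mem A v x) : mem (A ||| B) v x := by
  unfold mem at *
  rw [Nat.testBit_or, ha]
  rfl

theorem mem_or_right {B v x : ℕ} (A : ℕ) (hb : mem B v x) : mem (A ||| B) v x := by
  unfold mem at *
  rw [Nat.testBit_or, hb]
  exact Bool.or_true _

theorem mem_shift {A v x : ℕ} (ha : mem A v x) : mem (A <<< 829) (v + 1) (x + 1) := by
  unfold mem at *
  rw [Nat.testBit_shiftLeft]
  have h1 : 828 * (v + 1) + (x + 1) - 829 = 828 * v + x := by omega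
  have h2 : decide (828 * (v + 1) + (x + 1) ≥ 829) = true := by
    apply decide_eq_true
    omega
  rw [h1, h2, ha]
  rfl

theorem stepL (hMSK : Stmt_MSK) (hTVW : Stmt_TVW) (hPOT : Stmt_POT) (F v x v' x' : ℕ)
    (hv : v < 828) (hx : x < 828) (hv' : v' < 828) (hx' : x' < 828) (hl : lab v = lab x)
    (h1 : nxt v v' = true) (h2 : nxt x x' = true) (hm : mem F v x) :
    mem (prS (LV 0 &&& LW 0) (LV 1 &&& LW 1) (LV 2 &&& LW 2) NEV NEW COL F) v' x' := by
  have hc : ∀ c, lab v = c → mem (LV c &&& LW c) v x := by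
    intro c hc
    exact mem_and (((hMSK v x hv hx).1 c).1.2 hc) (((hMSK v x hv hx).1 c).2.2 (hl ▸ hc))
  have h3 := (hPOT.2.1 v hv).1
  by_cases h11 : lab v = 1
  · have hm1 := mem_and hm (hc 1 h11)
    unfold prS
    apply mem_or_right
    have hm2 := (hTVW _ v x hv hx hm1).1 v' hv' h1
    exact (hTVW _ v' x hv' hx hm2).2 x' hx' h2
  · have hev : isEnd v = false := by
      by_contra hcon
      have := (hPOT.2.1 v hv).2.2.2.2.2.1 (by simpa using hcon)
      exact h11 this
    have hex : isEnd x = false := by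
      by_contra hcon
      have := (hPOT.2.1 x hx).2.2.2.2.2.1 (by simpa using hcon)
      exact h11 (hl.trans this)
    have e1 := nxt_of_not_end hev h1
    have e2 := nxt_of_not_end hex h2
    subst e1
    subst e2
    unfold prS
    apply mem_or_left
    apply mem_shift
    rcases (by omega : lab v = 0 ∨ lab v = 2) with h0 | h0
    · exact mem_or_left _ (mem_and hm (hc 0 h0))
    · exact mem_or_right _ (mem_and hm (hc 2 h0))

end PRS_

theorem prs_proof (hMSK : Stmt_MSK) (hTVW : Stmt_TVW) (hPOT : Stmt_POT) : Stmt_PRS := by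
  intro k
  induction k with
  | zero =>
    intro F f g _ _ _ hm
    exact hm
  | succ k ih =>
    intro F f g hf hg hl hm
    have hstep := PRS_.stepL hMSK hTVW hPOT F (f 0) (g 0) (f 1) (g 1)
      (hf.1 0 (le_refl _) (by omega)) (hg.1 0 (le_refl _) (by omega))
      (hf.1 1 (by omega) (by omega)) (hg.1 1 (by omega) (by omega)) (hl 0 (by omega))
      (hf.2 0 (le_refl _) (by omega)) (hg.2 0 (le_refl _) (by omega)) hm
    have h1 := ih (prS (LV 0 &&& LW 0) (LV 1 &&& LW 1) (LV 2 &&& LW 2) NEV NEW COL F)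
      (fun n => f (n + 1)) (fun n => g (n + 1))
      ⟨fun n _ hn => hf.1 (n + 1) (by omega) (by omega), fun n _ hn => hf.2 (n + 1) (by omega) (by omega)⟩
      ⟨fun n _ hn => hg.1 (n + 1) (by omega) (by omega), fun n _ hn => hg.2 (n + 1) (by omega) (by omega)⟩
      (fun n hn => hl (n + 1) (by omega)) hstep
    rw [prRun, force_eq]
    exact h1

end Pool.Agent.SSH
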