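import Pool.Agent.SSH.Stmts

/-! squad SSH, module PTH: square-free words without loss are read by paths of phases -/

set_option autoImplicit false

namespace Pool.Agent.SSH

namespace PTH_

theorem rl_le (r : ℕ) (h : r < 6) : 170 ≤ rl r ∧ rl r ≤ 362 := by
  have : r = 0 ∨ r = 1 ∨ r = 2 ∨ r = 3 ∨ r = 4 ∨ r = 5 := by omega
  rcases this with h | h | h | h | h | h <;> subst h <;> exact ⟨by decide, by decide⟩

theorem cons_lt {a b : ℕ} (h : cons a b = true) : a < 5 ∧ b < 5 := by
  simp only [cons, Bool.or_eq_true, Bool.and_eq_true, Nat.beq_eq] at h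
  omega

theorem rdR_of {w t r : ℕ → ℕ} {J : ℕ}
    (h : ∀ j, j < J → r j < 6 ∧ cd w (t j) (rl (r j)) = rc (r j) ∧ t (j + 1) = t j + rl (r j)) :
    ∀ (v : List ℕ) (m : ℕ), m + v.length ≤ J →
      (∀ k, k < v.length → r (m + k) = v.getD k 0) → rdR w (t m) v
  | [], _, _, _ => trivial
  | c :: v, m, hm, hk => by
    have h0 : r m = c := by
      have := hk 0 (by simp)
      simpa using this
    have hm' : m < J := by
      simp only [List.length_cons] at hm
      omega
    obtain ⟨_, h2, h3⟩ := h m hm'
    rw [h0] at h2 h3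
    refine ⟨h2, ?_⟩
    rw [← h3]
    apply rdR_of h v (m + 1)
    · simp only [List.length_cons] at hm
      omega
    · intro k hk'
      have := hk (k + 1) (by simp only [List.length_cons]; omega)
      rw [show m + 1 + k = m + (k + 1) by ring, this]
      simp

end PTH_

open PTH_

theorem pth_proof (hCDL : Stmt_CDL) (hHSQ : Stmt_HSQ) (hFRS : Stmt_FRS) (hLTC : Stmt_LTC)
    (hRPH : Stmt_RPH) : Stmt_PTH := by
  intro w a b hS hT hZ hab
  obtain ⟨J, t, r, ht0, ht0', hrun, hstep, hJ⟩ := hHSQ w a b hS hT hZ (by omega)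
  -- monotonicity and bounds
  have hinc : ∀ j, j < J → t j + 170 ≤ t (j + 1) ∧ t (j + 1) ≤ t j + 362 := by
    intro j hj
    obtain ⟨h1, _, h3⟩ := hstep j hj
    have := rl_le _ h1
    omega
  have hbd : ∀ k i, i + k ≤ J → t i ≤ t (i + k) ∧ t (i + k) ≤ t i + 362 * k := by
    intro k
    induction k with
    | zero => intro i _; simp
    | succ k ih =>
      intro i hi
      have h1 := ih i (by omega)
      have h2 := hinc (i + k) (by omega)
      rw [show i + (k + 1) = i + k + 1 by ring]
      omega
  have hJ13 : 13 ≤ J := by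
    by_contra hlt
    have h1 := hbd J 0 (by omega)
    rw [Nat.zero_add] at h1
    have : 362 * J ≤ 362 * 12 := Nat.mul_le_mul_left _ (by omega)
    omega
  -- consistency
  have hcons : ∀ j, j + 10 ≤ J → cons (r (j + 4)) (r (j + 5)) = true := by
    intro j hj
    apply hLTC (fun k => r (j + k))
    · intro k hk
      exact (hstep (j + k) (by omega)).1
    · intro x hx i hi hall
      refine hFRS w (t (j + i)) hS hT (hrun (j + i) (by omega)).1 x hx ?_
      apply rdR_of hstep x.1 (j + i) (by omega)
      intro k hk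
      rw [Nat.add_assoc]
      exact hall k hk
  have hcons' : ∀ j, 4 ≤ j → j + 6 ≤ J → cons (r j) (r (j + 1)) = true := by
    intro j h4 h6
    have h1 := hcons (j - 4) (by omega)
    rw [show j - 4 + 4 = j by omega, show j - 4 + 5 = j + 1 by omega] at h1
    exact h1
  -- letters
  have hlet : ∀ j, j < J → r j < 5 → ∀ k, k < rl (r j) → lab (rp (r j) k) = w (t j + k) := by
    intro j hj h5 k hk
    rw [((hRPH (r j) h5).1 k hk).1, ← (hstep j hj).2.1]
    exact (hCDL w hT).2.2.1 (t j) (rl (r j)) k hk
  -- the path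
  have key : ∀ m, 4 + m + 5 ≤ J → ∃ g : ℕ → ℕ,
      (∀ n, t 4 ≤ n → n ≤ t (4 + m) → g n < 828) ∧
      (∀ n, t 4 ≤ n → n < t (4 + m) → nxt (g n) (g (n + 1)) = true ∧ lab (g n) = w n) ∧
      g (t (4 + m)) = rp (r (4 + m)) 0 := by
    intro m
    induction m with
    | zero =>
      intro hm
      have h5 : r 4 < 5 := (cons_lt (hcons' 4 (by omega) (by omega))).1
      refine ⟨fun _ => rp (r 4) 0, ?_, ?_, rfl⟩
      · intro n _ _
        exact (hRPH (r 4) h5).2.1 0 (by omega)
      · intro n h1 h2
        simp only [Nat.add_zero] at h2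
        omega
    | succ m ih =>
      intro hm
      obtain ⟨g, hg1, hg2, hg3⟩ := ih (by omega)
      have hc := hcons' (4 + m) (by omega) (by omega)
      obtain ⟨h5, h5'⟩ := cons_lt hc
      obtain ⟨hs1, hs2, hs3⟩ := hstep (4 + m) (by omega)
      obtain ⟨hR1, hR2, hR3, hR4, hR5⟩ := hRPH (r (4 + m)) h5
      have hle : t 4 ≤ t (4 + m) := (hbd m 4 (by omega)).1
      rw [show 4 + (m + 1) = 4 + m + 1 by ring]
      refine ⟨fun n => if n < t (4 + m) then g n else rp (r (4 + m)) (n - t (4 + m)), ?_, ?_, ?_⟩
      · intro n h1 h2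
        by_cases hn : n < t (4 + m)
        · simp only [if_pos hn]
          exact hg1 n h1 (by omega)
        · simp only [if_neg hn]
          exact hR2 _ (by omega)
      · intro n h1 h2
        by_cases hn : n < t (4 + m)
        · by_cases hn' : n + 1 < t (4 + m)
          · simp only [if_pos hn, if_pos hn']
            exact hg2 n h1 hn
          · have he : n + 1 = t (4 + m) := by omega
            have := hg2 n h1 hn
            simp only [if_pos hn, if_neg hn']
            rw [he, Nat.sub_self, ← hg3, ← he]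
            exact this
        · have hn' : ¬ (n + 1 < t (4 + m)) := by omega
          simp only [if_neg hn, if_neg hn']
          have hk : n - t (4 + m) < rl (r (4 + m)) := by omega
          have h3 := hR1 _ hk
          have h4 := hlet (4 + m) (by omega) h5 _ hk
          rw [show n + 1 - t (4 + m) = n - t (4 + m) + 1 by omega]
          refine ⟨h3.2, ?_⟩
          rw [h4]
          congr 1
          omega
      · have hn : ¬ (t (4 + m + 1) < t (4 + m)) := by omega
        simp only [if_neg hn]
        rw [hs3, Nat.add_sub_cancel_left]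
        exact hR3 _ hc
  obtain ⟨g, hg1, hg2, _⟩ := key (J - 9) (by omega)
  rw [show 4 + (J - 9) = J - 5 by omega] at hg1 hg2
  have hb1 : t 4 ≤ a + 3000 := by
    have := (hbd 4 0 (by omega)).2
    simp only [Nat.zero_add] at this
    omega
  have hb2 : b - 3000 ≤ t (J - 5) := by
    have := (hbd 5 (J - 5) (by omega)).2
    rw [show J - 5 + 5 = J by omega] at this
    omega
  refine ⟨g, ⟨?_, ?_⟩, ?_⟩
  · intro n h1 h2
    exact hg1 n (by omega) (by omega)
  · intro n h1 h2
    exact (hg2 n (by omega) (by omega)).1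
  · intro n h1 h2
    exact (hg2 n (by omega) (by omega)).2

end Pool.Agent.SSH
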