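import Pool.Agent.SSH.Stmts

/-! squad SSH, module RNK -/

set_option autoImplicit false

namespace Pool.Agent.SSH

namespace RNK_

theorem allN_apply (P : ℕ → Bool) : ∀ n, allN P n = true → ∀ m, m < n → P m = true
  | 0, _, m, hm => absurd hm (Nat.not_lt_zero m)
  | n + 1, h, m, hm => by
    simp only [allN, Bool.and_eq_true] at h
    rcases Nat.lt_succ_iff_lt_or_eq.1 hm with h1 | h1
    · exact allN_apply P n h.2 m h1
    · rw [h1]; exact h.1

end RNK_

open RNK_

theorem rnk_proof (hACR : Stmt_ACR) (hKRK : Stmt_KRK) : Stmt_RNK := by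
  intro w a b hS hT hZ hab
  have key : ∀ R n, a ≤ n → n + R + 1 ≤ b → rk (run w n) ≤ R →
      ∃ m, n ≤ m ∧ m ≤ n + R + 1 ∧ (run w m = 168 ∨ run w m = 592) := by
    intro R
    induction R with
    | zero =>
      intro n ha hb hr
      by_cases h1 : run w n = 168
      · exact ⟨n, le_refl _, by omega, Or.inl h1⟩
      by_cases h2 : run w n = 592
      · exact ⟨n, le_refl _, by omega, Or.inr h2⟩
      obtain ⟨hA1, hA2, hA3, _, _, _⟩ := hACR w hS hT n
      have hk := allN_apply _ _ hKRK (run w n) hA1
      have hz : zst (run w n) (w n) = true := by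
        simp only [zst, Bool.and_eq_true, Nat.blt_eq, Nat.beq_eq]
        exact ⟨hA3, hZ n ha (by omega)⟩
      simp only [Bool.or_eq_true, Nat.beq_eq] at hk
      rcases hk with hk | hk | hk | hk
      · omega
      · exact absurd hk h1
      · exact absurd hk h2
      · have hk2 := allN_apply _ _ hk (w n) (hT n)
        simp only [hz, cond_true, Bool.or_eq_true, Nat.beq_eq, Nat.blt_eq] at hk2
        rcases hk2 with hk2 | hk2 | hk2
        · exact ⟨n + 1, by omega, by omega, Or.inl hk2⟩
        · exact ⟨n + 1, by omega, by omega, Or.inr hk2⟩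
        · omega
    | succ R ih =>
      intro n ha hb hr
      by_cases h1 : run w n = 168
      · exact ⟨n, le_refl _, by omega, Or.inl h1⟩
      by_cases h2 : run w n = 592
      · exact ⟨n, le_refl _, by omega, Or.inr h2⟩
      obtain ⟨hA1, hA2, hA3, _, _, _⟩ := hACR w hS hT n
      have hk := allN_apply _ _ hKRK (run w n) hA1
      have hz : zst (run w n) (w n) = true := by
        simp only [zst, Bool.and_eq_true, Nat.blt_eq, Nat.beq_eq]
        exact ⟨hA3, hZ n ha (by omega)⟩
      simp only [Bool.or_eq_true, Nat.beq_eq] at hk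
      rcases hk with hk | hk | hk | hk
      · omega
      · exact absurd hk h1
      · exact absurd hk h2
      · have hk2 := allN_apply _ _ hk (w n) (hT n)
        simp only [hz, cond_true, Bool.or_eq_true, Nat.beq_eq, Nat.blt_eq] at hk2
        rcases hk2 with hk2 | hk2 | hk2
        · exact ⟨n + 1, by omega, by omega, Or.inl hk2⟩
        · exact ⟨n + 1, by omega, by omega, Or.inr hk2⟩
        · have h3 : rk (run w (n + 1)) < rk (run w n) := hk2
          obtain ⟨m, hm1, hm2, hm3⟩ := ih (n + 1) (by omega) (by omega) (by omega)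
          exact ⟨m, by omega, by omega, hm3⟩
  obtain ⟨hA1, hA2, _⟩ := hACR w hS hT a
  obtain ⟨m, hm1, hm2, hm3⟩ := key 510 a (le_refl _) (by omega) (by omega)
  exact ⟨m, hm1, by omega, hm3⟩

end Pool.Agent.SSH
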