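import Pool.Agent.SSH.Stmts

set_option autoImplicit false
set_option maxRecDepth 100000

namespace Pool.Agent.SSH

namespace RPH_

theorem allN_spec {P : ℕ → Bool} {n : ℕ} (h : allN P n = true) : ∀ m, m < n → P m = true := by
  induction n with
  | zero => intro m hm; omega
  | succ n ih =>
    unfold allN at h
    rw [Bool.and_eq_true] at h
    intro m hm
    rcases Nat.lt_succ_iff_lt_or_eq.mp hm with h1 | h1
    · exact ih h.2 m h1
    · rw [h1]; exact h.1

def b1 (r k : ℕ) : Bool :=
  (Nat.beq (lab (rp r k)) (rc r / 4 ^ (rl r - 1 - k) % 4) && nxt (rp r k) (rp r (k + 1)))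

theorem k1 : allN (fun r => allN (b1 r) (rl r)) 5 = true := by decide +kernel

theorem k2 : allN (fun r => allN (fun k => Nat.blt (rp r k) 828) (rl r + 1)) 5 = true := by decide +kernel

theorem k3 : allN (fun r => allN (fun r' => bif cons r r' then Nat.beq (rp r (rl r)) (rp r' 0) else true) 5) 5 = true := by
  decide +kernel

theorem k4 : allN (fun r => Nat.ble 170 (rl r) && Nat.ble (rl r) 362) 5 = true := by decide +kernel

theorem cons_lt {r r' : ℕ} (h : cons r r' = true) : r' < 5 := by
  unfold cons at h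
  simp only [Bool.or_eq_true, Bool.and_eq_true] at h
  rcases h with ⟨_, h | h⟩ | ⟨_, h | h⟩ | ⟨_, h⟩ <;> have := Nat.eq_of_beq_eq_true h <;> omega

end RPH_

open RPH_ in
theorem rph_proof : Stmt_RPH := by
  intro r hr
  refine ⟨?_, ?_, ?_, ?_⟩
  · intro k hk
    have h := allN_spec (allN_spec k1 r hr) k hk
    unfold b1 at h
    rw [Bool.and_eq_true] at h
    exact ⟨Nat.eq_of_beq_eq_true h.1, h.2⟩
  · intro k hk
    have h := allN_spec (allN_spec k2 r hr) k (by omega)
    exact Nat.ble_eq.mp h
  · intro r' hc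
    have h := allN_spec (allN_spec k3 r hr) r' (cons_lt hc)
    rw [hc, cond_true] at h
    exact Nat.eq_of_beq_eq_true h
  · have h := allN_spec k4 r hr
    rw [Bool.and_eq_true] at h
    exact ⟨Nat.ble_eq.mp h.1, Nat.ble_eq.mp h.2⟩

end Pool.Agent.SSH
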