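import Pool.Agent.SSH.Stmts

set_option autoImplicit false

namespace Pool.Agent.SSH

namespace SHB_

theorem cF_false (β : ℕ → Bool) (n : ℕ) (h : β n = false) : cF β (n + 1) = cF β n + 1 := by
  unfold cF
  rw [Finset.range_add_one, Finset.filter_insert, if_pos h, Finset.card_insert_of_notMem]
  intro hmem
  exact absurd (Finset.mem_range.1 (Finset.mem_filter.1 hmem).1) (lt_irrefl n)

theorem cF_true (β : ℕ → Bool) (n : ℕ) (h : β n = true) : cF β (n + 1) = cF β n := by
  unfold cF
  rw [Finset.range_add_one, Finset.filter_insert, if_neg (by rw [h]; decide)]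

theorem cT_true (β : ℕ → Bool) (n : ℕ) (h : β n = true) : cT β (n + 1) = cT β n + 1 := by
  unfold cT
  rw [Finset.range_add_one, Finset.filter_insert, if_pos h, Finset.card_insert_of_notMem]
  intro hmem
  exact absurd (Finset.mem_range.1 (Finset.mem_filter.1 hmem).1) (lt_irrefl n)

theorem cT_false (β : ℕ → Bool) (n : ℕ) (h : β n = false) : cT β (n + 1) = cT β n := by
  unfold cT
  rw [Finset.range_add_one, Finset.filter_insert, if_neg (by rw [h]; decide)]

theorem cF_zero (β : ℕ → Bool) : cF β 0 = 0 := by simp [cF]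
theorem cT_zero (β : ℕ → Bool) : cT β 0 = 0 := by simp [cT]

theorem add_eq (β : ℕ → Bool) (n : ℕ) : cF β n + cT β n = n := by
  induction n with
  | zero => rw [cF_zero, cT_zero]
  | succ n ih =>
    cases h : β n with
    | false => rw [cF_false β n h, cT_false β n h]; omega
    | true => rw [cF_true β n h, cT_true β n h]; omega

theorem mono (β : ℕ → Bool) (n m : ℕ) (h : n ≤ m) : cF β n ≤ cF β m ∧ cT β n ≤ cT β m := by
  induction h with
  | refl => exact ⟨le_refl _, le_refl _⟩
  | step _ ih =>
    rename_i k _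
    cases hk : β k with
    | false => rw [Nat.succ_eq_add_one, cF_false β k hk, cT_false β k hk]; omega
    | true => rw [Nat.succ_eq_add_one, cF_true β k hk, cT_true β k hk]; omega

theorem SS_succ (ρ : ℕ → ℤ) (w : ℕ → ℕ) (n : ℕ) : SS ρ w (n + 1) = SS ρ w n + ρ (w n) := by
  unfold SS
  rw [Finset.sum_range_succ]

theorem shuffle (β : ℕ → Bool) (w : ℕ → ℕ) (hw : Shf w β) (ρ : ℕ → ℤ) (n : ℕ) :
    SS ρ UU n = SS ρ UU (cF β n) + SS ρ w (cT β n) := by
  induction n with
  | zero => rw [cF_zero, cT_zero]; simp [SS]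
  | succ n ih =>
    have hn := hw n
    rw [SS_succ, ih]
    cases h : β n with
    | false =>
      rw [h, if_pos rfl] at hn
      rw [cF_false β n h, cT_false β n h, SS_succ, ← hn]
      ring
    | true =>
      rw [h, if_neg (by decide)] at hn
      rw [cF_true β n h, cT_true β n h, SS_succ, ← hn]
      ring

end SHB_

open SHB_ in
theorem shb_proof : Stmt_SHB := fun β =>
  ⟨cF_zero β, cT_zero β, fun n h => ⟨cF_false β n h, cT_false β n h⟩,
    fun n h => ⟨cF_true β n h, cT_true β n h⟩, add_eq β, mono β,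
    fun w hw ρ n => shuffle β w hw ρ n⟩

end Pool.Agent.SSH
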