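import Pool.Agent.SSH.Stmts

/-!
# Self-shuffles (MP_018a5e_co): module SHR
-/

set_option autoImplicit false

namespace Pool.Agent.SSH

namespace SHR_

theorem mem_or {A B v x : ℕ} : mem (A ||| B) v x ↔ mem A v x ∨ mem B v x := by
  unfold mem
  simp [Nat.testBit_or]

theorem mem_and {A B v x : ℕ} : mem (A &&& B) v x ↔ mem A v x ∧ mem B v x := by
  unfold mem
  simp [Nat.testBit_and]

theorem mem_shV {F v x : ℕ} (h : mem F v x) : mem (F <<< 828) (v + 1) x := by
  unfold mem at *
  rw [Nat.testBit_shiftLeft]
  have h1 : 828 * (v + 1) + x - 828 = 828 * v + x := by omega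
  rw [h1, h]
  simp
  omega

theorem mem_shX {F v x : ℕ} (h : mem F v x) : mem (F <<< 1) v (x + 1) := by
  unfold mem at *
  rw [Nat.testBit_shiftLeft]
  have h1 : 828 * v + (x + 1) - 1 = 828 * v + x := by omega
  rw [h1, h]
  simp
  omega

theorem mem_jump {F p q x : ℕ} (hx : x < 828) (h : mem F p x) : mem (rowput (rowget F p) q) q x := by
  unfold mem rowput rowget at *
  rw [Nat.testBit_shiftLeft]
  have h1 : 828 * q + x - 828 * q = x := by omega
  rw [h1, Nat.testBit_mod_two_pow, Nat.testBit_shiftRight, h]
  simp [hx]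

theorem nxt_succ {s t : ℕ} (he : isEnd s = false) (h : nxt s t = true) : t = s + 1 := by
  unfold isEnd at he
  unfold nxt at h
  simp only [Bool.or_eq_false_iff] at he
  obtain ⟨h1, h2, h3, h4⟩ := he
  rw [h1, h2, h3, h4] at h
  simp only [cond_false] at h
  exact Nat.eq_of_beq_eq_true h

theorem end_false (hP : Stmt_POT) {s : ℕ} (hs : s < 828) (h : lab s ≠ 1) : isEnd s = false := by
  cases he : isEnd s with
  | false => rfl
  | true => exact absurd ((hP.2.1 s hs).2.2.2.2.2.1 he) h

/-- the step, letter from the first word -/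
theorem stepV (hM : Stmt_MSK) (hT : Stmt_TVW) (hP : Stmt_POT) {F v v' x c : ℕ} (hv : v < 828) (hv' : v' < 828)
    (hx : x < 828) (hc : lab v = c) (hn : nxt v v' = true) (h : mem F v x) :
    mem (shC (LV 0) (LV 1) (LV 2) (LW 0) (LW 1) (LW 2) NEV NEW COL c F) v' x := by
  have hL : mem (LV c) v x := ((hM v x hv hx).1 c).1.2 hc
  have h3 : c < 3 := by rw [← hc]; exact (hP.2.1 v hv).1
  unfold shC
  by_cases hc1 : c = 1
  · subst hc1
    have e0 : Nat.beq 1 0 = false := rfl
    have e1 : Nat.beq 1 1 = true := rfl
    rw [e0, e1]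
    simp only [cond_false, cond_true]
    unfold shT
    rw [mem_or]
    left
    exact (hT (F &&& LV 1) v x hv hx (mem_and.2 ⟨h, hL⟩)).1 v' hv' hn
  · have hE := end_false hP hv (by rw [hc]; exact hc1)
    have hv1 := nxt_succ hE hn
    subst hv1
    have hc2 : c = 0 ∨ c = 2 := by omega
    rcases hc2 with hc2 | hc2
    · subst hc2
      have e0 : Nat.beq 0 0 = true := rfl
      rw [e0]
      simp only [cond_true]
      unfold shS
      rw [mem_or]
      left
      exact mem_shV (mem_and.2 ⟨h, hL⟩)
    · subst hc2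
      have e0 : Nat.beq 2 0 = false := rfl
      have e1 : Nat.beq 2 1 = false := rfl
      rw [e0, e1]
      simp only [cond_false]
      unfold shS
      rw [mem_or]
      left
      exact mem_shV (mem_and.2 ⟨h, hL⟩)

/-- the step, letter from the second word -/
theorem stepX (hM : Stmt_MSK) (hT : Stmt_TVW) (hP : Stmt_POT) {F v x x' c : ℕ} (hv : v < 828) (hx' : x' < 828)
    (hx : x < 828) (hc : lab x = c) (hn : nxt x x' = true) (h : mem F v x) :
    mem (shC (LV 0) (LV 1) (LV 2) (LW 0) (LW 1) (LW 2) NEV NEW COL c F) v x' := by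
  have hL : mem (LW c) v x := ((hM v x hv hx).1 c).2.2 hc
  have h3 : c < 3 := by rw [← hc]; exact (hP.2.1 x hx).1
  unfold shC
  by_cases hc1 : c = 1
  · subst hc1
    have e0 : Nat.beq 1 0 = false := rfl
    have e1 : Nat.beq 1 1 = true := rfl
    rw [e0, e1]
    simp only [cond_false, cond_true]
    unfold shT
    rw [mem_or]
    right
    exact (hT (F &&& LW 1) v x hv hx (mem_and.2 ⟨h, hL⟩)).2 x' hx' hn
  · have hE := end_false hP hx (by rw [hc]; exact hc1)
    have hv1 := nxt_succ hE hn
    subst hv1
    have hc2 : c = 0 ∨ c = 2 := by omega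
    rcases hc2 with hc2 | hc2
    · subst hc2
      have e0 : Nat.beq 0 0 = true := rfl
      rw [e0]
      simp only [cond_true]
      unfold shS
      rw [mem_or]
      right
      exact mem_shX (mem_and.2 ⟨h, hL⟩)
    · subst hc2
      have e0 : Nat.beq 2 0 = false := rfl
      have e1 : Nat.beq 2 1 = false := rfl
      rw [e0, e1]
      simp only [cond_false]
      unfold shS
      rw [mem_or]
      right
      exact mem_shX (mem_and.2 ⟨h, hL⟩)

end SHR_

open SHR_

theorem shr_proof (hM : Stmt_MSK) (hT : Stmt_TVW) (hP : Stmt_POT) : Stmt_SHR := by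
  intro K
  induction K with
  | zero =>
    intro code F0 F1 p q fin β v x fl hp hq hrun _hb _hs h0 h1
    exact ⟨F0, F1, hrun, h0, h1⟩
  | succ K ih =>
    intro code F0 F1 p q fin β v x fl hp hq hrun hb hs h0 h1
    simp only [shRun, force_eq] at hrun
    have hb0 := hb 0 (by omega)
    have hb1 := hb 1 (by omega)
    have hs0 := hs 0 (by omega)
    have hcode : code / 4 ^ 0 % 4 = code % 4 := by simp
    have key := ih (code / 4) _ _ p q fin (fun k => β (k + 1)) (fun k => v (k + 1)) (fun k => x (k + 1))
      (fun k => fl (k + 1)) hp hq hrun (fun k hk => hb (k + 1) (by omega))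
      (fun k hk => by
        have h := hs (k + 1) (by omega)
        have e : code / 4 / 4 ^ k % 4 = code / 4 ^ (k + 1) % 4 := by
          rw [Nat.div_div_eq_div_mul, pow_succ, Nat.mul_comm (4 ^ k) 4]
        rw [e]
        exact h)
    refine key ?_ ?_
    · intro hf
      show mem _ (v 1) (x 1)
      replace hf : fl 1 = 0 := hf
      cases hβ : β 0 with
      | false =>
        obtain ⟨hx1, hl, hc⟩ := hs0.1 hβ
        have hx1' : x 1 = x 0 := hx1
        rw [hcode] at hl
        rcases hc with ⟨hc1, hc2⟩ | ⟨hc1, hc2, hc3, hc4⟩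
        · have hfl : fl 0 = 0 := by
            have : fl 1 = fl 0 := hc1
            omega
          rw [hx1']
          exact stepV hM hT hP hb0.1 hb1.1 hb0.2 hl hc2 (h0 hfl)
        · exfalso
          have : fl 1 = 1 := hc2
          omega
      | true =>
        obtain ⟨hv1, hf1, hl, hn⟩ := hs0.2 hβ
        have hv1' : v 1 = v 0 := hv1
        have hf1' : fl 1 = fl 0 := hf1
        rw [hcode] at hl
        rw [hv1']
        exact stepX hM hT hP hb0.1 hb1.2 hb0.2 hl hn (h0 (by omega))
    · intro hf
      show mem _ (v 1) (x 1)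
      replace hf : fl 1 ≠ 0 := hf
      rw [mem_or]
      cases hβ : β 0 with
      | false =>
        obtain ⟨hx1, hl, hc⟩ := hs0.1 hβ
        have hx1' : x 1 = x 0 := hx1
        rw [hcode] at hl
        rcases hc with ⟨hc1, hc2⟩ | ⟨hc1, hc2, hc3, hc4⟩
        · have hfl : fl 0 ≠ 0 := by
            have : fl 1 = fl 0 := hc1
            omega
          rw [hx1']
          left
          exact stepV hM hT hP hb0.1 hb1.1 hb0.2 hl hc2 (h1 hfl)
        · right
          have hv1 : v 1 = q := hc4
          rw [hx1', hv1]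
          have hl' : Nat.beq (lab p) (code % 4) = true := by
            rw [← hc3, hl]
            exact Nat.beq_refl _
          rw [hl']
          simp only [cond_true]
          apply mem_jump hb0.2
          rw [← hc3]
          exact h0 hc1
      | true =>
        obtain ⟨hv1, hf1, hl, hn⟩ := hs0.2 hβ
        have hv1' : v 1 = v 0 := hv1
        have hf1' : fl 1 = fl 0 := hf1
        rw [hcode] at hl
        rw [hv1']
        left
        exact stepX hM hT hP hb0.1 hb1.2 hb0.2 hl hn (h1 (by omega))

end Pool.Agent.SSH
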