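import Pool.Agent.SSH.Stmts

/-!
# Self-shuffles: `sqC` checks that a finite word has no short square
-/

set_option autoImplicit false

namespace Pool.Agent.SSH

namespace SQW_

theorem sqC_sq1 (code len p : ℕ) (hp : 0 < p) (h2 : 2 * p ≤ len) : ∀ P, p ≤ P → sqC code len P = true →
    sq1 code len p = true := by
  intro P
  induction P with
  | zero => intro h; omega
  | succ P ih =>
    intro h hs
    rw [sqC, Bool.and_eq_true] at hs
    rcases Nat.lt_or_ge p (P + 1) with h1 | h1
    · exact ih (by omega) hs.2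
    · have : p = P + 1 := by omega
      subst this
      have h3 := hs.1
      rw [Bool.or_eq_true] at h3
      rcases h3 with h4 | h4
      · exfalso
        have : Nat.blt len (2 * (P + 1)) = decide (len < 2 * (P + 1)) := by
          rw [Bool.eq_iff_iff]; simp [Nat.blt_eq]
        rw [this] at h4
        have := of_decide_eq_true h4
        omega
      · exact h4

theorem orW_bit (Z : ℕ) : ∀ f p i, 1 ≤ p → (orW Z f p).testBit (2 * i) = true →
    ∃ k, k < p ∧ Z.testBit (2 * (i + k)) = true := by
  intro f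
  induction f with
  | zero => intro p i hp h; exact ⟨0, hp, h⟩
  | succ f ih =>
    intro p i hp h
    rw [orW] at h
    by_cases h1 : p ≤ 1
    · have : Nat.ble p 1 = true := (Nat.ble_eq (x := p) (y := 1)) ▸ h1
      rw [this] at h
      exact ⟨0, hp, h⟩
    · have hb : Nat.ble p 1 = false := by
        rw [Bool.eq_false_iff]; intro h'; exact h1 (Nat.le_of_ble_eq_true h')
      rw [hb, cond_false] at h
      by_cases h2 : p % 2 = 0
      · have hb2 : Nat.beq (p % 2) 0 = true := (Nat.beq_eq (x := p % 2) (y := 0)) ▸ h2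
        rw [hb2, cond_true, force_eq, Nat.testBit_or, Bool.or_eq_true] at h
        rcases h with h | h
        · obtain ⟨k, hk, hk2⟩ := ih (p / 2) i (by omega) h
          exact ⟨k, by omega, hk2⟩
        · rw [Nat.testBit_shiftRight] at h
          have e : p + 2 * i = 2 * (i + p / 2) := by omega
          rw [e] at h
          obtain ⟨k, hk, hk2⟩ := ih (p / 2) (i + p / 2) (by omega) h
          exact ⟨p / 2 + k, by omega, by rw [← Nat.add_assoc]; exact hk2⟩
      · have hb2 : Nat.beq (p % 2) 0 = false := by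
          rw [Bool.eq_false_iff]; intro h'; exact h2 (Nat.eq_of_beq_eq_true h')
        rw [hb2, cond_false, force_eq, Nat.testBit_or, Bool.or_eq_true] at h
        rcases h with h | h
        · exact ⟨0, hp, h⟩
        · rw [Nat.testBit_shiftRight] at h
          have e : 2 + 2 * i = 2 * (i + 1) := by omega
          rw [e] at h
          obtain ⟨k, hk, hk2⟩ := ih (p - 1) (i + 1) (by omega) h
          exact ⟨1 + k, by omega, by rw [← Nat.add_assoc]; exact hk2⟩

theorem ones_succ (n : ℕ) : (4 ^ (n + 1) - 1) / 3 = 4 * ((4 ^ n - 1) / 3) + 1 := by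
  have h3 : ∀ m, 4 ^ m % 3 = 1 := by
    intro m; rw [Nat.pow_mod]; simp
  have h1 := h3 n
  have h2 : 0 < 4 ^ n := by positivity
  rw [pow_succ]
  omega

theorem ones_bit : ∀ n i, i < n → ((4 ^ n - 1) / 3).testBit (2 * i) = true := by
  intro n
  induction n with
  | zero => intro i h; omega
  | succ n ih =>
    intro i h
    rw [ones_succ]
    cases i with
    | zero =>
      rw [Nat.mul_zero, Nat.testBit_zero, decide_eq_true_eq]; omega
    | succ i =>
      have e : 2 * (i + 1) = 2 * i + 1 + 1 := by ring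
      rw [e, Nat.testBit_succ, Nat.testBit_succ]
      have e2 : (4 * ((4 ^ n - 1) / 3) + 1) / 2 / 2 = (4 ^ n - 1) / 3 := by omega
      rw [e2]
      exact ih i (by omega)

theorem dig_bit (code i j : ℕ) (hj : j < 2) : (code / 4 ^ i % 4).testBit j = code.testBit (2 * i + j) := by
  have e : (4 : ℕ) ^ i = 2 ^ (2 * i) := by rw [pow_mul]; norm_num
  have e4 : (4 : ℕ) = 2 ^ 2 := by norm_num
  rw [e]
  conv_lhs => rw [show (code / 2 ^ (2 * i) % 4) = code / 2 ^ (2 * i) % 2 ^ 2 by norm_num]
  rw [Nat.testBit_mod_two_pow, Nat.testBit_div_two_pow]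
  simp [hj, Nat.add_comm]

theorem dfW_bit (code len p i : ℕ) (h : (dfW code len p).testBit (2 * i) = true) :
    code / 4 ^ i % 4 ≠ code / 4 ^ (i + p) % 4 := by
  intro he
  rw [dfW, force_eq, Nat.testBit_and, Bool.and_eq_true, Nat.testBit_or, Bool.or_eq_true, Nat.testBit_shiftRight,
    Nat.testBit_xor, Nat.testBit_xor, Nat.testBit_shiftRight, Nat.testBit_shiftRight] at h
  have h0 := dig_bit code i 0 (by norm_num)
  have h1 := dig_bit code i 1 (by norm_num)
  have h0' := dig_bit code (i + p) 0 (by norm_num)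
  have h1' := dig_bit code (i + p) 1 (by norm_num)
  rw [he] at h0 h1
  rcases h.1 with h2 | h2
  · have e : 2 * p + 2 * i = 2 * (i + p) + 0 := by ring
    rw [e, ← h0'] at h2
    rw [show 2 * i = 2 * i + 0 by ring, ← h0] at h2
    simp at h2
  · have e : 2 * p + (1 + 2 * i) = 2 * (i + p) + 1 := by ring
    rw [e, ← h1'] at h2
    rw [show 1 + 2 * i = 2 * i + 1 by ring, ← h1] at h2
    simp at h2

end SQW_

open SQW_ in
theorem sqw_proof : Stmt_SQW := by
  intro code len P w c hs hw i p hp hpP hi
  have h1 := sqC_sq1 code len p hp (by omega) P hpP hs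
  rw [sq1, force_eq, force_eq] at h1
  have h2 := Nat.eq_of_beq_eq_true h1
  have hb : ((4 ^ (len + 1 - 2 * p) - 1) / 3).testBit (2 * i) = true := ones_bit _ _ (by omega)
  rw [← h2, Nat.testBit_and, Bool.and_eq_true] at hb
  obtain ⟨k, hk, hk2⟩ := orW_bit _ _ _ _ hp hb.1
  refine ⟨k, hk, ?_⟩
  have h3 := dfW_bit _ _ _ _ hk2
  have e1 : c + i + k = c + (i + k) := by ring
  have e2 : c + i + p + k = c + (i + k + p) := by ring
  rw [e1, e2, hw (i + k) (by omega), hw (i + k + p) (by omega)]
  exact h3

end Pool.Agent.SSH
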