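import Pool.Agent.SSH.Stmts

set_option autoImplicit false
set_option maxRecDepth 100000

namespace Pool.Agent.SSH

namespace SSU_

theorem nx1 : nxt 460 461 = true := by decide +kernel
theorem nx2 : nxt 790 791 = true := by decide +kernel

theorem SS_succ (ρ : ℕ → ℤ) (w : ℕ → ℕ) (n : ℕ) : SS ρ w (n + 1) = SS ρ w n + ρ (w n) := by
  unfold SS
  rw [Finset.sum_range_succ]

theorem stepE (e0 eA eB eC S w : ℤ) (j : ℕ) (h1 : eB = eA + w) (h2 : eC = eB + 1) (ih : S = eA - e0 - j) :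
    S + w = eC - e0 - ((j + 1 : ℕ) : ℤ) := by
  push_cast
  omega

theorem stepO (e0 eA eB eC S w : ℤ) (j : ℕ) (h1 : (48 : ℤ) ∣ eB - eA - w) (h2 : (48 : ℤ) ∣ eC - eB - 9)
    (ih : (48 : ℤ) ∣ S - (eA - e0 - 9 * j)) : (48 : ℤ) ∣ S + w - (eC - e0 - 9 * ((j + 1 : ℕ) : ℤ)) := by
  push_cast
  omega

theorem plainE (e0 eA eB S w : ℤ) (j : ℕ) (h1 : eB = eA + w) (ih : S = eA - e0 - j) :
    S + w = eB - e0 - j := by
  omega

theorem plainO (e0 eA eB S w : ℤ) (j : ℕ) (h1 : (48 : ℤ) ∣ eB - eA - w)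
    (ih : (48 : ℤ) ∣ S - (eA - e0 - 9 * j)) : (48 : ℤ) ∣ S + w - (eB - e0 - 9 * j) := by
  omega

theorem cLR (i : ℕ) : (421 + cL i = 460 ∧ 422 + cR i = 473) ∨ (421 + cL i = 790 ∧ 422 + cR i = 803) := by
  have h1 : cL i = 39 ∨ cL i = 369 := by
    unfold cL
    split
    · left; rfl
    · right; rfl
  have h2 : cR i = cL i + 12 := rfl
  rcases h1 with h | h
  · left; rw [h2, h]; constructor <;> rfl
  · right; rw [h2, h]; constructor <;> rfl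

theorem jstep (hPOT : Stmt_POT) (i : ℕ) : ∃ eB oB : ℤ, eB = epsP (421 + cL i) + wE (lab (421 + cL i)) ∧
    epsP (422 + cR i) = eB + 1 ∧ (48 : ℤ) ∣ oB - piP (421 + cL i) - wO (lab (421 + cL i)) ∧
    (48 : ℤ) ∣ piP (422 + cR i) - oB - 9 := by
  obtain ⟨p1, _, ⟨b1, b2, b3, b4, _⟩, _⟩ := hPOT
  rcases cLR i with ⟨h1, h2⟩ | ⟨h1, h2⟩
  · rw [h1, h2]
    obtain ⟨a1, a2, _⟩ := p1 460 461 (by norm_num) (by norm_num) nx1
    exact ⟨epsP 461, piP 461, a1, b1, a2, b3⟩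
  · rw [h1, h2]
    obtain ⟨a1, a2, _⟩ := p1 790 791 (by norm_num) (by norm_num) nx2
    exact ⟨epsP 791, piP 791, a1, b2, a2, b4⟩

/-- the counting of junctions, abstractly -/
theorem jcount (s j : ℕ → ℕ) (g1 : ∀ i n, s i ≤ n → n < s (i + 1) → j n = i + 1)
    (g2 : ∀ n, n < s 0 → j n = 0) (hs0 : ∀ i, 0 < s i) (hmono : ∀ i, s i < s (i + 1)) (g6 : ∀ n k, j n ≤ k ↔ n < s k) :
    j 0 = 0 ∧ (∀ n i, n + 1 = s i → j (n + 1) = i + 1 ∧ j n = i) ∧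
      (∀ n, (∀ i, n + 1 ≠ s i) → j (n + 1) = j n) := by
  refine ⟨?_, ?_, ?_⟩
  · exact g2 0 (hs0 0)
  · intro n i hi
    refine ⟨g1 i (n + 1) hi.ge (by rw [hi]; exact hmono i), ?_⟩
    cases i with
    | zero => exact g2 n (by omega)
    | succ k => exact g1 k n (by have := hmono k; omega) (by omega)
  · intro n hc
    have h1 := (g6 (n + 1) (j n)).mpr (by
      have h2 := (g6 n (j n)).mp le_rfl
      have := hc (j n)
      omega)
    have h3 := (g6 n (j (n + 1))).mpr (by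
      have h2 := (g6 (n + 1) (j (n + 1))).mp le_rfl
      omega)
    omega

theorem absStep (wE' wO' : ℕ → ℤ) (w f jn : ℕ → ℕ) (lb : ℕ → ℕ) (eP pP : ℕ → ℤ) (s : ℕ → ℕ) (A B : ℕ → ℕ)
    (hw : ∀ n, w n = lb (f n)) (hj0 : jn 0 = 0)
    (hj1 : ∀ n i, n + 1 = s i → jn (n + 1) = i + 1 ∧ jn n = i)
    (hj2 : ∀ n, (∀ i, n + 1 ≠ s i) → jn (n + 1) = jn n)
    (hstep : ∀ n, (∀ i, n + 1 ≠ s i) → eP (f (n + 1)) = eP (f n) + wE' (lb (f n)) ∧
      (48 : ℤ) ∣ pP (f (n + 1)) - pP (f n) - wO' (lb (f n)))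
    (hf : ∀ n i, n + 1 = s i → f n = A i ∧ f (n + 1) = B i)
    (hjs : ∀ i, ∃ eB oB : ℤ, eB = eP (A i) + wE' (lb (A i)) ∧
      eP (B i) = eB + 1 ∧ (48 : ℤ) ∣ oB - pP (A i) - wO' (lb (A i)) ∧ (48 : ℤ) ∣ pP (B i) - oB - 9) :
    ∀ n, (48 : ℤ) ∣ SS wO' w n - (pP (f n) - pP (f 0) - 9 * jn n) ∧ SS wE' w n = eP (f n) - eP (f 0) - jn n := by
  intro n
  induction n with
  | zero =>
    rw [hj0]
    have h1 : SS wO' w 0 = 0 := by unfold SS; rw [Finset.sum_range_zero]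
    have h2 : SS wE' w 0 = 0 := by unfold SS; rw [Finset.sum_range_zero]
    rw [h1, h2]
    constructor
    · simp
    · simp
  | succ n ih =>
    rw [SS_succ, SS_succ, hw n]
    by_cases hc : ∃ i, n + 1 = s i
    · obtain ⟨i, hi⟩ := hc
      obtain ⟨e1, e2⟩ := hj1 n i hi
      obtain ⟨e3, e4⟩ := hf n i hi
      rw [e2, e3] at ih
      rw [e1, e3, e4]
      obtain ⟨eB, oB, k1, k2, k3, k4⟩ := hjs i
      exact ⟨stepO _ _ _ _ _ _ _ k3 k4 ih.1, stepE _ _ _ _ _ _ _ k1 k2 ih.2⟩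
    · push_neg at hc
      rw [hj2 n hc]
      obtain ⟨a1, a2⟩ := hstep n hc
      exact ⟨plainO _ _ _ _ _ _ a2 ih.1, plainE _ _ _ _ _ _ a1 ih.2⟩

end SSU_

open SSU_ in
theorem ssu_proof (hPOT : Stmt_POT) (hUPH : Stmt_UPH) (hGRO : Stmt_GRO) (hGGF : Stmt_GGF) : Stmt_SSU := by
  have hjs := jstep hPOT
  obtain ⟨g1, g2, _, _, _, g6⟩ := hGGF
  obtain ⟨u1, u2, u3⟩ := hUPH
  obtain ⟨p1, _, _, _⟩ := hPOT
  have hmono : ∀ i, ss i < ss (i + 1) := by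
    intro i
    have h := (hGRO i).2.2.2.2.1
    have h' : ss i ≤ 10000 * (ss i + RR i + 10000) := by
      generalize ss i = a
      generalize RR i = b
      omega
    have h'' : 10000 * (ss i + RR i + 10000) < 10000 * (ss i + RR i + 10000) + RR (i + 1) := by
      have h5 := (hGRO (i + 1)).2.2.2.2.2.2.2.2.2
      generalize RR (i + 1) = b at *
      generalize 10000 * (ss i + RR i + 10000) = c
      omega
    exact lt_of_le_of_lt h' (lt_of_lt_of_le h'' h)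
  obtain ⟨c0, c1, c2⟩ := jcount ss jj (fun i n h h' => (g1 i n h h').1) (fun n h => (g2 n h).1) (fun i => (u3 i).1)
    hmono g6
  exact absStep wE wO UU ff jj lab epsP piP ss (fun i => 421 + cL i) (fun i => 422 + cR i)
    (fun n => (u1 n).2.1) c0 c1 c2
    (fun n hn => by
      obtain ⟨a1, a2, _⟩ := p1 (ff n) (ff (n + 1)) (u1 n).1 (u1 (n + 1)).1 (u2 n hn)
      exact ⟨a1, a2⟩)
    (fun n i hi => by
      obtain ⟨_, f1, f2⟩ := u3 i
      rw [← hi] at f1 f2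
      exact ⟨f1, f2⟩) hjs

end Pool.Agent.SSH
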