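import Pool.Agent.SSH.Stmts

/-!
# Self-shuffles (MP_018a5e_co): two paths reading the same letters synchronise
-/

set_option autoImplicit false

namespace Pool.Agent.SSH

namespace SYN_

theorem withP_eq {α : Type} (k : ℕ → ℕ → ℕ → ℕ → ℕ → ℕ → α) :
    withP k = k (LV 0 &&& LW 0) (LV 1 &&& LW 1) (LV 2 &&& LW 2) NEV NEW COL := by
  unfold withP
  simp only [force_eq]

theorem PP_shift {f : ℕ → ℕ} {N : ℕ} (h : PP f 0 N) (a K : ℕ) (hK : a + K ≤ N) :
    PP (fun n => f (a + n)) 0 K := by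
  refine ⟨fun n _ hn => h.1 (a + n) (by omega) (by omega), fun n _ hn => ?_⟩
  have := h.2 (a + n) (by omega) (by omega)
  simpa [Nat.add_assoc] using this

theorem mem_zero (v x : ℕ) : ¬ mem 0 v x := by
  unfold mem
  simp

theorem mem_and (F G v x : ℕ) : mem (F &&& G) v x ↔ mem F v x ∧ mem G v x := by
  unfold mem
  rw [Nat.testBit_and]
  simp

theorem mem_xor (F G v x : ℕ) (hF : mem F v x) (hG : ¬ mem G v x) : mem (F ^^^ G) v x := by
  unfold mem at *
  rw [Nat.testBit_xor, hF]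
  simp at hG
  rw [hG]
  rfl

end SYN_

theorem syn_proof (hM : Stmt_MSK) (hP : Stmt_PRS) (hK : Stmt_KSY) : Stmt_SYN := by
  intro f g N ⟨hf, hg, hl⟩ k hk1 hk2
  by_contra hne
  unfold Stmt_KSY at hK
  rw [SYN_.withP_eq, force_eq] at hK
  have hK' := Nat.eq_of_beq_eq_true hK
  have a1 := hP 160 FUL (fun n => f (k - 160 + n)) (fun n => g (k - 160 + n))
    (SYN_.PP_shift hf _ _ (by omega)) (SYN_.PP_shift hg _ _ (by omega))
    (fun n hn => hl _ (by omega))
    (hM _ _ (hf.1 _ (by omega) (by omega)) (hg.1 _ (by omega) (by omega))).2.2.2.2.1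
  have e : k - 160 + 160 = k := by omega
  simp only [e] at a1
  have hfk := hf.1 k (by omega) (by omega)
  have hgk := hg.1 k (by omega) (by omega)
  have hm := hM _ _ hfk hgk
  have a2 := (SYN_.mem_and _ _ _ _).2 ⟨a1, SYN_.mem_xor FUL DG _ _ hm.2.2.2.2.1
    (fun h => hne (hm.2.2.2.2.2.1.1 h))⟩
  have a3 := hP 76 _ (fun n => f (k + n)) (fun n => g (k + n))
    (SYN_.PP_shift hf _ _ (by omega)) (SYN_.PP_shift hg _ _ (by omega))
    (fun n hn => hl _ (by omega)) a2
  rw [hK'] at a3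
  exact SYN_.mem_zero _ _ a3

end Pool.Agent.SSH
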