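import Pool.Agent.SSH.Stmts

/-!
# Self-shuffles (MP_018a5e_co): Thue-Morse factors in an overlap-free word are at congruent positions
-/

set_option autoImplicit false

namespace Pool.Agent.SSH

namespace TMA_

theorem over1 {s : ℕ → ℕ} {lo hi : ℕ} (hO : OFr s lo hi) (j : ℕ) (h1 : lo ≤ j) (h2 : j + 2 < hi)
    (e1 : s j = s (j + 1)) (e2 : s (j + 1) = s (j + 2)) : False := by
  obtain ⟨k, hk, hne⟩ := hO j 1 (by omega) h1 (by omega)
  have hk' : k = 0 ∨ k = 1 := by omega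
  rcases hk' with rfl | rfl
  · exact hne e1
  · exact hne e2

theorem over2 {s : ℕ → ℕ} {lo hi : ℕ} (hB : Bin s) (hO : OFr s lo hi) (j : ℕ) (h1 : lo ≤ j)
    (h2 : j + 4 < hi) (e1 : s j ≠ s (j + 1)) (e2 : s (j + 1) ≠ s (j + 2))
    (e3 : s (j + 2) ≠ s (j + 3)) (e4 : s (j + 3) ≠ s (j + 4)) : False := by
  obtain ⟨k, hk, hne⟩ := hO j 2 (by omega) h1 (by omega)
  have b0 := hB j
  have b1 := hB (j + 1)
  have b2 := hB (j + 2)
  have b3 := hB (j + 3)
  have b4 := hB (j + 4)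
  have hk' : k = 0 ∨ k = 1 ∨ k = 2 := by omega
  rcases hk' with rfl | rfl | rfl
  · apply hne
    show s j = s (j + 2)
    omega
  · apply hne
    show s (j + 1) = s (j + 3)
    omega
  · apply hne
    show s (j + 2) = s (j + 4)
    omega

/-- consecutive doubles -/
theorem cons {s : ℕ → ℕ} {lo hi : ℕ} (hB : Bin s) (hO : OFr s lo hi) (n d : ℕ) (h1 : lo + 1 ≤ n)
    (h2 : n + d + 2 < hi) (hd : 0 < d) (e1 : s n = s (n + 1)) (e2 : s (n + d) = s (n + d + 1))
    (hno : ∀ c, 0 < c → c < d → s (n + c) ≠ s (n + c + 1)) : d % 2 = 0 := by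
  by_contra hodd
  have hcase : d = 1 ∨ d = 3 ∨ 5 ≤ d := by omega
  rcases hcase with rfl | rfl | h5
  · exact over1 hO n (by omega) (by omega) e1 e2
  · -- `aabaa`
    obtain ⟨n', rfl⟩ : ∃ n', n = n' + 1 := ⟨n - 1, by omega⟩
    have c1 := hno 1 (by omega) (by omega)
    have c2 := hno 2 (by omega) (by omega)
    have b0 := hB n'
    have b1 := hB (n' + 1)
    have b2 := hB (n' + 1 + 1)
    have b3 := hB (n' + 1 + 2)
    have b4 := hB (n' + 1 + 3)
    have b5 := hB (n' + 1 + 3 + 1)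
    have b6 := hB (n' + 1 + 3 + 2)
    have f0 : s n' ≠ s (n' + 1) := fun h =>
      over1 hO n' (by omega) (by omega) h e1
    have f6 : s (n' + 1 + 3 + 1) ≠ s (n' + 1 + 3 + 2) := fun h =>
      over1 hO (n' + 1 + 3) (by omega) (by omega) e2 h
    obtain ⟨k, hk, hne⟩ := hO n' 3 (by omega) (by omega) (by omega)
    have c1' : s (n' + 1 + 1) ≠ s (n' + 1 + 2) := c1
    have c2' : s (n' + 1 + 2) ≠ s (n' + 1 + 3) := c2
    have e1' : s (n' + 1) = s (n' + 1 + 1) := e1
    have hk' : k = 0 ∨ k = 1 ∨ k = 2 ∨ k = 3 := by omega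
    rcases hk' with rfl | rfl | rfl | rfl
    · apply hne
      show s n' = s (n' + 1 + 2)
      omega
    · apply hne
      show s (n' + 1) = s (n' + 1 + 3)
      omega
    · apply hne
      show s (n' + 1 + 1) = s (n' + 1 + 3 + 1)
      omega
    · apply hne
      show s (n' + 1 + 2) = s (n' + 1 + 3 + 2)
      omega
  · exact over2 hB hO (n + 1) (by omega) (by omega) (hno 1 (by omega) (by omega))
      (hno 2 (by omega) (by omega)) (hno 3 (by omega) (by omega)) (hno 4 (by omega) (by omega))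

/-- the parity of the doubles -/
theorem parity {s : ℕ → ℕ} {lo hi : ℕ} (hB : Bin s) (hO : OFr s lo hi) :
    ∀ d n : ℕ, lo + 1 ≤ n → n + d + 2 < hi → s n = s (n + 1) → s (n + d) = s (n + d + 1) →
      d % 2 = 0 := by
  intro d
  induction d using Nat.strong_induction_on with
  | _ d ih =>
    intro n h1 h2 e1 e2
    by_cases hd : d = 0
    · omega
    by_cases hex : ∃ c, 0 < c ∧ c < d ∧ s (n + c) = s (n + c + 1)
    · obtain ⟨c, hc0, hcd, hc⟩ := hex
      have i1 := ih c hcd n h1 (by omega) e1 hc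
      have e3 : s (n + c + (d - c)) = s (n + c + (d - c) + 1) := by
        have : n + c + (d - c) = n + d := by omega
        rw [this]
        exact e2
      have i2 := ih (d - c) (by omega) (n + c) (by omega) (by omega) hc e3
      omega
    · apply cons hB hO n d h1 h2 (by omega) e1 e2
      intro c hc0 hcd hc
      exact hex ⟨c, hc0, hcd, hc⟩

/-- two doubles have the same parity -/
theorem parity2 {s : ℕ → ℕ} {lo hi : ℕ} (hB : Bin s) (hO : OFr s lo hi) (n n' : ℕ)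
    (h1 : lo + 1 ≤ n) (h1' : lo + 1 ≤ n') (h2 : n + 2 < hi) (h2' : n' + 2 < hi)
    (e1 : s n = s (n + 1)) (e2 : s n' = s (n' + 1)) : n % 2 = n' % 2 := by
  rcases le_total n n' with h | h
  · have : n' = n + (n' - n) := by omega
    have h3 := parity hB hO (n' - n) n h1 (by omega) e1 (by rw [← this]; exact e2)
    omega
  · have : n = n' + (n - n') := by omega
    have h3 := parity hB hO (n - n') n' h1' (by omega) e2 (by rw [← this]; exact e1)
    omega

/-- there is a double among the first letters -/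
theorem ex_double {s : ℕ → ℕ} {lo hi : ℕ} (hB : Bin s) (hO : OFr s lo hi) (p : ℕ)
    (h1 : lo ≤ p) (h2 : p + 5 < hi) : ∃ k, 1 ≤ k ∧ k ≤ 4 ∧ s (p + k) = s (p + k + 1) := by
  by_contra hno
  push Not at hno
  exact over2 hB hO (p + 1) (by omega) (by omega) (hno 1 (by omega) (by omega))
    (hno 2 (by omega) (by omega)) (hno 3 (by omega) (by omega)) (hno 4 (by omega) (by omega))

theorem tt_even (hT : Stmt_TMB) (n : ℕ) : tt (2 * n) = tt n := by
  unfold tt
  rw [hT.1]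

/-- doubles of Thue-Morse are at odd positions -/
theorem tt_double (hT : Stmt_TMB) (n : ℕ) (h : tt n = tt (n + 1)) : n % 2 = 1 := by
  by_contra hn
  obtain ⟨k, rfl⟩ : ∃ k, n = 2 * k := ⟨n / 2, by omega⟩
  unfold tt at h
  rw [hT.1, hT.2.1] at h
  have := hT.2.2.1 k
  omega

theorem aux (p A e : ℕ) (he : e = (p + A) % 2) : ∃ p' a A' : ℕ, 2 * p' + e = p + a ∧ 1 ≤ a ∧
    a ≤ 3 ∧ A + a = 2 * A' ∧ p' = (p + 2) / 2 := by
  refine ⟨(p + 2) / 2, 2 * ((p + 2) / 2) + e - p, (A + (2 * ((p + 2) / 2) + e - p)) / 2, ?_, ?_, ?_,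
    ?_, rfl⟩ <;> omega

/-- the halved word is overlap-free -/
theorem half {s : ℕ → ℕ} {lo hi e : ℕ} (hO : OFr s lo hi) (he : e < 2) (hhi : 3 ≤ hi)
    (hnd : ∀ n, n % 2 = e → lo + 1 ≤ n → n + 3 ≤ hi → s (n + 1) = 1 - s n) :
    OFr (fun k => s (2 * k + e)) ((lo + 2) / 2) ((hi - 2) / 2) := by
  intro j P hP h1 h2
  by_contra hno
  push Not at hno
  obtain ⟨lo', hlo⟩ : ∃ x, x = (lo + 2) / 2 := ⟨_, rfl⟩
  obtain ⟨hi', hhi'⟩ : ∃ x, x = (hi - 2) / 2 := ⟨_, rfl⟩
  rw [← hlo] at h1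
  rw [← hhi'] at h2
  have g1 : lo + 1 ≤ 2 * lo' := by omega
  have g2 : 2 * hi' + 2 ≤ hi := by omega
  clear hlo hhi'
  obtain ⟨k, hk, hne⟩ := hO (2 * j + e) (2 * P) (by omega) (by omega) (by omega)
  apply hne
  rcases Nat.even_or_odd' k with ⟨t, ht | ht⟩
  · have h3 := hno t (by omega)
    have e1 : 2 * j + e + k = 2 * (j + t) + e := by omega
    have e2 : 2 * j + e + 2 * P + k = 2 * (j + P + t) + e := by omega
    rw [e1, e2]
    exact h3
  · have h3 := hno t (by omega)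
    have e1 : 2 * j + e + k = 2 * (j + t) + e + 1 := by omega
    have e2 : 2 * j + e + 2 * P + k = 2 * (j + P + t) + e + 1 := by omega
    have h4 : s (2 * (j + t) + e) = s (2 * (j + P + t) + e) := h3
    rw [e1, e2, hnd (2 * (j + t) + e) (by omega) (by omega) (by omega),
      hnd (2 * (j + P + t) + e) (by omega) (by omega) (by omega), h4]

/-- the halved factor -/
theorem fac (hT : Stmt_TMB) {s : ℕ → ℕ} {p A L e p' a A' : ℕ}
    (hp : ∀ k, k < L → s (p + k) = tt (A + k)) (h1 : 2 * p' + e = p + a) (h2 : a ≤ 3)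
    (h3 : A + a = 2 * A') (hL : 24 ≤ L) :
    ∀ k, k < (L - 8) / 2 → s (2 * (p' + k) + e) = tt (A' + k) := by
  intro k hk
  have hk' : a + 2 * k < L := by omega
  have h4 := hp (a + 2 * k) hk'
  have e1 : 2 * (p' + k) + e = p + (a + 2 * k) := by omega
  have e2 : A + (a + 2 * k) = 2 * (A' + k) := by omega
  rw [e1, h4, e2, tt_even hT]

/-- the double in the factor -/
theorem dbl (hT : Stmt_TMB) {s : ℕ → ℕ} {p A L k : ℕ}
    (hp : ∀ k, k < L → s (p + k) = tt (A + k)) (hk : k + 1 < L) (d : s (p + k) = s (p + k + 1)) :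
    (A + k) % 2 = 1 := by
  apply tt_double hT
  have h1 := hp k (by omega)
  have h2 := hp (k + 1) hk
  have e1 : A + k + 1 = A + (k + 1) := by omega
  have e2 : p + k + 1 = p + (k + 1) := by omega
  rw [← h1, e1, ← h2, ← e2]
  exact d

theorem fin (p q A B p' q' A' B' a b e m : ℕ) (t1 : 2 * p' + e = p + a) (t2 : 2 * q' + e = q + b)
    (t3 : A + a = 2 * A') (t4 : B + b = 2 * B')
    (h : ((2 ^ m : ℕ) : ℤ) ∣ ((q' : ℤ) - p') - ((B' : ℤ) - A')) :
    ((2 ^ (m + 1) : ℕ) : ℤ) ∣ ((q : ℤ) - p) - ((B : ℤ) - A) := by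
  obtain ⟨c, hc⟩ := h
  refine ⟨c, ?_⟩
  have t1' : 2 * (p' : ℤ) + e = p + a := by exact_mod_cast t1
  have t2' : 2 * (q' : ℤ) + e = q + b := by exact_mod_cast t2
  have t3' : (A : ℤ) + a = 2 * A' := by exact_mod_cast t3
  have t4' : (B : ℤ) + b = 2 * B' := by exact_mod_cast t4
  rw [pow_succ]
  push_cast at hc ⊢
  linear_combination 2 * hc - t2' + t1' - t4' + t3'

theorem main (hT : Stmt_TMB) : ∀ (m : ℕ) (s : ℕ → ℕ) (lo hi p q A B L : ℕ), Bin s →
    OFr s lo hi → lo ≤ p → p ≤ q → q + L ≤ hi → 16 * 2 ^ m ≤ L + 8 →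
    (∀ k, k < L → s (p + k) = tt (A + k)) → (∀ k, k < L → s (q + k) = tt (B + k)) →
    ((2 ^ m : ℕ) : ℤ) ∣ ((q : ℤ) - p) - ((B : ℤ) - A) := by
  intro m
  induction m with
  | zero =>
    intro s lo hi p q A B L _ _ _ _ _ _ _ _
    simp
  | succ m ih =>
    intro s lo hi p q A B L hB hO hlp hpq hqL hL hp hq
    have hpow : 1 ≤ 2 ^ m := Nat.one_le_two_pow
    have hpow2 : 2 ^ (m + 1) = 2 * 2 ^ m := by rw [pow_succ]; ring
    have hL' : 32 * 2 ^ m ≤ L + 8 := by
      rw [hpow2] at hL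
      calc 32 * 2 ^ m = 16 * (2 * 2 ^ m) := by ring
        _ ≤ L + 8 := hL
    clear hL hpow2
    generalize hM : 2 ^ m = M at hpow hL'
    have hL24 : 24 ≤ L := by omega
    obtain ⟨k1, hk1, hk1', d1⟩ := ex_double hB hO p hlp (by omega)
    obtain ⟨k2, hk2, hk2', d2⟩ := ex_double hB hO q (by omega) (by omega)
    have hA : (A + k1) % 2 = 1 := dbl hT hp (by omega) d1
    have hBB : (B + k2) % 2 = 1 := dbl hT hq (by omega) d2
    have hpar := parity2 hB hO (p + k1) (q + k2) (by omega) (by omega) (by omega) (by omega) d1 d2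
    obtain ⟨e, he⟩ : ∃ e, e = (p + A) % 2 := ⟨_, rfl⟩
    have he2 : e < 2 := by rw [he]; exact Nat.mod_lt _ (by norm_num)
    have he' : e = (q + B) % 2 := by
      clear hp hq hO hB d1 d2 ih
      omega
    have hnd : ∀ n, n % 2 = e → lo + 1 ≤ n → n + 3 ≤ hi → s (n + 1) = 1 - s n := by
      intro n hn h1 h2
      have h3 : s n ≠ s (n + 1) := by
        intro h4
        have h5 := parity2 hB hO n (p + k1) h1 (by omega) (by omega) (by omega) h4 d1
        clear hp hq hO hB d1 d2 ih h4 hpar he' hBB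
        omega
      have b1 := hB n
      have b2 := hB (n + 1)
      clear hp hq hO hB d1 d2 ih hpar he' hBB hn he hA
      omega
    obtain ⟨p', a, A', hp1, _, hp3, hp4, hp5⟩ := aux p A e he
    obtain ⟨q', b, B', hq1, _, hq3, hq4, hq5⟩ := aux q B e he'
    have hO' := half hO he2 (by omega) hnd
    have f1 := fac hT hp hp1 hp3 hp4 hL24
    have f2 := fac hT hq hq1 hq3 hq4 hL24
    have c1 : (lo + 2) / 2 ≤ p' := by rw [hp5]; exact Nat.div_le_div_right (by omega)
    have c2 : p' ≤ q' := by rw [hp5, hq5]; exact Nat.div_le_div_right (by omega)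
    have c3 : q' + (L - 8) / 2 ≤ (hi - 2) / 2 := by
      rw [hq5]
      clear hp hq hO hB d1 d2 ih hpar he' hBB he hA hnd hO' f1 f2 hp1 hp4 hp5 hq1 hq4 hq5 c1 c2
      omega
    have c4 : 16 * 2 ^ m ≤ (L - 8) / 2 + 8 := by
      rw [hM]
      clear hp hq hO hB d1 d2 ih hpar he' hBB he hA hnd hO' f1 f2 hp1 hp4 hp5 hq1 hq4 hq5 c1 c2 c3
      omega
    have key := ih (fun k => s (2 * k + e)) ((lo + 2) / 2) ((hi - 2) / 2) p' q' A' B'
      ((L - 8) / 2) (fun k => hB _) hO' c1 c2 c3 c4 f1 f2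
    exact fin p q A B p' q' A' B' a b e m hp1 hq1 hp4 hq4 key

end TMA_

theorem tma_proof (hTMB : Stmt_TMB) (_hTMO : Stmt_TMO) : Stmt_TMA := by
  intro m s lo hi p q A B L hB hO hlp hpq hqL hL hp hq
  exact TMA_.main hTMB m s lo hi p q A B L hB hO hlp hpq hqL (by omega) hp hq

end Pool.Agent.SSH
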