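import Pool.Agent.SSH.Stmts

/-!
# Self-shuffles (MP_018a5e_co), module TMB: the Thue-Morse sequence
-/

set_option autoImplicit false

namespace Pool.Agent.SSH

namespace TMB_

theorem tmF_zero (f : ℕ) : tmF f 0 = 0 := by
  induction f with
  | zero => rfl
  | succ f ih => rw [tmF]; simp [ih]

theorem tmF_lt (f n : ℕ) : tmF f n < 2 := by
  cases f with
  | zero => rw [tmF]; norm_num
  | succ f => rw [tmF]; exact Nat.mod_lt _ (by norm_num)

theorem tmF_eq (f : ℕ) : ∀ g n : ℕ, n < 2 ^ f → n < 2 ^ g → tmF f n = tmF g n := by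
  induction f with
  | zero =>
    intro g n h _
    have : n = 0 := by simpa using h
    subst this
    rw [tmF_zero, tmF_zero]
  | succ f ih =>
    intro g n h1 h2
    cases g with
    | zero =>
      have : n = 0 := by simpa using h2
      subst this
      rw [tmF_zero, tmF_zero]
    | succ g =>
      rw [tmF, tmF, ih g (n / 2)]
      · rw [pow_succ] at h1; omega
      · rw [pow_succ] at h2; omega

theorem tm_even (n : ℕ) : tm (2 * n) = tm n := by
  have h0 : n < 2 ^ n := Nat.lt_two_pow_self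
  have h1 : 2 * n < 2 ^ (2 * n) := Nat.lt_two_pow_self
  have h2 : 2 * n < 2 ^ (n + 1) := by rw [pow_succ]; omega
  rw [tm, tmF_eq (2 * n) (n + 1) (2 * n) h1 h2, tmF, tm]
  have h3 : 2 * n / 2 = n := by omega
  have h4 : 2 * n % 2 = 0 := by omega
  rw [h3, h4, zero_add, Nat.mod_eq_of_lt (tmF_lt n n)]

theorem tm_odd (n : ℕ) : tm (2 * n + 1) = 1 - tm n := by
  have h0 : n < 2 ^ n := Nat.lt_two_pow_self
  have h1 : 2 * n + 1 < 2 ^ (2 * n + 1) := Nat.lt_two_pow_self
  have h2 : 2 * n + 1 < 2 ^ (n + 1) := by rw [pow_succ]; omega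
  rw [tm, tmF_eq (2 * n + 1) (n + 1) (2 * n + 1) h1 h2, tmF, tm]
  have h3 : (2 * n + 1) / 2 = n := by omega
  have h4 : (2 * n + 1) % 2 = 1 := by omega
  rw [h3, h4]
  have h5 := tmF_lt n n
  omega

theorem tm_lt (n : ℕ) : tm n < 2 := tmF_lt n n

theorem tm_split (m : ℕ) : ∀ q r : ℕ, r < 2 ^ m → tm (2 ^ m * q + r) = (tm q + tm r) % 2 := by
  induction m with
  | zero =>
    intro q r h
    have : r = 0 := by simpa using h
    subst this
    have h1 := tm_lt q
    have h2 : tm 0 = 0 := rfl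
    rw [pow_zero, one_mul, add_zero, h2, add_zero, Nat.mod_eq_of_lt h1]
  | succ m ih =>
    intro q r h
    have hr : r / 2 < 2 ^ m := by rw [pow_succ] at h; omega
    have h1 := ih q (r / 2) hr
    have hq := tm_lt q
    have hr2 := tm_lt (r / 2)
    rcases Nat.even_or_odd' r with ⟨k, hk | hk⟩
    · have h2 : r / 2 = k := by omega
      rw [h2] at h1 hr2
      have h3 : 2 ^ (m + 1) * q + r = 2 * (2 ^ m * q + k) := by rw [pow_succ, hk]; ring
      rw [h3, tm_even, h1, hk, tm_even]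
    · have h2 : r / 2 = k := by omega
      rw [h2] at h1 hr2
      have h3 : 2 ^ (m + 1) * q + r = 2 * (2 ^ m * q + k) + 1 := by rw [pow_succ, hk]; ring
      rw [h3, tm_odd, h1, hk, tm_odd]
      omega

end TMB_

theorem tmb_proof : Stmt_TMB :=
  ⟨TMB_.tm_even, TMB_.tm_odd, TMB_.tm_lt, TMB_.tm_split⟩

end Pool.Agent.SSH
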