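import Pool.Agent.SSH.Stmts

/-!
# Self-shuffles (MP_018a5e_co): overlap-freeness of Thue–Morse
-/

set_option autoImplicit false

namespace Pool.Agent.SSH

namespace TMO_

theorem dbl (hB : Stmt_TMB) (n : ℕ) (h : tm n = tm (n + 1)) : n % 2 = 1 := by
  obtain ⟨h0, h1, h2, -⟩ := hB
  by_contra hn
  obtain ⟨m, hm⟩ : ∃ m, n = 2 * m := ⟨n / 2, by omega⟩
  subst hm
  have a := h0 m
  have b := h1 m
  have c := h2 m
  omega

theorem alt (hB : Stmt_TMB) (j p : ℕ) (hp : p % 2 = 1) (h : tm j = tm (j + p)) :
    ∃ k, k < p ∧ tm (j + k) = tm (j + k + 1) := by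
  obtain ⟨-, -, h2, -⟩ := hB
  by_contra hc
  push Not at hc
  have key : ∀ k, k ≤ p → tm (j + k) = (tm j + k) % 2 := by
    intro k
    induction k with
    | zero =>
      intro _
      have := h2 j
      simp only [Nat.add_zero]
      omega
    | succ k ih =>
      intro hk
      have i1 := ih (by omega)
      have i2 := hc k (by omega)
      have i3 := h2 (j + k)
      have i4 := h2 (j + k + 1)
      have i5 : j + (k + 1) = j + k + 1 := by omega
      rw [i5]
      omega
  have i1 := key p le_rfl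
  have i2 := h2 j
  omega

theorem main (hB : Stmt_TMB) : ∀ p, 0 < p → ∀ j, (∀ k, k ≤ p → tm (j + k) = tm (j + p + k)) → False := by
  intro p
  induction p using Nat.strong_induction_on with
  | _ p ih =>
    intro hp j hj
    rcases Nat.mod_two_eq_zero_or_one p with he | ho
    · obtain ⟨q, hq⟩ : ∃ q, p = 2 * q := ⟨p / 2, by omega⟩
      subst hq
      obtain ⟨h0, h1, h2, -⟩ := hB
      rcases Nat.mod_two_eq_zero_or_one j with je | jo
      · obtain ⟨i, hi⟩ : ∃ i, j = 2 * i := ⟨j / 2, by omega⟩
        subst hi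
        apply ih q (by omega) (by omega) i
        intro k hk
        have a := hj (2 * k) (by omega)
        have e1 : 2 * i + 2 * k = 2 * (i + k) := by ring
        have e2 : 2 * i + 2 * q + 2 * k = 2 * (i + q + k) := by ring
        rw [e1, e2, h0, h0] at a
        exact a
      · obtain ⟨i, hi⟩ : ∃ i, j = 2 * i + 1 := ⟨j / 2, by omega⟩
        subst hi
        apply ih q (by omega) (by omega) i
        intro k hk
        have a := hj (2 * k) (by omega)
        have e1 : 2 * i + 1 + 2 * k = 2 * (i + k) + 1 := by ring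
        have e2 : 2 * i + 1 + 2 * q + 2 * k = 2 * (i + q + k) + 1 := by ring
        rw [e1, e2, h1, h1] at a
        have b := h2 (i + k)
        have c := h2 (i + q + k)
        omega
    · obtain ⟨k, hk, hkk⟩ := alt hB j p ho (by simpa using hj 0 (by omega))
      have a := hj k (by omega)
      have b := hj (k + 1) (by omega)
      have e1 : j + (k + 1) = j + k + 1 := by omega
      have e2 : j + p + (k + 1) = j + p + k + 1 := by omega
      rw [e1, e2] at b
      have c := dbl hB (j + k) hkk
      have d := dbl hB (j + p + k) (by rw [← a, ← b]; exact hkk)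
      omega

theorem ov (hB : Stmt_TMB) (j p : ℕ) (hp : 0 < p) : ∃ k, k ≤ p ∧ tm (j + k) ≠ tm (j + p + k) := by
  by_contra hc
  push Not at hc
  exact main hB p hp j hc

theorem ovt (hB : Stmt_TMB) (j p : ℕ) (hp : 0 < p) : ∃ k, k ≤ p ∧ tt (j + k) ≠ tt (j + p + k) := by
  obtain ⟨k, hk, h⟩ := ov hB j p hp
  refine ⟨k, hk, ?_⟩
  have a := hB.2.2.1 (j + k)
  have b := hB.2.2.1 (j + p + k)
  unfold tt
  omega

end TMO_

theorem tmo_proof (hB : Stmt_TMB) : Stmt_TMO := by
  refine ⟨TMO_.ov hB, TMO_.ovt hB, ?_, ?_⟩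
  · intro n
    unfold tt
    omega
  · intro n ⟨h1, h2⟩
    obtain ⟨k, hk, h⟩ := TMO_.ovt hB n 1 (by omega)
    have hk' : k = 0 ∨ k = 1 := by omega
    rcases hk' with rfl | rfl
    · exact h h1
    · exact h h2

end Pool.Agent.SSH
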