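import Pool.Agent.SSH.TMO

/-!
# Self-shuffles (MP_018a5e_co): equal factors of Thue–Morse are at congruent positions
-/

set_option autoImplicit false

namespace Pool.Agent.SSH

namespace TMR_

theorem par (hB : Stmt_TMB) (hO : Stmt_TMO) (a b : ℕ) (h : ∀ k, k < 5 → tm (a + k) = tm (b + k)) :
    a % 2 = b % 2 := by
  obtain ⟨k, hk, hne⟩ := hO.1 a 2 (by omega)
  have e0 := h k (by omega)
  have e1 := h (k + 1) (by omega)
  have e2 := h (k + 2) (by omega)
  have s1 : a + (k + 1) = a + k + 1 := by omega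
  have s2 : a + (k + 2) = a + k + 1 + 1 := by omega
  have s3 : b + (k + 1) = b + k + 1 := by omega
  have s4 : b + (k + 2) = b + k + 1 + 1 := by omega
  have s5 : a + 2 + k = a + k + 1 + 1 := by omega
  rw [s1, s3] at e1
  rw [s2, s4] at e2
  rw [s5] at hne
  have h2 := hB.2.2.1
  have b0 := h2 (a + k)
  have b1 := h2 (a + k + 1)
  have b2 := h2 (a + k + 1 + 1)
  have c : tm (a + k) = tm (a + k + 1) ∨ tm (a + k + 1) = tm (a + k + 1 + 1) := by omega
  rcases c with c | c
  · have d1 := TMO_.dbl hB (a + k) c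
    have d2 := TMO_.dbl hB (b + k) (by rw [← e0, ← e1]; exact c)
    omega
  · have d1 := TMO_.dbl hB (a + k + 1) c
    have d2 := TMO_.dbl hB (b + k + 1) (by rw [← e1, ← e2]; exact c)
    omega

end TMR_

theorem tmr_proof (hB : Stmt_TMB) (hO : Stmt_TMO) : Stmt_TMR := by
  intro m
  induction m with
  | zero =>
    intro a b hab h
    have := TMR_.par hB hO a b (fun k hk => h k (by omega))
    simp only [Nat.zero_add, pow_one]
    omega
  | succ m ih =>
    intro a b hab h
    have hpos : 0 < 2 ^ m := by positivity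
    have hpow : 2 ^ (m + 1) = 2 * 2 ^ m := by rw [pow_succ]; ring
    rw [hpow] at h
    have hp := TMR_.par hB hO a b (fun k hk => h k (by omega))
    obtain ⟨h0, h1, h2, -⟩ := hB
    rcases Nat.mod_two_eq_zero_or_one a with he | ho
    · obtain ⟨a', rfl⟩ : ∃ i, a = 2 * i := ⟨a / 2, by omega⟩
      obtain ⟨b', rfl⟩ : ∃ i, b = 2 * i := ⟨b / 2, by omega⟩
      have := ih a' b' (by omega) (by
        intro k hk
        have q := h (2 * k) (by omega)
        have e1 : 2 * a' + 2 * k = 2 * (a' + k) := by ring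
        have e2 : 2 * b' + 2 * k = 2 * (b' + k) := by ring
        rw [e1, e2, h0, h0] at q
        exact q)
      obtain ⟨c, hc⟩ := this
      refine ⟨c, ?_⟩
      have e3 : 2 * b' - 2 * a' = 2 * (b' - a') := by omega
      rw [e3, hc, pow_succ 2 (m + 1)]
      ring
    · obtain ⟨a', rfl⟩ : ∃ i, a = 2 * i + 1 := ⟨a / 2, by omega⟩
      obtain ⟨b', rfl⟩ : ∃ i, b = 2 * i + 1 := ⟨b / 2, by omega⟩
      have := ih (a' + 1) (b' + 1) (by omega) (by
        intro k hk
        have q := h (2 * k + 1) (by omega)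
        have e1 : 2 * a' + 1 + (2 * k + 1) = 2 * (a' + 1 + k) := by ring
        have e2 : 2 * b' + 1 + (2 * k + 1) = 2 * (b' + 1 + k) := by ring
        rw [e1, e2, h0, h0] at q
        exact q)
      obtain ⟨c, hc⟩ := this
      refine ⟨c, ?_⟩
      have e3 : 2 * b' + 1 - (2 * a' + 1) = 2 * (b' + 1 - (a' + 1)) := by omega
      rw [e3, hc, pow_succ 2 (m + 1)]
      ring

end Pool.Agent.SSH
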