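import Pool.Agent.SSH.Stmts

/-!
# Squad SSH, module TVW: successors of sets of pairs
-/

set_option autoImplicit false

namespace Pool.Agent.SSH

namespace TVW_

theorem tb_rowget (F v x : ℕ) (hx : x < 828) :
    (rowget F v).testBit x = F.testBit (828 * v + x) := by
  unfold rowget
  rw [Nat.testBit_mod_two_pow, Nat.testBit_shiftRight]
  simp [hx]

theorem tb_rowput (r t x : ℕ) : (rowput r t).testBit (828 * t + x) = r.testBit x := by
  unfold rowput
  rw [Nat.testBit_shiftLeft]
  simp

theorem tb_shl (r k m : ℕ) : (r <<< k).testBit (m + k) = r.testBit m := by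
  rw [Nat.testBit_shiftLeft]
  simp

theorem nxt_cases (v v' : ℕ) (h : nxt v v' = true) :
    (v = 169 ∧ (v' = 422 ∨ v' = 170)) ∨ (v = 295 ∧ v' = 422) ∨ (v = 421 ∧ v' = 0) ∨
    (v = 827 ∧ (v' = 0 ∨ v' = 296)) ∨ (isEnd v = false ∧ v' = v + 1) := by
  unfold nxt at h
  by_cases h1 : v = 169
  · subst h1
    simp at h
    exact Or.inl ⟨rfl, h⟩
  · have b1 : Nat.beq v 169 = false := by
      cases hb : Nat.beq v 169
      · rfl
      · exact absurd (Nat.eq_of_beq_eq_true hb) h1
    rw [b1] at h
    by_cases h2 : v = 295
    · subst h2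
      simp at h
      exact Or.inr (Or.inl ⟨rfl, h⟩)
    · have b2 : Nat.beq v 295 = false := by
        cases hb : Nat.beq v 295
        · rfl
        · exact absurd (Nat.eq_of_beq_eq_true hb) h2
      rw [b2] at h
      by_cases h3 : v = 421
      · subst h3
        simp at h
        exact Or.inr (Or.inr (Or.inl ⟨rfl, h⟩))
      · have b3 : Nat.beq v 421 = false := by
          cases hb : Nat.beq v 421
          · rfl
          · exact absurd (Nat.eq_of_beq_eq_true hb) h3
        rw [b3] at h
        by_cases h4 : v = 827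
        · subst h4
          simp at h
          exact Or.inr (Or.inr (Or.inr (Or.inl ⟨rfl, h⟩)))
        · have b4 : Nat.beq v 827 = false := by
            cases hb : Nat.beq v 827
            · rfl
            · exact absurd (Nat.eq_of_beq_eq_true hb) h4
          rw [b4] at h
          simp only [cond_false] at h
          refine Or.inr (Or.inr (Or.inr (Or.inr ⟨?_, Nat.eq_of_beq_eq_true h⟩)))
          unfold isEnd
          rw [b1, b2, b3, b4]
          rfl

end TVW_

open TVW_ in
theorem tvw_proof (hM : Stmt_MSK) : Stmt_TVW := by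
  intro F v x hv hx hF
  unfold mem at hF
  refine ⟨?_, ?_⟩
  · intro v' hv' hn
    unfold mem Tv
    simp only [Nat.testBit_lor, Bool.or_eq_true]
    rcases nxt_cases v v' hn with ⟨rfl, rfl | rfl⟩ | ⟨rfl, rfl⟩ | ⟨rfl, rfl⟩ | ⟨rfl, rfl | rfl⟩ |
      ⟨he, rfl⟩
    · right; left
      rw [tb_rowput, Nat.testBit_lor, tb_rowget _ _ _ hx, hF, Bool.true_or]
    · right; right; left
      rw [tb_rowput, tb_rowget _ _ _ hx, hF]
    · right; left
      rw [tb_rowput, Nat.testBit_lor, tb_rowget _ _ _ hx, tb_rowget _ _ _ hx, hF, Bool.or_true]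
    · right; right; right; left; left
      rw [Nat.mul_zero, Nat.zero_add, tb_rowget _ _ _ hx, hF]
    · right; right; right; left; right
      rw [Nat.mul_zero, Nat.zero_add, tb_rowget _ _ _ hx, hF]
    · right; right; right; right
      rw [tb_rowput, tb_rowget _ _ _ hx, hF]
    · left
      have e : 828 * (v + 1) + x = (828 * v + x) + 828 := by ring
      rw [e, tb_shl, Nat.testBit_land, hF, Bool.true_and]
      exact ((hM v x hv hx).2.1).2 he
  · intro x' hx' hn
    unfold mem Tw
    have hc : COL.testBit (828 * v) = true := by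
      have := ((hM v 0 hv (by norm_num)).2.2.2.1).2 rfl
      unfold mem at this
      rwa [Nat.add_zero] at this
    simp only [Nat.testBit_lor, Bool.or_eq_true]
    rcases nxt_cases x x' hn with ⟨rfl, rfl | rfl⟩ | ⟨rfl, rfl⟩ | ⟨rfl, rfl⟩ | ⟨rfl, rfl | rfl⟩ |
      ⟨he, rfl⟩
    · right; left
      rw [tb_shl, Nat.testBit_land, Nat.testBit_lor, Nat.testBit_shiftRight, hc,
        Nat.add_comm 169, hF]
      rfl
    · right; right; left
      rw [tb_shl, Nat.testBit_land, Nat.testBit_shiftRight, hc, Nat.add_comm 169, hF]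
      rfl
    · right; left
      rw [tb_shl, Nat.testBit_land, Nat.testBit_lor, Nat.testBit_shiftRight,
        Nat.testBit_shiftRight, hc, Nat.add_comm 295, hF]
      simp
    · right; right; right; left
      rw [Nat.add_zero, Nat.testBit_land, Nat.testBit_lor, Nat.testBit_shiftRight, hc,
        Nat.add_comm 421, hF]
      rfl
    · right; right; right; left
      rw [Nat.add_zero, Nat.testBit_land, Nat.testBit_lor, Nat.testBit_shiftRight,
        Nat.testBit_shiftRight, hc, Nat.add_comm 827, hF]
      simp
    · right; right; right; right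
      rw [tb_shl, Nat.testBit_land, Nat.testBit_shiftRight, hc, Nat.add_comm 827, hF]
      rfl
    · left
      have e : 828 * v + (x + 1) = (828 * v + x) + 1 := by ring
      rw [e, tb_shl, Nat.testBit_land, hF, Bool.true_and]
      exact ((hM v x hv hx).2.2.1).2 he

end Pool.Agent.SSH
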