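import Pool.Agent.SSH.Stmts

/-!
# Self-shuffles (MP_018a5e_co): module UPH
-/

set_option autoImplicit false

namespace Pool.Agent.SSH

namespace UPH_

theorem allN_iff (P : ℕ → Bool) : ∀ n, allN P n = true → ∀ m, m < n → P m = true
  | 0, _, m, hm => absurd hm (Nat.not_lt_zero m)
  | n + 1, h, m, hm => by
    simp only [allN, Bool.and_eq_true] at h
    rcases Nat.lt_succ_iff_lt_or_eq.mp hm with h1 | h1
    · exact allN_iff P n h.2 m h1
    · rw [h1]
      exact h.1

theorem labck : allN (fun s => Nat.blt (lab s) 3) 828 = true := by decide +kernel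

theorem lab_lt (s : ℕ) (hs : s < 828) : lab s < 3 := by
  have h := allN_iff _ _ labck s hs
  simpa using h

theorem ss_lt (hGRO : Stmt_GRO) (i : ℕ) : ss i < ss (i + 1) := by
  have h := (hGRO i).2.2.2.2.1
  omega

theorem ss_pos (hGRO : Stmt_GRO) (i : ℕ) : 0 < ss i := by
  have h := (hGRO i).2.2.1
  have h2 : 0 < 2 ^ (2 * NN i + 4) := Nat.pos_of_ne_zero (by positivity)
  omega

theorem ss_ge (hGRO : Stmt_GRO) (i : ℕ) : i ≤ ss i := by
  induction i with
  | zero => exact Nat.zero_le _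
  | succ i ih =>
    have := ss_lt hGRO i
    omega

/-- every `n` is before `ss 0` or in a unique interval -/
theorem loc (hGRO : Stmt_GRO) (n : ℕ) : n < ss 0 ∨ ∃ i, ss i ≤ n ∧ n < ss (i + 1) := by
  by_cases h0 : n < ss 0
  · exact Or.inl h0
  · right
    have hex : ∃ i, n < ss (i + 1) := ⟨n, by have := ss_ge hGRO (n + 1); omega⟩
    classical
    refine ⟨Nat.find hex, ?_, Nat.find_spec hex⟩
    by_cases hz : Nat.find hex = 0
    · rw [hz]
      omega
    · have h1 := Nat.find_min hex (m := Nat.find hex - 1) (by omega)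
      have h2 : Nat.find hex - 1 + 1 = Nat.find hex := by omega
      rw [h2] at h1
      omega

theorem gg_before (hGRO : Stmt_GRO) (hGGF : Stmt_GGF) (i : ℕ) : GG (ss i - 1) = dd i - 1 := by
  have hp := ss_pos hGRO i
  cases i with
  | zero =>
    have h := (hGGF.2.1 (ss 0 - 1) (by omega)).2
    rw [h, hGGF.2.2.2.1]
  | succ i =>
    have hlt := ss_lt hGRO i
    have h := (hGGF.1 i (ss (i + 1) - 1) (by omega) (by omega)).2
    have h2 := hGGF.2.2.1 i
    rw [h]
    omega

theorem gg_at (hGRO : Stmt_GRO) (hGGF : Stmt_GGF) (i : ℕ) : GG (ss i) = ee i + 0 := by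
  have hlt := ss_lt hGRO i
  have h := (hGGF.1 i (ss i) le_rfl hlt).2
  rw [h]
  omega

end UPH_

open UPH_ in
theorem uph_proof (hTMO : Stmt_TMO) (hWKP : Stmt_WKP) (hGRO : Stmt_GRO) (hGGF : Stmt_GGF)
    (hDEL : Stmt_DEL) : Stmt_UPH := by
  have hbin := hTMO.2.2.1
  have hphl : ∀ n, ff n < 828 := fun n => ((hWKP tt hbin).1 (GG n)).1
  refine ⟨fun n => ⟨hphl n, rfl, lab_lt _ (hphl n)⟩, ?_, ?_⟩
  · intro n hn
    have hgg : GG (n + 1) = GG n + 1 := by
      rcases loc hGRO n with h | ⟨i, h1, h2⟩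
      · have h3 : n + 1 < ss 0 := by
          have := hn 0
          omega
        rw [(hGGF.2.1 n h).2, (hGGF.2.1 (n + 1) h3).2]
      · have h3 : n + 1 < ss (i + 1) := by
          have := hn (i + 1)
          omega
        rw [(hGGF.1 i n h1 h2).2, (hGGF.1 i (n + 1) (by omega) h3).2]
        omega
    have h := (hWKP tt hbin).2 hTMO.2.2.2 (GG n)
    unfold ff
    rw [hgg]
    exact h
  · intro i
    refine ⟨ss_pos hGRO i, ?_, ?_⟩
    · unfold ff
      rw [gg_before hGRO hGGF i]
      exact (hDEL i 0 (by omega)).2.2.2.2.2.1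
    · unfold ff
      rw [gg_at hGRO hGGF i]
      exact (hDEL i 0 (by omega)).2.1

end Pool.Agent.SSH
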