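import Pool.Agent.SSH.Stmts

/-!
# Self-shuffles (MP_018a5e_co): module USQ, the word `UU` is square-free
-/

set_option autoImplicit false

namespace Pool.Agent.SSH

namespace USQ_

/-- beyond the end of a segment the letters agree for three more steps -/
lemma ext (hGRO : Stmt_GRO) (hGGF : Stmt_GGF) (hDEL : Stmt_DEL) (i n : ℕ) (h1 : ss i ≤ n)
    (h2 : n < ss (i + 1) + 3) : UU n = hw tt (ee i + (n - ss i)) := by
  obtain ⟨hg1, hg2, hg3, hg4, hg5, hg6⟩ := hGGF
  by_cases h : n < ss (i + 1)
  · have := (hg1 i n h1 h).2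
    show hw tt (GG n) = _
    rw [this]
  · have hG := hGRO (i + 1)
    have h3 := (hg1 (i + 1) n (by omega) (by omega)).2
    show hw tt (GG n) = _
    rw [h3]
    have h4 := (hDEL (i + 1) (n - ss (i + 1)) (by omega)).2.2.2.2.1 (by omega)
    have hG0 := hGRO i
    have e : dd (i + 1) + (n - ss (i + 1)) = ee i + (n - ss i) := by
      rw [← hg3 i]
      omega
    rw [← h4, e]

lemma ext0 (hGRO : Stmt_GRO) (hGGF : Stmt_GGF) (hDEL : Stmt_DEL) (n : ℕ)
    (h2 : n < ss 0 + 3) : UU n = hw tt n := by
  obtain ⟨hg1, hg2, hg3, hg4, hg5, hg6⟩ := hGGF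
  by_cases h : n < ss 0
  · have := (hg2 n h).2
    show hw tt (GG n) = _
    rw [this]
  · have hG := hGRO 0
    have h3 := (hg1 0 n (by omega) (by omega)).2
    show hw tt (GG n) = _
    rw [h3]
    have h4 := (hDEL 0 (n - ss 0) (by omega)).2.2.2.2.1 (by omega)
    have e : dd 0 + (n - ss 0) = n := by
      rw [← hg4]
      omega
    rw [← h4, e]

/-- the segment of `a` -/
lemma seg (hGRO : Stmt_GRO) (hGGF : Stmt_GGF) (hDEL : Stmt_DEL) (a : ℕ) :
    ∃ m b : ℕ, a < ss m ∧ (∀ k, a + k < ss m + 3 → UU (a + k) = hw tt (b + k)) ∧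
      dd m + a = b + ss m := by
  have hGGF' := hGGF
  obtain ⟨hg1, hg2, hg3, hg4, hg5, hg6⟩ := hGGF
  rcases Nat.eq_zero_or_pos (jj a) with h | h
  · have ha : a < ss 0 := (hg6 a 0).1 (by omega)
    refine ⟨0, a, ha, fun k hk => ext0 hGRO hGGF' hDEL _ hk, ?_⟩
    rw [hg4]
    omega
  · obtain ⟨i, hi⟩ : ∃ i, jj a = i + 1 := ⟨jj a - 1, by omega⟩
    have ha : a < ss (i + 1) := (hg6 a (i + 1)).1 (by omega)
    have hb : ss i ≤ a := by
      by_contra hc
      have := (hg6 a i).2 (by omega)
      omega
    refine ⟨i + 1, ee i + (a - ss i), ha, ?_, ?_⟩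
    · intro k hk
      have e : ee i + (a + k - ss i) = ee i + (a - ss i) + k := by omega
      rw [ext hGRO hGGF' hDEL i (a + k) (by omega) hk, e]
    · rw [← hg3 i]
      omega

end USQ_

open USQ_

theorem usq_proof (hGRO : Stmt_GRO) (hGGF : Stmt_GGF) (hDEL : Stmt_DEL) (_hUPH : Stmt_UPH)
    (hWIN : Stmt_WIN) (hSQW : Stmt_SQW) (hKSW : Stmt_KSW) (hXSM : Stmt_XSM) (hXLG : Stmt_XLG)
    (hXJN : Stmt_XJN) (hJCT : Stmt_JCT) : Stmt_USQ := by
  intro a p hp
  by_contra hcon
  push Not at hcon
  obtain ⟨m, b, ham, hseg, hdd⟩ := seg hGRO hGGF hDEL a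
  by_cases hlt : a + 2 * p ≤ ss m + 3
  · -- no junction, or a junction near the end
    have hsq : ∀ k, k < p → hw tt (b + k) = hw tt (b + p + k) := by
      intro k hk
      have h1 := hseg k (by omega)
      have h2 := hseg (p + k) (by omega)
      have h3 := hcon k hk
      rw [← add_assoc] at h2
      rw [h1, h2] at h3
      have e : b + p + k = b + (p + k) := by omega
      rw [h3, e]
    by_cases hp2 : p < 240
    · obtain ⟨k, hk, hne⟩ := hXSM b p hp hp2
      exact hne (hsq k hk)
    · obtain ⟨k, hk, hne⟩ := hXLG b p (by omega)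
      exact hne (hsq k hk)
  · by_cases hp2 : p < 240
    · -- the window
      have hG := hGRO m
      have hw1 := (hWIN m).1
      have hS : ∀ code : ℕ, sqC code 1000 239 = true →
          (∀ k, k < 1000 → UU (ss m - 500 + k) = code / 4 ^ k % 4) → False := by
        intro code hc hd
        obtain ⟨k, hk, hne⟩ := hSQW code 1000 239 UU (ss m - 500) hc hd (a + 500 - ss m) p hp
          (by omega) (by omega)
        have h3 := hcon k hk
        apply hne
        have e1 : ss m - 500 + (a + 500 - ss m) + k = a + k := by omega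
        have e2 : ss m - 500 + (a + 500 - ss m) + p + k = a + p + k := by omega
        rw [e1, e2]
        exact h3
      have hK : sqC WINE 1000 239 = true ∧ sqC WINO 1000 239 = true := by
        have := hKSW
        unfold Stmt_KSW at this
        rwa [Bool.and_eq_true] at this
      rcases Nat.mod_two_eq_zero_or_one m with hm | hm
      · rw [if_pos hm] at hw1
        exact hS WINE hK.1 hw1
      · rw [if_neg (by omega)] at hw1
        exact hS WINO hK.2 hw1
    · -- a junction near the middle
      have hcon' : ∀ k, k < p → UU (a + k) = UU (a + p + k) := hcon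
      have hp3 : 240 ≤ p := by omega
      have hG := hGRO m
      have hG1 := hGRO (m + 1)
      have hmid : a + p ≤ ss m + 3 ∧ ss m ≤ a + p := by
        rcases hJCT a p hp3 hcon' m ham (by omega) with h | h
        · exact h
        · omega
      have hend : a + 2 * p ≤ ss (m + 1) + 3 := by
        by_contra hc
        rcases hJCT a p hp3 hcon' (m + 1) (by omega) (by omega) with h | h
        · omega
        · omega
      obtain ⟨k, hk, hne⟩ := hXJN m (a + p - ss m) p (by omega) hp3 (by omega)
      apply hne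
      have h1 := hseg k (by omega)
      have h2 := ext hGRO hGGF hDEL m (a + p + k) (by omega) (by omega)
      have h3 := hcon k hk
      rw [h1, h2] at h3
      have e1 : dd m + (a + p - ss m) - p + k = b + k := by omega
      have e2 : ee m + (a + p - ss m) + k = ee m + (a + p + k - ss m) := by omega
      rw [e1, e2]
      exact h3

end Pool.Agent.SSH
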