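import Pool.Agent.SSH.Stmts

/-!
# Self-shuffles (MP_018a5e_co), module VRC
-/

set_option autoImplicit false

namespace Pool.Agent.SSH

namespace VRC_

theorem run (h1 : Stmt_SHB) (β : ℕ → Bool) (n k : ℕ) (h : ∀ i, i < k → β (n + i) = false) :
    cT β (n + k) = cT β n ∧ cF β (n + k) = cF β n + k := by
  induction k with
  | zero => exact ⟨rfl, rfl⟩
  | succ k ih =>
    have ih' := ih (fun i hi => h i (by omega))
    have h2 := (h1 β).2.2.1 (n + k) (h k (by omega))
    have e : n + (k + 1) = n + k + 1 := by omega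
    rw [e]
    exact ⟨by omega, by omega⟩

theorem first (h1 : Stmt_SHB) (h2 : Stmt_USQ) (w : ℕ → ℕ) (β : ℕ → Bool) (hS : Shf w β) (n : ℕ)
    (hn : 0 < cT β n) : ∃ j, j < cT β n ∧ cT β (n + j + 1) = cT β n + 1 := by
  have hex : ∃ j, j < cT β n ∧ β (n + j) = true := by
    by_contra hne
    have hf : ∀ i, i < cT β n → β (n + i) = false := by
      intro i hi
      by_contra h
      exact hne ⟨i, hi, by simpa using h⟩
    obtain ⟨k, hk, hk'⟩ := h2 (cF β n) (cT β n) hn
    have hr := run h1 β n k (fun i hi => hf i (by omega))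
    have hu := hS (n + k)
    rw [hf k hk, if_pos rfl, hr.2] at hu
    have hs := (h1 β).2.2.2.2.1 n
    apply hk'
    rw [← hu]
    exact congrArg UU (by omega)
  have hfind := Nat.find_spec hex
  refine ⟨Nat.find hex, hfind.1, ?_⟩
  have hr := run h1 β n (Nat.find hex) (fun i hi => by
    by_contra h
    exact Nat.find_min hex hi ⟨by omega, by simpa using h⟩)
  have h3 := (h1 β).2.2.2.1 (n + Nat.find hex) hfind.2
  omega

end VRC_

theorem vrc_proof (h1 : Stmt_SHB) (h2 : Stmt_USQ) : Stmt_VRC := by
  intro w β hS n T K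
  induction K generalizing n T with
  | zero =>
    intro hn hT
    obtain ⟨j, hj, hj'⟩ := VRC_.first h1 h2 w β hS n hn
    have hm := ((h1 β).2.2.2.2.2.1 (n + j + 1) (n + T) (by omega)).2
    omega
  | succ K ih =>
    intro hn hT
    obtain ⟨j, hj, hj'⟩ := VRC_.first h1 h2 w β hS n hn
    have hT' : (K + 1) * (cT β n + K + 2) + (cT β n + K + 2) ≤ T := by
      have : (K + 1 + 1) * (cT β n + (K + 1) + 1) =
        (K + 1) * (cT β n + K + 2) + (cT β n + K + 2) := by ring
      omega
    have h := ih (n + j + 1) (T - (j + 1)) (by omega) (by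
      rw [hj']
      have : (K + 1) * (cT β n + 1 + K + 1) = (K + 1) * (cT β n + K + 2) := by ring
      rw [this]
      omega)
    have e : n + j + 1 + (T - (j + 1)) = n + T := by omega
    rw [e] at h
    omega

end Pool.Agent.SSH
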