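import Pool.Agent.SSH.Stmts

set_option autoImplicit false
set_option exponentiation.threshold 1000000
set_option maxRecDepth 100000

namespace Pool.Agent.SSH

namespace WIN_

theorem allN_spec (P : ℕ → Bool) : ∀ n, allN P n = true → ∀ m, m < n → P m = true := by
  intro n
  induction n with
  | zero => intro _ m hm; omega
  | succ n ih =>
    intro h m hm
    simp only [allN, Bool.and_eq_true] at h
    rcases Nat.lt_succ_iff_lt_or_eq.1 hm with h1 | h1
    · exact ih h.2 m h1
    · subst h1; exact h.1

theorem lE : (force (bcs [0, 1, 1, 0, 0, 1]).1 fun X =>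
    allN (fun k => Nat.beq (X / 4 ^ (367 + k) % 4) (WINE / 4 ^ k % 4)) 500) = true := by
  decide +kernel

theorem rE : (force (bcs [0, 1, 1, 0]).1 fun X =>
    allN (fun k => Nat.beq (X / 4 ^ (51 + k) % 4) (WINE / 4 ^ (500 + k) % 4)) 500) = true := by
  decide +kernel

theorem lO : (force (bcs [1, 0, 0, 1]).1 fun X =>
    allN (fun k => Nat.beq (X / 4 ^ (165 + k) % 4) (WINO / 4 ^ k % 4)) 500) = true := by
  decide +kernel

theorem rO : (force (bcs [0, 1, 1, 0, 0, 1]).1 fun X =>
    allN (fun k => Nat.beq (X / 4 ^ (381 + k) % 4) (WINO / 4 ^ (500 + k) % 4)) 500) = true := by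
  decide +kernel

theorem len6 : (bcs [0, 1, 1, 0, 0, 1]).2 = 1234 := by decide +kernel
theorem len4 : (bcs [0, 1, 1, 0]).2 = 702 := by decide +kernel
theorem len4' : (bcs [1, 0, 0, 1]).2 = 702 := by decide +kernel
theorem len5 : (bcs [0, 1, 1, 0, 0]).2 = 828 := by decide +kernel
theorem len3 : (bcs [0, 1, 1]).2 = 532 := by decide +kernel
theorem len3' : (bcs [1, 0, 0]).2 = 296 := by decide +kernel

theorem dig (Y a W b : ℕ) (h : (force Y fun X =>
    allN (fun k => Nat.beq (X / 4 ^ (a + k) % 4) (W / 4 ^ (b + k) % 4)) 500) = true) (k : ℕ) (hk : k < 500) :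
    Y / 4 ^ (a + k) % 4 = W / 4 ^ (b + k) % 4 := by
  rw [force_eq] at h
  exact Nat.eq_of_beq_eq_true (allN_spec _ _ h k hk)

theorem dig0 (Y a W : ℕ) (h : (force Y fun X =>
    allN (fun k => Nat.beq (X / 4 ^ (a + k) % 4) (W / 4 ^ k % 4)) 500) = true) (k : ℕ) (hk : k < 500) :
    Y / 4 ^ (a + k) % 4 = W / 4 ^ k % 4 := by
  rw [force_eq] at h
  exact Nat.eq_of_beq_eq_true (allN_spec _ _ h k hk)

theorem tmv (hB : Stmt_TMB) (q r : ℕ) (hr : r < 256) : tm (256 * q + r) = (tm q + tm r) % 2 := by
  have := hB.2.2.2 8 q r (by norm_num; exact hr)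
  simpa using this

theorem ttv (hB : Stmt_TMB) (q r : ℕ) (hr : r < 256) : tt (256 * q + r) = 1 - (tm q + tm r) % 2 := by
  unfold tt; rw [tmv hB q r hr]

theorem t84 : tm 84 = 1 := by decide +kernel
theorem t85 : tm 85 = 0 := by decide +kernel
theorem t86 : tm 86 = 0 := by decide +kernel
theorem t87 : tm 87 = 1 := by decide +kernel
theorem t88 : tm 88 = 1 := by decide +kernel
theorem t89 : tm 89 = 0 := by decide +kernel
theorem t166 : tm 166 = 0 := by decide +kernel
theorem t167 : tm 167 = 1 := by decide +kernel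
theorem t168 : tm 168 = 1 := by decide +kernel
theorem t169 : tm 169 = 0 := by decide +kernel
theorem t170 : tm 170 = 0 := by decide +kernel
theorem t171 : tm 171 = 1 := by decide +kernel

theorem ggL (hG : Stmt_GRO) (hF : Stmt_GGF) (i k : ℕ) (hk : k < 500) :
    GG (ss i - 500 + k) = dd i - 500 + k ∧ 500 ≤ dd i ∧ 500 ≤ ss i := by
  obtain ⟨g1, g2, g3, g4, g5, g6, g7, g8, g9, g10⟩ := hG i
  have hs : 500 ≤ ss i := by omega
  have hd : 500 ≤ dd i := by omega
  refine ⟨?_, hd, hs⟩
  rcases Nat.eq_zero_or_pos i with h0 | h0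
  · subst h0
    have := (hF.2.1 (ss 0 - 500 + k) (by omega)).2
    rw [this, hF.2.2.2.1]
  · obtain ⟨j, rfl⟩ : ∃ j, i = j + 1 := ⟨i - 1, by omega⟩
    have g := (hG j).2.2.2.2.1
    have e := hF.2.2.1 j
    have := (hF.1 j (ss (j + 1) - 500 + k) (by omega) (by omega)).2
    rw [this]
    omega

theorem ggR (hG : Stmt_GRO) (hF : Stmt_GGF) (i r : ℕ) (hr : r ≤ 500) :
    GG (ss i + r) = ee i + r := by
  have g := (hG i).2.2.2.2.1
  have := (hF.1 i (ss i + r) (by omega) (by omega)).2
  rw [this]
  omega

end WIN_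

open WIN_ in
theorem win_proof (hTMB : Stmt_TMB) (hTMO : Stmt_TMO) (hEAQ : Stmt_EAQ) (hWKA : Stmt_WKA) (hWKC : Stmt_WKC)
    (hGRO : Stmt_GRO) (hGGF : Stmt_GGF) : Stmt_WIN := by
  have hbin : Bin tt := hTMO.2.2.1
  intro i
  obtain ⟨h, h', th, th', hev, hod⟩ := hEAQ i
  rcases Nat.mod_two_eq_zero_or_one i with hi | hi
  · obtain ⟨hE, hQ⟩ := hev hi
    rw [if_pos hi, if_pos hi]
    have a0 : tt (EE i - 4) = 0 := by
      rw [show EE i - 4 = 256 * h + 166 by omega, ttv hTMB _ _ (by norm_num), th, t166]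
    have a1 : tt (EE i - 4 + 1) = 1 := by
      rw [show EE i - 4 + 1 = 256 * h + 167 by omega, ttv hTMB _ _ (by norm_num), th, t167]
    have a2 : tt (EE i - 4 + 2) = 1 := by
      rw [show EE i - 4 + 2 = 256 * h + 168 by omega, ttv hTMB _ _ (by norm_num), th, t168]
    have a3 : tt (EE i - 4 + 3) = 0 := by
      rw [show EE i - 4 + 3 = 256 * h + 169 by omega, ttv hTMB _ _ (by norm_num), th, t169]
    have a4 : tt (EE i - 4 + 4) = 0 := by
      rw [show EE i - 4 + 4 = 256 * h + 170 by omega, ttv hTMB _ _ (by norm_num), th, t170]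
    have a5 : tt (EE i - 4 + 5) = 1 := by
      rw [show EE i - 4 + 5 = 256 * h + 171 by omega, ttv hTMB _ _ (by norm_num), th, t171]
    have b0 : tt (QQ i) = 0 := by
      rw [hQ, ttv hTMB _ _ (by norm_num), th', t168]
    have b1 : tt (QQ i + 1) = 1 := by
      rw [show QQ i + 1 = 256 * h' + 169 by omega, ttv hTMB _ _ (by norm_num), th', t169]
    have b2 : tt (QQ i + 2) = 1 := by
      rw [show QQ i + 2 = 256 * h' + 170 by omega, ttv hTMB _ _ (by norm_num), th', t170]
    have b3 : tt (QQ i + 3) = 0 := by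
      rw [show QQ i + 3 = 256 * h' + 171 by omega, ttv hTMB _ _ (by norm_num), th', t171]
    -- left side
    have L := hWKC tt [0, 1, 1, 0, 0, 1] (EE i - 4) hbin (by
      intro k hk
      simp only [List.length_cons, List.length_nil] at hk
      interval_cases k <;> simp_all)
    have L5 := (hWKC tt [0, 1, 1, 0, 0] (EE i - 4) hbin (by
      intro k hk
      simp only [List.length_cons, List.length_nil] at hk
      interval_cases k <;> simp_all)).1
    have R := hWKC tt [0, 1, 1, 0] (QQ i) hbin (by
      intro k hk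
      simp only [List.length_cons, List.length_nil] at hk
      interval_cases k <;> simp_all)
    have R3 := (hWKC tt [0, 1, 1] (QQ i) hbin (by
      intro k hk
      simp only [List.length_cons, List.length_nil] at hk
      interval_cases k <;> simp_all)).1
    rw [len5] at L5
    rw [len3] at R3
    rw [len6] at L
    rw [len4] at R
    simp only [List.length_cons, List.length_nil] at L5 R3
    have hEE : EE i - 4 + (0 + 1 + 1 + 1 + 1 + 1 - 1) = EE i := by omega
    rw [hEE] at L5
    have hcL : cL i = 39 := by unfold cL; rw [if_pos hi]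
    have hcR : cR i = 51 := by unfold cR; rw [hcL]
    have hdd : dd i = HH tt (EE i - 4) + 867 := by
      unfold dd; rw [L5, hcL]
    have hee : ee i = HH tt (QQ i) + 51 := by
      unfold ee; rw [hcR]
    refine ⟨?_, ?_⟩
    · intro k hk
      rcases Nat.lt_or_ge k 500 with h5 | h5
      · have := (ggL hGRO hGGF i k h5).1
        unfold UU
        rw [this, show dd i - 500 + k = HH tt (EE i - 4) + (367 + k) by omega, L.2 _ (by omega)]
        exact dig0 _ _ _ lE k h5
      · obtain ⟨r, rfl⟩ : ∃ r, k = 500 + r := ⟨k - 500, by omega⟩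
        have h6 := (ggL hGRO hGGF i 0 (by norm_num)).2.2
        have := ggR hGRO hGGF i r (by omega)
        unfold UU
        rw [show ss i - 500 + (500 + r) = ss i + r by omega, this,
          show ee i + r = HH tt (QQ i) + (51 + r) by omega, R.2 _ (by omega)]
        exact dig _ _ _ _ rE r (by omega)
    · unfold ff
      rw [ggR hGRO hGGF i 500 le_rfl]
      have hA := hWKA tt (QQ i + 2) 19 (by
        rw [show QQ i + 2 + 1 = QQ i + 3 by omega, b2, b3]; decide)
      have e1 : ee i + 500 = HH tt (QQ i + 2) + 19 := by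
        have : QQ i + (0 + 1 + 1 + 1 - 1) = QQ i + 2 := by omega
        rw [this] at R3
        omega
      rw [e1]
      unfold Ph ad of'
      rw [hA]
      show ph (tt (QQ i + 2)) (tt (QQ i + 2 + 1)) + 19 = 19
      rw [show QQ i + 2 + 1 = QQ i + 3 by omega, b2, b3]
      decide
  · obtain ⟨hE, hQ⟩ := hod hi
    have hi0 : ¬ (i % 2 = 0) := by omega
    rw [if_neg hi0, if_neg hi0]
    have a0 : tt (EE i - 2) = 1 := by
      rw [show EE i - 2 = 256 * h + 84 by omega, ttv hTMB _ _ (by norm_num), th, t84]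
    have a1 : tt (EE i - 2 + 1) = 0 := by
      rw [show EE i - 2 + 1 = 256 * h + 85 by omega, ttv hTMB _ _ (by norm_num), th, t85]
    have a2 : tt (EE i - 2 + 2) = 0 := by
      rw [show EE i - 2 + 2 = 256 * h + 86 by omega, ttv hTMB _ _ (by norm_num), th, t86]
    have a3 : tt (EE i - 2 + 3) = 1 := by
      rw [show EE i - 2 + 3 = 256 * h + 87 by omega, ttv hTMB _ _ (by norm_num), th, t87]
    have b0 : tt (QQ i) = 0 := by
      rw [hQ, ttv hTMB _ _ (by norm_num), th', t84]
    have b1 : tt (QQ i + 1) = 1 := by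
      rw [show QQ i + 1 = 256 * h' + 85 by omega, ttv hTMB _ _ (by norm_num), th', t85]
    have b2 : tt (QQ i + 2) = 1 := by
      rw [show QQ i + 2 = 256 * h' + 86 by omega, ttv hTMB _ _ (by norm_num), th', t86]
    have b3 : tt (QQ i + 3) = 0 := by
      rw [show QQ i + 3 = 256 * h' + 87 by omega, ttv hTMB _ _ (by norm_num), th', t87]
    have b4 : tt (QQ i + 4) = 0 := by
      rw [show QQ i + 4 = 256 * h' + 88 by omega, ttv hTMB _ _ (by norm_num), th', t88]
    have b5 : tt (QQ i + 5) = 1 := by
      rw [show QQ i + 5 = 256 * h' + 89 by omega, ttv hTMB _ _ (by norm_num), th', t89]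
    have L := hWKC tt [1, 0, 0, 1] (EE i - 2) hbin (by
      intro k hk
      simp only [List.length_cons, List.length_nil] at hk
      interval_cases k <;> simp_all)
    have L3 := (hWKC tt [1, 0, 0] (EE i - 2) hbin (by
      intro k hk
      simp only [List.length_cons, List.length_nil] at hk
      interval_cases k <;> simp_all)).1
    have R := hWKC tt [0, 1, 1, 0, 0, 1] (QQ i) hbin (by
      intro k hk
      simp only [List.length_cons, List.length_nil] at hk
      interval_cases k <;> simp_all)
    have R5 := (hWKC tt [0, 1, 1, 0, 0] (QQ i) hbin (by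
      intro k hk
      simp only [List.length_cons, List.length_nil] at hk
      interval_cases k <;> simp_all)).1
    rw [len3'] at L3
    rw [len5] at R5
    rw [len4'] at L
    rw [len6] at R
    simp only [List.length_cons, List.length_nil] at L3 R5
    have hEE : EE i - 2 + (0 + 1 + 1 + 1 - 1) = EE i := by omega
    rw [hEE] at L3
    have hcL : cL i = 369 := by unfold cL; rw [if_neg hi0]
    have hcR : cR i = 381 := by unfold cR; rw [hcL]
    have hdd : dd i = HH tt (EE i - 2) + 665 := by
      unfold dd; rw [L3, hcL]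
    have hee : ee i = HH tt (QQ i) + 381 := by
      unfold ee; rw [hcR]
    refine ⟨?_, ?_⟩
    · intro k hk
      rcases Nat.lt_or_ge k 500 with h5 | h5
      · have := (ggL hGRO hGGF i k h5).1
        unfold UU
        rw [this, show dd i - 500 + k = HH tt (EE i - 2) + (165 + k) by omega, L.2 _ (by omega)]
        exact dig0 _ _ _ lO k h5
      · obtain ⟨r, rfl⟩ : ∃ r, k = 500 + r := ⟨k - 500, by omega⟩
        have h6 := (ggL hGRO hGGF i 0 (by norm_num)).2.2
        have := ggR hGRO hGGF i r (by omega)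
        unfold UU
        rw [show ss i - 500 + (500 + r) = ss i + r by omega, this,
          show ee i + r = HH tt (QQ i) + (381 + r) by omega, R.2 _ (by omega)]
        exact dig _ _ _ _ rO r (by omega)
    · unfold ff
      rw [ggR hGRO hGGF i 500 le_rfl]
      have hA := hWKA tt (QQ i + 4) 53 (by
        rw [show QQ i + 4 + 1 = QQ i + 5 by omega, b4, b5]; decide)
      have e1 : ee i + 500 = HH tt (QQ i + 4) + 53 := by
        have : QQ i + (0 + 1 + 1 + 1 + 1 + 1 - 1) = QQ i + 4 := by omega
        rw [this] at R5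
        omega
      rw [e1]
      unfold Ph ad of'
      rw [hA]
      show ph (tt (QQ i + 4)) (tt (QQ i + 4 + 1)) + 53 = 475
      rw [show QQ i + 4 + 1 = QQ i + 5 by omega, b4, b5]
      decide

end Pool.Agent.SSH
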