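import Pool.Agent.SSH.Stmts

/-!
# Self-shuffles (MP_018a5e_co): the walker at a given block and offset
-/

set_option autoImplicit false

namespace Pool.Agent.SSH

namespace WKA_

theorem ln_pos (a b : ℕ) : 126 ≤ ln a b ∧ ln a b ≤ 406 := by
  unfold ln
  split_ifs <;> omega

theorem HH_succ (s : ℕ → ℕ) (A : ℕ) : HH s (A + 1) = HH s A + ln (s A) (s (A + 1)) := by
  unfold HH
  rw [Finset.sum_range_succ]

theorem step (s : ℕ → ℕ) (A : ℕ) (h0 : wk s (HH s A) = (A, 0)) :
    ∀ o, o < ln (s A) (s (A + 1)) → wk s (HH s A + o) = (A, o) := by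
  intro o
  induction o with
  | zero => intro _; simpa using h0
  | succ o ih =>
    intro ho
    have i1 := ih (by omega)
    have e : HH s A + (o + 1) = HH s A + o + 1 := by omega
    rw [e, wk, i1]
    simp only
    rw [if_pos ho]

end WKA_

theorem wka_proof : Stmt_WKA := by
  intro s A
  have key : ∀ A, wk s (HH s A) = (A, 0) := by
    intro A
    induction A with
    | zero => simp [HH, wk]
    | succ A ih =>
      have hl := WKA_.ln_pos (s A) (s (A + 1))
      have h1 := WKA_.step s A ih (ln (s A) (s (A + 1)) - 1) (by omega)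
      have e : HH s (A + 1) = HH s A + (ln (s A) (s (A + 1)) - 1) + 1 := by
        rw [WKA_.HH_succ]; omega
      rw [e, wk, h1]
      simp only
      rw [if_neg (by omega)]
  exact WKA_.step s A (key A)

end Pool.Agent.SSH
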