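import Pool.Agent.SSH.Stmts

/-!
# Self-shuffles (MP_018a5e_co): module WKB
-/

set_option autoImplicit false

namespace Pool.Agent.SSH

namespace WKB_

theorem ln_pos (a b : ℕ) : 0 < ln a b := by
  unfold ln
  split_ifs <;> omega

theorem wk_spec (s : ℕ → ℕ) (n : ℕ) : (wk s n).2 < ln (s (wk s n).1) (s ((wk s n).1 + 1)) ∧
    HH s (wk s n).1 + (wk s n).2 = n := by
  induction n with
  | zero =>
    refine ⟨ln_pos _ _, ?_⟩
    simp [wk, HH]
  | succ n ih =>
    have hs : wk s (n + 1) = if (wk s n).2 + 1 < ln (s (wk s n).1) (s ((wk s n).1 + 1)) then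
        ((wk s n).1, (wk s n).2 + 1) else ((wk s n).1 + 1, 0) := rfl
    rw [hs]
    split_ifs with h
    · refine ⟨h, ?_⟩
      simp only
      omega
    · refine ⟨ln_pos _ _, ?_⟩
      have h1 : HH s ((wk s n).1 + 1) = HH s (wk s n).1 + ln (s (wk s n).1) (s ((wk s n).1 + 1)) := by
        unfold HH
        rw [Finset.sum_range_succ]
      simp only
      omega

end WKB_

open WKB_

theorem wkb_proof (_hWKA : Stmt_WKA) : Stmt_WKB := by
  intro s n
  exact wk_spec s n

end Pool.Agent.SSH
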