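import Pool.Agent.SSH.Stmts

set_option autoImplicit false

namespace Pool.Agent.SSH

namespace WKC_

lemma digit (x p m r : ℕ) (hr : r < m) :
    ((x >>> (2 * p)) % 4 ^ m) / 4 ^ r % 4 = (x >>> (2 * (p + r))) % 4 := by
  obtain ⟨d, rfl⟩ := Nat.exists_eq_add_of_lt hr
  have h1 : (4 : ℕ) ^ (r + d + 1) = 4 ^ r * 4 ^ (d + 1) := by
    rw [← pow_add]
    congr 1
  rw [h1, Nat.mod_mul_right_div_self, Nat.mod_mod_of_dvd _ (dvd_pow_self 4 (by omega)),
    Nat.shiftRight_eq_div_pow, Nat.shiftRight_eq_div_pow, Nat.div_div_eq_div_mul]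
  congr 2
  rw [mul_add, pow_add, pow_mul 2 2 r]
  norm_num

lemma bc_digit (a b r : ℕ) (hr : r < ln a b) : bc a b / 4 ^ r % 4 = lab (ph a b + r) := by
  unfold bc lab
  exact digit _ _ _ _ hr

lemma bc_lt (a b : ℕ) : bc a b < 4 ^ ln a b := by
  unfold bc
  exact Nat.mod_lt _ (by positivity)

lemma low (c X m r : ℕ) (hr : r < m) : (c + X * 4 ^ m) / 4 ^ r % 4 = c / 4 ^ r % 4 := by
  obtain ⟨d, rfl⟩ := Nat.exists_eq_add_of_lt hr
  have h1 : c + X * 4 ^ (r + d + 1) = c + 4 ^ r * (X * 4 ^ d * 4) := by
    rw [pow_add, pow_add]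
    ring
  rw [h1, Nat.add_mul_div_left _ _ (by positivity), Nat.add_mul_mod_self_right]

lemma high (c X m r : ℕ) (hc : c < 4 ^ m) : (c + X * 4 ^ m) / 4 ^ (m + r) = X / 4 ^ r := by
  rw [pow_add, ← Nat.div_div_eq_div_mul, Nat.add_mul_div_right _ _ (by positivity),
    Nat.div_eq_of_lt hc, zero_add]

lemma HH_succ (s : ℕ → ℕ) (A : ℕ) : HH s (A + 1) = HH s A + ln (s A) (s (A + 1)) := by
  unfold HH
  rw [Finset.sum_range_succ]

lemma hw_block (hA : Stmt_WKA) (s : ℕ → ℕ) (A o : ℕ) (ho : o < ln (s A) (s (A + 1))) :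
    hw s (HH s A + o) = lab (ph (s A) (s (A + 1)) + o) := by
  have h := hA s A o ho
  unfold hw Ph ad of'
  rw [h]

end WKC_

open WKC_ in
/-- WKC -/
theorem wkc_proof (hA : Stmt_WKA) : Stmt_WKC := by
  intro s l
  induction l with
  | nil =>
    intro A _ _
    refine ⟨by simp [bcs], ?_⟩
    intro r hr
    simp [bcs] at hr
  | cons a l ih =>
    intro A hs hl
    cases l with
    | nil =>
      refine ⟨by simp [bcs], ?_⟩
      intro r hr
      simp [bcs] at hr
    | cons b t =>
      have ha : a = s A := by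
        have := hl 0 (by simp)
        simpa using this
      have hb : b = s (A + 1) := by
        have := hl 1 (by simp)
        simpa using this
      obtain ⟨ih1, ih2⟩ := ih (A + 1) hs (by
        intro k hk
        have := hl (k + 1) (by simpa using hk)
        rw [List.getD_cons_succ] at this
        rw [this]
        congr 1
        omega)
      have hbc : bcs (a :: b :: t) =
        (bc a b + (bcs (b :: t)).1 * 4 ^ ln a b, ln a b + (bcs (b :: t)).2) := by
        rw [bcs]
      rw [hbc]
      have hH := HH_succ s A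
      rw [← ha, ← hb] at hH
      constructor
      · have h1 : A + ((a :: b :: t).length - 1) = A + 1 + ((b :: t).length - 1) := by
          simp only [List.length_cons]
          omega
        rw [h1, ih1, hH]
        omega
      · intro r hr
        simp only at hr ⊢
        by_cases hrl : r < ln a b
        · rw [low _ _ _ _ hrl, bc_digit _ _ _ hrl]
          have h2 := hw_block hA s A r (by rw [← ha, ← hb]; exact hrl)
          rw [← ha, ← hb] at h2
          exact h2
        · obtain ⟨r', rfl⟩ := Nat.exists_eq_add_of_le (not_lt.1 hrl)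
          rw [high _ _ _ _ (bc_lt a b), ← ih2 r' (by omega), hH]
          congr 1
          omega

end Pool.Agent.SSH
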