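import Pool.Agent.SSH.Stmts

/-! # MP_018a5e_co : module WKG (every path of phases is a walk) -/

set_option autoImplicit false

namespace Pool.Agent.SSH

namespace WKG_

theorem allN_sound (P : ℕ → Bool) (n : ℕ) (h : allN P n = true) : ∀ m, m < n → P m = true := by
  induction n with
  | zero => intro m hm; omega
  | succ n ih =>
    intro m hm
    have h' : (P n && allN P n) = true := h
    rw [Bool.and_eq_true] at h'
    rcases Nat.lt_succ_iff_lt_or_eq.mp hm with h1 | h1
    · exact ih h'.2 m h1
    · rw [h1]; exact h'.1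

theorem nxt_cases (v t : ℕ) (h : nxt v t = true) :
    (v = 169 ∧ (t = 422 ∨ t = 170)) ∨ (v = 295 ∧ t = 422) ∨ (v = 421 ∧ t = 0) ∨
    (v = 827 ∧ (t = 0 ∨ t = 296)) ∨ (v ≠ 169 ∧ v ≠ 295 ∧ v ≠ 421 ∧ v ≠ 827 ∧ t = v + 1) := by
  unfold nxt at h
  cases h1 : Nat.beq v 169 with
  | true =>
    rw [h1] at h
    left
    refine ⟨Nat.eq_of_beq_eq_true h1, ?_⟩
    simp only [cond_true, Bool.or_eq_true] at h
    rcases h with h | h
    · left; exact Nat.eq_of_beq_eq_true h
    · right; exact Nat.eq_of_beq_eq_true h
  | false =>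
    rw [h1] at h
    have n1 := Nat.ne_of_beq_eq_false h1
    simp only [cond_false] at h
    cases h2 : Nat.beq v 295 with
    | true =>
      rw [h2] at h
      simp only [cond_true] at h
      right; left
      exact ⟨Nat.eq_of_beq_eq_true h2, Nat.eq_of_beq_eq_true h⟩
    | false =>
      rw [h2] at h
      have n2 := Nat.ne_of_beq_eq_false h2
      simp only [cond_false] at h
      cases h3 : Nat.beq v 421 with
      | true =>
        rw [h3] at h
        simp only [cond_true] at h
        right; right; left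
        exact ⟨Nat.eq_of_beq_eq_true h3, Nat.eq_of_beq_eq_true h⟩
      | false =>
        rw [h3] at h
        have n3 := Nat.ne_of_beq_eq_false h3
        simp only [cond_false] at h
        cases h4 : Nat.beq v 827 with
        | true =>
          rw [h4] at h
          right; right; right; left
          refine ⟨Nat.eq_of_beq_eq_true h4, ?_⟩
          simp only [cond_true, Bool.or_eq_true] at h
          rcases h with h | h
          · left; exact Nat.eq_of_beq_eq_true h
          · right; exact Nat.eq_of_beq_eq_true h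
        | false =>
          rw [h4] at h
          have n4 := Nat.ne_of_beq_eq_false h4
          simp only [cond_false] at h
          right; right; right; right
          exact ⟨n1, n2, n3, n4, Nat.eq_of_beq_eq_true h⟩

theorem chk1 : allN (fun v => Nat.beq (ph (gau v) (gau' v) + off v) v &&
    (Nat.blt (off v) (ln (gau v) (gau' v)) && (Nat.blt (gau v) 2 && Nat.blt (gau' v) 2))) 828 = true := by
  decide +kernel

theorem phase (v : ℕ) (hv : v < 828) : ph (gau v) (gau' v) + off v = v ∧ off v < ln (gau v) (gau' v) ∧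
    gau v < 2 ∧ gau' v < 2 := by
  have h := allN_sound _ _ chk1 v hv
  simp only [Bool.and_eq_true] at h
  obtain ⟨h1, h2, h3, h4⟩ := h
  refine ⟨Nat.eq_of_beq_eq_true h1, ?_, ?_, ?_⟩
  · simpa [Nat.blt_eq] using h2
  · simpa [Nat.blt_eq] using h3
  · simpa [Nat.blt_eq] using h4

theorem chk2 : allN (fun v => Nat.beq v 169 || (Nat.beq v 295 || (Nat.beq v 421 || (Nat.beq v 827 ||
    (Nat.beq (off (v + 1)) (off v + 1) && (Nat.beq (gau (v + 1)) (gau v) && (Nat.beq (gau' (v + 1)) (gau' v) &&
      Nat.blt (off v + 1) (ln (gau v) (gau' v))))))))) 828 = true := by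
  decide +kernel

/-- one step -/
theorem step (v t : ℕ) (hv : v < 828) (h : nxt v t = true) :
    (off t = off v + 1 ∧ gau t = gau v ∧ gau' t = gau' v ∧ off v + 1 < ln (gau v) (gau' v)) ∨
    (off t = 0 ∧ gau t = gau' v ∧ ¬ (off v + 1 < ln (gau v) (gau' v))) := by
  rcases nxt_cases v t h with ⟨h1, h2⟩ | ⟨h1, h2⟩ | ⟨h1, h2⟩ | ⟨h1, h2⟩ | ⟨n1, n2, n3, n4, h2⟩
  · right
    subst h1
    rcases h2 with h2 | h2 <;> subst h2 <;> decide
  · right
    subst h1; subst h2
    decide
  · right
    subst h1; subst h2
    decide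
  · right
    subst h1
    rcases h2 with h2 | h2 <;> subst h2 <;> decide
  · left
    subst h2
    have h := allN_sound _ _ chk2 v hv
    simp only [Bool.or_eq_true, Bool.and_eq_true] at h
    rcases h with h | h | h | h | ⟨a1, a2, a3, a4⟩
    · exact absurd (Nat.eq_of_beq_eq_true h) n1
    · exact absurd (Nat.eq_of_beq_eq_true h) n2
    · exact absurd (Nat.eq_of_beq_eq_true h) n3
    · exact absurd (Nat.eq_of_beq_eq_true h) n4
    · refine ⟨Nat.eq_of_beq_eq_true a1, Nat.eq_of_beq_eq_true a2, Nat.eq_of_beq_eq_true a3, ?_⟩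
      simpa [Nat.blt_eq] using a4

/-- number of block starts -/
def cnt (g : ℕ → ℕ) : ℕ → ℕ
  | 0 => 0
  | n + 1 => if off (g (n + 1)) = 0 then cnt g n + 1 else cnt g n

theorem cnt_mono (g : ℕ → ℕ) (n m : ℕ) (h : n ≤ m) : cnt g n ≤ cnt g m := by
  induction m, h using Nat.le_induction with
  | base => exact le_refl _
  | succ m _ ih =>
    refine le_trans ih ?_
    show cnt g m ≤ (if off (g (m + 1)) = 0 then cnt g m + 1 else cnt g m)
    split <;> omega

theorem wk_succ (s : ℕ → ℕ) (n : ℕ) : wk s (n + 1) =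
    if (wk s n).2 + 1 < ln (s (wk s n).1) (s ((wk s n).1 + 1)) then ((wk s n).1, (wk s n).2 + 1)
    else ((wk s n).1 + 1, 0) := rfl

theorem wk_mono (s : ℕ → ℕ) (n : ℕ) : (wk s n).1 ≤ (wk s (n + 1)).1 := by
  rw [wk_succ]
  split <;> simp

/-- the walker depends only on the first letters -/
theorem wk_congr (s s' : ℕ → ℕ) (M : ℕ) (hs : ∀ k, k ≤ M + 1 → s k = s' k) (n : ℕ) (hn : (wk s n).1 ≤ M) :
    wk s' n = wk s n := by
  induction n with
  | zero => rfl
  | succ n ih =>
    have h1 := le_trans (wk_mono s n) hn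
    have h2 := ih h1
    rw [wk_succ, wk_succ, h2, hs _ (by omega), hs _ (by omega)]

theorem wk_small (s : ℕ → ℕ) (o : ℕ) (ho : o < ln (s 0) (s 1)) : wk s o = (0, o) := by
  induction o with
  | zero => rfl
  | succ o ih =>
    have h1 := ih (by omega)
    rw [wk_succ, h1]
    have h2 : o + 1 < ln (s 0) (s (0 + 1)) := ho
    rw [if_pos h2]

theorem main (g : ℕ → ℕ) (T : ℕ) (hg : PP g 0 T) : ∃ s : ℕ → ℕ, Bin s ∧ ∀ n, n ≤ T →
    wk s (off (g 0) + n) = (cnt g n, off (g n)) ∧ s (cnt g n) = gau (g n) ∧ s (cnt g n + 1) = gau' (g n) := by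
  induction T with
  | zero =>
    obtain ⟨p1, p2, p3, p4⟩ := phase (g 0) (hg.1 0 (le_refl _) (le_refl _))
    refine ⟨fun k => if k = 0 then gau (g 0) else if k = 1 then gau' (g 0) else 0, ?_, ?_⟩
    · intro k
      show (if k = 0 then gau (g 0) else if k = 1 then gau' (g 0) else 0) < 2
      split
      · exact p3
      · split
        · exact p4
        · omega
    · intro n hn
      have : n = 0 := by omega
      subst this
      refine ⟨?_, ?_, ?_⟩
      · exact wk_small _ _ (by simpa using p2)
      · simp [cnt]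
      · simp [cnt]
  | succ T ih =>
    have hg' : PP g 0 T := ⟨fun n h1 h2 => hg.1 n h1 (by omega), fun n h1 h2 => hg.2 n h1 (by omega)⟩
    obtain ⟨s, hs, h⟩ := ih hg'
    obtain ⟨hw, ha, hb⟩ := h T (le_refl _)
    have hv := hg.1 T (Nat.zero_le _) (by omega)
    have hv' := hg.1 (T + 1) (Nat.zero_le _) (le_refl _)
    have hn := hg.2 T (Nat.zero_le _) (by omega)
    obtain ⟨p1, p2, p3, p4⟩ := phase (g (T + 1)) hv'
    have hwk : wk s (off (g 0) + (T + 1)) =
        if off (g T) + 1 < ln (gau (g T)) (gau' (g T)) then (cnt g T, off (g T) + 1) else (cnt g T + 1, 0) := by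
      rw [← Nat.add_assoc, wk_succ, hw]
      show (if off (g T) + 1 < ln (s (cnt g T)) (s (cnt g T + 1)) then (cnt g T, off (g T) + 1)
        else (cnt g T + 1, 0)) = _
      rw [ha, hb]
    rcases step _ _ hv hn with ⟨a1, a2, a3, a4⟩ | ⟨a1, a2, a3⟩
    · refine ⟨s, hs, ?_⟩
      intro n hnT
      rcases Nat.lt_or_ge n (T + 1) with h1 | h1
      · exact h n (by omega)
      · have : n = T + 1 := by omega
        subst this
        have hc : cnt g (T + 1) = cnt g T := by
          show (if off (g (T + 1)) = 0 then cnt g T + 1 else cnt g T) = _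
          rw [if_neg (by omega)]
        rw [hwk, if_pos a4, hc, a1, a2, a3]
        exact ⟨rfl, ha, hb⟩
    · refine ⟨Function.update s (cnt g T + 2) (gau' (g (T + 1))), ?_, ?_⟩
      · intro k
        rcases eq_or_ne k (cnt g T + 2) with hk | hk
        · rw [hk, Function.update_self]; exact p4
        · rw [Function.update_of_ne hk]; exact hs k
      · have hagree : ∀ k, k ≤ cnt g T + 1 → s k = Function.update s (cnt g T + 2) (gau' (g (T + 1))) k := by
          intro k hk
          rw [Function.update_of_ne (by omega)]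
        intro n hnT
        rcases Nat.lt_or_ge n (T + 1) with h1 | h1
        · obtain ⟨b1, b2, b3⟩ := h n (by omega)
          have hm := cnt_mono g n T (by omega)
          refine ⟨?_, ?_, ?_⟩
          · rw [wk_congr s _ (cnt g T) hagree _ (by rw [b1]; exact hm)]
            exact b1
          · rw [← hagree _ (by omega)]; exact b2
          · rw [← hagree _ (by omega)]; exact b3
        · have : n = T + 1 := by omega
          subst this
          have hc : cnt g (T + 1) = cnt g T + 1 := by
            show (if off (g (T + 1)) = 0 then cnt g T + 1 else cnt g T) = _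
            rw [if_pos a1]
          rw [hc]
          refine ⟨?_, ?_, ?_⟩
          · rw [← Nat.add_assoc, wk_succ,
              wk_congr s _ (cnt g T) hagree (off (g 0) + T) (by rw [hw]), hw]
            show (if off (g T) + 1 < ln (Function.update s (cnt g T + 2) (gau' (g (T + 1))) (cnt g T))
              (Function.update s (cnt g T + 2) (gau' (g (T + 1))) (cnt g T + 1)) then (cnt g T, off (g T) + 1)
              else (cnt g T + 1, 0)) = _
            rw [← hagree _ (by omega), ← hagree _ (by omega), ha, hb, if_neg a3, a1]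
          · rw [← hagree _ (by omega), hb, a2]
          · show Function.update s (cnt g T + 2) (gau' (g (T + 1))) (cnt g T + 1 + 1) = _
            rw [show cnt g T + 1 + 1 = cnt g T + 2 from rfl, Function.update_self]

end WKG_

theorem wkg_proof (_ : Stmt_WKB) : Stmt_WKG := by
  intro g T hg
  obtain ⟨s, hs, h⟩ := WKG_.main g T hg
  refine ⟨s, off (g 0), hs, ?_⟩
  intro n hn
  obtain ⟨h1, h2, h3⟩ := h n hn
  have hv := hg.1 n (Nat.zero_le _) hn
  obtain ⟨p1, _, _, _⟩ := WKG_.phase (g n) hv
  show ph (s (wk s (off (g 0) + n)).1) (s ((wk s (off (g 0) + n)).1 + 1)) + (wk s (off (g 0) + n)).2 = g n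
  rw [h1]
  show ph (s (WKG_.cnt g n)) (s (WKG_.cnt g n + 1)) + off (g n) = g n
  rw [h2, h3]
  exact p1

end Pool.Agent.SSH
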