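import Pool.Agent.SSH.Stmts

/-!
# Self-shuffles (MP_018a5e_co): module WKH
-/

set_option autoImplicit false

namespace Pool.Agent.SSH

namespace WKH_

theorem ln_bd (a b : ℕ) : 126 ≤ ln a b ∧ ln a b ≤ 406 := by
  unfold ln
  split_ifs <;> omega

end WKH_

open WKH_

theorem wkh_proof : Stmt_WKH := by
  intro s A B hAB
  induction B, hAB using Nat.le_induction with
  | base => simp
  | succ B hB ih =>
    have h1 : HH s (B + 1) = HH s B + ln (s B) (s (B + 1)) := by
      unfold HH
      rw [Finset.sum_range_succ]
    have h2 := ln_bd (s B) (s (B + 1))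
    omega

end Pool.Agent.SSH
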