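import Pool.Agent.SSH.Stmts

/-!
# Self-shuffles (MP_018a5e_co): module WKM
-/

set_option autoImplicit false

namespace Pool.Agent.SSH

namespace WKM_

theorem ln_le (a b : ℕ) : ln a b ≤ 406 := by
  unfold ln
  split_ifs <;> omega

end WKM_

open WKM_

theorem wkm_proof (hWKB : Stmt_WKB) (hWKH : Stmt_WKH) : Stmt_WKM := by
  intro s n m hnm
  have hn := hWKB s n
  have hm := hWKB s m
  have hln := ln_le (s (ad s n)) (s (ad s n + 1))
  have hlm := ln_le (s (ad s m)) (s (ad s m + 1))
  have hsn : HH s (ad s n + 1) = HH s (ad s n) + ln (s (ad s n)) (s (ad s n + 1)) := by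
    unfold HH
    rw [Finset.sum_range_succ]
  have hsm : HH s (ad s m + 1) = HH s (ad s m) + ln (s (ad s m)) (s (ad s m + 1)) := by
    unfold HH
    rw [Finset.sum_range_succ]
  have hab : ad s n ≤ ad s m := by
    by_contra hlt
    push Not at hlt
    have := (hWKH s (ad s m + 1) (ad s n) hlt).1
    omega
  have h1 := hWKH s (ad s n) (ad s m) hab
  refine ⟨hab, by omega, by omega, ?_⟩
  intro h
  by_contra hgt
  push Not at hgt
  have h2 := (hWKH s (ad s n + 1) (ad s m) (by omega)).1
  have h3 : 126 ≤ 126 * (ad s m - (ad s n + 1)) := by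
    have : 1 ≤ ad s m - (ad s n + 1) := by omega
    omega
  omega

end Pool.Agent.SSH
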