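import Pool.Agent.SSH.Stmts

/-!
# Self-shuffles (MP_018a5e_co): module WKO
-/

set_option autoImplicit false

namespace Pool.Agent.SSH

namespace WKO_

theorem HH_succ (s : ℕ → ℕ) (A : ℕ) : HH s (A + 1) = HH s A + ln (s A) (s (A + 1)) := by
  unfold HH
  rw [Finset.sum_range_succ]

theorem HH_shift (s : ℕ → ℕ) (j p : ℕ) (hper : ∀ k, k ≤ p → s (j + k) = s (j + p + k)) :
    ∀ m, m ≤ p → HH s (j + p + m) + HH s j = HH s (j + m) + HH s (j + p) := by
  intro m
  induction m with
  | zero => intro _; simp [add_comm]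
  | succ m ih =>
    intro hm
    have h1 := ih (by omega)
    have h2 := HH_succ s (j + p + m)
    have h3 := HH_succ s (j + m)
    have e1 := hper m (by omega)
    have e2 := hper (m + 1) hm
    rw [← add_assoc, ← add_assoc] at e2
    rw [← add_assoc, ← add_assoc, h2, h3, ← e1, ← e2]
    omega

end WKO_

open WKO_

theorem wko_proof (hWKA : Stmt_WKA) (hWKB : Stmt_WKB) (hWKH : Stmt_WKH) : Stmt_WKO := by
  intro s w c z T hs hw' hagr j p hp hlo hhi
  by_contra hcon
  push Not at hcon
  have hper : ∀ k, k ≤ p → s (j + k) = s (j + p + k) := fun k hk => hcon k hk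
  have hmono : ∀ A B : ℕ, A ≤ B → HH s A ≤ HH s B := fun A B h => by
    have := (hWKH s A B h).1
    omega
  have hstr : ∀ A B : ℕ, A < B → HH s A < HH s B := fun A B h => by
    have := (hWKH s A B h.le).1
    omega
  have hsh := HH_shift s j p hper
  -- positions
  have hz := hWKB s z
  have hz1 : z < HH s j := by
    have h1 := HH_succ s (ad s z)
    have h2 := hmono _ _ hlo
    omega
  have hT := hWKB s (z + T)
  have hT1 : HH s (j + p + p) ≤ z + T := by
    have h2 := hmono (j + p + p) (ad s (z + T)) (by omega)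
    omega
  have hjp := hstr j (j + p) (by omega)
  have hpp := hsh p le_rfl
  obtain ⟨k, hk, hne⟩ := hw' (c + (HH s j - z)) (HH s (j + p) - HH s j) (by omega)
  apply hne
  have hw1 := hagr (HH s j - z + k) (by omega)
  have hw2 := hagr (HH s j - z + (HH s (j + p) - HH s j) + k) (by omega)
  have hr1 : w (c + (HH s j - z) + k) = hw s (HH s j + k) := by
    rw [add_assoc, hw1]
    congr 1
    omega
  have hr2 : w (c + (HH s j - z) + (HH s (j + p) - HH s j) + k) = hw s (HH s (j + p) + k) := by
    have : c + (HH s j - z) + (HH s (j + p) - HH s j) + k = c + (HH s j - z + (HH s (j + p) - HH s j) + k) := by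
      omega
    rw [this, hw2]
    congr 1
    omega
  rw [hr1, hr2]
  -- equality of phases
  have hB := hWKB s (HH s j + k)
  obtain ⟨A, hA⟩ : ∃ A, A = ad s (HH s j + k) := ⟨_, rfl⟩
  obtain ⟨o, ho⟩ : ∃ o, o = of' s (HH s j + k) := ⟨_, rfl⟩
  rw [← hA, ← ho] at hB
  have hAj : j ≤ A := by
    by_contra hlt
    push Not at hlt
    have h1 := hmono (A + 1) j hlt
    have h2 := HH_succ s A
    omega
  have hAp : A < j + p := by
    by_contra hge
    push Not at hge
    have h1 := hmono (j + p) A hge
    omega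
  obtain ⟨m, rfl⟩ : ∃ m, A = j + m := ⟨A - j, by omega⟩
  have hm : m < p := by omega
  have hsm := hsh m hm.le
  have e1 := hper m hm.le
  have e2 := hper (m + 1) hm
  rw [← add_assoc, ← add_assoc] at e2
  have hpos : HH s (j + p) + k = HH s (j + p + m) + o := by omega
  have hlt : o < ln (s (j + p + m)) (s (j + p + m + 1)) := by
    rw [← e1, ← e2]; exact hB.1
  have hwk := hWKA s (j + p + m) o hlt
  have hP2 : Ph s (HH s (j + p) + k) = ph (s (j + m)) (s (j + m + 1)) + o := by
    rw [hpos]
    unfold Ph ad of'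
    rw [hwk]
    simp only
    rw [← e1, ← e2]
  have hP1 : Ph s (HH s j + k) = ph (s (j + m)) (s (j + m + 1)) + o := by
    unfold Ph
    rw [← hA, ← ho]
  unfold hw
  rw [hP1, hP2]

end Pool.Agent.SSH
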