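import Pool.Agent.SSH.Stmts

/-! # MP_018a5e_co : module WKP (phases of the walker) -/

set_option autoImplicit false

namespace Pool.Agent.SSH

namespace WKP_

lemma blt_t {a b : ℕ} (h : a < b) : Nat.blt a b = true := by
  rw [Nat.blt_eq]; exact h

lemma blt_f {a b : ℕ} (h : ¬ a < b) : Nat.blt a b = false := by
  cases h1 : Nat.blt a b with
  | false => rfl
  | true => exact absurd (by rw [Nat.blt_eq] at h1; exact h1) h

lemma beq_t {a b : ℕ} (h : a = b) : Nat.beq a b = true := by
  rw [h]; exact Nat.beq_refl b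

lemma beq_f {a b : ℕ} (h : a ≠ b) : Nat.beq a b = false := by
  cases h1 : Nat.beq a b with
  | false => rfl
  | true => exact absurd (Nat.eq_of_beq_eq_true h1) h

lemma part (a b o : ℕ) (ha : a < 2) (hb : b < 2) (ho : o < ln a b) :
    ph a b + o < 828 ∧ off (ph a b + o) = o ∧ gau (ph a b + o) = a ∧ gau' (ph a b + o) = b := by
  have ha' : a = 0 ∨ a = 1 := by omega
  have hb' : b = 0 ∨ b = 1 := by omega
  rcases ha' with rfl | rfl <;> rcases hb' with rfl | rfl
  · have hl : ln 0 0 = 126 := rfl
    have hp : ph 0 0 = 170 := rfl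
    rw [hl] at ho
    rw [hp]
    refine ⟨by omega, ?_, ?_, ?_⟩
    · unfold off
      rw [blt_f (show ¬ 170 + o < 170 by omega), blt_t (show 170 + o < 296 by omega)]
      simp
    · unfold gau
      rw [blt_f (show ¬ 170 + o < 170 by omega), blt_t (show 170 + o < 296 by omega)]
      simp
    · unfold gau'
      rw [blt_t (show 170 + o < 296 by omega)]
      simp
  · have hl : ln 0 1 = 406 := rfl
    have hp : ph 0 1 = 422 := rfl
    rw [hl] at ho
    rw [hp]
    refine ⟨by omega, ?_, ?_, ?_⟩
    · unfold off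
      rw [blt_f (show ¬ 422 + o < 170 by omega), blt_f (show ¬ 422 + o < 296 by omega),
        blt_f (show ¬ 422 + o < 422 by omega)]
      simp
    · unfold gau
      rw [blt_f (show ¬ 422 + o < 170 by omega), blt_f (show ¬ 422 + o < 296 by omega),
        blt_f (show ¬ 422 + o < 422 by omega)]
      simp
    · unfold gau'
      rw [blt_f (show ¬ 422 + o < 296 by omega)]
      simp
  · have hl : ln 1 0 = 170 := rfl
    have hp : ph 1 0 = 0 := rfl
    rw [hl] at ho
    rw [hp]
    refine ⟨by omega, ?_, ?_, ?_⟩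
    · unfold off
      rw [blt_t (show 0 + o < 170 by omega)]
      simp
    · unfold gau
      rw [blt_t (show 0 + o < 170 by omega)]
      simp
    · unfold gau'
      rw [blt_t (show 0 + o < 296 by omega)]
      simp
  · have hl : ln 1 1 = 126 := rfl
    have hp : ph 1 1 = 296 := rfl
    rw [hl] at ho
    rw [hp]
    refine ⟨by omega, ?_, ?_, ?_⟩
    · unfold off
      rw [blt_f (show ¬ 296 + o < 170 by omega), blt_f (show ¬ 296 + o < 296 by omega),
        blt_t (show 296 + o < 422 by omega)]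
      simp
    · unfold gau
      rw [blt_f (show ¬ 296 + o < 170 by omega), blt_f (show ¬ 296 + o < 296 by omega),
        blt_t (show 296 + o < 422 by omega)]
      simp
    · unfold gau'
      rw [blt_f (show ¬ 296 + o < 296 by omega)]
      simp

lemma nxt_in (v : ℕ) (h1 : v ≠ 169) (h2 : v ≠ 295) (h3 : v ≠ 421) (h4 : v ≠ 827) :
    nxt v (v + 1) = true := by
  unfold nxt
  rw [beq_f h1, beq_f h2, beq_f h3, beq_f h4, beq_t rfl]
  rfl

/-- inside a block -/
lemma inside (a b o : ℕ) (ha : a < 2) (hb : b < 2) (ho : o + 1 < ln a b) :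
    nxt (ph a b + o) (ph a b + (o + 1)) = true := by
  rw [← add_assoc]
  have ha' : a = 0 ∨ a = 1 := by omega
  have hb' : b = 0 ∨ b = 1 := by omega
  rcases ha' with rfl | rfl <;> rcases hb' with rfl | rfl
  · have hl : ln 0 0 = 126 := rfl
    have hp : ph 0 0 = 170 := rfl
    rw [hl] at ho
    rw [hp]
    exact nxt_in _ (by omega) (by omega) (by omega) (by omega)
  · have hl : ln 0 1 = 406 := rfl
    have hp : ph 0 1 = 422 := rfl
    rw [hl] at ho
    rw [hp]
    exact nxt_in _ (by omega) (by omega) (by omega) (by omega)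
  · have hl : ln 1 0 = 170 := rfl
    have hp : ph 1 0 = 0 := rfl
    rw [hl] at ho
    rw [hp]
    exact nxt_in _ (by omega) (by omega) (by omega) (by omega)
  · have hl : ln 1 1 = 126 := rfl
    have hp : ph 1 1 = 296 := rfl
    rw [hl] at ho
    rw [hp]
    exact nxt_in _ (by omega) (by omega) (by omega) (by omega)

/-- at the end of a block -/
lemma atEnd (a b c o : ℕ) (ha : a < 2) (hb : b < 2) (hc : c < 2) (ho : o + 1 = ln a b)
    (h3 : ¬ (a = b ∧ b = c)) : nxt (ph a b + o) (ph b c + 0) = true := by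
  have ha' : a = 0 ∨ a = 1 := by omega
  have hb' : b = 0 ∨ b = 1 := by omega
  have hc' : c = 0 ∨ c = 1 := by omega
  rcases ha' with rfl | rfl <;> rcases hb' with rfl | rfl
  · have hl : ln 0 0 = 126 := rfl
    rw [hl] at ho
    obtain rfl : o = 125 := by omega
    rcases hc' with rfl | rfl
    · exact absurd ⟨rfl, rfl⟩ h3
    · decide
  · have hl : ln 0 1 = 406 := rfl
    rw [hl] at ho
    obtain rfl : o = 405 := by omega
    rcases hc' with rfl | rfl <;> decide
  · have hl : ln 1 0 = 170 := rfl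
    rw [hl] at ho
    obtain rfl : o = 169 := by omega
    rcases hc' with rfl | rfl <;> decide
  · have hl : ln 1 1 = 126 := rfl
    rw [hl] at ho
    obtain rfl : o = 125 := by omega
    rcases hc' with rfl | rfl
    · decide
    · exact absurd ⟨rfl, rfl⟩ h3

lemma step_in (s : ℕ → ℕ) (n : ℕ) (h : of' s n + 1 < ln (s (ad s n)) (s (ad s n + 1))) :
    ad s (n + 1) = ad s n ∧ of' s (n + 1) = of' s n + 1 := by
  unfold ad of' at *
  have h1 : wk s (n + 1) = ((wk s n).1, (wk s n).2 + 1) := by
    rw [wk]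
    exact if_pos h
  rw [h1]
  exact ⟨rfl, rfl⟩

lemma step_end (s : ℕ → ℕ) (n : ℕ) (h : ¬ of' s n + 1 < ln (s (ad s n)) (s (ad s n + 1))) :
    ad s (n + 1) = ad s n + 1 ∧ of' s (n + 1) = 0 := by
  unfold ad of' at *
  have h1 : wk s (n + 1) = ((wk s n).1 + 1, 0) := by
    rw [wk]
    exact if_neg h
  rw [h1]
  exact ⟨rfl, rfl⟩

end WKP_

open WKP_ in
/-- WKP -/
theorem wkp_proof (hB : Stmt_WKB) : Stmt_WKP := by
  intro s hs
  constructor
  · intro n
    exact part (s (ad s n)) (s (ad s n + 1)) (of' s n) (hs _) (hs _) (hB s n).1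
  · intro h3 n
    have hlt := (hB s n).1
    by_cases h : of' s n + 1 < ln (s (ad s n)) (s (ad s n + 1))
    · obtain ⟨e1, e2⟩ := step_in s n h
      unfold Ph
      rw [e1, e2]
      exact inside _ _ _ (hs _) (hs _) h
    · obtain ⟨e1, e2⟩ := step_end s n h
      unfold Ph
      rw [e1, e2]
      exact atEnd _ _ _ _ (hs _) (hs _) (hs _) (by omega) (h3 _)

end Pool.Agent.SSH
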