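import Pool.Agent.SSH.Stmts

set_option autoImplicit false

namespace Pool.Agent.SSH

namespace WKS_

lemma step (s : ℕ → ℕ) (n : ℕ) :
    ad s (n + 1) = ad s n + (if of' s (n + 1) = 0 then 1 else 0) := by
  unfold ad of'
  by_cases h : (wk s n).2 + 1 < ln (s (wk s n).1) (s ((wk s n).1 + 1))
  · have h1 : wk s (n + 1) = ((wk s n).1, (wk s n).2 + 1) := by
      rw [wk]
      exact if_pos h
    rw [h1]
    simp
  · have h1 : wk s (n + 1) = ((wk s n).1 + 1, 0) := by
      rw [wk]
      exact if_neg h
    rw [h1]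
    simp

lemma mono (s : ℕ → ℕ) (y k : ℕ) : ad s y ≤ ad s (y + k) := by
  induction k with
  | zero => exact le_refl _
  | succ k ih =>
    have := step s (y + k)
    rw [← add_assoc]
    omega

lemma reach (s : ℕ → ℕ) (y : ℕ) : ∀ L j : ℕ, ad s y + j ≤ ad s (y + L) →
    ∃ k, k ≤ L ∧ ad s (y + k) = ad s y + j := by
  intro L
  induction L with
  | zero =>
    intro j hj
    refine ⟨0, le_refl _, ?_⟩
    simp only [add_zero] at hj ⊢
    omega
  | succ L ih =>
    intro j hj
    by_cases h : ad s y + j ≤ ad s (y + L)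
    · obtain ⟨k, hk, he⟩ := ih j h
      exact ⟨k, by omega, he⟩
    · refine ⟨L + 1, le_refl _, ?_⟩
      have h1 := step s (y + L)
      rw [← add_assoc] at hj ⊢
      split_ifs at h1 <;> omega

end WKS_

open WKS_ in
/-- WKS -/
theorem wks_proof (_hB : Stmt_WKB) (hP : Stmt_WKP) : Stmt_WKS := by
  intro s s' x y L hs hs' h
  obtain ⟨h1, -⟩ := hP s hs
  obtain ⟨h2, -⟩ := hP s' hs'
  have hof : ∀ k, k ≤ L → of' s (x + k) = of' s' (y + k) := by
    intro k hk
    rw [← (h1 (x + k)).2.1, ← (h2 (y + k)).2.1, h k hk]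
  have hfirst : ∀ k, k ≤ L → ad s (x + k) + ad s' y = ad s' (y + k) + ad s x := by
    intro k
    induction k with
    | zero =>
      intro _
      simp only [add_zero]
      omega
    | succ k ih =>
      intro hk
      have i1 := ih (by omega)
      have i2 := step s (x + k)
      have i3 := step s' (y + k)
      have i4 := hof (k + 1) hk
      rw [← add_assoc, ← add_assoc] at i4
      rw [← add_assoc, ← add_assoc, i2, i3, i4]
      omega
  refine ⟨hfirst, ?_⟩
  intro j hj
  have hm := mono s' y L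
  by_cases hj2 : j ≤ ad s' (y + L) - ad s' y
  · obtain ⟨k, hk, he⟩ := reach s' y L j (by omega)
    have h3 := hfirst k hk
    have h4 : ad s (x + k) = ad s x + j := by omega
    have h5 := (h1 (x + k)).2.2.1
    have h6 := (h2 (y + k)).2.2.1
    rw [h k hk, h4] at h5
    rw [he] at h6
    rw [← h5, ← h6]
  · have hj3 : j = ad s' (y + L) - ad s' y + 1 := by omega
    have h3 := hfirst L (le_refl _)
    have h5 := (h1 (x + L)).2.2.2
    have h6 := (h2 (y + L)).2.2.2
    rw [h L (le_refl _)] at h5
    have h7 : ad s x + j = ad s (x + L) + 1 := by omega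
    have h8 : ad s' y + j = ad s' (y + L) + 1 := by omega
    rw [h7, h8, ← h5, ← h6]

end Pool.Agent.SSH
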