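import Pool.Agent.SSH.Stmts

set_option autoImplicit false

namespace Pool.Agent.SSH

namespace WKT_

def psiN (s : ℕ) : ℕ := (PSI >>> (10 * s)) % 1024

def wTn (c : ℕ) : ℕ := bif Nat.beq c 0 then 12 else bif Nat.beq c 1 then 0 else 24

lemma psiP_eq (s : ℕ) : psiP s = (psiN s : ℤ) - 256 := rfl

lemma wT_eq (c : ℕ) : wT c = (wTn c : ℤ) - 11 := by
  unfold wT wTn
  match c with
  | 0 => simp
  | 1 => simp
  | c + 2 => simp [Nat.beq]

lemma chk1 : allN (fun v => isEnd v || Nat.beq (psiN (v + 1) + 11) (psiN v + wTn (lab v))) 828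
    = true := by
  decide +kernel

lemma chk2 : (Nat.beq (psiN 169 + wTn (lab 169)) (psiN 170 + 29) &&
    (Nat.beq (psiN 170) 256 && (Nat.beq (psiN 422) 256 && (Nat.beq (psiN 0) 260 &&
    (Nat.beq (psiN 296) 260 && (Nat.beq (psiN 295 + wTn (lab 295)) (psiN 170 + 29) &&
    (Nat.beq (psiN 421 + wTn (lab 421)) (psiN 0 + 29) &&
    (Nat.beq (psiN 827 + wTn (lab 827)) (psiN 0 + 29))))))))) = true := by
  decide +kernel

lemma allN_spec (P : ℕ → Bool) : ∀ n, allN P n = true → ∀ m, m < n → P m = true := by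
  intro n
  induction n with
  | zero =>
    intro _ m hm
    omega
  | succ n ih =>
    intro h m hm
    rw [allN, Bool.and_eq_true] at h
    by_cases hmn : m = n
    · rw [hmn]
      exact h.1
    · exact ih h.2 m (by omega)

lemma inner (v : ℕ) (hv : v < 828) (he : isEnd v = false) :
    psiP (v + 1) = psiP v + wT (lab v) := by
  have h := allN_spec _ _ chk1 v hv
  rw [Bool.or_eq_true, he] at h
  rcases h with h | h
  · exact absurd h (by decide)
  · have h1 := Nat.eq_of_beq_eq_true h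
    rw [psiP_eq, psiP_eq, wT_eq]
    omega

lemma ends : (psiP 169 + wT (lab 169) = 18) ∧ (psiP 295 + wT (lab 295) = 18) ∧
    (psiP 421 + wT (lab 421) = 22) ∧ (psiP 827 + wT (lab 827) = 22) ∧
    psiP 170 = 0 ∧ psiP 422 = 0 ∧ psiP 0 = 4 ∧ psiP 296 = 4 := by
  have h := chk2
  simp only [Bool.and_eq_true] at h
  obtain ⟨h1, h2, h3, h4, h5, h6, h7, h8⟩ := h
  have h1 := Nat.eq_of_beq_eq_true h1
  have h2 := Nat.eq_of_beq_eq_true h2
  have h3 := Nat.eq_of_beq_eq_true h3
  have h4 := Nat.eq_of_beq_eq_true h4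
  have h5 := Nat.eq_of_beq_eq_true h5
  have h6 := Nat.eq_of_beq_eq_true h6
  have h7 := Nat.eq_of_beq_eq_true h7
  have h8 := Nat.eq_of_beq_eq_true h8
  simp only [psiP_eq, wT_eq]
  omega

lemma beqf {a b : ℕ} (h : a ≠ b) : Nat.beq a b = false := by
  cases h' : Nat.beq a b
  · rfl
  · exact absurd (Nat.eq_of_beq_eq_true h') h

lemma isEnd_false (v : ℕ) (h1 : v ≠ 169) (h2 : v ≠ 295) (h3 : v ≠ 421) (h4 : v ≠ 827) :
    isEnd v = false := by
  unfold isEnd
  rw [beqf h1, beqf h2, beqf h3, beqf h4]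
  rfl

lemma psi_start (a b : ℕ) (ha : a < 2) (hb : b < 2) : psiP (ph a b) = 4 * a := by
  obtain ⟨-, -, -, -, e1, e2, e3, e4⟩ := ends
  have ha' : a = 0 ∨ a = 1 := by omega
  have hb' : b = 0 ∨ b = 1 := by omega
  rcases ha' with rfl | rfl <;> rcases hb' with rfl | rfl
  · have : ph 0 0 = 170 := rfl
    rw [this, e1]
    norm_num
  · have : ph 0 1 = 422 := rfl
    rw [this, e2]
    norm_num
  · have : ph 1 0 = 0 := rfl
    rw [this, e3]
    norm_num
  · have : ph 1 1 = 296 := rfl
    rw [this, e4]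
    norm_num

lemma psi_end (a b : ℕ) (ha : a < 2) (hb : b < 2) (o : ℕ) (ho : o + 1 = ln a b) :
    psiP (ph a b + o) + wT (lab (ph a b + o)) = 18 + 4 * b := by
  obtain ⟨e1, e2, e3, e4, -⟩ := ends
  have ha' : a = 0 ∨ a = 1 := by omega
  have hb' : b = 0 ∨ b = 1 := by omega
  rcases ha' with rfl | rfl <;> rcases hb' with rfl | rfl
  · have h1 : ph 0 0 = 170 := rfl
    have h2 : ln 0 0 = 126 := rfl
    have h3 : o = 125 := by omega
    rw [h1, h3]
    norm_num
    exact e2
  · have h1 : ph 0 1 = 422 := rfl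
    have h2 : ln 0 1 = 406 := rfl
    have h3 : o = 405 := by omega
    rw [h1, h3]
    norm_num
    exact e4
  · have h1 : ph 1 0 = 0 := rfl
    have h2 : ln 1 0 = 170 := rfl
    have h3 : o = 169 := by omega
    rw [h1, h3]
    norm_num
    exact e1
  · have h1 : ph 1 1 = 296 := rfl
    have h2 : ln 1 1 = 126 := rfl
    have h3 : o = 125 := by omega
    rw [h1, h3]
    norm_num
    exact e3

lemma psi_in (a b : ℕ) (ha : a < 2) (hb : b < 2) (o : ℕ) (ho : o + 1 < ln a b) :
    psiP (ph a b + (o + 1)) = psiP (ph a b + o) + wT (lab (ph a b + o)) := by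
  have ha' : a = 0 ∨ a = 1 := by omega
  have hb' : b = 0 ∨ b = 1 := by omega
  have key : ph a b + o < 828 ∧ isEnd (ph a b + o) = false := by
    rcases ha' with rfl | rfl <;> rcases hb' with rfl | rfl
    · have h1 : ph 0 0 = 170 := rfl
      have h2 : ln 0 0 = 126 := rfl
      exact ⟨by omega, isEnd_false _ (by omega) (by omega) (by omega) (by omega)⟩
    · have h1 : ph 0 1 = 422 := rfl
      have h2 : ln 0 1 = 406 := rfl
      exact ⟨by omega, isEnd_false _ (by omega) (by omega) (by omega) (by omega)⟩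
    · have h1 : ph 1 0 = 0 := rfl
      have h2 : ln 1 0 = 170 := rfl
      exact ⟨by omega, isEnd_false _ (by omega) (by omega) (by omega) (by omega)⟩
    · have h1 : ph 1 1 = 296 := rfl
      have h2 : ln 1 1 = 126 := rfl
      exact ⟨by omega, isEnd_false _ (by omega) (by omega) (by omega) (by omega)⟩
  rw [← add_assoc]
  exact inner _ key.1 key.2

lemma one (hB : Stmt_WKB) (s : ℕ → ℕ) (hs : Bin s) (n : ℕ) :
    psiP (Ph s (n + 1)) + 18 * ((ad s (n + 1) : ℤ) - ad s n) = psiP (Ph s n) + wT (hw s n) := by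
  obtain ⟨ho, -⟩ := hB s n
  have hb0 := hs (ad s n)
  have hb1 := hs (ad s n + 1)
  have hb2 := hs (ad s n + 2)
  have hPh : Ph s n = ph (s (ad s n)) (s (ad s n + 1)) + of' s n := rfl
  by_cases h : of' s n + 1 < ln (s (ad s n)) (s (ad s n + 1))
  · have h1 : wk s (n + 1) = (ad s n, of' s n + 1) := by
      rw [wk]
      exact if_pos h
    have h2 : ad s (n + 1) = ad s n := by
      unfold ad at h1 ⊢
      rw [h1]
    have h3 : of' s (n + 1) = of' s n + 1 := by
      unfold of' at h1 ⊢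
      rw [h1]
    have h4 : Ph s (n + 1) = ph (s (ad s n)) (s (ad s n + 1)) + (of' s n + 1) := by
      have : Ph s (n + 1) =
        ph (s (ad s (n + 1))) (s (ad s (n + 1) + 1)) + of' s (n + 1) := rfl
      rw [this, h2, h3]
    have h5 := psi_in _ _ hb0 hb1 _ h
    have h6 : hw s n = lab (ph (s (ad s n)) (s (ad s n + 1)) + of' s n) := rfl
    rw [h4, h2, hPh, h5, h6]
    ring
  · have h1 : wk s (n + 1) = (ad s n + 1, 0) := by
      rw [wk]
      exact if_neg h
    have h2 : ad s (n + 1) = ad s n + 1 := by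
      unfold ad at h1 ⊢
      rw [h1]
    have h3 : of' s (n + 1) = 0 := by
      unfold of' at h1 ⊢
      rw [h1]
    have h4 : Ph s (n + 1) = ph (s (ad s n + 1)) (s (ad s n + 2)) := by
      have : Ph s (n + 1) =
        ph (s (ad s (n + 1))) (s (ad s (n + 1) + 1)) + of' s (n + 1) := rfl
      rw [this, h2, h3]
      rfl
    have h5 := psi_end _ _ hb0 hb1 (of' s n) (by omega)
    have h6 : hw s n = lab (ph (s (ad s n)) (s (ad s n + 1)) + of' s n) := rfl
    rw [h4, h2, hPh, h6, h5, psi_start _ _ hb1 hb2]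
    push_cast
    ring

end WKT_

open WKT_ in
/-- WKT -/
theorem wkt_proof (hB : Stmt_WKB) : Stmt_WKT := by
  intro s x n hs
  induction n with
  | zero => simp
  | succ n ih =>
    rw [Finset.sum_range_succ, ih]
    have h := one hB s hs (x + n)
    rw [← add_assoc]
    linarith

end Pool.Agent.SSH
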