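import Pool.Agent.SSH.Stmts

/-!
# Module XJN: long squares across a junction
-/

set_option autoImplicit false

namespace Pool.Agent.SSH

namespace XJN_

theorem ad_succ (s : ℕ → ℕ) (n : ℕ) : ad s n ≤ ad s (n + 1) := by
  have h : ad s (n + 1) = (wk s (n + 1)).1 := rfl
  rw [h, wk]
  split
  · exact le_refl _
  · exact Nat.le_succ _

theorem ad_mono (s : ℕ → ℕ) (n m : ℕ) (h : n ≤ m) : ad s n ≤ ad s m :=
  monotone_nat_of_le_succ (ad_succ s) h

theorem cLcases (i : ℕ) : (cL i = 39 ∧ cR i = 51) ∨ (cL i = 369 ∧ cR i = 381) := by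
  unfold cR cL
  by_cases h : i % 2 = 0
  · left
    rw [if_pos h]
    exact ⟨rfl, rfl⟩
  · right
    rw [if_neg h]
    exact ⟨rfl, rfl⟩

theorem offR (i δ : ℕ) (hδ : δ ≤ 3) : off (422 + cR i + δ) = cR i + δ := by
  rcases cLcases i with h | h
  · rw [h.2]
    interval_cases δ <;> rfl
  · rw [h.2]
    interval_cases δ <;> rfl

theorem offL (i δ : ℕ) (hδ : δ ≤ 3) : off (422 + cL i + δ) = cL i + δ := by
  rcases cLcases i with h | h
  · rw [h.1]
    interval_cases δ <;> rfl
  · rw [h.1]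
    interval_cases δ <;> rfl

end XJN_

open XJN_ in
theorem xjn_proof (hTMO : Stmt_TMO) (hWKB : Stmt_WKB) (hWKP : Stmt_WKP) (hWKS : Stmt_WKS) (hBRD : Stmt_BRD)
    (hDEL : Stmt_DEL) (hSYN : Stmt_SYN) (hDIV : Stmt_DIV) (hD12 : Stmt_D12) : Stmt_XJN := by
  intro i δ p hδ hp hpd
  by_contra hcon
  have heq : ∀ k, k < p → hw tt (dd i + δ - p + k) = hw tt (ee i + δ + k) := by
    intro k hk
    by_contra h
    exact hcon ⟨k, hk, h⟩
  have hB : Bin tt := hTMO.2.2.1
  have hN : ∀ n, ¬ (tt n = tt (n + 1) ∧ tt (n + 1) = tt (n + 2)) := hTMO.2.2.2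
  obtain ⟨hP1, hP2⟩ := hWKP tt hB
  have hP3 := hP2 hN
  obtain ⟨hd1, hd2, hd3, hd4, -, -, -⟩ := hDEL i δ hδ
  set x := dd i + δ - p with hx
  set y := ee i + δ with hy
  have hxp : x + p = dd i + δ := by omega
  have hA : Agr (fun k => Ph tt (x + k)) (fun k => Ph tt (y + k)) p := by
    refine ⟨⟨fun n _ _ => (hP1 _).1, fun n _ _ => ?_⟩, ⟨fun n _ _ => (hP1 _).1, fun n _ _ => ?_⟩, ?_⟩
    · show nxt (Ph tt (x + n)) (Ph tt (x + (n + 1))) = true
      rw [← Nat.add_assoc]
      exact hP3 _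
    · show nxt (Ph tt (y + n)) (Ph tt (y + (n + 1))) = true
      rw [← Nat.add_assoc]
      exact hP3 _
    · intro n hn
      exact heq n hn
  have hD := hD12 _ _ _ hA
  have hg0 : Ph tt (y + 0) = 422 + cR i + δ := hd2
  have hfp : Ph tt (x + p) = 422 + cL i + δ := by rw [hxp]; exact hd1
  have h00 : Ph tt (x + 0) = Ph tt (y + 0) := by
    apply hD.2 (by omega)
    show InC1 (Ph tt (y + 0)) ∨ (473 ≤ Ph tt (y + 0) ∧ Ph tt (y + 0) < 477) ∨
      (803 ≤ Ph tt (y + 0) ∧ Ph tt (y + 0) < 807)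
    rw [hg0]
    rcases cLcases i with h | h
    · rw [h.2]
      right; left
      omega
    · rw [h.2]
      right; right
      omega
  have hm : Ph tt (x + (p - 76)) = Ph tt (y + (p - 76)) := hSYN _ _ _ hA (p - 76) (by omega) (by omega)
  have hpp : Ph tt (x + p) = Ph tt (y + p) := by
    have h := hD.1 (p - 76) hm (by omega)
    have e : p - 76 + 76 = p := by omega
    rw [e] at h
    rcases h with h | h
    · exact h
    · exfalso
      have h' : InC1 (Ph tt (x + p)) := h
      rw [hfp] at h'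
      unfold InC1 at h'
      rcases cLcases i with h | h
      · rw [h.1] at h'
        omega
      · rw [h.1] at h'
        omega
  have hall : ∀ k, k ≤ p → Ph tt (x + k) = Ph tt (y + k) := by
    intro k hk
    exact (hDIV _ _ _ hA).1 0 p k (Nat.zero_le _) hk (le_refl _) h00 hpp
  obtain ⟨hs1, hs2⟩ := hWKS tt tt x y p hB hB hall
  have h1 := hs1 p (le_refl _)
  rw [hxp, hd3, hd4] at h1
  have hmx : ad tt x ≤ EE i := by
    have := ad_mono tt x (x + p) (by omega)
    rw [hxp, hd3] at this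
    exact this
  by_cases hn : ad tt x = EE i
  · have b1 := (hWKB tt x).2
    have b2 := (hWKB tt (x + p)).2
    rw [hxp] at b2
    rw [hd3] at b2
    rw [hn] at b1
    have o1 : of' tt x = cR i + δ := by
      rw [← (hP1 x).2.1]
      have : Ph tt x = 422 + cR i + δ := by
        have := h00
        rw [hg0] at this
        exact this
      rw [this]
      exact offR i δ hδ
    have o2 : of' tt (dd i + δ) = cL i + δ := by
      rw [← (hP1 (dd i + δ)).2.1, hd1]
      exact offL i δ hδ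
    have o3 : cR i = cL i + 12 := rfl
    omega
  · obtain ⟨k, hk, hne⟩ := hBRD i (EE i - ad tt x) (by omega) (by omega)
    apply hne
    have h2 := hs2 k (by rw [hd4]; omega)
    rw [hd4] at h2
    have e : EE i - (EE i - ad tt x) = ad tt x := by omega
    rw [e]
    exact h2

end Pool.Agent.SSH
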