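import Pool.Agent.SSH.Stmts

/-!
# XLG: no long squares in `hw tt`
-/

set_option autoImplicit false

namespace Pool.Agent.SSH

namespace XLG_

/-- common end of the two cases: the phases agree on an interval of length `L` and the block distance is at most
`M + 1` -/
theorem core (h1 : Stmt_TMO) (h2 : Stmt_WKB) (h3 : Stmt_WKP) (h5 : Stmt_WKS) (x p L : ℕ) (hp : 0 < p)
    (hE : ∀ k, k ≤ L → Ph tt (x + k) = Ph tt (x + p + k)) (hmon : ad tt x ≤ ad tt (x + p))
    (hD : ad tt (x + p) ≤ ad tt (x + L) + 1) : False := by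
  have hB : Bin tt := h1.2.2.1
  obtain ⟨hA, hS⟩ := h5 tt tt x (x + p) L hB hB hE
  have hAL := hA L le_rfl
  have hne : ad tt x ≠ ad tt (x + p) := by
    intro he
    have e0 := hE 0 (Nat.zero_le _)
    simp only [Nat.add_zero] at e0
    have o1 := ((h3 tt hB).1 x).2.1
    have o2 := ((h3 tt hB).1 (x + p)).2.1
    have b1 := (h2 tt x).2
    have b2 := (h2 tt (x + p)).2
    rw [e0] at o1
    rw [← he, ← o2] at b2
    rw [← o1] at b1
    omega
  obtain ⟨k, hk, hkne⟩ := h1.2.1 (ad tt x) (ad tt (x + p) - ad tt x) (by omega)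
  apply hkne
  have := hS k (by omega)
  rw [this]
  congr 1
  omega

end XLG_

theorem xlg_proof (h1 : Stmt_TMO) (h2 : Stmt_WKB) (h3 : Stmt_WKP) (h4 : Stmt_WKM) (h5 : Stmt_WKS) (h6 : Stmt_SYN)
    (h7 : Stmt_BWD) (h8 : Stmt_DIV) (h9 : Stmt_D12) : Stmt_XLG := by
  intro a p hp
  by_contra hcon
  push Not at hcon
  have hB : Bin tt := h1.2.2.1
  have hN3 := h1.2.2.2
  have hph := (h3 tt hB).1
  have hnx := (h3 tt hB).2 hN3
  have hAg : Agr (fun k => Ph tt (a + k)) (fun k => Ph tt (a + p + k)) p := by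
    refine ⟨⟨fun n _ _ => (hph _).1, fun n _ _ => hnx _⟩, ⟨fun n _ _ => (hph _).1, fun n _ _ => hnx _⟩, ?_⟩
    intro n hn
    exact hcon n hn
  have hS := h6 _ _ _ hAg
  have hBk := h7 _ _ _ hAg
  have hDv := (h8 _ _ _ hAg).1
  obtain ⟨hD1, hD2⟩ := h9 _ _ _ hAg
  -- equality down to 58
  have hdown : ∀ j, j ≤ 102 → Ph tt (a + (160 - j)) = Ph tt (a + p + (160 - j)) := by
    intro j
    induction j with
    | zero => intro _; exact hS 160 le_rfl (by omega)
    | succ j ih =>
      intro hj
      have := hBk (160 - (j + 1)) (by omega) (by omega)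
      apply this
      have h' := ih (by omega)
      have e : 160 - (j + 1) + 1 = 160 - j := by omega
      rw [e]
      exact h'
  have h58 : Ph tt (a + 58) = Ph tt (a + p + 58) := by
    have := hdown 102 le_rfl
    simpa using this
  have h76 : Ph tt (a + (p - 76)) = Ph tt (a + p + (p - 76)) := hS (p - 76) (by omega) (by omega)
  have hend := hD1 (p - 76) h76 (by omega)
  have e76 : p - 76 + 76 = p := by omega
  rw [e76] at hend
  rcases hend with hI | hII
  · -- case I
    have hall : ∀ m, 58 ≤ m → m ≤ p → Ph tt (a + m) = Ph tt (a + p + m) :=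
      fun m hm1 hm2 => hDv 58 p m hm1 hm2 le_rfl h58 hI
    refine XLG_.core h1 h2 h3 h5 (a + 58) p (p - 58) (by omega) ?_ ?_ ?_
    · intro k hk
      have := hall (58 + k) (by omega) (by omega)
      have e1 : a + 58 + k = a + (58 + k) := by omega
      have e2 : a + 58 + p + k = a + p + (58 + k) := by omega
      rw [e1, e2]
      exact this
    · exact (h4 tt (a + 58) (a + 58 + p) (by omega)).1
    · have := (h4 tt (a + 58 + (p - 58)) (a + 58 + p) (by omega)).2.2.2 (by omega)
      exact this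
  · -- case II
    have h0 : Ph tt (a + 0) = Ph tt (a + p + 0) := by
      apply hD2 (by omega)
      left
      exact hII
    have hall : ∀ m, m ≤ p - 76 → Ph tt (a + m) = Ph tt (a + p + m) :=
      fun m hm2 => hDv 0 (p - 76) m (Nat.zero_le _) hm2 (by omega) h0 h76
    refine XLG_.core h1 h2 h3 h5 a p (p - 76) (by omega) hall ?_ ?_
    · exact (h4 tt a (a + p) (by omega)).1
    · exact (h4 tt (a + (p - 76)) (a + p) (by omega)).2.2.2 (by omega)

end Pool.Agent.SSH
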