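import Pool.Agent.SSH.Stmts

/-!
# Module XSM: no short squares in `hw tt`
-/

set_option autoImplicit false

namespace Pool.Agent.SSH

namespace XSM_

theorem allN_get (P : ℕ → Bool) : ∀ n, allN P n = true → ∀ m, m < n → P m = true := by
  intro n
  induction n with
  | zero => intro _ m hm; omega
  | succ n ih =>
    intro h m hm
    have h' : (P n && allN P n) = true := h
    rw [Bool.and_eq_true] at h'
    by_cases he : m = n
    · subst he
      exact h'.1
    · exact ih h'.2 m (by omega)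

theorem ln_le (a b : ℕ) : ln a b ≤ 406 := by
  unfold ln
  split_ifs <;> omega

theorem tw_get (hTMB : Stmt_TMB) (q k : ℕ) (hk : k < 16) :
    (tw (tt (8 * q)) (tt (8 * q + 8))).getD k 0 = tt (8 * q + k) := by
  obtain ⟨h1, h2, h3, h4⟩ := hTMB
  have t0 : tm 0 = 0 := rfl
  have key : ∀ q r, r < 8 → tt (8 * q + r) = 1 - (tm q + tm r) % 2 := by
    intro q r hr
    unfold tt
    have := h4 3 q r hr
    have e : 2 ^ 3 * q + r = 8 * q + r := by norm_num
    rw [e] at this
    rw [this]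
  have a0 : tt (8 * q) = 1 - tm q % 2 := by
    have := key q 0 (by norm_num)
    rw [t0] at this
    simpa using this
  have a1 : tt (8 * q + 8) = 1 - tm (q + 1) % 2 := by
    have := key (q + 1) 0 (by norm_num)
    rw [t0] at this
    have e : 8 * (q + 1) + 0 = 8 * q + 8 := by ring
    rw [e] at this
    simpa using this
  have hq := h3 q
  have hq1 := h3 (q + 1)
  have hl : (tw (tt (8 * q)) (tt (8 * q + 8))).getD k 0 =
      (bif Nat.blt k 8 then (tt (8 * q) + tm k) % 2 else (tt (8 * q + 8) + tm (k - 8)) % 2) := by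
    unfold tw
    rw [List.getD_eq_getElem _ _ (by simpa using hk)]
    simp
  rw [hl]
  by_cases hk8 : k < 8
  · have hb : Nat.blt k 8 = true := by
      rw [Nat.blt_eq]
      exact hk8
    rw [hb, cond_true, key q k hk8, a0]
    have := h3 k
    omega
  · have hb : Nat.blt k 8 = false := by
      rw [← Bool.not_eq_true, Nat.blt_eq]
      exact hk8
    rw [hb, cond_false]
    have e : 8 * q + k = 8 * (q + 1) + (k - 8) := by omega
    rw [e, key (q + 1) (k - 8) (by omega), a1]
    have := h3 (k - 8)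
    omega

end XSM_

open XSM_ in
theorem xsm_proof (hTMB : Stmt_TMB) (hTMO : Stmt_TMO) (hWKB : Stmt_WKB) (hWKH : Stmt_WKH) (hWKC : Stmt_WKC)
    (hSQW : Stmt_SQW) (hKSX : Stmt_KSX) : Stmt_XSM := by
  intro a p hp0 hp
  have hB : Bin tt := hTMO.2.2.1
  obtain ⟨q, hq⟩ : ∃ q, q = ad tt a / 8 := ⟨_, rfl⟩
  have hlen : (tw (tt (8 * q)) (tt (8 * q + 8))).length = 16 := by
    unfold tw
    simp
  obtain ⟨hC1, hC2⟩ := hWKC tt (tw (tt (8 * q)) (tt (8 * q + 8))) (8 * q) hB (by
    intro k hk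
    rw [hlen] at hk
    exact tw_get hTMB q k hk)
  rw [hlen] at hC1
  have hsq : sqC (bcs (tw (tt (8 * q)) (tt (8 * q + 8)))).1 (bcs (tw (tt (8 * q)) (tt (8 * q + 8)))).2 239 = true := by
    have h1 := allN_get _ 2 hKSX (tt (8 * q)) (hB _)
    exact allN_get _ 2 h1 (tt (8 * q + 8)) (hB _)
  obtain ⟨b1, b2⟩ := hWKB tt a
  have b3 := ln_le (tt (ad tt a)) (tt (ad tt a + 1))
  have c1 := (hWKH tt (8 * q) (ad tt a) (by omega)).1
  have c2 := (hWKH tt (ad tt a) (8 * q + 15) (by omega)).1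
  have e15 : 8 * q + (16 - 1) = 8 * q + 15 := by omega
  rw [e15] at hC1
  obtain ⟨k, hk, hne⟩ := hSQW _ _ 239 (hw tt) (HH tt (8 * q)) hsq hC2 (a - HH tt (8 * q)) p hp0 (by omega) (by omega)
  refine ⟨k, hk, ?_⟩
  have e1 : HH tt (8 * q) + (a - HH tt (8 * q)) + k = a + k := by omega
  have e2 : HH tt (8 * q) + (a - HH tt (8 * q)) + p + k = a + p + k := by omega
  rw [e1, e2] at hne
  exact hne

end Pool.Agent.SSH
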