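import Pool.Agent.SSH.K1
import Pool.Agent.SSH.K2
import Pool.Agent.SSH.K3
import Pool.Agent.SSH.K4
import Pool.Agent.SSH.K5
import Pool.Agent.SSH.Last
import Pool.Agent.SSH.ACR
import Pool.Agent.SSH.BAD
import Pool.Agent.SSH.BRD
import Pool.Agent.SSH.BWD
import Pool.Agent.SSH.CDL
import Pool.Agent.SSH.CHK
import Pool.Agent.SSH.D12
import Pool.Agent.SSH.DEL
import Pool.Agent.SSH.DIV
import Pool.Agent.SSH.EAQ
import Pool.Agent.SSH.EBT
import Pool.Agent.SSH.END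
import Pool.Agent.SSH.ENG
import Pool.Agent.SSH.FIN
import Pool.Agent.SSH.FRS
import Pool.Agent.SSH.GAM
import Pool.Agent.SSH.GGF
import Pool.Agent.SSH.GRO
import Pool.Agent.SSH.HSQ
import Pool.Agent.SSH.HUB
import Pool.Agent.SSH.JCT
import Pool.Agent.SSH.LA2
import Pool.Agent.SSH.LA3
import Pool.Agent.SSH.LA4
import Pool.Agent.SSH.LMA
import Pool.Agent.SSH.LMB
import Pool.Agent.SSH.LTC
import Pool.Agent.SSH.MSK
import Pool.Agent.SSH.PGN
import Pool.Agent.SSH.POT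
import Pool.Agent.SSH.PRS
import Pool.Agent.SSH.PTH
import Pool.Agent.SSH.RNK
import Pool.Agent.SSH.RPH
import Pool.Agent.SSH.SHB
import Pool.Agent.SSH.SHR
import Pool.Agent.SSH.SQW
import Pool.Agent.SSH.SSU
import Pool.Agent.SSH.SYN
import Pool.Agent.SSH.TMA
import Pool.Agent.SSH.TMB
import Pool.Agent.SSH.TMO
import Pool.Agent.SSH.TMR
import Pool.Agent.SSH.TVW
import Pool.Agent.SSH.UPH
import Pool.Agent.SSH.USQ
import Pool.Agent.SSH.VRC
import Pool.Agent.SSH.WDW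
import Pool.Agent.SSH.WIN
import Pool.Agent.SSH.WKA
import Pool.Agent.SSH.WKB
import Pool.Agent.SSH.WKC
import Pool.Agent.SSH.WKG
import Pool.Agent.SSH.WKH
import Pool.Agent.SSH.WKM
import Pool.Agent.SSH.WKO
import Pool.Agent.SSH.WKP
import Pool.Agent.SSH.WKS
import Pool.Agent.SSH.WKT
import Pool.Agent.SSH.XJN
import Pool.Agent.SSH.XLG
import Pool.Agent.SSH.XSM

/-!
# Self-shuffles (MP_018a5e_co): assembly
-/

set_option autoImplicit false

namespace Pool.Agent.SSH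

theorem hTMB : Stmt_TMB := tmb_proof
theorem hTMO : Stmt_TMO := tmo_proof hTMB
theorem hTMR : Stmt_TMR := tmr_proof hTMB hTMO
theorem hTMA : Stmt_TMA := tma_proof hTMB hTMO
theorem hEAQ : Stmt_EAQ := eaq_proof hTMB
theorem hEBT : Stmt_EBT := ebt_proof
theorem hBRD : Stmt_BRD := brd_proof hTMB hTMO hTMR hEAQ hEBT
theorem hWKA : Stmt_WKA := wka_proof
theorem hWKB : Stmt_WKB := wkb_proof hWKA
theorem hWKH : Stmt_WKH := wkh_proof
theorem hWKM : Stmt_WKM := wkm_proof hWKB hWKH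
theorem hWKP : Stmt_WKP := wkp_proof hWKB
theorem hWKG : Stmt_WKG := wkg_proof hWKB
theorem hWKS : Stmt_WKS := wks_proof hWKB hWKP
theorem hWKO : Stmt_WKO := wko_proof hWKA hWKB hWKH
theorem hWKT : Stmt_WKT := wkt_proof hWKB
theorem hWKC : Stmt_WKC := wkc_proof hWKA
theorem hPOT : Stmt_POT := pot_proof
theorem hGRO : Stmt_GRO := gro_proof hWKH
theorem hGGF : Stmt_GGF := ggf_proof hGRO
theorem hDEL : Stmt_DEL := del_proof hTMB hEAQ hWKA hPOT
theorem hUPH : Stmt_UPH := uph_proof hTMO hWKP hGRO hGGF hDEL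
theorem hWIN : Stmt_WIN := win_proof hTMB hTMO hEAQ hWKA hWKC hGRO hGGF
theorem hMSK : Stmt_MSK := msk_proof
theorem hTVW : Stmt_TVW := tvw_proof hMSK
theorem hPRS : Stmt_PRS := prs_proof hMSK hTVW hPOT
theorem hSYN : Stmt_SYN := syn_proof hMSK hPRS ksy_proof
theorem hBWD : Stmt_BWD := bwd_proof hMSK hPRS kbw_proof
theorem hDIV : Stmt_DIV := div_proof hMSK hPRS kdv_proof
theorem hD12 : Stmt_D12 := d12_proof hMSK hPRS kd1_proof kd2_proof
theorem hSQW : Stmt_SQW := sqw_proof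
theorem hXSM : Stmt_XSM := xsm_proof hTMB hTMO hWKB hWKH hWKC hSQW ksx_proof
theorem hXLG : Stmt_XLG := xlg_proof hTMO hWKB hWKP hWKM hWKS hSYN hBWD hDIV hD12
theorem hXJN : Stmt_XJN := xjn_proof hTMO hWKB hWKP hWKS hBRD hDEL hSYN hDIV hD12
theorem hBAD : Stmt_BAD := bad_proof hWIN hPOT kbd_proof hGRO
theorem hJCT : Stmt_JCT := jct_proof hGRO hUPH hBAD
theorem hUSQ : Stmt_USQ := usq_proof hGRO hGGF hDEL hUPH hWIN hSQW ksw_proof hXSM hXLG hXJN hJCT
theorem hCDL : Stmt_CDL := cdl_proof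
theorem hACR : Stmt_ACR := acr_proof hCDL kac_proof
theorem hRNK : Stmt_RNK := rnk_proof hACR krk_proof
theorem hCHK : Stmt_CHK := chk_proof hACR hCDL
theorem hHUB : Stmt_HUB := hub_proof hACR hCDL hCHK khb_proof ks5_proof kfr_proof
theorem hRPH : Stmt_RPH := rph_proof
theorem hHSQ : Stmt_HSQ := hsq_proof hRNK hHUB hRPH
theorem hFRS : Stmt_FRS := frs_proof hACR hCDL kfr_proof
theorem hLTC : Stmt_LTC := ltc_proof
theorem hPTH : Stmt_PTH := pth_proof hCDL hHSQ hFRS hLTC hRPH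
theorem hSHB : Stmt_SHB := shb_proof
theorem hVRC : Stmt_VRC := vrc_proof hSHB hUSQ
theorem hPGN : Stmt_PGN := pgn_proof hSHB
theorem hSSU : Stmt_SSU := ssu_proof hPOT hUPH hGRO hGGF
theorem hENG : Stmt_ENG := eng_proof hSHB hSSU hPOT hUPH
theorem hSHR : Stmt_SHR := shr_proof hMSK hTVW hPOT
theorem hFIN : Stmt_FIN := FIN_proof hPOT
theorem hWDW : Stmt_WDW := wdw_proof hSHB hSHR hFIN kw2_proof kw3_proof hPOT hUPH hGRO hGGF hWIN hMSK hSSU
theorem hGAM : Stmt_GAM := gam_proof hPOT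
theorem hLA2 : Stmt_LA2 := la2_proof hSHB hUPH hSYN
theorem hLA3 : Stmt_LA3 := la3_proof hTMO hTMA hWKB hWKM hWKP hWKG hWKS hWKO hWKT
theorem hLA4 : Stmt_LA4 := la4_proof hTMO hWKP hGRO hGGF hDEL hUPH hPOT hWKT
theorem hLMA : Stmt_LMA := lma_proof hPTH hSHB hPGN hLA2 hLA3 hLA4 hGRO hGGF hUPH hPOT
theorem hLMB : Stmt_LMB := lmb_proof hPTH hSHB hVRC hWDW hGAM hLMA hGRO
theorem hEND : Stmt_END := end_proof hSHB hENG hLMA hLMB hACR hGRO hGGF

theorem main :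
    ¬ (∀ u : ℕ → Fin 3, (∀ i n : ℕ, 0 < n → ∃ k < n, u (i + k) ≠ u (i + n + k)) →
      ∃ w : ℕ → Fin 3, (∀ i n : ℕ, 0 < n → ∃ k < n, w (i + k) ≠ w (i + n + k)) ∧
        ∃ β : ℕ → Bool, Set.Infinite {i : ℕ | β i = false} ∧ Set.Infinite {i : ℕ | β i = true} ∧
          ∀ n : ℕ, u n =
            if β n = false then
              u (Finset.filter (fun i => β i = false) (Finset.range n)).card
            else
              w (Finset.filter (fun i => β i = true) (Finset.range n)).card) :=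
  last_proof hEND hUSQ hUPH

end Pool.Agent.SSH
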