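import Mathlib

set_option autoImplicit false

namespace Pool.Agent.SSH

/-- certificate trees -/
inductive CT where
  | s : CT
  | l : CT
  | q : ℕ → ℕ → CT
  | b : CT → CT → CT → CT

/-- tree for the returns of the hub 168 -/
def TH : CT := (.b (.b .s (.b (.b .s (.b (.b .s (.q 141 8) (.b .s .s (.b (.b (.b .s (.b .s (.b (.q 187 24) (.q 218 30) .s) .s) (.q 175 20)) (.b .s (.b (.q 171 32) .s .s) .s) .s) .s .s))) (.b (.b (.b (.b (.b (.b .s (.b .s (.b .s .s (.b .s .s .s)) .s) (.b .s .s .s)) (.b (.q 151 11) .s (.q 151 2)) .s) .s .s) .s (.b .s (.b (.b .s (.b .s (.q 160 11) (.b .s .l (.b (.b .s (.b .s (.b .s .s .s) (.b .s (.b .s (.q 285 28) .s) (.q 282 24))) (.b (.b (.b (.b (.b .s .s (.b .s .s .s)) (.b (.b (.b .s .s (.b .s (.b (.b .s (.b .s (.q 286 11) (.b .s .l (.b (.q 381 126) .s (.q 381 2)))) .s) (.b .s .l .s) .s) .s)) .s .s) .s (.q 266 2)) .s) .s .s) .s (.q 259 6)) .s .s)) .s (.q 255 2)))) .s) (.q 156 18) .s) .s)) .s .s) .s (.q 140 2)) .s) .s) .s .s) (.b (.b (.q 115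 20) (.b .s (.b (.q 155 32) (.q 141 50) .s) .s) .s) .s .s)) (.b (.b .s (.b .s (.b .s .s .s) (.b .s (.b .s (.q 126 28) .s) (.q 123 24))) (.b (.b (.b (.b (.b .s .s (.b .s .s .s)) (.b (.b (.b .s .s (.b .s (.b (.b .s (.b .s (.q 127 11) (.b .s .l (.b (.b .s (.b .s (.b .s .s .s) (.b .s (.b .s (.q 252 28) .s) (.q 249 24))) (.b (.b (.b (.b (.b .s .s (.b .s .s .s)) (.b (.b (.b .s .s (.b .s (.b (.b .s (.b .s (.q 253 11) (.q 293 126)) .s) (.b .s .l .s) .s) .s)) .s .s) .s (.q 233 2)) .s) .s .s) .s (.q 226 6)) .s .s)) .s (.q 222 2)))) .s) (.b .s .l .s) .s) .s)) .s .s) .s (.q 107 2)) .s) .s .s) .s (.q 100 6)) .s .s)) .s (.q 96 2)) .s)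

/-- tree from state 592 to the hub -/
def TF : CT := (.b (.b .s (.b .s (.b .s .l .s) (.b .s .l (.b (.b .s (.b .s (.b .s .s .s) (.b .s (.b .s (.q 142 28) .s) (.q 139 24))) (.b (.b (.b (.b (.b .s .s (.b .s .s .s)) (.b (.b (.b .s .s (.b .s (.b (.b .s (.b .s (.q 143 11) (.b .s .l (.b (.b .s (.b .s (.b .s .s .s) (.b .s (.b .s (.q 268 28) .s) (.q 265 24))) (.b (.b (.b (.b (.b .s .s (.b .s .s .s)) (.b (.b (.q 252 126) .s .s) .s (.q 249 2)) .s) .s .s) .s (.q 242 6)) .s .s)) .s (.q 238 2)))) .s) (.b .s .l .s) .s) .s)) .s .s) .s (.q 123 2)) .s) .s .s) .s (.q 116 6)) .s .s)) .s (.q 112 2)))) .s) (.b .s .l .s) .s)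

/-- return words of the hub: length -/
def rl (r : ℕ) : ℕ := match r with
  | 0 => 170
  | 1 => 203
  | 2 => 203
  | 3 => 329
  | 4 => 329
  | 5 => 362
  | _ => 0

/-- return words of the hub: code, last letter least significant -/
def rc (r : ℕ) : ℕ := match r with
  | 0 => 0x4849192191848648491848646124648491848624612464849184864612462484918486461246484918486
  | 1 => 0x91849192124612191849192191848648491848646124648491848624612464849184864612462484918486461246484918486
  | 2 => 0x121246486461246484918486461246248491848646124648491848624612464849184864612462484918486461246484918486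
  | 3 => 0x91849192124612191849192191848648491848646124648491848624849184864612464849184864849192191848648491848646124648491848624612464849184864612462484918486461246484918486
  | 4 => 0x121246486461219212461219184919212461218921246121918491921246121921246486461246484918486461246248491848646124648491848624612464849184864612462484918486461246484918486
  | 5 => 0x2461246484918486461246486461219212461219184919212461218921246121918491921246121921246486461246484918486461246248491848646124648491848624612464849184864612462484918486461246484918486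
  | _ => 0

/-- the word of the hub (94 letters) -/
def hubc : ℕ := 0x24612464849184864612462484918486461246484918486

/-- forbidden sequences of returns with (offset, period) of a square in hub word ++ returns -/
def FR : List (List ℕ × ℕ × ℕ) := [([0, 0], 0, 170),
  ([0, 4], 0, 170),
  ([1, 1], 0, 203),
  ([1, 3], 0, 203),
  ([1, 5], 0, 203),
  ([2, 1], 110, 94),
  ([2, 2], 0, 203),
  ([2, 3], 110, 94),
  ([2, 5], 110, 94),
  ([3, 0], 200, 170),
  ([3, 3], 0, 329),
  ([4, 1], 236, 94),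
  ([4, 2], 167, 203),
  ([4, 3], 236, 94),
  ([4, 4], 0, 329),
  ([4, 5], 236, 94),
  ([5, 1], 269, 94),
  ([5, 2], 200, 203),
  ([5, 3], 269, 94),
  ([5, 5], 269, 94),
  ([0, 3, 1], 41, 329),
  ([0, 3, 5], 41, 329),
  ([1, 0, 2], 129, 170),
  ([2, 4, 0], 41, 329),
  ([5, 4, 0], 129, 329),
  ([0, 1, 0, 1], 0, 373),
  ([0, 1, 0, 3], 0, 373),
  ([0, 1, 0, 5], 0, 373),
  ([2, 0, 2, 0], 0, 373),
  ([4, 0, 2, 0], 167, 373),
  ([5, 0, 2, 0], 200, 373),
  ([5, 0, 5, 0], 0, 532),
  ([2, 0, 5, 0, 1], 41, 532),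
  ([2, 0, 5, 0, 3], 41, 532),
  ([4, 0, 5, 0, 1], 96, 532),
  ([4, 0, 5, 0, 3], 96, 532)]

end Pool.Agent.SSH
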