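import Pool.Agent.SSH.Dat1
import Pool.Agent.SSH.Dat2
import Pool.Agent.SSH.Dat3
import Pool.Agent.SSH.Dat4

/-!
# Self-shuffles (MP_018a5e_co): definitions

Words are functions `ℕ → ℕ` (letters 0,1,2).
-/

set_option autoImplicit false

namespace Pool.Agent.SSH

/-! ## words -/

/-- square-free infinite word -/
def SqF (w : ℕ → ℕ) : Prop := ∀ i p : ℕ, 0 < p → ∃ k, k < p ∧ w (i + k) ≠ w (i + p + k)

/-- ternary -/
def Ter (w : ℕ → ℕ) : Prop := ∀ n, w n < 3

/-- binary -/
def Bin (s : ℕ → ℕ) : Prop := ∀ n, s n < 2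

/-- overlap-free on the positions of `[lo, hi)` -/
def OFr (s : ℕ → ℕ) (lo hi : ℕ) : Prop :=
  ∀ j p : ℕ, 0 < p → lo ≤ j → j + 2 * p < hi → ∃ k, k ≤ p ∧ s (j + k) ≠ s (j + p + k)

/-- code of the factor of length `k` at `a`, last letter least significant -/
def cd (w : ℕ → ℕ) (a : ℕ) : ℕ → ℕ
  | 0 => 0
  | k + 1 => 4 * cd w a k + w (a + k)

/-! ## phases: 0..169 block 0, 170..295 block 1 (gauge 0), 296..421 block 1 (gauge 1), 422..827 block 2 -/

/-- letter of a phase -/
def lab (s : ℕ) : ℕ := (LAB >>> (2 * s)) % 4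

def isEnd (s : ℕ) : Bool := Nat.beq s 169 || (Nat.beq s 295 || (Nat.beq s 421 || Nat.beq s 827))

/-- successor relation of phases -/
def nxt (s t : ℕ) : Bool :=
  bif Nat.beq s 169 then (Nat.beq t 422 || Nat.beq t 170) else
  bif Nat.beq s 295 then Nat.beq t 422 else
  bif Nat.beq s 421 then Nat.beq t 0 else
  bif Nat.beq s 827 then (Nat.beq t 0 || Nat.beq t 296) else
  Nat.beq t (s + 1)

/-- offset in the block -/
def off (s : ℕ) : ℕ :=
  bif Nat.blt s 170 then s else bif Nat.blt s 296 then s - 170 else bif Nat.blt s 422 then s - 296 else s - 422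

/-- gauge at the start of the block -/
def gau (s : ℕ) : ℕ :=
  bif Nat.blt s 170 then 1 else bif Nat.blt s 296 then 0 else bif Nat.blt s 422 then 1 else 0

/-- gauge at the start of the next block -/
def gau' (s : ℕ) : ℕ := bif Nat.blt s 296 then 0 else 1

/-- first phase of the block with gauges `a`, `b` -/
def ph (a b : ℕ) : ℕ := if a = 1 then (if b = 0 then 0 else 296) else (if b = 0 then 170 else 422)

/-- length of the block with gauges `a`, `b` -/
def ln (a b : ℕ) : ℕ := if a = 1 then (if b = 0 then 170 else 126) else (if b = 0 then 126 else 406)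

/-- `g` is a path of phases on `[a, b]` -/
def PP (g : ℕ → ℕ) (a b : ℕ) : Prop :=
  (∀ n, a ≤ n → n ≤ b → g n < 828) ∧ (∀ n, a ≤ n → n < b → nxt (g n) (g (n + 1)) = true)

/-! ## the walker along a binary sequence -/

def wk (s : ℕ → ℕ) : ℕ → ℕ × ℕ
  | 0 => (0, 0)
  | n + 1 =>
    if (wk s n).2 + 1 < ln (s (wk s n).1) (s ((wk s n).1 + 1)) then ((wk s n).1, (wk s n).2 + 1)
    else ((wk s n).1 + 1, 0)

/-- block index of position `n` -/
def ad (s : ℕ → ℕ) (n : ℕ) : ℕ := (wk s n).1

/-- offset of position `n` -/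
def of' (s : ℕ → ℕ) (n : ℕ) : ℕ := (wk s n).2

/-- phase of position `n` -/
def Ph (s : ℕ → ℕ) (n : ℕ) : ℕ := ph (s (ad s n)) (s (ad s n + 1)) + of' s n

/-- letter at position `n` -/
def hw (s : ℕ → ℕ) (n : ℕ) : ℕ := lab (Ph s n)

/-- start of block `A` -/
def HH (s : ℕ → ℕ) (A : ℕ) : ℕ := ∑ a ∈ Finset.range A, ln (s a) (s (a + 1))

/-! ## Thue–Morse -/

def tmF : ℕ → ℕ → ℕ
  | 0, _ => 0
  | f + 1, n => (n % 2 + tmF f (n / 2)) % 2

/-- the Thue–Morse sequence -/
def tm (n : ℕ) : ℕ := tmF n n

/-- its complement -/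
def tt (n : ℕ) : ℕ := 1 - tm n

/-! ## the word `UU` : the word `hw tt` with the segments `[dd i, ee i)` removed -/

def NN (i : ℕ) : ℕ := 101 * 3 ^ i
def ll (i : ℕ) : ℕ := 2 * (NN i / 3) + 10 + i % 2

/-- address of the left block of junction `i` -/
def EE (i : ℕ) : ℕ := if i % 2 = 0 then 2 * ((4 ^ NN i - 1) / 3) else (4 ^ NN i - 1) / 3 + 1

/-- address of the right block of junction `i` -/
def QQ (i : ℕ) : ℕ := EE i + 2 ^ ll i - 2

def cL (i : ℕ) : ℕ := if i % 2 = 0 then 39 else 369
def cR (i : ℕ) : ℕ := cL i + 12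

def dd (i : ℕ) : ℕ := HH tt (EE i) + cL i
def ee (i : ℕ) : ℕ := HH tt (QQ i) + cR i
def gp (i : ℕ) : ℕ := ee i - dd i

/-- position of junction `i` in `UU` -/
def ss (i : ℕ) : ℕ := dd i - ∑ j ∈ Finset.range i, gp j

/-- number of junctions at positions `≤ n` -/
def jj (n : ℕ) : ℕ := ((Finset.range (n + 1)).filter (fun i => ss i ≤ n)).card

/-- position in `hw tt` of the letter `n` of `UU` -/
def GG (n : ℕ) : ℕ := n + ∑ i ∈ Finset.range (jj n), gp i

/-- phase of the letter `n` -/
def ff (n : ℕ) : ℕ := Ph tt (GG n)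

/-- the word -/
def UU (n : ℕ) : ℕ := hw tt (GG n)

/-! ## sums of weights and potentials -/

/-- sum of the weights of the first `n` letters -/
def SS (ρ : ℕ → ℤ) (w : ℕ → ℕ) (n : ℕ) : ℤ := ∑ m ∈ Finset.range n, ρ (w m)

/-- energy -/
def wE (c : ℕ) : ℤ := if c = 0 then 8 else if c = 1 then 1 else -12
/-- weights modulo 48 -/
def wO (c : ℕ) : ℤ := if c = 0 then 16 else if c = 1 then 1 else 28
/-- weights counting the blocks -/
def wT (c : ℕ) : ℤ := if c = 0 then 1 else if c = 1 then -11 else 13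

/-- potential of the energy -/
def epsP (s : ℕ) : ℤ := ((EPS >>> (7 * s)) % 128 : ℕ) - 64
/-- potential modulo 48 -/
def piP (s : ℕ) : ℤ := ((PIT >>> (6 * s)) % 64 : ℕ)
/-- potential of `wT` -/
def psiP (s : ℕ) : ℤ := ((PSI >>> (10 * s)) % 1024 : ℕ) - 256

/-! ## the automaton -/

/-- transition; 1023 = a square is completed -/
def go (s c : ℕ) : ℕ := (GOT >>> (10 * (3 * s + c))) % 1024
/-- potential of a state -/
def phi (s : ℕ) : ℕ := (PHT >>> (6 * s)) % 64
/-- length of the word of a state -/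
def wl (s : ℕ) : ℕ := (WLT >>> (8 * s)) % 256
/-- code of the word of a state -/
def wc (s : ℕ) : ℕ := (WCT >>> (384 * s)) % 2 ^ 384
/-- period of the completed square -/
def sqt (s c : ℕ) : ℕ := (SQT >>> (8 * (3 * s + c))) % 256
/-- rank -/
def rk (s : ℕ) : ℕ := (RKT >>> (9 * s)) % 512

/-- 12 + energy of a letter -/
def e12 (c : ℕ) : ℕ := bif Nat.beq c 0 then 20 else bif Nat.beq c 1 then 13 else 0

/-- run of the automaton -/
def run (w : ℕ → ℕ) : ℕ → ℕ
  | 0 => 0
  | n + 1 => go (run w n) (w n)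

/-- no loss on the letters of `[a, b)` -/
def Zl (w : ℕ → ℕ) (a b : ℕ) : Prop :=
  ∀ n, a ≤ n → n < b → phi (run w (n + 1)) + 12 = phi (run w n) + e12 (w n)

/-- loss of letter `n` -/
def loss (w : ℕ → ℕ) (n : ℕ) : ℤ := (phi (run w (n + 1)) : ℤ) - phi (run w n) - wE (w n)

/-! ## bitsets of pairs of phases: bit `828 * v + x` for the pair `(v, x)` -/

/-- forcing evaluation of a natural number -/
def force {α : Type} (x : ℕ) (k : ℕ → α) : α :=
  match x with
  | 0 => k 0
  | n + 1 => k (n + 1)

theorem force_eq {α : Type} (x : ℕ) (k : ℕ → α) : force x k = k x := by cases x <;> rfl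

def mem (F v x : ℕ) : Prop := F.testBit (828 * v + x) = true

/-- `∑ 2^(st*v)` over `v < n` with `lab v = c` (plus `acc`) -/
def patL (st c : ℕ) : ℕ → ℕ → ℕ
  | 0, acc => acc
  | n + 1, acc => force (acc ||| (bif Nat.beq (lab n) c then 1 <<< (st * n) else 0)) (patL st c n)

/-- the pairs `(v, 0)` -/
def COL : ℕ := (2 ^ (828 * 828) - 1) / (2 ^ 828 - 1)
/-- the pairs `(0, x)` -/
def ROWM : ℕ := 2 ^ 828 - 1
/-- the pairs with `lab v = c` -/
def LV (c : ℕ) : ℕ := patL 828 c 828 0 * ROWM
/-- the pairs with `lab x = c` -/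
def LW (c : ℕ) : ℕ := patL 1 c 828 0 * COL
/-- the pairs where `v` is not the end of a block -/
def NEV : ℕ := (COL - (1 <<< (828 * 169)) - (1 <<< (828 * 295)) - (1 <<< (828 * 421)) - (1 <<< (828 * 827))) * ROWM
/-- the pairs where `x` is not the end of a block -/
def NEW : ℕ := (ROWM - (1 <<< 169) - (1 <<< 295) - (1 <<< 421) - (1 <<< 827)) * COL
/-- all pairs -/
def FUL : ℕ := 2 ^ (828 * 828) - 1

def rowget (F v : ℕ) : ℕ := (F >>> (828 * v)) % 2 ^ 828
def rowput (r t : ℕ) : ℕ := r <<< (828 * t)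

/-- successors in the first coordinate (`nev` is to be `NEV`) -/
def Tv (nev F : ℕ) : ℕ :=
  ((F &&& nev) <<< 828) ||| (rowput (rowget F 169 ||| rowget F 295) 422 ||| (rowput (rowget F 169) 170 |||
    ((rowget F 421 ||| rowget F 827) ||| rowput (rowget F 827) 296)))

/-- successors in the second coordinate (`new` is to be `NEW`, `col` is to be `COL`) -/
def Tw (new col F : ℕ) : ℕ :=
  ((F &&& new) <<< 1) ||| ((((F >>> 169 ||| F >>> 295) &&& col) <<< 422) ||| ((((F >>> 169) &&& col) <<< 170) |||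
    (((F >>> 421 ||| F >>> 827) &&& col) ||| (((F >>> 827) &&& col) <<< 296))))

/-- one letter `c ≠ 1` of the shuffle: the letter is taken from the first or from the second word; `v`, `w` the masks
of the pairs whose first (second) label is `c` (all block ends have label 1) -/
def shS (v w F : ℕ) : ℕ := ((F &&& v) <<< 828) ||| ((F &&& w) <<< 1)

/-- one letter 1 of the shuffle -/
def shT (v w nev new col F : ℕ) : ℕ := Tv nev (F &&& v) ||| Tw new col (F &&& w)

/-- both words read the same letter -/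
def prS (m0 m1 m2 nev new col F : ℕ) : ℕ :=
  (((F &&& m0) ||| (F &&& m2)) <<< 829) ||| Tw new col (Tv nev (F &&& m1))

def prRun (m0 m1 m2 nev new col : ℕ) : ℕ → ℕ → ℕ
  | 0, F => F
  | k + 1, F => force (prS m0 m1 m2 nev new col F) (prRun m0 m1 m2 nev new col k)

/-- one letter `c` of the shuffle -/
def shC (l0 l1 l2 r0 r1 r2 nev new col c F : ℕ) : ℕ :=
  bif Nat.beq c 0 then shS l0 r0 F else bif Nat.beq c 1 then shT l1 r1 nev new col F else shS l2 r2 F

/-- shuffle of two words, the first one can make one jump from `p` to `q` : letters read from `code`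
(first letter least significant); `F0` before the jump, `F1` after the jump -/
def shRun (p q l0 l1 l2 r0 r1 r2 nev new col : ℕ) (fin : ℕ → ℕ → Bool) : ℕ → ℕ → ℕ → ℕ → Bool
  | 0, _, F0, F1 => fin F0 F1
  | k + 1, code, F0, F1 =>
    force (shC l0 l1 l2 r0 r1 r2 nev new col (code % 4) F0) fun F0' =>
    force (shC l0 l1 l2 r0 r1 r2 nev new col (code % 4) F1 |||
      (bif Nat.beq (lab p) (code % 4) then rowput (rowget F0 p) q else 0)) fun F1' =>
    shRun p q l0 l1 l2 r0 r1 r2 nev new col fin k (code / 4) F0' F1'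

/-- evaluation with the masks computed once -/
def withM {α : Type} (k : ℕ → ℕ → ℕ → ℕ → ℕ → ℕ → ℕ → ℕ → ℕ → α) : α :=
  force (LV 0) fun l0 => force (LV 1) fun l1 => force (LV 2) fun l2 =>
  force (LW 0) fun r0 => force (LW 1) fun r1 => force (LW 2) fun r2 =>
  force NEV fun nev => force NEW fun new => force COL fun col => k l0 l1 l2 r0 r1 r2 nev new col

/-- the same for the pair runs: `m c` = pairs with both labels `c` -/
def withP {α : Type} (k : ℕ → ℕ → ℕ → ℕ → ℕ → ℕ → α) : α :=
  force (LV 0 &&& LW 0) fun m0 => force (LV 1 &&& LW 1) fun m1 => force (LV 2 &&& LW 2) fun m2 =>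
  force NEV fun nev => force NEW fun new => force COL fun col => k m0 m1 m2 nev new col

/-- the diagonal pairs -/
def DG : ℕ := (2 ^ (829 * 828) - 1) / (2 ^ 829 - 1)

/-- `P` holds below `n` -/
def allN (P : ℕ → Bool) : ℕ → Bool
  | 0 => true
  | n + 1 => P n && allN P n

/-- phases of potential `r` -/
def PM (r : ℕ) : ℕ := (PMT >>> (828 * r)) % 2 ^ 828

/-- potential modulo 48 as a natural number -/
def piN (s : ℕ) : ℕ := (PIT >>> (6 * s)) % 64

/-- all elements `x` of the row satisfy `(c - piN x) mod 48 ∈ am` -/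
def finR (am c row : ℕ) : Bool :=
  allN (fun r => Nat.testBit am ((c + 48 - r) % 48) || Nat.beq (row &&& PM r) 0) 48

/-- all pairs `(v, x)` of the bitset satisfy `(c - piN v - piN x) mod 48 ∈ am` -/
def finB (am c F : ℕ) : Bool :=
  allN (fun v => force (rowget F v) fun row => (Nat.beq row 0 || finR am ((c + 48 - piN v) % 48) row)) 828

/-! ## more pair sets -/

/-- the pairs with `a ≤ v < b` -/
def rowsM (a b : ℕ) : ℕ := (2 ^ (828 * (b - a)) - 1) <<< (828 * a)
/-- the pairs with `a ≤ x < b` -/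
def colsM (a b : ℕ) : ℕ := ((2 ^ (b - a) - 1) <<< a) * COL

/-- pairs which come from the diagonal never return to it -/
def divC (m0 m1 m2 nev new col dg : ℕ) : ℕ → ℕ → Bool
  | 0, F => Nat.beq F 0
  | k + 1, F => Nat.beq (F &&& dg) 0 && force (prS m0 m1 m2 nev new col F) (divC m0 m1 m2 nev new col dg k)

/-! ## reading by one path -/

def NER : ℕ := ROWM - (1 <<< 169) - (1 <<< 295) - (1 <<< 421) - (1 <<< 827)

/-- read the `k` letters of `code` (first letter least significant): `R0` the set of phases without a jump,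
`R1` after one jump from `p` to `q`; true if both sets are empty at the end; `m0 m1 m2` the phases with label 0, 1, 2 -/
def rdRun (m0 m1 m2 p q : ℕ) : ℕ → ℕ → ℕ → ℕ → Bool
  | 0, _, R0, R1 => Nat.beq R0 0 && Nat.beq R1 0
  | k + 1, code, R0, R1 =>
    force (bif Nat.beq (code % 4) 0 then m0 else bif Nat.beq (code % 4) 1 then m1 else m2) fun m =>
    force (Tw NER 1 (R0 &&& m)) fun R0' =>
    force (Tw NER 1 (R1 &&& m) |||
      (bif Nat.beq (lab p) (code % 4) && Nat.testBit R0 p then 1 <<< q else 0)) fun R1' =>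
    rdRun m0 m1 m2 p q k (code / 4) R0' R1'

def withR {α : Type} (k : ℕ → ℕ → ℕ → α) : α :=
  force (patL 1 0 828 0) fun m0 => force (patL 1 1 828 0) fun m1 => force (patL 1 2 828 0) fun m2 => k m0 m1 m2

/-! ## squares in finite words; words are coded with 2 bits per letter, first letter least significant -/

/-- `or` over windows of `p` letters -/
def orW (Z : ℕ) : ℕ → ℕ → ℕ
  | 0, _ => Z
  | f + 1, p => bif Nat.ble p 1 then Z else
      bif Nat.beq (p % 2) 0 then force (orW Z f (p / 2)) fun W => W ||| (W >>> p)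
      else force (orW Z f (p - 1)) fun W => Z ||| (W >>> 2)

/-- positions (even bits) where the letter differs from the letter `p` places later -/
def dfW (code len p : ℕ) : ℕ :=
  force (code ^^^ (code >>> (2 * p))) fun D => (D ||| (D >>> 1)) &&& ((4 ^ len - 1) / 3)

/-- no square of period `p` in the word -/
def sq1 (code len p : ℕ) : Bool :=
  force (dfW code len p) fun Z => force ((4 ^ (len + 1 - 2 * p) - 1) / 3) fun M =>
    Nat.beq (orW Z 16 p &&& M) M

/-- no square of period `1 ≤ p ≤ P` in the word -/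
def sqC (code len : ℕ) : ℕ → Bool
  | 0 => true
  | P + 1 => (Nat.blt len (2 * (P + 1)) || sq1 code len (P + 1)) && sqC code len P

/-- code of the block with gauges `a`, `b` -/
def bc (a b : ℕ) : ℕ := (LAB >>> (2 * ph a b)) % 4 ^ ln a b

/-- code and length of the blocks along a binary word -/
def bcs : List ℕ → ℕ × ℕ
  | a :: b :: t => (bc a b + (bcs (b :: t)).1 * 4 ^ ln a b, ln a b + (bcs (b :: t)).2)
  | _ => (0, 0)

/-- the 16 letters at `8 q` of a binary word whose blocks of 8 letters at `8 q`, `8 q + 8` are those of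
Thue–Morse with first letters `a`, `b` -/
def tw (a b : ℕ) : List ℕ :=
  (List.range 16).map (fun k => bif Nat.blt k 8 then (a + tm k) % 2 else (b + tm (k - 8)) % 2)

/-! ## checks of the automaton -/

/-- check of the transition of state `s` with letter `c` -/
def acC (s c : ℕ) : Bool :=
  bif Nat.beq (go s c) 1023 then
    (Nat.blt 0 (sqt s c) && (Nat.ble (2 * sqt s c) (wl s + 1) &&
      Nat.beq ((4 * wc s + c) % 4 ^ sqt s c) ((4 * wc s + c) / 4 ^ sqt s c % 4 ^ sqt s c)))
  else
    (Nat.blt (go s c) 850 && (Nat.blt (rk (go s c)) 511 && (Nat.ble (wl (go s c)) (wl s + 1) &&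
      (Nat.beq (wc (go s c)) ((4 * wc s + c) % 4 ^ wl (go s c)) &&
        (Nat.ble (phi s + e12 c) (phi (go s c) + 12))))))

/-- zero loss step -/
def zst (s c : ℕ) : Bool := Nat.blt (go s c) 850 && Nat.beq (phi (go s c) + 12) (phi s + e12 c)

/-- checker of the certificate trees: state `s`, `code` = code of the last `len` letters; true if every zero loss
continuation in a square-free word comes to state 168 (after at least one letter) within `fuel` letters and then
`goal code len` holds -/
def chk (l0 : ℕ) (goal : ℕ → ℕ → Bool) : ℕ → ℕ → ℕ → ℕ → CT → Bool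
  | 0, _, _, _, _ => false
  | f + 1, s, code, len, T =>
    bif Nat.beq s 168 && Nat.blt l0 len then goal code len else
    match T with
    | .q L p =>
      bif Nat.beq len L then
        (Nat.blt 0 p && (Nat.ble (2 * p) len && Nat.beq (code % 4 ^ p) (code / 4 ^ p % 4 ^ p)))
      else
        ((bif zst s 0 then chk l0 goal f (go s 0) (4 * code) (len + 1) T else true) &&
        ((bif zst s 1 then chk l0 goal f (go s 1) (4 * code + 1) (len + 1) T else true) &&
        (bif zst s 2 then chk l0 goal f (go s 2) (4 * code + 2) (len + 1) T else true)))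
    | .b x y z =>
      bif (zst s 0 && (zst s 1 || zst s 2)) || (zst s 1 && zst s 2) then
        ((bif zst s 0 then chk l0 goal f (go s 0) (4 * code) (len + 1) x else true) &&
        ((bif zst s 1 then chk l0 goal f (go s 1) (4 * code + 1) (len + 1) y else true) &&
        (bif zst s 2 then chk l0 goal f (go s 2) (4 * code + 2) (len + 1) z else true)))
      else
        ((bif zst s 0 then chk l0 goal f (go s 0) (4 * code) (len + 1) T else true) &&
        ((bif zst s 1 then chk l0 goal f (go s 1) (4 * code + 1) (len + 1) T else true) &&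
        (bif zst s 2 then chk l0 goal f (go s 2) (4 * code + 2) (len + 1) T else true)))
    | _ =>
        ((bif zst s 0 then chk l0 goal f (go s 0) (4 * code) (len + 1) T else true) &&
        ((bif zst s 1 then chk l0 goal f (go s 1) (4 * code + 1) (len + 1) T else true) &&
        (bif zst s 2 then chk l0 goal f (go s 2) (4 * code + 2) (len + 1) T else true)))

def goalH (code len : ℕ) : Bool :=
  (Nat.beq len 264 && Nat.beq (code % 4 ^ 170) (rc 0)) || ((Nat.beq len 297 && Nat.beq (code % 4 ^ 203) (rc 1)) ||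
  ((Nat.beq len 297 && Nat.beq (code % 4 ^ 203) (rc 2)) || ((Nat.beq len 423 && Nat.beq (code % 4 ^ 329) (rc 3)) ||
  ((Nat.beq len 423 && Nat.beq (code % 4 ^ 329) (rc 4)) || (Nat.beq len 456 && Nat.beq (code % 4 ^ 362) (rc 5))))))

/-- code of hub word followed by returns, with its length -/
def frc : List ℕ → ℕ → ℕ → ℕ × ℕ
  | [], code, len => (code, len)
  | r :: t, code, len => frc t (code * 4 ^ rl r + rc r) (len + rl r)

/-- the word `hub ++ returns v` has a square of period `p` at offset `o` -/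
def frC (v : List ℕ) (o p : ℕ) : Bool :=
  Nat.blt 0 p && (Nat.ble (o + 2 * p) (frc v hubc 94).2 &&
    Nat.beq ((frc v hubc 94).1 / 4 ^ ((frc v hubc 94).2 - o - p) % 4 ^ p)
      ((frc v hubc 94).1 / 4 ^ ((frc v hubc 94).2 - o - 2 * p) % 4 ^ p))

/-- the word `w` at `t` reads the returns of the list -/
def rdR (w : ℕ → ℕ) : ℕ → List ℕ → Prop
  | _, [] => True
  | t, r :: v => cd w t (rl r) = rc r ∧ rdR w (t + rl r) v

/-- consistent pairs of returns -/
def cons (a b : ℕ) : Bool :=
  (Nat.beq a 0 && (Nat.beq b 1 || Nat.beq b 3)) || (((Nat.beq a 1 || Nat.beq a 3) && (Nat.beq b 2 || Nat.beq b 4)) ||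
    ((Nat.beq a 2 || Nat.beq a 4) && Nat.beq b 0))

/-! ## shuffles -/

/-- number of letters taken from the first word before time `n` -/
def cF (β : ℕ → Bool) (n : ℕ) : ℕ := ((Finset.range n).filter (fun i => β i = false)).card
/-- number of letters taken from the second word before time `n` -/
def cT (β : ℕ → Bool) (n : ℕ) : ℕ := ((Finset.range n).filter (fun i => β i = true)).card

/-- `UU` is the shuffle of `UU` and `w` along `β` -/
def Shf (w : ℕ → ℕ) (β : ℕ → Bool) : Prop :=
  ∀ n, UU n = if β n = false then UU (cF β n) else w (cT β n)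

/-- radius of the window around junction `i` -/
def RR (i : ℕ) : ℕ := if i = 0 then 5000 else ss (i - 1) * (2 ^ (ll i + 14) + 1) + 5000

def AM2 : ℕ := 2^3+2^4+2^5+2^10+2^12+2^13+2^15+2^19+2^21+2^24+2^28+2^34+2^37+2^42+2^43+2^44
def AM3 : ℕ := 2^0+2^2+2^7+2^8+2^9+2^16+2^17+2^18+2^23+2^26+2^32+2^36+2^39+2^41+2^45+2^47

/-- allowed values of the invariant at the window of junction `i` -/
def AMi (i : ℕ) : ℕ := if i % 2 = 0 then AM2 else AM3

/-- the invariant -/
def gam (w g : ℕ → ℕ) (m : ℕ) : ℤ := SS wO w m - piP (g m)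

end Pool.Agent.SSH
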