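import Pool.Agent.SSH.Stmts

/-!
# Self-shuffles (MP_018a5e_co): module END
-/

set_option autoImplicit false

namespace Pool.Agent.SSH

namespace END_

theorem e12_eq (c : ℕ) (hc : c < 3) : (e12 c : ℤ) = 12 + wE c := by
  interval_cases c
  · rfl
  · rfl
  · rfl

/-- potential minus energy of the second word -/
def pp (w : ℕ → ℕ) (n : ℕ) : ℤ := (phi (run w n) : ℤ) - SS wE w n

theorem pp_succ (w : ℕ → ℕ) (n : ℕ) :
    pp w (n + 1) = pp w n + ((phi (run w (n + 1)) : ℤ) - phi (run w n) - wE (w n)) := by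
  unfold pp SS
  rw [Finset.sum_range_succ]
  ring

theorem pp_step (hACR : Stmt_ACR) (w : ℕ → ℕ) (hs : SqF w) (ht : Ter w) (n : ℕ) :
    pp w n ≤ pp w (n + 1) := by
  have h1 := (hACR w hs ht n).2.2.2.1
  have h2 := e12_eq (w n) (ht n)
  have h3 := pp_succ w n
  have h4 : ((phi (run w n) + e12 (w n) : ℕ) : ℤ) ≤ ((phi (run w (n + 1)) + 12 : ℕ) : ℤ) := by
    exact_mod_cast h1
  push_cast at h4
  linarith

theorem pp_step' (hACR : Stmt_ACR) (w : ℕ → ℕ) (hs : SqF w) (ht : Ter w) (n : ℕ)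
    (hne : phi (run w (n + 1)) + 12 ≠ phi (run w n) + e12 (w n)) :
    pp w n + 1 ≤ pp w (n + 1) := by
  have h1 := (hACR w hs ht n).2.2.2.1
  have h2 := e12_eq (w n) (ht n)
  have h3 := pp_succ w n
  have h5 : phi (run w n) + e12 (w n) + 1 ≤ phi (run w (n + 1)) + 12 := by omega
  have h4 : ((phi (run w n) + e12 (w n) + 1 : ℕ) : ℤ) ≤ ((phi (run w (n + 1)) + 12 : ℕ) : ℤ) := by
    exact_mod_cast h5
  push_cast at h4
  linarith

theorem pp_mono (hACR : Stmt_ACR) (w : ℕ → ℕ) (hs : SqF w) (ht : Ter w) : Monotone (pp w) :=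
  monotone_nat_of_le_succ (pp_step hACR w hs ht)

theorem pp_loss (hACR : Stmt_ACR) (w : ℕ → ℕ) (hs : SqF w) (ht : Ter w) (a b : ℕ)
    (h : Zl w a b → False) : pp w a + 1 ≤ pp w b := by
  have h' : ∃ n, a ≤ n ∧ n < b ∧ phi (run w (n + 1)) + 12 ≠ phi (run w n) + e12 (w n) := by
    by_contra hcon
    push Not at hcon
    exact h (fun n h1 h2 => hcon n h1 h2)
  obtain ⟨n, h1, h2, h3⟩ := h'
  have h4 := pp_mono hACR w hs ht h1
  have h5 := pp_mono hACR w hs ht (show n + 1 ≤ b by omega)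
  have h6 := pp_step' hACR w hs ht n h3
  linarith

theorem cF_unb (hSHB : Stmt_SHB) (β : ℕ → Bool) (h0 : Set.Infinite {i : ℕ | β i = false}) (K : ℕ) :
    ∃ n, K ≤ cF β n := by
  induction K with
  | zero => exact ⟨0, Nat.zero_le _⟩
  | succ K ih =>
    obtain ⟨n, hn⟩ := ih
    obtain ⟨m, hm, hlt⟩ := h0.exists_gt n
    refine ⟨m + 1, ?_⟩
    have h1 := ((hSHB β).2.2.1 m hm).1
    have h2 := ((hSHB β).2.2.2.2.2.1 n m hlt.le).1
    omega

theorem cT_unb (hSHB : Stmt_SHB) (β : ℕ → Bool) (h0 : Set.Infinite {i : ℕ | β i = true}) (K : ℕ) :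
    ∃ n, K ≤ cT β n := by
  induction K with
  | zero => exact ⟨0, Nat.zero_le _⟩
  | succ K ih =>
    obtain ⟨n, hn⟩ := ih
    obtain ⟨m, hm, hlt⟩ := h0.exists_gt n
    refine ⟨m + 1, ?_⟩
    have h1 := ((hSHB β).2.2.2.1 m hm).2
    have h2 := ((hSHB β).2.2.2.2.2.1 n m hlt.le).2
    omega

end END_

open END_ in
theorem end_proof (hSHB : Stmt_SHB) (hENG : Stmt_ENG) (hLMA : Stmt_LMA) (hLMB : Stmt_LMB)
    (hACR : Stmt_ACR) (hGRO : Stmt_GRO) (hGGF : Stmt_GGF) : Stmt_END := by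
  intro w β hs ht hsh h0 h1
  have hcm : ∀ n m, n ≤ m → cT β n ≤ cT β m := fun n m h => ((hSHB β).2.2.2.2.2.1 n m h).2
  have hfm : ∀ n m, n ≤ m → cF β n ≤ cF β m := fun n m h => ((hSHB β).2.2.2.2.2.1 n m h).1
  have hpm := pp_mono hACR w hs ht
  -- the function L
  set L : ℕ → ℤ := fun n => pp w (cT β n) with hL
  have hLm : ∀ n m, n ≤ m → L n ≤ L m := fun n m h => hpm (hcm n m h)
  have hgrow : ∀ i, ss i + RR i ≤ ss (i + 1) - RR (i + 1) ∧ ss (i + 1) - RR (i + 1) ≤ ss (i + 1) ∧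
      ss i + RR i < ss (i + 1) ∧ ss i - RR i < ss (i + 1) - RR (i + 1) := by
    intro i
    have h := (hGRO i).2.2.2.2.1
    refine ⟨by omega, by omega, by omega, by omega⟩
  have hlin : ∀ i, i ≤ ss i - RR i := by
    intro i
    induction i with
    | zero => exact Nat.zero_le _
    | succ i ih =>
      have := (hgrow i).2.2.2
      omega
  have hmono1 : ∀ i j, i ≤ j → ss i - RR i ≤ ss j - RR j := by
    intro i j hij
    induction hij with
    | refl => exact le_rfl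
    | step _ ih => exact ih.trans (hgrow _).2.2.2.le
  have hjj : ∀ i, jj (ss i + RR i) = i + 1 := fun i =>
    ((hGGF.1 i (ss i + RR i) (by omega) (hgrow i).2.2.1)).1
  have hE : ∀ n, ((jj (cF β n) : ℕ) : ℤ) ≤ (jj n : ℤ) - L n + 400 := by
    intro n
    have h := hENG w β hsh n
    rw [abs_le] at h
    have h2 : L n = (phi (run w (cT β n)) : ℤ) - SS wE w (cT β n) := rfl
    linarith [h.1, h.2]
  -- first stage
  obtain ⟨n0, hn0⟩ := cT_unb hSHB β h1 1000
  set i0 : ℕ := n0 + 3 with hi0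
  have hstep1 : ∀ i, i0 ≤ i → L (ss (i - 1) - RR (i - 1)) + 1 ≤ L (ss (i + 2) - RR (i + 2)) := by
    intro i hi
    refine pp_loss hACR w hs ht _ _ (hLMB w β i hs ht hsh (by omega) ?_)
    have h := hlin (i - 1)
    exact hn0.trans (hcm _ _ (by omega))
  have hA : ∀ k : ℕ, L (ss (i0 - 1) - RR (i0 - 1)) + k ≤
      L (ss (i0 - 1 + 3 * k) - RR (i0 - 1 + 3 * k)) := by
    intro k
    induction k with
    | zero => simp
    | succ k ih =>
      have h := hstep1 (i0 + 3 * k) (by omega)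
      have e1 : i0 + 3 * k - 1 = i0 - 1 + 3 * k := by omega
      have e2 : i0 + 3 * k + 2 = i0 - 1 + 3 * (k + 1) := by omega
      rw [e1, e2] at h
      push_cast
      linarith
  -- the second stage
  set L0 : ℤ := L (ss (i0 - 1) - RR (i0 - 1)) with hL0
  set k0 : ℕ := (402 - L0).toNat with hk0
  have hk0' : 402 - L0 ≤ (k0 : ℤ) := Int.self_le_toNat _
  set i1 : ℕ := i0 - 1 + 3 * k0 with hi1
  have hB : ∀ i, i1 ≤ i → cF β (ss i + RR i) < ss (i - 1) := by
    intro i hi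
    rw [← hGGF.2.2.2.2.2 (cF β (ss i + RR i)) (i - 1)]
    have h2 := hE (ss i + RR i)
    rw [hjj] at h2
    have h3 : L (ss i1 - RR i1) ≤ L (ss i + RR i) :=
      hLm _ _ ((hmono1 i1 i hi).trans (by omega))
    have h4 := hA k0
    rw [← hi1] at h4
    have h5 : ((jj (cF β (ss i + RR i)) : ℕ) : ℤ) ≤ ((i - 1 : ℕ) : ℤ) := by
      have h6 : ((i - 1 : ℕ) : ℤ) = (i : ℤ) - 1 := by
        rw [Nat.cast_sub (by omega)]
        simp
      rw [h6]
      push_cast at h2
      linarith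
    exact_mod_cast h5
  have hstep2 : ∀ i, i1 ≤ i → L (ss i + RR i) + 1 ≤ L (ss (i + 1) + RR (i + 1)) := by
    intro i hi
    have h := pp_loss hACR w hs ht _ _
      (hLMA w β (i + 1) hs ht hsh (by omega) (hB (i + 1) (by omega)))
    have h2 := hLm _ _ (hgrow i).1
    have h3 : L (ss (i + 1) - RR (i + 1)) + 1 ≤ L (ss (i + 1) + RR (i + 1)) := h
    linarith
  have hC : ∀ k : ℕ, L (ss i1 + RR i1) + k ≤ L (ss (i1 + k) + RR (i1 + k)) := by
    intro k
    induction k with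
    | zero => simp
    | succ k ih =>
      have h := hstep2 (i1 + k) (by omega)
      have e : i1 + (k + 1) = i1 + k + 1 := by omega
      rw [e]
      push_cast
      linarith
  -- bound for the first word
  set L1 : ℤ := L (ss i1 + RR i1) with hL1
  set C : ℕ := ((i1 : ℤ) + 401 - L1).toNat with hCdef
  have hC' : (i1 : ℤ) + 401 - L1 ≤ (C : ℤ) := Int.self_le_toNat _
  have hD : ∀ k : ℕ, cF β (ss (i1 + k) + RR (i1 + k)) < ss C := by
    intro k
    rw [← hGGF.2.2.2.2.2 _ C]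
    have h2 := hE (ss (i1 + k) + RR (i1 + k))
    rw [hjj] at h2
    have h3 := hC k
    have h5 : ((jj (cF β (ss (i1 + k) + RR (i1 + k))) : ℕ) : ℤ) ≤ (C : ℤ) := by
      push_cast at h2
      linarith
    exact_mod_cast h5
  obtain ⟨n, hn⟩ := cF_unb hSHB β h0 (ss C)
  have h2 := hD n
  have h3 := hlin (i1 + n)
  have h4 := hfm n (ss (i1 + n) + RR (i1 + n)) (by omega)
  omega

end Pool.Agent.SSH
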