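import Pool.Agent.SSH.Stmts

set_option autoImplicit false
set_option maxRecDepth 100000
set_option exponentiation.threshold 1000000

namespace Pool.Agent.SSH

theorem kac_proof : Stmt_KAC := by
  unfold Stmt_KAC
  decide +kernel

theorem krk_proof : Stmt_KRK := by
  unfold Stmt_KRK
  decide +kernel

theorem khb_proof : Stmt_KHB := by
  unfold Stmt_KHB
  decide +kernel

theorem ks5_proof : Stmt_KS5 := by
  unfold Stmt_KS5
  refine ⟨?_, ?_⟩ <;> decide +kernel

theorem kfr_proof : Stmt_KFR := by
  unfold Stmt_KFR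
  refine ⟨?_, ?_, ?_⟩ <;> decide +kernel

end Pool.Agent.SSH
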