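import Pool.Agent.SSH.Stmts

set_option autoImplicit false
set_option maxRecDepth 100000

namespace Pool.Agent.SSH

namespace POT_

theorem allN_spec {P : ℕ → Bool} {n : ℕ} (h : allN P n = true) : ∀ m, m < n → P m = true := by
  induction n with
  | zero => intro m hm; omega
  | succ n ih =>
    unfold allN at h
    rw [Bool.and_eq_true] at h
    intro m hm
    rcases Nat.lt_succ_iff_lt_or_eq.mp hm with h1 | h1
    · exact ih h.2 m h1
    · rw [h1]; exact h.1

def sucs (s : ℕ) : List ℕ :=
  bif Nat.beq s 169 then [422, 170] else bif Nat.beq s 295 then [422] else bif Nat.beq s 421 then [0] else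
  bif Nat.beq s 827 then [0, 296] else [s + 1]

theorem mem_sucs {s t : ℕ} (h : nxt s t = true) : t ∈ sucs s := by
  unfold nxt at h
  unfold sucs
  cases h1 : Nat.beq s 169 with
  | true =>
    simp only [h1, cond_true, Bool.or_eq_true] at h ⊢
    rcases h with h | h <;> have := Nat.eq_of_beq_eq_true h <;> subst this <;> simp
  | false =>
    simp only [h1, cond_false] at h ⊢
    cases h2 : Nat.beq s 295 with
    | true =>
      simp only [h2, cond_true] at h ⊢
      have := Nat.eq_of_beq_eq_true h; subst this; simp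
    | false =>
      simp only [h2, cond_false] at h ⊢
      cases h3 : Nat.beq s 421 with
      | true =>
        simp only [h3, cond_true] at h ⊢
        have := Nat.eq_of_beq_eq_true h; subst this; simp
      | false =>
        simp only [h3, cond_false] at h ⊢
        cases h4 : Nat.beq s 827 with
        | true =>
          simp only [h4, cond_true, Bool.or_eq_true] at h ⊢
          rcases h with h | h <;> have := Nat.eq_of_beq_eq_true h <;> subst this <;> simp
        | false =>
          simp only [h4, cond_false] at h ⊢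
          have := Nat.eq_of_beq_eq_true h; subst this; simp

def chkS (s t : ℕ) : Bool :=
  decide (epsP t = epsP s + wE (lab s)) && (decide ((piP t - piP s - wO (lab s)) % 48 = 0) &&
    decide ((if off t = 0 then (18 : ℤ) else 0) + psiP t = psiP s + wT (lab s)))

theorem k1 : allN (fun s => (sucs s).all (chkS s)) 828 = true := by decide +kernel

def chkV (s : ℕ) : Bool :=
  Nat.blt (lab s) 3 && (decide (-64 ≤ epsP s) && (decide (epsP s ≤ 63) && (Nat.blt (piN s) 48 &&
    ((bif isEnd s then Nat.beq (lab s) 1 else true) && Nat.testBit (PM (piN s)) s))))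

theorem k2 : allN chkV 828 = true := by decide +kernel

theorem k3 : (decide (epsP 473 = epsP 461 + 1) && (decide (epsP 803 = epsP 791 + 1) &&
    (decide ((piP 473 - piP 461 - 9) % 48 = 0) && (decide ((piP 803 - piP 791 - 9) % 48 = 0) &&
    (decide (psiP 461 = psiP 473 + 12) && decide (psiP 791 = psiP 803 + 12)))))) = true := by decide +kernel

theorem k4 : (Nat.beq (lab 461) (lab 473) && (Nat.beq (lab 462) (lab 474) && (Nat.beq (lab 463) (lab 475) &&
    (Nat.beq (lab 791) (lab 803) && (Nat.beq (lab 792) (lab 804) && Nat.beq (lab 793) (lab 805)))))) = true := by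
  decide +kernel

end POT_

open POT_ in
theorem pot_proof : Stmt_POT := by
  refine ⟨?_, ?_, ?_, ?_⟩
  · intro s t hs _ hn
    have h := allN_spec k1 s hs
    rw [List.all_eq_true] at h
    have h2 := h t (mem_sucs hn)
    unfold chkS at h2
    rw [Bool.and_eq_true, Bool.and_eq_true, decide_eq_true_iff, decide_eq_true_iff, decide_eq_true_iff] at h2
    exact ⟨h2.1, Int.dvd_of_emod_eq_zero h2.2.1, h2.2.2⟩
  · intro s hs
    have h := allN_spec k2 s hs
    unfold chkV at h
    rw [Bool.and_eq_true, Bool.and_eq_true, Bool.and_eq_true, Bool.and_eq_true, Bool.and_eq_true,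
      decide_eq_true_iff, decide_eq_true_iff] at h
    refine ⟨Nat.ble_eq.mp h.1, h.2.1, h.2.2.1, rfl, Nat.ble_eq.mp h.2.2.2.1, ?_, h.2.2.2.2.2⟩
    intro he
    have h3 := h.2.2.2.2.1
    rw [he, cond_true] at h3
    exact Nat.eq_of_beq_eq_true h3
  · have h := k3
    rw [Bool.and_eq_true, Bool.and_eq_true, Bool.and_eq_true, Bool.and_eq_true, Bool.and_eq_true] at h
    simp only [decide_eq_true_iff] at h
    exact ⟨h.1, h.2.1, Int.dvd_of_emod_eq_zero h.2.2.1, Int.dvd_of_emod_eq_zero h.2.2.2.1, h.2.2.2.2.1, h.2.2.2.2.2⟩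
  · have h := k4
    rw [Bool.and_eq_true, Bool.and_eq_true, Bool.and_eq_true, Bool.and_eq_true, Bool.and_eq_true] at h
    intro r hr
    have e1 := Nat.eq_of_beq_eq_true h.1
    have e2 := Nat.eq_of_beq_eq_true h.2.1
    have e3 := Nat.eq_of_beq_eq_true h.2.2.1
    have e4 := Nat.eq_of_beq_eq_true h.2.2.2.1
    have e5 := Nat.eq_of_beq_eq_true h.2.2.2.2.1
    have e6 := Nat.eq_of_beq_eq_true h.2.2.2.2.2
    have : r = 0 ∨ r = 1 ∨ r = 2 := by omega
    rcases this with rfl | rfl | rfl
    · exact ⟨e1, e4⟩
    · exact ⟨e2, e5⟩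
    · exact ⟨e3, e6⟩

end Pool.Agent.SSH
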