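import Pool.Agent.SSH.Defs

/-!
# Self-shuffles (MP_018a5e_co): statements of the modules
-/

set_option autoImplicit false

namespace Pool.Agent.SSH

/-! ## kernel facts -/

def Stmt_KAC : Prop := allN (fun s => Nat.beq (rk s) 511 || (acC s 0 && (acC s 1 && acC s 2))) 850 = true

def Stmt_KRK : Prop := allN (fun s => Nat.beq (rk s) 511 || (Nat.beq s 168 || (Nat.beq s 592 || allN (fun c =>
    bif zst s c then (Nat.beq (go s c) 168 || (Nat.beq (go s c) 592 || Nat.blt (rk (go s c)) (rk s)))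
      else true) 3))) 850 = true

def Stmt_KHB : Prop := chk 94 goalH 400 168 hubc 94 TH = true

def Stmt_KS5 : Prop := chk 9 (fun _ _ => true) 400 592 (wc 592) 9 TF = true ∧ wl 592 = 9

def Stmt_KFR : Prop := FR.all (fun t => frC t.1 t.2.1 t.2.2) = true ∧ wl 168 = 94 ∧ wc 168 = hubc

def Stmt_KSY : Prop := withP (fun m0 m1 m2 nev new col =>
    force (prRun m0 m1 m2 nev new col 160 FUL) fun F =>
    Nat.beq (prRun m0 m1 m2 nev new col 76 (F &&& (FUL ^^^ DG))) 0) = true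

def Stmt_KBW : Prop := withP (fun m0 m1 m2 nev new col =>
    force (prRun m0 m1 m2 nev new col 58 FUL) fun F =>
    Nat.beq (prS m0 m1 m2 nev new col (F &&& (FUL ^^^ DG)) &&& DG) 0) = true

def Stmt_KDV : Prop := withP (fun m0 m1 m2 nev new col => force DG fun dg =>
    force (prS m0 m1 m2 nev new col dg &&& (FUL ^^^ dg)) (divC m0 m1 m2 nev new col dg 76)) = true

def Stmt_KD1 : Prop := withP (fun m0 m1 m2 nev new col =>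
    force (prRun m0 m1 m2 nev new col 76 DG) fun F =>
    Nat.beq ((F &&& (FUL ^^^ DG)) &&& (FUL ^^^ (rowsM 0 76 ||| (rowsM 296 372 ||| (rowsM 422 443 ||| rowsM 170 191))))) 0)
      = true

def Stmt_KD2 : Prop := withP (fun m0 m1 m2 nev new col =>
    force ((colsM 0 76 ||| (colsM 296 372 ||| (colsM 422 443 ||| (colsM 170 191 ||| (colsM 473 477 ||| colsM 803 807)))))
      &&& (FUL ^^^ DG)) fun F =>
    Nat.beq (prRun m0 m1 m2 nev new col 236 F) 0) = true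

def Stmt_KW2 : Prop := withM (fun l0 l1 l2 r0 r1 r2 nev new col =>
    shRun 790 803 l0 l1 l2 r0 r1 r2 nev new col
      (fun F0 F1 => finB AM2 (piN 19 + 30) F0 && finB AM2 (piN 19 + 39) F1)
      1000 WINE FUL FUL) = true

def Stmt_KW3 : Prop := withM (fun l0 l1 l2 r0 r1 r2 nev new col =>
    shRun 460 473 l0 l1 l2 r0 r1 r2 nev new col
      (fun F0 F1 => finB AM3 (piN 475 + 30) F0 && finB AM3 (piN 475 + 39) F1)
      1000 WINO FUL FUL) = true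

def Stmt_KBD : Prop := withR (fun m0 m1 m2 =>
    rdRun m0 m1 m2 790 803 55 (WINE >>> 998) ROWM 0 && (rdRun m0 m1 m2 790 803 55 (WINE >>> 898) ROWM 0 &&
    (rdRun m0 m1 m2 460 473 55 (WINO >>> 998) ROWM 0 && rdRun m0 m1 m2 460 473 55 (WINO >>> 898) ROWM 0))) = true

def Stmt_KSW : Prop := (sqC WINE 1000 239 && sqC WINO 1000 239) = true

def Stmt_KSX : Prop := allN (fun a => allN (fun b => sqC (bcs (tw a b)).1 (bcs (tw a b)).2 239) 2) 2 = true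

/-! ## Thue–Morse -/

def Stmt_TMB : Prop := (∀ n, tm (2 * n) = tm n) ∧ (∀ n, tm (2 * n + 1) = 1 - tm n) ∧ (∀ n, tm n < 2) ∧
  (∀ m q r, r < 2 ^ m → tm (2 ^ m * q + r) = (tm q + tm r) % 2)

/-- overlap-freeness -/
def Stmt_TMO : Prop := (∀ j p, 0 < p → ∃ k, k ≤ p ∧ tm (j + k) ≠ tm (j + p + k)) ∧
  (∀ j p, 0 < p → ∃ k, k ≤ p ∧ tt (j + k) ≠ tt (j + p + k)) ∧ Bin tt ∧
  (∀ n, ¬ (tt n = tt (n + 1) ∧ tt (n + 1) = tt (n + 2)))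

/-- equal factors of Thue–Morse are at congruent positions -/
def Stmt_TMR : Prop := ∀ m a b, a ≤ b → (∀ k, k < 5 * 2 ^ m → tm (a + k) = tm (b + k)) → 2 ^ (m + 1) ∣ b - a

/-- Thue–Morse factors in an overlap-free word are at congruent positions -/
def Stmt_TMA : Prop := ∀ (m : ℕ) (s : ℕ → ℕ) (lo hi p q A B L : ℕ), Bin s → OFr s lo hi → lo ≤ p → p ≤ q →
  q + L ≤ hi → 16 * 2 ^ m ≤ L → (∀ k, k < L → s (p + k) = tt (A + k)) → (∀ k, k < L → s (q + k) = tt (B + k)) →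
  ((2 ^ m : ℕ) : ℤ) ∣ ((q : ℤ) - p) - ((B : ℤ) - A)

/-- the last digits of `EE i`, `QQ i` -/
def Stmt_EAQ : Prop := ∀ i, ∃ h h' : ℕ, tm h = 1 ∧ tm h' = 0 ∧
  (i % 2 = 0 → EE i = 256 * h + 170 ∧ QQ i = 256 * h' + 168) ∧
  (i % 2 = 1 → EE i = 256 * h + 86 ∧ QQ i = 256 * h' + 84)

/-- the digits of `EE i` -/
def Stmt_EBT : Prop := ∀ i m, 3 ≤ m → m + 8 ≤ 2 * NN i →
  EE i / 2 ^ m % 256 = (if (m + i) % 2 = 0 then 170 else 85) ∧ 2 ≤ EE i % 2 ^ m ∧ EE i % 2 ^ m + 2 ≤ 2 ^ m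

/-- no borders -/
def Stmt_BRD : Prop := ∀ i n, 1 ≤ n → n ≤ EE i → ∃ k, k ≤ n + 1 ∧ tt (EE i - n + k) ≠ tt (QQ i + k)

/-! ## the walker -/

def Stmt_WKA : Prop := ∀ (s : ℕ → ℕ) (A o : ℕ), o < ln (s A) (s (A + 1)) → wk s (HH s A + o) = (A, o)

def Stmt_WKB : Prop := ∀ (s : ℕ → ℕ) (n : ℕ), of' s n < ln (s (ad s n)) (s (ad s n + 1)) ∧
  HH s (ad s n) + of' s n = n

def Stmt_WKH : Prop := ∀ (s : ℕ → ℕ) (A B : ℕ), A ≤ B →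
  HH s A + 126 * (B - A) ≤ HH s B ∧ HH s B ≤ HH s A + 406 * (B - A)

def Stmt_WKM : Prop := ∀ (s : ℕ → ℕ) (n m : ℕ), n ≤ m → ad s n ≤ ad s m ∧
  126 * (ad s m - ad s n) ≤ (m - n) + 405 ∧ m - n ≤ 406 * (ad s m - ad s n) + 405 ∧
  (m ≤ n + 126 → ad s m ≤ ad s n + 1)

def Stmt_WKP : Prop := ∀ (s : ℕ → ℕ), Bin s →
  (∀ n, Ph s n < 828 ∧ off (Ph s n) = of' s n ∧ gau (Ph s n) = s (ad s n) ∧ gau' (Ph s n) = s (ad s n + 1)) ∧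
  ((∀ n, ¬ (s n = s (n + 1) ∧ s (n + 1) = s (n + 2))) → ∀ n, nxt (Ph s n) (Ph s (n + 1)) = true)

def Stmt_WKG : Prop := ∀ (g : ℕ → ℕ) (T : ℕ), PP g 0 T → ∃ (s : ℕ → ℕ) (z : ℕ), Bin s ∧ ∀ n, n ≤ T → Ph s (z + n) = g n

def Stmt_WKS : Prop := ∀ (s s' : ℕ → ℕ) (x y L : ℕ), Bin s → Bin s' → (∀ k, k ≤ L → Ph s (x + k) = Ph s' (y + k)) →
  (∀ k, k ≤ L → ad s (x + k) + ad s' y = ad s' (y + k) + ad s x) ∧
  (∀ j, j ≤ ad s' (y + L) - ad s' y + 1 → s (ad s x + j) = s' (ad s' y + j))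

def Stmt_WKO : Prop := ∀ (s w : ℕ → ℕ) (c z T : ℕ), Bin s → SqF w → (∀ r, r < T → w (c + r) = hw s (z + r)) →
  OFr s (ad s z + 1) (ad s (z + T) + 1)

def Stmt_WKT : Prop := ∀ (s : ℕ → ℕ) (x n : ℕ), Bin s → (∑ k ∈ Finset.range n, wT (hw s (x + k))) =
  18 * ((ad s (x + n) : ℤ) - ad s x) + psiP (Ph s (x + n)) - psiP (Ph s x)

def Stmt_WKC : Prop := ∀ (s : ℕ → ℕ) (l : List ℕ) (A : ℕ), Bin s → (∀ k, k < l.length → l.getD k 0 = s (A + k)) →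
  HH s (A + (l.length - 1)) = HH s A + (bcs l).2 ∧
  ∀ r, r < (bcs l).2 → hw s (HH s A + r) = (bcs l).1 / 4 ^ r % 4

/-- potentials -/
def Stmt_POT : Prop := (∀ s t, s < 828 → t < 828 → nxt s t = true → epsP t = epsP s + wE (lab s) ∧
    (48 : ℤ) ∣ piP t - piP s - wO (lab s) ∧ (if off t = 0 then (18 : ℤ) else 0) + psiP t = psiP s + wT (lab s)) ∧
  (∀ s, s < 828 → lab s < 3 ∧ -64 ≤ epsP s ∧ epsP s ≤ 63 ∧ piP s = (piN s : ℤ) ∧ piN s < 48 ∧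
    (isEnd s = true → lab s = 1) ∧ (PM (piN s)).testBit s = true) ∧
  (epsP 473 = epsP 461 + 1 ∧ epsP 803 = epsP 791 + 1 ∧ (48 : ℤ) ∣ piP 473 - piP 461 - 9 ∧
    (48 : ℤ) ∣ piP 803 - piP 791 - 9 ∧ psiP 461 = psiP 473 + 12 ∧ psiP 791 = psiP 803 + 12) ∧
  (∀ r, r < 3 → lab (461 + r) = lab (473 + r) ∧ lab (791 + r) = lab (803 + r))

/-! ## the word `UU` -/

def Stmt_GRO : Prop := ∀ i, dd i < ee i ∧ (∑ j ∈ Finset.range i, gp j) + ss i = dd i ∧ 2 ^ (2 * NN i + 4) ≤ ss i ∧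
  ss i < 2 ^ (2 * NN i + 9) ∧ 10000 * (ss i + RR i + 10000) + RR (i + 1) ≤ ss (i + 1) ∧ ss i + 4 ≤ 2 ^ ll (i + 1) ∧
  76 ≤ ll i ∧ ll i + 16 ≤ 2 * NN i ∧ RR i + 1000 ≤ ss i ∧ 5000 ≤ RR i

def Stmt_GGF : Prop := (∀ i n, ss i ≤ n → n < ss (i + 1) → jj n = i + 1 ∧ GG n = ee i + (n - ss i)) ∧
  (∀ n, n < ss 0 → jj n = 0 ∧ GG n = n) ∧ (∀ i, ee i + (ss (i + 1) - ss i) = dd (i + 1)) ∧ ss 0 = dd 0 ∧
  (∀ n m, n ≤ m → jj n ≤ jj m) ∧ (∀ n k, jj n ≤ k ↔ n < ss k)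

/-- the two sides of junction `i` -/
def Stmt_DEL : Prop := ∀ i δ, δ ≤ 3 → Ph tt (dd i + δ) = 422 + cL i + δ ∧ Ph tt (ee i + δ) = 422 + cR i + δ ∧
  ad tt (dd i + δ) = EE i ∧ ad tt (ee i + δ) = QQ i ∧ (δ < 3 → hw tt (dd i + δ) = hw tt (ee i + δ)) ∧
  Ph tt (dd i - 1) = 421 + cL i ∧ 0 < dd i

def Stmt_UPH : Prop := (∀ n, ff n < 828 ∧ UU n = lab (ff n) ∧ UU n < 3) ∧
  (∀ n, (∀ i, n + 1 ≠ ss i) → nxt (ff n) (ff (n + 1)) = true) ∧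
  (∀ i, 0 < ss i ∧ ff (ss i - 1) = 421 + cL i ∧ ff (ss i) = 422 + cR i)

def Stmt_WIN : Prop := ∀ i, (∀ k, k < 1000 → UU (ss i - 500 + k) = (if i % 2 = 0 then WINE else WINO) / 4 ^ k % 4) ∧
  ff (ss i + 500) = (if i % 2 = 0 then 19 else 475)

/-! ## bitsets of pairs -/

def Stmt_MSK : Prop := ∀ v x, v < 828 → x < 828 →
  (∀ c, (mem (LV c) v x ↔ lab v = c) ∧ (mem (LW c) v x ↔ lab x = c)) ∧
  (mem NEV v x ↔ isEnd v = false) ∧ (mem NEW v x ↔ isEnd x = false) ∧ (mem COL v x ↔ x = 0) ∧ mem FUL v x ∧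
  (mem DG v x ↔ v = x) ∧
  (∀ a b, a ≤ b → b ≤ 828 → (mem (rowsM a b) v x ↔ a ≤ v ∧ v < b) ∧ (mem (colsM a b) v x ↔ a ≤ x ∧ x < b))

def Stmt_TVW : Prop := ∀ F v x, v < 828 → x < 828 → mem F v x →
  (∀ v', v' < 828 → nxt v v' = true → mem (Tv NEV F) v' x) ∧
  (∀ x', x' < 828 → nxt x x' = true → mem (Tw NEW COL F) v x')

def Stmt_PRS : Prop := ∀ (k F : ℕ) (f g : ℕ → ℕ), PP f 0 k → PP g 0 k → (∀ n, n < k → lab (f n) = lab (g n)) →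
  mem F (f 0) (g 0) → mem (prRun (LV 0 &&& LW 0) (LV 1 &&& LW 1) (LV 2 &&& LW 2) NEV NEW COL k F) (f k) (g k)

/-- two paths of phases reading the same letters -/
def Agr (f g : ℕ → ℕ) (N : ℕ) : Prop := PP f 0 N ∧ PP g 0 N ∧ ∀ n, n < N → lab (f n) = lab (g n)

def Stmt_SYN : Prop := ∀ f g N, Agr f g N → ∀ k, 160 ≤ k → k + 76 ≤ N → f k = g k

def Stmt_BWD : Prop := ∀ f g N, Agr f g N → ∀ k, 58 ≤ k → k + 1 ≤ N → f (k + 1) = g (k + 1) → f k = g k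

def Stmt_DIV : Prop := ∀ f g N, Agr f g N →
  (∀ k l m, k ≤ m → m ≤ l → l ≤ N → f k = g k → f l = g l → f m = g m) ∧
  (∀ k, f k = g k → k + 77 ≤ N → f (k + 1) = g (k + 1))

def InC1 (v : ℕ) : Prop := v < 76 ∨ (170 ≤ v ∧ v < 191) ∨ (296 ≤ v ∧ v < 372) ∨ (422 ≤ v ∧ v < 443)

def Stmt_D12 : Prop := ∀ f g N, Agr f g N →
  (∀ k, f k = g k → k + 76 ≤ N → f (k + 76) = g (k + 76) ∨ InC1 (f (k + 76))) ∧
  (236 ≤ N → (InC1 (g 0) ∨ (473 ≤ g 0 ∧ g 0 < 477) ∨ (803 ≤ g 0 ∧ g 0 < 807)) → f 0 = g 0)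

/-! ## square-freeness -/

def Stmt_SQW : Prop := ∀ (code len P : ℕ) (w : ℕ → ℕ) (c : ℕ), sqC code len P = true →
  (∀ k, k < len → w (c + k) = code / 4 ^ k % 4) → ∀ i p, 0 < p → p ≤ P → i + 2 * p ≤ len →
  ∃ k, k < p ∧ w (c + i + k) ≠ w (c + i + p + k)

def Stmt_XSM : Prop := ∀ a p, 0 < p → p < 240 → ∃ k, k < p ∧ hw tt (a + k) ≠ hw tt (a + p + k)

def Stmt_XLG : Prop := ∀ a p, 240 ≤ p → ∃ k, k < p ∧ hw tt (a + k) ≠ hw tt (a + p + k)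

def Stmt_XJN : Prop := ∀ i δ p, δ ≤ 3 → 240 ≤ p → p ≤ dd i + δ →
  ∃ k, k < p ∧ hw tt (dd i + δ - p + k) ≠ hw tt (ee i + δ + k)

/-- the windows `[ss i - 1, ss i + 54)` and `[ss i - 51, ss i + 4)` cannot be read by a path of phases, not even with
one jump of the other type -/
def Stmt_BAD : Prop := ∀ (i e : ℕ) (g : ℕ → ℕ), (e = 1 ∨ e = 51) →
  (∀ k, k < 55 → g k < 828 ∧ lab (g k) = UU (ss i - e + k)) →
  ((∀ k, k < 54 → nxt (g k) (g (k + 1)) = true) ∨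
    (∃ m, m < 54 ∧ g m = 421 + cL (i + 1) ∧ g (m + 1) = 422 + cR (i + 1) ∧
      ∀ k, k < 54 → k ≠ m → nxt (g k) (g (k + 1)) = true)) → False

def Stmt_JCT : Prop := ∀ a p, 240 ≤ p → (∀ k, k < p → UU (a + k) = UU (a + p + k)) →
  ∀ i, a < ss i → ss i < a + 2 * p → (a + p ≤ ss i + 3 ∧ ss i ≤ a + p) ∨ a + 2 * p ≤ ss i + 3

def Stmt_USQ : Prop := SqF UU

/-! ## the automaton -/

def Stmt_ACR : Prop := ∀ w, SqF w → Ter w → ∀ n, run w n < 850 ∧ rk (run w n) < 511 ∧ go (run w n) (w n) < 850 ∧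
  phi (run w n) + e12 (w n) ≤ phi (run w (n + 1)) + 12 ∧ wl (run w n) ≤ n ∧
  cd w (n - wl (run w n)) (wl (run w n)) = wc (run w n)

def Stmt_CDL : Prop := ∀ w, Ter w → (∀ a m n, cd w a (m + n) = cd w a m * 4 ^ n + cd w (a + m) n) ∧
  (∀ a n, cd w a n < 4 ^ n) ∧ (∀ a n k, k < n → cd w a n / 4 ^ (n - 1 - k) % 4 = w (a + k)) ∧
  (SqF w → ∀ a n p, 0 < p → 2 * p ≤ n → cd w a n % 4 ^ p ≠ cd w a n / 4 ^ p % 4 ^ p)

def Stmt_RNK : Prop := ∀ w a b, SqF w → Ter w → Zl w a b → a + 520 ≤ b →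
  ∃ n, a ≤ n ∧ n ≤ a + 520 ∧ (run w n = 168 ∨ run w n = 592)

def Stmt_CHK : Prop := ∀ w, SqF w → Ter w → ∀ (l0 : ℕ) (goal : ℕ → ℕ → Bool) (fuel s code len : ℕ) (T : CT) (n : ℕ),
  chk l0 goal fuel s code len T = true → run w n = s → len ≤ n → l0 ≤ len → cd w (n - len) len = code →
  Zl w n (n + fuel) →
  ∃ d, d ≤ fuel ∧ run w (n + d) = 168 ∧ l0 < len + d ∧ goal (cd w (n - len) (len + d)) (len + d) = true

def Stmt_HUB : Prop := ∀ w, SqF w → Ter w →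
  (∀ n, run w n = 592 → Zl w n (n + 400) → ∃ d, 0 < d ∧ d ≤ 400 ∧ run w (n + d) = 168) ∧
  (∀ n, run w n = 168 → Zl w n (n + 400) → ∃ r, r < 6 ∧ cd w n (rl r) = rc r ∧ run w (n + rl r) = 168)

def Stmt_HSQ : Prop := ∀ w a b, SqF w → Ter w → Zl w a b → a + 1200 ≤ b → ∃ (J : ℕ) (t r : ℕ → ℕ), a ≤ t 0 ∧
  t 0 ≤ a + 920 ∧ (∀ j, j ≤ J → run w (t j) = 168 ∧ t j ≤ b) ∧
  (∀ j, j < J → r j < 6 ∧ cd w (t j) (rl (r j)) = rc (r j) ∧ t (j + 1) = t j + rl (r j)) ∧ b < t J + 400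

def Stmt_FRS : Prop := ∀ w t, SqF w → Ter w → run w t = 168 → ∀ x ∈ FR, ¬ rdR w t x.1

def Stmt_LTC : Prop := ∀ r : ℕ → ℕ, (∀ j, j < 10 → r j < 6) →
  (∀ x ∈ FR, ∀ j, j + x.1.length ≤ 10 → ¬ (∀ k, k < x.1.length → r (j + k) = x.1.getD k 0)) → cons (r 4) (r 5) = true

/-- phases along the returns 0..4 -/
def rp (r k : ℕ) : ℕ := match r with
  | 0 => 620 + k
  | 1 => if k < 38 then 790 + k else k - 38
  | 2 => if k < 5 then 165 + k else 422 + (k - 5)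
  | 3 => if k < 38 then 790 + k else if k < 164 then 296 + (k - 38) else k - 164
  | _ => if k < 5 then 165 + k else if k < 131 then 170 + (k - 5) else 422 + (k - 131)

def Stmt_RPH : Prop := ∀ r, r < 5 → (∀ k, k < rl r → lab (rp r k) = rc r / 4 ^ (rl r - 1 - k) % 4 ∧
    nxt (rp r k) (rp r (k + 1)) = true) ∧ (∀ k, k ≤ rl r → rp r k < 828) ∧
  (∀ r', cons r r' = true → rp r (rl r) = rp r' 0) ∧ 170 ≤ rl r ∧ rl r ≤ 362

/-- square-free words without loss are read by paths of phases -/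
def Stmt_PTH : Prop := ∀ w a b, SqF w → Ter w → Zl w a b → a + 6000 ≤ b →
  ∃ g : ℕ → ℕ, PP g (a + 3000) (b - 3000) ∧ ∀ n, a + 3000 ≤ n → n < b - 3000 → lab (g n) = w n

/-! ## shuffles -/

def Stmt_SHB : Prop := ∀ β : ℕ → Bool, cF β 0 = 0 ∧ cT β 0 = 0 ∧
  (∀ n, β n = false → cF β (n + 1) = cF β n + 1 ∧ cT β (n + 1) = cT β n) ∧
  (∀ n, β n = true → cF β (n + 1) = cF β n ∧ cT β (n + 1) = cT β n + 1) ∧
  (∀ n, cF β n + cT β n = n) ∧ (∀ n m, n ≤ m → cF β n ≤ cF β m ∧ cT β n ≤ cT β m) ∧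
  (∀ w, Shf w β → ∀ (ρ : ℕ → ℤ) n, SS ρ UU n = SS ρ UU (cF β n) + SS ρ w (cT β n))

/-- among any `(K+1) * (cT n + K + 1)` letters there are more than `K` letters of the second word -/
def Stmt_VRC : Prop := ∀ w β, Shf w β → ∀ n T K, 0 < cT β n → (K + 1) * (cT β n + K + 1) ≤ T →
  cT β n + K < cT β (n + T)

def Stmt_PGN : Prop := ∀ (β : ℕ → Bool) (S Q n : ℕ), cF β (n + S * Q) < cF β n + S →
  ∃ k, k < S ∧ (∀ m, n + k * Q ≤ m → m < n + (k + 1) * Q → β m = true)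

/-- the sums of weights of `UU` -/
def Stmt_SSU : Prop := ∀ n, (48 : ℤ) ∣ SS wO UU n - (piP (ff n) - piP (ff 0) - 9 * jj n) ∧
  SS wE UU n = epsP (ff n) - epsP (ff 0) - jj n

def Stmt_ENG : Prop := ∀ w β, Shf w β → ∀ n,
  |((phi (run w (cT β n)) : ℤ) - SS wE w (cT β n)) - ((jj n : ℤ) - jj (cF β n))| ≤ 400

def Stmt_SHR : Prop := ∀ (K code F0 F1 p q : ℕ) (fin : ℕ → ℕ → Bool) (β : ℕ → Bool) (v x fl : ℕ → ℕ),
  p < 828 → q < 828 →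
  shRun p q (LV 0) (LV 1) (LV 2) (LW 0) (LW 1) (LW 2) NEV NEW COL fin K code F0 F1 = true →
  (∀ k, k ≤ K → v k < 828 ∧ x k < 828) →
  (∀ k, k < K → (β k = false → x (k + 1) = x k ∧ lab (v k) = code / 4 ^ k % 4 ∧
      ((fl (k + 1) = fl k ∧ nxt (v k) (v (k + 1)) = true) ∨
        (fl k = 0 ∧ fl (k + 1) = 1 ∧ v k = p ∧ v (k + 1) = q))) ∧
    (β k = true → v (k + 1) = v k ∧ fl (k + 1) = fl k ∧ lab (x k) = code / 4 ^ k % 4 ∧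
      nxt (x k) (x (k + 1)) = true)) →
  (fl 0 = 0 → mem F0 (v 0) (x 0)) → (fl 0 ≠ 0 → mem F1 (v 0) (x 0)) →
  ∃ G0 G1, fin G0 G1 = true ∧ (fl K = 0 → mem G0 (v K) (x K)) ∧ (fl K ≠ 0 → mem G1 (v K) (x K))

def Stmt_FIN : Prop := ∀ am c F v x, v < 828 → x < 828 → finB am c F = true → mem F v x →
  Nat.testBit am ((c + 96 - piN v - piN x) % 48) = true

/-- the window of junction `i` -/
def Stmt_WDW : Prop := ∀ (w : ℕ → ℕ) (β : ℕ → Bool) (g : ℕ → ℕ) (i : ℕ), Shf w β → 2 ≤ i →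
  ss (i - 2) ≤ cF β (ss i - 500) → cF β (ss i + 500) < ss i →
  PP g (cT β (ss i - 500)) (cT β (ss i + 500)) →
  (∀ n, cT β (ss i - 500) ≤ n → n < cT β (ss i + 500) → lab (g n) = w n) →
  Nat.testBit (AMi i) ((gam w g (cT β (ss i + 500))) % 48).toNat = true

def Stmt_GAM : Prop := ∀ (w g : ℕ → ℕ) (a b : ℕ), PP g a b → (∀ n, a ≤ n → n < b → lab (g n) = w n) →
  ∀ m, a ≤ m → m ≤ b → (48 : ℤ) ∣ gam w g m - gam w g a

/-- segments without letters of the first word -/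
def Stmt_LA2 : Prop := ∀ (w : ℕ → ℕ) (β : ℕ → Bool) (g : ℕ → ℕ) (n Q : ℕ), Shf w β →
  (∀ m, n ≤ m → m < n + Q → β m = true) → (∀ i, ¬ (n < ss i ∧ ss i ≤ n + Q)) →
  PP g (cT β n) (cT β n + Q) → (∀ m, cT β n ≤ m → m < cT β n + Q → lab (g m) = w m) →
  (∀ k, k ≤ Q → cT β (n + k) = cT β n + k ∧ cF β (n + k) = cF β n) ∧
  (∀ k, 160 ≤ k → k + 76 ≤ Q → ff (n + k) = g (cT β n + k))

/-- two Thue–Morse segments in a path of phases of a square-free word -/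
def Stmt_LA3 : Prop := ∀ (w g : ℕ → ℕ) (c d x1 y1 x2 y2 L l : ℕ), SqF w → PP g c d →
  (∀ n, c ≤ n → n < d → lab (g n) = w n) → c + 406 ≤ x1 → x1 ≤ x2 → x2 + L ≤ d →
  406 * (16 * 2 ^ (l + 1) + 4) ≤ L →
  (∀ k, k ≤ L → g (x1 + k) = Ph tt (y1 + k)) → (∀ k, k ≤ L → g (x2 + k) = Ph tt (y2 + k)) →
  ∃ D : ℤ, SS wT w x2 - SS wT w x1 = 18 * D + psiP (g x2) - psiP (g x1) ∧
    ((2 ^ (l + 1) : ℕ) : ℤ) ∣ D - ((ad tt y2 : ℤ) - ad tt y1)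

/-- the sum of `wT` across a junction -/
def Stmt_LA4 : Prop := ∀ i m n, ss i ≤ n → n < ss (i + 1) → m < ss i → (0 < i → ss (i - 1) ≤ m) →
  SS wT UU n - SS wT UU m = 18 * (((EE i : ℤ) - ad tt (GG m)) + ((ad tt (GG n) : ℤ) - QQ i)) +
    psiP (ff n) - psiP (ff m) + 12

/-- Lemma A -/
def Stmt_LMA : Prop := ∀ (w : ℕ → ℕ) (β : ℕ → Bool) (i : ℕ), SqF w → Ter w → Shf w β → 1 ≤ i →
  cF β (ss i + RR i) < ss (i - 1) → Zl w (cT β (ss i - RR i)) (cT β (ss i + RR i)) → False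

/-- Lemma B -/
def Stmt_LMB : Prop := ∀ (w : ℕ → ℕ) (β : ℕ → Bool) (i : ℕ), SqF w → Ter w → Shf w β → 3 ≤ i →
  1000 ≤ cT β (ss (i - 1) - RR (i - 1)) →
  Zl w (cT β (ss (i - 1) - RR (i - 1))) (cT β (ss (i + 2) - RR (i + 2))) → False

/-- there is no shuffle -/
def Stmt_END : Prop := ∀ (w : ℕ → ℕ) (β : ℕ → Bool), SqF w → Ter w → Shf w β →
  Set.Infinite {i : ℕ | β i = false} → Set.Infinite {i : ℕ | β i = true} → False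

end Pool.Agent.SSH
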