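import Pool.Agent.SSH.Stmts

set_option autoImplicit false

namespace Pool.Agent.SSH

namespace WDW_

/-- the last arithmetic step -/
theorem fin_arith (c a b : ℕ) (γ : ℤ) (ha : a < 48) (hb : b < 48)
    (h : (48 : ℤ) ∣ γ - ((c : ℤ) - a - b)) : (γ % 48).toNat = (c + 96 - a - b) % 48 := by
  obtain ⟨t, ht⟩ := h
  omega

theorem ss_mono (hG : Stmt_GRO) : StrictMono ss := by
  apply strictMono_nat_of_lt_succ
  intro n
  obtain ⟨_, _, _, _, h, _⟩ := hG n
  omega

end WDW_

open WDW_ in
theorem wdw_proof (hSHB : Stmt_SHB) (hSHR : Stmt_SHR) (hFIN : Stmt_FIN) (hKW2 : Stmt_KW2) (hKW3 : Stmt_KW3)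
    (hPOT : Stmt_POT) (hUPH : Stmt_UPH) (hGRO : Stmt_GRO) (hGGF : Stmt_GGF) (hWIN : Stmt_WIN)
    (hMSK : Stmt_MSK) (hSSU : Stmt_SSU) : Stmt_WDW := by
  intro w β g i hShf hi h1 h2 hPP hlab
  obtain ⟨hF0, hT0, hbf, hbt, hsum, hmono, hSS⟩ := hSHB β
  have hmon := ss_mono hGRO
  obtain ⟨hPOT1, hPOT2, _, _⟩ := hPOT
  obtain ⟨hU1, hU2, hU3⟩ := hUPH
  obtain ⟨hG1, hG2, hG3, hG4, hG5, hG6⟩ := hGGF
  obtain ⟨hW1, hW2⟩ := hWIN i
  have hss : 1000 + 5000 ≤ ss i := by
    obtain ⟨_, _, _, _, _, _, _, _, h3, h4⟩ := hGRO i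
    omega
  have hn1 : ss i + 500 = ss i - 500 + 1000 := by omega
  have hi1 : ss (i - 2) < ss (i - 1) := hmon (by omega)
  have hi2 : ss (i - 1) < ss i := hmon (by omega)
  -- general run
  have key : ∀ (p q code am c0 c1 : ℕ), p < 828 → q < 828 → p = 421 + cL (i - 1) → q = 422 + cR (i - 1) →
      (∀ k, k < 1000 → UU (ss i - 500 + k) = code / 4 ^ k % 4) →
      shRun p q (LV 0) (LV 1) (LV 2) (LW 0) (LW 1) (LW 2) NEV NEW COL
        (fun F0 F1 => finB am c0 F0 && finB am c1 F1) 1000 code FUL FUL = true →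
      (¬ (ss (i - 1) ≤ cF β (ss i + 500)) →
        Nat.testBit am ((c0 + 96 - piN (ff (cF β (ss i + 500))) - piN (g (cT β (ss i + 500)))) % 48) = true) ∧
      (ss (i - 1) ≤ cF β (ss i + 500) →
        Nat.testBit am ((c1 + 96 - piN (ff (cF β (ss i + 500))) - piN (g (cT β (ss i + 500)))) % 48) = true) := by
    intro p q code am c0 c1 hp hq hpe hqe hcode hrun
    have hvx : ∀ k, k ≤ 1000 → ff (cF β (ss i - 500 + k)) < 828 ∧ g (cT β (ss i - 500 + k)) < 828 := by
      intro k hk
      refine ⟨(hU1 _).1, hPP.1 _ (hmono _ _ (by omega)).2 ?_⟩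
      rw [hn1]; exact (hmono _ _ (by omega)).2
    have := hSHR 1000 code FUL FUL p q (fun F0 F1 => finB am c0 F0 && finB am c1 F1)
      (fun k => β (ss i - 500 + k)) (fun k => ff (cF β (ss i - 500 + k))) (fun k => g (cT β (ss i - 500 + k)))
      (fun k => if ss (i - 1) ≤ cF β (ss i - 500 + k) then 1 else 0) hp hq hrun hvx ?_ ?_ ?_
    · obtain ⟨G0, G1, hG, hm0, hm1⟩ := this
      simp only [Bool.and_eq_true] at hG
      rw [← hn1] at hm0 hm1
      have hb := hvx 1000 le_rfl
      rw [← hn1] at hb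
      constructor
      · intro hc
        apply hFIN am c0 G0 _ _ hb.1 hb.2 hG.1
        apply hm0
        simp [hc]
      · intro hc
        apply hFIN am c1 G1 _ _ hb.1 hb.2 hG.2
        apply hm1
        simp [hc]
    · intro k hk
      have hUk : UU (ss i - 500 + k) = code / 4 ^ k % 4 := hcode k hk
      have hs := hShf (ss i - 500 + k)
      constructor
      · intro hβ
        obtain ⟨e1, e2⟩ := hbf _ hβ
        have e1' : cF β (ss i - 500 + (k + 1)) = cF β (ss i - 500 + k) + 1 := by rw [← add_assoc]; exact e1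
        have e2' : cT β (ss i - 500 + (k + 1)) = cT β (ss i - 500 + k) := by rw [← add_assoc]; exact e2
        have hlo : ss (i - 2) ≤ cF β (ss i - 500 + k) := le_trans h1 (hmono _ _ (by omega)).1
        have hhi : cF β (ss i - 500 + k) + 1 < ss i := by
          rw [← e1']
          refine lt_of_le_of_lt ?_ h2
          rw [hn1]
          exact (hmono _ _ (by omega)).1
        refine ⟨by simp only [e2'], ?_, ?_⟩
        · rw [if_pos hβ] at hs
          rw [← hUk, hs, (hU1 _).2.1]
        · simp only [e1']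
          by_cases hc : cF β (ss i - 500 + k) + 1 = ss (i - 1)
          · right
            refine ⟨?_, ?_, ?_, ?_⟩
            · rw [if_neg (by omega)]
            · rw [if_pos (by omega)]
            · rw [show cF β (ss i - 500 + k) = ss (i - 1) - 1 by omega, (hU3 _).2.1, hpe]
            · rw [hc, (hU3 _).2.2, hqe]
          · left
            refine ⟨?_, ?_⟩
            · by_cases hd : ss (i - 1) ≤ cF β (ss i - 500 + k)
              · rw [if_pos hd, if_pos (by omega)]
              · rw [if_neg hd, if_neg (by omega)]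
            · apply hU2
              intro j hj
              have hj1 : i - 2 < j := by
                rw [← hmon.lt_iff_lt]; omega
              have hj2 : j < i := by
                rw [← hmon.lt_iff_lt]; omega
              have : j = i - 1 := by omega
              rw [this] at hj
              exact hc hj
      · intro hβ
        obtain ⟨e1, e2⟩ := hbt _ hβ
        have e1' : cF β (ss i - 500 + (k + 1)) = cF β (ss i - 500 + k) := by rw [← add_assoc]; exact e1
        have e2' : cT β (ss i - 500 + (k + 1)) = cT β (ss i - 500 + k) + 1 := by rw [← add_assoc]; exact e2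
        have hlo : cT β (ss i - 500) ≤ cT β (ss i - 500 + k) := (hmono _ _ (by omega)).2
        have hhi : cT β (ss i - 500 + k) < cT β (ss i + 500) := by
          have : cT β (ss i - 500 + (k + 1)) ≤ cT β (ss i + 500) := by
            rw [hn1]; exact (hmono _ _ (by omega)).2
          omega
        refine ⟨by simp only [e1'], by simp only [e1'], ?_, ?_⟩
        · rw [if_neg (by simp [hβ])] at hs
          rw [← hUk, hs, hlab _ hlo hhi]
        · simp only [e2']
          exact hPP.2 _ hlo hhi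
    · intro _
      exact (hMSK _ _ (hvx 0 (by omega)).1 (hvx 0 (by omega)).2).2.2.2.2.1
    · intro _
      exact (hMSK _ _ (hvx 0 (by omega)).1 (hvx 0 (by omega)).2).2.2.2.2.1
  -- the invariant
  have hcF1 : ss (i - 2) ≤ cF β (ss i + 500) := le_trans h1 (hmono _ _ (by omega)).1
  have hjn : jj (ss i + 500) = i + 1 := by
    apply (hG1 i _ (by omega) ?_).1
    obtain ⟨_, _, _, _, h, _⟩ := hGRO i
    omega
  have hvb := (hU1 (cF β (ss i + 500))).1
  have hxb : g (cT β (ss i + 500)) < 828 := hPP.1 _ (hmono _ _ (by omega)).2 le_rfl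
  obtain ⟨_, _, _, hpv, hpv48, _⟩ := hPOT2 _ hvb
  obtain ⟨_, _, _, hpx, hpx48, _⟩ := hPOT2 _ hxb
  obtain ⟨t1, ht1⟩ := (hSSU (ss i + 500)).1
  obtain ⟨t2, ht2⟩ := (hSSU (cF β (ss i + 500))).1
  have hsp := hSS w hShf wO (ss i + 500)
  have hgam : gam w g (cT β (ss i + 500)) = SS wO UU (ss i + 500) - SS wO UU (cF β (ss i + 500))
      - piP (g (cT β (ss i + 500))) := by
    unfold gam; rw [hsp]; ring
  have hff : ff (ss i + 500) < 828 := (hU1 _).1
  obtain ⟨_, _, _, hpe, hpe48, _⟩ := hPOT2 _ hff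
  have hdiv0 : ¬ (ss (i - 1) ≤ cF β (ss i + 500)) → (48 : ℤ) ∣ gam w g (cT β (ss i + 500)) -
      (((piN (ff (ss i + 500)) + 30 : ℕ) : ℤ) - piN (ff (cF β (ss i + 500))) - piN (g (cT β (ss i + 500)))) := by
    intro hc
    have hjc : jj (cF β (ss i + 500)) = i - 2 + 1 :=
      (hG1 (i - 2) _ hcF1 (by rw [show i - 2 + 1 = i - 1 by omega]; omega)).1
    rw [hjc] at ht2
    rw [hjn] at ht1
    rw [hgam]
    refine ⟨t1 - t2 - 1, ?_⟩
    have hcast : ((i - 2 + 1 : ℕ) : ℤ) = i - 1 := by omega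
    rw [hcast] at ht2
    push_cast at ht1 ht2 ⊢
    rw [hpe] at ht1
    rw [hpv] at ht2
    rw [hpx]
    linarith
  have hdiv1 : ss (i - 1) ≤ cF β (ss i + 500) → (48 : ℤ) ∣ gam w g (cT β (ss i + 500)) -
      (((piN (ff (ss i + 500)) + 39 : ℕ) : ℤ) - piN (ff (cF β (ss i + 500))) - piN (g (cT β (ss i + 500)))) := by
    intro hc
    have hjc : jj (cF β (ss i + 500)) = i - 1 + 1 :=
      (hG1 (i - 1) _ hc (by rw [show i - 1 + 1 = i by omega]; omega)).1
    rw [hjc] at ht2
    rw [hjn] at ht1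
    rw [hgam]
    refine ⟨t1 - t2 - 1, ?_⟩
    have hcast : ((i - 1 + 1 : ℕ) : ℤ) = i := by omega
    rw [hcast] at ht2
    push_cast at ht1 ht2 ⊢
    rw [hpe] at ht1
    rw [hpv] at ht2
    rw [hpx]
    linarith
  rcases Nat.mod_two_eq_zero_or_one i with hpar | hpar
  · -- even
    have hpar1 : ¬ ((i - 1) % 2 = 0) := by omega
    have hr := hKW2
    unfold Stmt_KW2 withM at hr
    simp only [force_eq] at hr
    have hk := key 790 803 WINE AM2 (piN 19 + 30) (piN 19 + 39) (by norm_num) (by norm_num)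
      (by unfold cL; rw [if_neg hpar1]) (by unfold cR cL; rw [if_neg hpar1])
      (by intro k hk; rw [hW1 k hk, if_pos hpar]) hr
    have hf : ff (ss i + 500) = 19 := by rw [hW2, if_pos hpar]
    rw [hf] at hdiv0 hdiv1
    unfold AMi
    rw [if_pos hpar]
    by_cases hc : ss (i - 1) ≤ cF β (ss i + 500)
    · rw [fin_arith _ _ _ _ hpv48 hpx48 (hdiv1 hc)]
      exact hk.2 hc
    · rw [fin_arith _ _ _ _ hpv48 hpx48 (hdiv0 hc)]
      exact hk.1 hc
  · -- odd
    have hpar0 : ¬ (i % 2 = 0) := by omega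
    have hpar1 : (i - 1) % 2 = 0 := by omega
    have hr := hKW3
    unfold Stmt_KW3 withM at hr
    simp only [force_eq] at hr
    have hk := key 460 473 WINO AM3 (piN 475 + 30) (piN 475 + 39) (by norm_num) (by norm_num)
      (by unfold cL; rw [if_pos hpar1]) (by unfold cR cL; rw [if_pos hpar1])
      (by intro k hk; rw [hW1 k hk, if_neg hpar0]) hr
    have hf : ff (ss i + 500) = 475 := by rw [hW2, if_neg hpar0]
    rw [hf] at hdiv0 hdiv1
    unfold AMi
    rw [if_neg hpar0]
    by_cases hc : ss (i - 1) ≤ cF β (ss i + 500)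
    · rw [fin_arith _ _ _ _ hpv48 hpx48 (hdiv1 hc)]
      exact hk.2 hc
    · rw [fin_arith _ _ _ _ hpv48 hpx48 (hdiv0 hc)]
      exact hk.1 hc

end Pool.Agent.SSH
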